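import Pool.Statements.S04016
-- import your own Pool.Agent.* helpers here

set_option autoImplicit false
open Pool Pool.MP_1fc4c0_an

namespace Pool.Agent.S04016

noncomputable section

def shearEquiv : ℤ × ℤ ≃ ℤ × ℤ where
  toFun x := (x.2, x.1 - x.2)
  invFun y := (y.1 + y.2, y.1)
  left_inv x := by ext <;> simp
  right_inv y := by ext <;> simp

/-- convolution -/
def conv (p f : ℤ → ℝ) : ℤ → ℝ := fun m : ℤ => ∑' j : ℤ, f j * p (m - j)

/-- unit mass at zero -/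
def delta0 : ℤ → ℝ := fun m : ℤ => if m = 0 then (1 : ℝ) else 0

/-- character -/
def ch (θ : ℝ) (m : ℤ) : ℂ := Complex.exp (Complex.I * (θ : ℂ) * (m : ℂ))

lemma ch_norm (θ : ℝ) (m : ℤ) : ‖ch θ m‖ = 1 := by
  unfold ch
  have : Complex.I * (θ : ℂ) * (m : ℂ) = ((θ * m : ℝ) : ℂ) * Complex.I := by
    push_cast; ring
  rw [this, Complex.norm_exp_ofReal_mul_I]

lemma ch_add (θ : ℝ) (m n : ℤ) : ch θ (m + n) = ch θ m * ch θ n := by
  unfold ch
  rw [← Complex.exp_add]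
  congr 1
  push_cast; ring

lemma ch_zero (θ : ℝ) : ch θ 0 = 1 := by simp [ch]

lemma shear_summable {E : Type*} [NormedAddCommGroup E] (g : ℤ × ℤ → E) (h : Summable g) :
    Summable (fun x : ℤ × ℤ => g (x.2, x.1 - x.2)) :=
  (Equiv.summable_iff shearEquiv).mpr h

lemma shear_hasSum {E : Type*} [NormedAddCommGroup E] (g : ℤ × ℤ → E) (A : E) (h : HasSum g A) :
    HasSum (fun x : ℤ × ℤ => g (x.2, x.1 - x.2)) A :=
  (Equiv.hasSum_iff shearEquiv).mpr h

lemma conv_aux (p f : ℤ → ℝ) (hp : ∀ m, 0 ≤ p m) (hps : Summable p)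
    (hf : ∀ m, 0 ≤ f m) (hfs : Summable f) :
    Summable (fun x : ℤ × ℤ => f x.2 * p (x.1 - x.2)) := by
  have hprod : Summable (fun x : ℤ × ℤ => f x.1 * p x.2) :=
    hfs.mul_of_nonneg hps hf hp
  exact shear_summable _ hprod

lemma conv_nonneg (p f : ℤ → ℝ) (hp : ∀ m, 0 ≤ p m) (hf : ∀ m, 0 ≤ f m) (m : ℤ) :
    0 ≤ conv p f m := tsum_nonneg (fun j => mul_nonneg (hf j) (hp _))

lemma conv_summable (p f : ℤ → ℝ) (hp : ∀ m, 0 ≤ p m) (hps : Summable p)
    (hf : ∀ m, 0 ≤ f m) (hfs : Summable f) : Summable (conv p f) :=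
  (conv_aux p f hp hps hf hfs).prod


lemma mul_shear (u v : ℤ → ℂ) (A B : ℂ) (hu : Summable fun m => ‖u m‖) (hv : Summable fun m => ‖v m‖)
    (hA : HasSum u A) (hB : HasSum v B) :
    HasSum (fun m : ℤ => ∑' j : ℤ, u j * v (m - j)) (A * B) := by
  have hs : Summable (fun x : ℤ × ℤ => u x.1 * v x.2) := summable_mul_of_summable_norm hu hv
  have h1 : HasSum (fun x : ℤ × ℤ => u x.1 * v x.2) (A * B) := hA.mul hB hs
  have h2 : HasSum (fun x : ℤ × ℤ => u x.2 * v (x.1 - x.2)) (A * B) := shear_hasSum _ _ h1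
  have h3 : Summable (fun x : ℤ × ℤ => u x.2 * v (x.1 - x.2)) := h2.summable
  exact h2.prod_fiberwise (fun m => (h3.prod_factor m).hasSum)

lemma conv_fourier (p f : ℤ → ℝ) (hp : ∀ m, 0 ≤ p m) (hps : Summable p)
    (hf : ∀ m, 0 ≤ f m) (hfs : Summable f) (θ : ℝ) (A B : ℂ)
    (hA : HasSum (fun m : ℤ => (f m : ℂ) * ch θ m) A)
    (hB : HasSum (fun m : ℤ => (p m : ℂ) * ch θ m) B) :
    HasSum (fun m : ℤ => (conv p f m : ℂ) * ch θ m) (A * B) := by
  have hAn : Summable (fun m : ℤ => ‖(f m : ℂ) * ch θ m‖) := by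
    refine hfs.congr (fun m => ?_)
    rw [norm_mul, ch_norm, mul_one, Complex.norm_real, Real.norm_of_nonneg (hf m)]
  have hBn : Summable (fun m : ℤ => ‖(p m : ℂ) * ch θ m‖) := by
    refine hps.congr (fun m => ?_)
    rw [norm_mul, ch_norm, mul_one, Complex.norm_real, Real.norm_of_nonneg (hp m)]
  have h1 := mul_shear _ _ A B hAn hBn hA hB
  have h2 : (fun m : ℤ => (conv p f m : ℂ) * ch θ m) = 
    (fun m : ℤ => ∑' j : ℤ, ((f j : ℂ) * ch θ j) * ((p (m - j) : ℂ) * ch θ (m - j))) := by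
    funext m
    unfold conv
    rw [Complex.ofReal_tsum, ← tsum_mul_right]
    refine tsum_congr (fun j => ?_)
    have h5 : ch θ m = ch θ j * ch θ (m - j) := by
      rw [← ch_add]; congr 1; ring
    rw [h5]; push_cast; ring
  rw [h2]
  exact h1


/-- convolution powers -/
def pw (p : ℤ → ℝ) (n : ℕ) : ℤ → ℝ := (conv p)^[n] delta0

lemma pw_succ (p : ℤ → ℝ) (n : ℕ) : pw p (n + 1) = conv p (pw p n) := by
  unfold pw
  rw [Function.iterate_succ_apply']

lemma delta0_hasSum (g : ℤ → ℂ) : HasSum (fun m : ℤ => (delta0 m : ℂ) * g m) (g 0) := by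
  have := hasSum_single (f := fun m : ℤ => (delta0 m : ℂ) * g m) 0 (by
    intro b hb
    simp [delta0, hb])
  simpa [delta0] using this

lemma pw_facts (p : ℤ → ℝ) (hp : ∀ m, 0 ≤ p m) (hps : Summable p) (n : ℕ) :
    (∀ m, 0 ≤ pw p n m) ∧ Summable (pw p n) ∧ (∀ (θ : ℝ) (B : ℂ),
      HasSum (fun m : ℤ => (p m : ℂ) * ch θ m) B →
      HasSum (fun m : ℤ => (pw p n m : ℂ) * ch θ m) (B ^ n)) := by
  induction n with
  | zero =>
    refine ⟨?_, ?_, ?_⟩
    · intro m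
      simp only [pw, Function.iterate_zero, id, delta0]
      split_ifs <;> norm_num
    · refine summable_of_ne_finset_zero (s := {0}) ?_
      intro b hb
      have : b ≠ 0 := by simpa using hb
      simp [pw, delta0, this]
    · intro θ B _
      have := delta0_hasSum (ch θ)
      rw [ch_zero] at this
      simpa [pw] using this
  | succ n ih =>
    obtain ⟨h1, h2, h3⟩ := ih
    rw [pw_succ]
    refine ⟨conv_nonneg _ _ hp h1, conv_summable _ _ hp hps h1 h2, ?_⟩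
    intro θ B hB
    rw [pow_succ]
    exact conv_fourier p (pw p n) hp hps h1 h2 θ (B ^ n) B (h3 θ B hB) hB

/-- total variation distance between consecutive powers -/
def T (p : ℤ → ℝ) (n : ℕ) : ℝ := ∑' k : ℤ, |pw p n k - pw p (n + 1) k|

lemma sum_abs_summable (p : ℤ → ℝ) (hp : ∀ m, 0 ≤ p m) (hps : Summable p) (n : ℕ) :
    Summable (fun k : ℤ => |pw p n k - pw p (n + 1) k|) := by
  have h1 := (pw_facts p hp hps n).2.1
  have h2 := (pw_facts p hp hps (n + 1)).2.1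
  exact (h1.sub h2).abs

lemma T_nonneg (p : ℤ → ℝ) (n : ℕ) : 0 ≤ T p n := tsum_nonneg (fun _ => abs_nonneg _)

lemma pw_sum (p : ℤ → ℝ) (hp : ∀ m, 0 ≤ p m) (hps : Summable p) (h1 : ∑' m, p m = 1) (n : ℕ) :
    HasSum (pw p n) 1 := by
  have h2 : HasSum p 1 := h1 ▸ hps.hasSum
  have h3 : HasSum (fun m : ℤ => (p m : ℂ) * ch 0 m) ((1 : ℝ) : ℂ) := by
    have := Complex.hasSum_ofReal.mpr h2
    simpa [ch] using this
  have h4 := (pw_facts p hp hps n).2.2 0 _ h3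
  have h5 : HasSum (fun m : ℤ => ((pw p n m : ℝ) : ℂ)) ((1 : ℝ) : ℂ) := by
    simpa [ch] using h4
  exact Complex.hasSum_ofReal.mp h5

lemma T_bound (p : ℤ → ℝ) (hp : ∀ m, 0 ≤ p m) (hps : Summable p) (h1 : ∑' m, p m = 1)
    (C : ℝ) (hC : ∀ n : ℕ, (n : ℝ) * T p n ≤ C) (n : ℕ) : T p n ≤ (2 * C + 2) / (n + 1) := by
  have hC0 : 0 ≤ C := by simpa using hC 0
  rcases Nat.eq_zero_or_pos n with h | h
  · subst h
    have h2 : T p 0 ≤ 2 := by
      unfold T
      have hs0 := pw_sum p hp hps h1 0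
      have hs1 := pw_sum p hp hps h1 1
      have hadd := hs0.add hs1
      have hle : ∀ k, |pw p 0 k - pw p (0 + 1) k| ≤ pw p 0 k + pw p 1 k := by
        intro k
        have ha := (pw_facts p hp hps 0).1 k
        have hb := (pw_facts p hp hps 1).1 k
        rw [zero_add]
        rw [abs_le]
        constructor <;> linarith
      have := (sum_abs_summable p hp hps 0).tsum_le_tsum hle hadd.summable
      rw [hadd.tsum_eq] at this
      linarith
    simp only [Nat.cast_zero, zero_add, div_one]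
    linarith
  · have hn : (1 : ℝ) ≤ n := by exact_mod_cast h
    rw [le_div_iff₀ (by positivity)]
    have hT := T_nonneg p n
    have := hC n
    nlinarith

/-- duality bound -/
lemma duality (p : ℤ → ℝ) (hp : ∀ m, 0 ≤ p m) (hps : Summable p) {ι : Type*} (S : Finset ι)
    (b : ι → ℂ) (θ : ι → ℝ) (μ : ι → ℂ)
    (hμ : ∀ i ∈ S, HasSum (fun m : ℤ => (p m : ℂ) * ch (θ i) m) (μ i)) (M : ℝ)
    (hM : ∀ m : ℤ, ‖∑ i ∈ S, b i * ch (θ i) m‖ ≤ M) (n : ℕ) :
    ‖∑ i ∈ S, b i * (μ i ^ n - μ i ^ (n + 1))‖ ≤ M * T p n := by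
  have h0 : HasSum (fun m : ℤ => ∑ i ∈ S, b i * ((pw p n m : ℂ) * ch (θ i) m - (pw p (n + 1) m : ℂ) * ch (θ i) m))
      (∑ i ∈ S, b i * (μ i ^ n - μ i ^ (n + 1))) := by
    refine hasSum_sum (fun i hi => ?_)
    refine HasSum.mul_left _ ?_
    exact ((pw_facts p hp hps n).2.2 _ _ (hμ i hi)).sub ((pw_facts p hp hps (n + 1)).2.2 _ _ (hμ i hi))
  have h1 : HasSum (fun m : ℤ => M * |pw p n m - pw p (n + 1) m|) (M * T p n) :=
    (sum_abs_summable p hp hps n).hasSum.mul_left M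
  rw [← h0.tsum_eq]
  refine tsum_of_norm_bounded h1 (fun m => ?_)
  have h2 : ∑ i ∈ S, b i * ((pw p n m : ℂ) * ch (θ i) m - (pw p (n + 1) m : ℂ) * ch (θ i) m)
      = ((pw p n m - pw p (n + 1) m : ℝ) : ℂ) * ∑ i ∈ S, b i * ch (θ i) m := by
    rw [Finset.mul_sum]
    refine Finset.sum_congr rfl (fun i _ => ?_)
    push_cast; ring
  rw [h2, norm_mul, Complex.norm_real, Real.norm_eq_abs, mul_comm]
  exact mul_le_mul_of_nonneg_right (hM m) (abs_nonneg _)

/-- Poissonization -/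
lemma poisson {ι : Type*} (S : Finset ι) (b : ι → ℂ) (m : ι → ℝ) (C : ℝ)
    (h : ∀ n : ℕ, ‖∑ i ∈ S, b i * ((m i : ℂ) ^ n - (m i : ℂ) ^ (n + 1))‖ ≤ C / (n + 1))
    (t : ℝ) (ht : 0 < t) :
    ‖∑ i ∈ S, b i * ((t * (1 - m i) * Real.exp (-(t * (1 - m i))) : ℝ) : ℂ)‖ ≤ C := by
  have hC : 0 ≤ C := by
    have := (norm_nonneg _).trans (h 0)
    simpa using this
  -- exponential series for each i
  have h1 : HasSum (fun n : ℕ => ∑ i ∈ S, b i * (((t : ℂ) ^ n / (n.factorial : ℂ)) * ((m i : ℂ) ^ n - (m i : ℂ) ^ (n + 1))))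
      (∑ i ∈ S, b i * ((1 - m i : ℂ) * Complex.exp (t * m i))) := by
    refine hasSum_sum (fun i _ => ?_)
    refine HasSum.mul_left _ ?_
    have h2 : HasSum (fun n : ℕ => ((t : ℂ) * m i) ^ n / (n.factorial : ℂ)) (Complex.exp (t * m i)) := by
      rw [Complex.exp_eq_exp_ℂ]
      exact NormedSpace.expSeries_div_hasSum_exp _
    have h3 := h2.mul_left (1 - m i : ℂ)
    convert h3 using 1
    funext n
    rw [mul_pow]; ring
  have h4 : HasSum (fun n : ℕ => t ^ (n + 1) / ((n + 1).factorial : ℝ)) (Real.exp t - 1) := by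
    have h5 : HasSum (fun n : ℕ => t ^ n / (n.factorial : ℝ)) (Real.exp t) := by
      rw [Real.exp_eq_exp_ℝ]
      exact NormedSpace.expSeries_div_hasSum_exp _
    have h6 := (hasSum_nat_add_iff' 1).mpr h5
    simpa using h6
  have h7 : ‖∑ i ∈ S, b i * ((1 - m i : ℂ) * Complex.exp (t * m i))‖ ≤ C / t * (Real.exp t - 1) := by
    rw [← h1.tsum_eq]
    refine tsum_of_norm_bounded (h4.mul_left (C / t)) (fun n => ?_)
    have h8 : ∑ i ∈ S, b i * (((t : ℂ) ^ n / (n.factorial : ℂ)) * ((m i : ℂ) ^ n - (m i : ℂ) ^ (n + 1)))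
        = ((t ^ n / (n.factorial : ℝ) : ℝ) : ℂ) * ∑ i ∈ S, b i * ((m i : ℂ) ^ n - (m i : ℂ) ^ (n + 1)) := by
      rw [Finset.mul_sum]
      refine Finset.sum_congr rfl (fun i _ => ?_)
      push_cast; ring
    rw [h8, norm_mul, Complex.norm_real, Real.norm_of_nonneg (by positivity)]
    have h9 := mul_le_mul_of_nonneg_left (h n) (show (0:ℝ) ≤ t ^ n / (n.factorial : ℝ) by positivity)
    refine h9.trans (le_of_eq ?_)
    rw [Nat.factorial_succ]
    push_cast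
    field_simp
    ring
  have h10 : ∑ i ∈ S, b i * ((t * (1 - m i) * Real.exp (-(t * (1 - m i))) : ℝ) : ℂ)
      = ((t * Real.exp (-t) : ℝ) : ℂ) * ∑ i ∈ S, b i * ((1 - m i : ℂ) * Complex.exp (t * m i)) := by
    rw [Finset.mul_sum]
    refine Finset.sum_congr rfl (fun i _ => ?_)
    have : Real.exp (-(t * (1 - m i))) = Real.exp (-t) * Real.exp (t * m i) := by
      rw [← Real.exp_add]; congr 1; ring
    rw [this]
    push_cast; ring
  rw [h10, norm_mul, Complex.norm_real, Real.norm_of_nonneg (by positivity)]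
  calc t * Real.exp (-t) * ‖∑ i ∈ S, b i * ((1 - m i : ℂ) * Complex.exp (t * m i))‖
      ≤ t * Real.exp (-t) * (C / t * (Real.exp t - 1)) := mul_le_mul_of_nonneg_left h7 (by positivity)
    _ = C * (1 - Real.exp (-t)) := by
        have : Real.exp (-t) * Real.exp t = 1 := by rw [← Real.exp_add]; simp
        field_simp
        linear_combination C * this
    _ ≤ C * 1 := mul_le_mul_of_nonneg_left (by have := Real.exp_pos (-t); linarith) hC
    _ = C := mul_one C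


/-! ### The measure -/

/-- weights -/
def c (k : ℕ) : ℝ := (1 / 192) * (1 / 16) ^ (Nat.log 4 k)

/-- positions -/
def a (k : ℕ) : ℕ := 4 ^ (k * (k + 1))

lemma c_pos (k : ℕ) : 0 < c k := by unfold c; positivity

lemma c_le (k : ℕ) : c k ≤ (1 / 2) * (1 / (((k : ℝ) + 1) * (k + 2))) := by
  unfold c
  have h1 : k < 4 ^ (Nat.log 4 k + 1) := Nat.lt_pow_succ_log_self (by norm_num) k
  have h2 : (k : ℝ) + 1 ≤ 4 ^ (Nat.log 4 k + 1) := by exact_mod_cast h1
  have h3 : (k : ℝ) + 2 ≤ 2 * 4 ^ (Nat.log 4 k + 1) := by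
    have : (1 : ℝ) ≤ 4 ^ (Nat.log 4 k + 1) := one_le_pow₀ (by norm_num)
    linarith
  have h4 : ((k : ℝ) + 1) * (k + 2) ≤ 32 * 16 ^ (Nat.log 4 k) := by
    have h5 : ((k : ℝ) + 1) * (k + 2) ≤ 4 ^ (Nat.log 4 k + 1) * (2 * 4 ^ (Nat.log 4 k + 1)) :=
      mul_le_mul h2 h3 (by positivity) (by positivity)
    have h6 : (4 : ℝ) ^ (Nat.log 4 k + 1) * (2 * 4 ^ (Nat.log 4 k + 1)) = 32 * 16 ^ (Nat.log 4 k) := by
      have : (16 : ℝ) = 4 * 4 := by norm_num
      rw [this, mul_pow, pow_succ]; ring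
    linarith
  rw [one_div_pow]
  have h7 : (0 : ℝ) < 16 ^ (Nat.log 4 k) := by positivity
  rw [← mul_div_assoc, ← mul_div_assoc, mul_one, mul_one, div_div, div_div]
  refine div_le_div_of_nonneg_left (by norm_num) (by positivity) ?_ |>.trans (le_refl _)
  nlinarith


lemma tele (n : ℕ) : ∑ k ∈ Finset.range n, (1 / (((k : ℝ) + 1) * (k + 2))) = 1 - 1 / ((n : ℝ) + 1) := by
  induction n with
  | zero => simp
  | succ n ih =>
    rw [Finset.sum_range_succ, ih]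
    push_cast
    field_simp
    ring

lemma c_range (n : ℕ) : ∑ k ∈ Finset.range n, c k ≤ 1 / 2 := by
  calc ∑ k ∈ Finset.range n, c k ≤ ∑ k ∈ Finset.range n, (1 / 2) * (1 / (((k : ℝ) + 1) * (k + 2))) :=
        Finset.sum_le_sum (fun k _ => c_le k)
    _ = (1 / 2) * (1 - 1 / ((n : ℝ) + 1)) := by rw [← Finset.mul_sum, tele]
    _ ≤ 1 / 2 := by
        have : (0 : ℝ) ≤ 1 / ((n : ℝ) + 1) := by positivity
        linarith

lemma c_summable : Summable c :=
  summable_of_sum_range_le (fun k => (c_pos k).le) c_range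

lemma c_tsum_le : ∑' k, c k ≤ 1 / 2 :=
  Real.tsum_le_of_sum_range_le (fun k => (c_pos k).le) c_range

lemma push_hasSum (w : ℕ → ℝ) (hw : Summable w) (hw0 : ∀ k, 0 ≤ w k) (x : ℕ → ℤ) (g : ℤ → ℂ)
    (hg : ∀ m, ‖g m‖ ≤ 1) :
    HasSum (fun m : ℤ => ((∑' k : (x ⁻¹' {m} : Set ℕ), w k : ℝ) : ℂ) * g m)
      (∑' k, (w k : ℂ) * g (x k)) := by
  have h1 : Summable (fun k => (w k : ℂ) * g (x k)) := by
    refine Summable.of_norm_bounded hw (fun k => ?_)
    rw [norm_mul, Complex.norm_real, Real.norm_of_nonneg (hw0 k)]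
    exact mul_le_of_le_one_right (hw0 k) (hg _)
  have h2 := h1.hasSum.tsum_fiberwise x
  have h3 : (fun m : ℤ => ((∑' k : (x ⁻¹' {m} : Set ℕ), w k : ℝ) : ℂ) * g m)
      = (fun m : ℤ => ∑' (k : (x ⁻¹' {m} : Set ℕ)), (w k : ℂ) * g (x k)) := by
    funext m
    rw [Complex.ofReal_tsum, ← tsum_mul_right]
    refine tsum_congr (fun k => ?_)
    have : x k = m := k.2
    rw [this]
  rw [h3]
  exact h2

/-- the counterexample -/
def P (m : ℤ) : ℝ :=
  (1 - ∑' k, c k) * delta0 m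
    + ((∑' k : ((fun k : ℕ => ((a k : ℕ) : ℤ)) ⁻¹' {m} : Set ℕ), c k / 2)
    + (∑' k : ((fun k : ℕ => -((a k : ℕ) : ℤ)) ⁻¹' {m} : Set ℕ), c k / 2))

lemma P_nonneg (m : ℤ) : 0 ≤ P m := by
  unfold P
  have h1 := c_tsum_le
  have h2 : (0 : ℝ) ≤ delta0 m := by unfold delta0; split_ifs <;> norm_num
  have h3 : 0 ≤ ∑' k : ((fun k : ℕ => ((a k : ℕ) : ℤ)) ⁻¹' {m} : Set ℕ), c k / 2 :=
    tsum_nonneg (fun k => by have := c_pos k; positivity)
  have h4 : 0 ≤ ∑' k : ((fun k : ℕ => -((a k : ℕ) : ℤ)) ⁻¹' {m} : Set ℕ), c k / 2 :=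
    tsum_nonneg (fun k => by have := c_pos k; positivity)
  have h5 : 0 ≤ (1 - ∑' k, c k) * delta0 m := mul_nonneg (by linarith) h2
  linarith

lemma P_hasSum (g : ℤ → ℂ) (hg : ∀ m, ‖g m‖ ≤ 1) :
    HasSum (fun m : ℤ => (P m : ℂ) * g m)
      ((1 - ∑' k, c k : ℝ) * g 0 + (∑' k, ((c k / 2 : ℝ) : ℂ) * g (a k) + ∑' k, ((c k / 2 : ℝ) : ℂ) * g (-(a k : ℤ)))) := by
  have hs : Summable (fun k => c k / 2) := c_summable.div_const 2
  have hs0 : ∀ k, 0 ≤ c k / 2 := fun k => by have := c_pos k; positivity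
  have h1 := push_hasSum (fun k => c k / 2) hs hs0 (fun k : ℕ => ((a k : ℕ) : ℤ)) g hg
  have h2 := push_hasSum (fun k => c k / 2) hs hs0 (fun k : ℕ => -((a k : ℕ) : ℤ)) g hg
  have h3 := (delta0_hasSum g).mul_left ((1 - ∑' k, c k : ℝ) : ℂ)
  have h4 := h3.add (h1.add h2)
  have h5 : (fun m : ℤ => (P m : ℂ) * g m) = (fun m : ℤ =>
      ((1 - ∑' k, c k : ℝ) : ℂ) * ((delta0 m : ℂ) * g m) +
      (((∑' k : ((fun k : ℕ => ((a k : ℕ) : ℤ)) ⁻¹' {m} : Set ℕ), c k / 2 : ℝ) : ℂ) * g m +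
       ((∑' k : ((fun k : ℕ => -((a k : ℕ) : ℤ)) ⁻¹' {m} : Set ℕ), c k / 2 : ℝ) : ℂ) * g m)) := by
    funext m
    unfold P
    push_cast
    ring
  rw [h5]
  exact h4

lemma P_hasSum_one : HasSum P 1 := by
  have h1 := P_hasSum (fun _ => 1) (by simp)
  have h2 : HasSum (fun m : ℤ => ((P m : ℝ) : ℂ)) ((1 : ℝ) : ℂ) := by
    convert h1 using 1
    · funext m; simp
    · have : ∑' k, ((c k / 2 : ℝ) : ℂ) * 1 = (((∑' k, c k) / 2 : ℝ) : ℂ) := by
        rw [tsum_mul_right, mul_one, ← Complex.ofReal_tsum, tsum_div_const]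
      rw [this]
      push_cast; ring
  exact Complex.hasSum_ofReal.mp h2

/-- one minus the Fourier transform -/
def U (θ : ℝ) : ℝ := ∑' k, c k * (1 - Real.cos (a k * θ))

lemma U_summable (θ : ℝ) : Summable (fun k => c k * (1 - Real.cos (a k * θ))) := by
  refine Summable.of_nonneg_of_le (fun k => ?_) (fun k => ?_) (c_summable.mul_right 2)
  · exact mul_nonneg (c_pos k).le (by have := Real.cos_le_one (a k * θ); linarith)
  · exact mul_le_mul_of_nonneg_left (by have := Real.neg_one_le_cos (a k * θ); linarith) (c_pos k).le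

lemma U_nonneg (θ : ℝ) : 0 ≤ U θ :=
  tsum_nonneg (fun k => mul_nonneg (c_pos k).le (by have := Real.cos_le_one (a k * θ); linarith))

lemma U_le_one (θ : ℝ) : U θ ≤ 1 := by
  have h1 : U θ ≤ ∑' k, c k * 2 := by
    refine (U_summable θ).tsum_le_tsum (fun k => ?_) (c_summable.mul_right 2)
    exact mul_le_mul_of_nonneg_left (by have := Real.neg_one_le_cos (a k * θ); linarith) (c_pos k).le
  rw [tsum_mul_right] at h1
  have := c_tsum_le
  linarith

lemma U_pos (θ : ℝ) (h1 : 0 < θ) (h2 : θ < 2 * Real.pi) : 0 < U θ := by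
  refine (U_summable θ).tsum_pos (fun k => ?_) 0 ?_
  · exact mul_nonneg (c_pos k).le (by have := Real.cos_le_one (a k * θ); linarith)
  · have h3 : Real.cos θ < 1 := by
      refine lt_of_le_of_ne (Real.cos_le_one θ) ?_
      intro h4
      rw [Real.cos_eq_one_iff_of_lt_of_lt (by linarith) h2] at h4
      linarith
    refine mul_pos (c_pos 0) ?_
    simp only [a, zero_mul, pow_zero, Nat.cast_one, one_mul]
    linarith

lemma P_fourier (θ : ℝ) : HasSum (fun m : ℤ => (P m : ℂ) * ch θ m) ((1 - U θ : ℝ) : ℂ) := by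
  have h1 := P_hasSum (ch θ) (fun m => (ch_norm θ m).le)
  convert h1 using 1
  have hs : Summable (fun k => c k / 2) := c_summable.div_const 2
  have hs0 : ∀ k, 0 ≤ c k / 2 := fun k => by have := c_pos k; positivity
  have h2 : Summable (fun k : ℕ => ((c k / 2 : ℝ) : ℂ) * ch θ (a k)) := by
    refine Summable.of_norm_bounded hs (fun k => ?_)
    rw [norm_mul, Complex.norm_real, Real.norm_of_nonneg (hs0 k), ch_norm, mul_one]
  have h3 : Summable (fun k : ℕ => ((c k / 2 : ℝ) : ℂ) * ch θ (-(a k : ℤ))) := by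
    refine Summable.of_norm_bounded hs (fun k => ?_)
    rw [norm_mul, Complex.norm_real, Real.norm_of_nonneg (hs0 k), ch_norm, mul_one]
  rw [← h2.tsum_add h3, ch_zero, mul_one]
  have h4 : ∀ k : ℕ, ((c k / 2 : ℝ) : ℂ) * ch θ (a k) + ((c k / 2 : ℝ) : ℂ) * ch θ (-(a k : ℤ))
      = ((c k * Real.cos (a k * θ) : ℝ) : ℂ) := by
    intro k
    unfold ch
    push_cast
    rw [Complex.cos]
    have e1 : Complex.I * (θ : ℂ) * (a k : ℂ) = (a k * θ : ℂ) * Complex.I := by ring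
    have e2 : Complex.I * (θ : ℂ) * -(a k : ℂ) = -(a k * θ : ℂ) * Complex.I := by ring
    rw [e1, e2]
    ring
  rw [tsum_congr h4, ← Complex.ofReal_tsum, ← Complex.ofReal_add]
  congr 1
  have h5 : Summable (fun k => c k * Real.cos (a k * θ)) := by
    refine Summable.of_norm_bounded c_summable (fun k => ?_)
    rw [norm_mul, Real.norm_of_nonneg (c_pos k).le]
    exact mul_le_of_le_one_right (c_pos k).le (by rw [Real.norm_eq_abs]; exact Real.abs_cos_le_one _)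
  have h6 : U θ = ∑' k, c k - ∑' k, c k * Real.cos (a k * θ) := by
    rw [← c_summable.tsum_sub h5]
    unfold U
    refine tsum_congr (fun k => ?_)
    ring
  rw [h6]; ring


/-! ### Test angles -/

lemma a_mul_le (j k : ℕ) (h : j < k) : a j * 16 ^ k ≤ a k := by
  unfold a
  have h16 : (16 : ℕ) = 4 ^ 2 := by norm_num
  rw [h16, ← pow_mul, ← pow_add]
  apply Nat.pow_le_pow_right (by norm_num)
  have h1 : j + 1 ≤ k := h
  have h2 : j * (j + 1) ≤ j * k := Nat.mul_le_mul_left _ h1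
  have h3 : j * k + k ≤ k * k := by
    have := Nat.mul_le_mul_right k h1
    nlinarith
  nlinarith

lemma a_dvd (k j : ℕ) (h : k < j) : ∃ q : ℕ, a j = a k * (2 * q) := by
  have h1 : k * (k + 1) + 1 ≤ j * (j + 1) := by
    have : k + 1 ≤ j := h
    nlinarith
  obtain ⟨e, he⟩ := Nat.exists_eq_add_of_le h1
  refine ⟨2 * 4 ^ e, ?_⟩
  unfold a
  rw [he, pow_add, pow_add]
  ring

lemma a_pos (k : ℕ) : (0 : ℝ) < a k := by
  have : 0 < a k := by unfold a; positivity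
  exact_mod_cast this

/-- test angle -/
def ang (d : ℕ) (ε : Fin d → ℤ) : ℝ := ∑ i : Fin d, Real.pi * (ε i : ℝ) / (a (d + i) : ℝ)

lemma ang_term (d : ℕ) (ε : Fin d → ℤ) (hε : ∀ i, |(ε i : ℝ)| ≤ 1) (j : ℕ) (i : Fin d) :
    ∃ (N : ℤ) (ρ : ℝ), |ρ| ≤ Real.pi * (1 / 16) ^ d ∧
      (a j : ℝ) * (Real.pi * (ε i : ℝ) / (a (d + i) : ℝ))
        = N * (2 * Real.pi) + Real.pi * (if j = d + i then (ε i : ℝ) else 0) + ρ := by
  have hpi := Real.pi_pos
  have hai := a_pos (d + i)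
  have haj := a_pos j
  rcases lt_trichotomy j (d + i) with h | h | h
  · refine ⟨0, (a j : ℝ) * (Real.pi * (ε i : ℝ) / (a (d + i) : ℝ)), ?_, ?_⟩
    · have h1 : (a j : ℝ) * 16 ^ (d + (i : ℕ)) ≤ a (d + i) := by exact_mod_cast a_mul_le j (d + i) h
      have h2 : (16 : ℝ) ^ d ≤ 16 ^ (d + (i : ℕ)) := pow_le_pow_right₀ (by norm_num) (by omega)
      have h3 : (a j : ℝ) * 16 ^ d ≤ a (d + i) := by nlinarith
      have h4 : (a j : ℝ) / a (d + i) ≤ (1 / 16) ^ d := by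
        rw [one_div_pow, div_le_div_iff₀ hai (by positivity)]
        linarith
      have h5 : (a j : ℝ) * (Real.pi * (ε i : ℝ) / (a (d + i) : ℝ)) = Real.pi * ((a j : ℝ) / a (d + i)) * ε i := by
        ring
      rw [h5, abs_mul, abs_of_nonneg (by positivity : (0:ℝ) ≤ Real.pi * ((a j : ℝ) / a (d + i)))]
      calc Real.pi * ((a j : ℝ) / a (d + i)) * |(ε i : ℝ)|
          ≤ Real.pi * ((a j : ℝ) / a (d + i)) * 1 := mul_le_mul_of_nonneg_left (hε i) (by positivity)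
        _ ≤ Real.pi * (1 / 16) ^ d := by
          rw [mul_one]; exact mul_le_mul_of_nonneg_left h4 hpi.le
    · rw [if_neg (by omega)]
      simp
  · refine ⟨0, 0, by simp; positivity, ?_⟩
    rw [if_pos h]
    rw [← h]
    field_simp
    simp
  · obtain ⟨q, hq⟩ := a_dvd (d + i) j h
    refine ⟨ε i * q, 0, by simp; positivity, ?_⟩
    rw [if_neg (by omega), hq]
    push_cast
    field_simp
    ring

lemma ang_sum (d : ℕ) (ε : Fin d → ℤ) (hε : ∀ i, |(ε i : ℝ)| ≤ 1) (j : ℕ) :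
    ∃ (N : ℤ) (ρ : ℝ), |ρ| ≤ d * (Real.pi * (1 / 16) ^ d) ∧
      (a j : ℝ) * ang d ε
        = N * (2 * Real.pi) + Real.pi * (∑ i : Fin d, if j = d + i then (ε i : ℝ) else 0) + ρ := by
  choose N ρ h1 h2 using ang_term d ε hε j
  refine ⟨∑ i, N i, ∑ i, ρ i, ?_, ?_⟩
  · calc |∑ i, ρ i| ≤ ∑ i, |ρ i| := Finset.abs_sum_le_sum_abs _ _
      _ ≤ ∑ i : Fin d, Real.pi * (1 / 16) ^ d := Finset.sum_le_sum (fun i _ => h1 i)
      _ = d * (Real.pi * (1 / 16) ^ d) := by simp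
  · unfold ang
    rw [Finset.mul_sum, Finset.sum_congr rfl (fun i _ => h2 i), Finset.sum_add_distrib,
      Finset.sum_add_distrib, Finset.mul_sum, Int.cast_sum, Finset.sum_mul]

lemma cos_core (N : ℤ) (E ρ : ℝ) (hE : E = -1 ∨ E = 0 ∨ E = 1) :
    |(1 - Real.cos (N * (2 * Real.pi) + Real.pi * E + ρ)) - 2 * E ^ 2| ≤ ρ ^ 2 / 2 := by
  have h1 : Real.cos (N * (2 * Real.pi) + Real.pi * E + ρ) = Real.cos (Real.pi * E + ρ) := by
    have : N * (2 * Real.pi) + Real.pi * E + ρ = (Real.pi * E + ρ) + N * (2 * Real.pi) := by ring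
    rw [this, Real.cos_add_int_mul_two_pi]
  rw [h1]
  have h2 : 1 - ρ ^ 2 / 2 ≤ Real.cos ρ := Real.one_sub_sq_div_two_le_cos
  have h3 := Real.cos_le_one ρ
  rcases hE with h | h | h
  · subst h
    have : Real.cos (Real.pi * -1 + ρ) = - Real.cos ρ := by
      rw [mul_neg_one, add_comm, ← sub_eq_add_neg, Real.cos_sub_pi]
    rw [this, abs_le]; constructor <;> nlinarith
  · subst h
    rw [mul_zero, zero_add, abs_le]; constructor <;> nlinarith
  · subst h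
    have : Real.cos (Real.pi * 1 + ρ) = - Real.cos ρ := by
      rw [mul_one, add_comm, Real.cos_add_pi]
    rw [this, abs_le]; constructor <;> nlinarith

lemma cos_err (d : ℕ) (ε : Fin d → ℤ) (hε : ∀ i, ε i = -1 ∨ ε i = 0 ∨ ε i = 1) (j : ℕ) :
    |(1 - Real.cos (a j * ang d ε)) - (∑ i : Fin d, if j = d + i then 2 * (ε i : ℝ) ^ 2 else 0)|
      ≤ (d * (Real.pi * (1 / 16) ^ d)) ^ 2 / 2 := by
  have hε' : ∀ i, |(ε i : ℝ)| ≤ 1 := by
    intro i
    rcases hε i with h | h | h <;> simp [h]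
  obtain ⟨N, ρ, hρ, hang⟩ := ang_sum d ε hε' j
  have hpi := Real.pi_pos
  have h0 : ρ ^ 2 / 2 ≤ (d * (Real.pi * (1 / 16) ^ d)) ^ 2 / 2 := by
    have : ρ ^ 2 ≤ (d * (Real.pi * (1 / 16) ^ d)) ^ 2 := sq_le_sq' (by have := (abs_le.mp hρ).1; linarith) (abs_le.mp hρ).2
    linarith
  refine le_trans ?_ h0
  rw [hang]
  by_cases hj : ∃ i : Fin d, j = d + i
  · obtain ⟨i0, hi0⟩ := hj
    have h1 : ∀ i : Fin d, (j = d + i) ↔ i = i0 := by
      intro i
      constructor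
      · intro h; apply Fin.ext; omega
      · intro h; rw [h]; exact hi0
    have h2 : (∑ i : Fin d, if j = d + i then (ε i : ℝ) else 0) = ε i0 := by
      simp only [h1]
      simp
    have h3 : (∑ i : Fin d, if j = d + i then 2 * (ε i : ℝ) ^ 2 else 0) = 2 * (ε i0 : ℝ) ^ 2 := by
      simp only [h1]
      simp
    rw [h2, h3]
    apply cos_core
    rcases hε i0 with h | h | h <;> simp [h]
  · push Not at hj
    have h2 : (∑ i : Fin d, if j = d + i then (ε i : ℝ) else 0) = 0 :=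
      Finset.sum_eq_zero (fun i _ => if_neg (hj i))
    have h3 : (∑ i : Fin d, if j = d + i then 2 * (ε i : ℝ) ^ 2 else 0) = 2 * (0:ℝ) ^ 2 := by
      rw [Finset.sum_eq_zero (fun i _ => if_neg (hj i))]; simp
    rw [h2, h3]
    apply cos_core
    simp

lemma U_approx (d : ℕ) (c0 : ℝ) (hc : ∀ i : Fin d, c (d + i) = c0) (ε : Fin d → ℤ)
    (hε : ∀ i, ε i = -1 ∨ ε i = 0 ∨ ε i = 1) :
    |U (ang d ε) - 2 * c0 * ∑ i, (ε i : ℝ) ^ 2| ≤ (d * (Real.pi * (1 / 16) ^ d)) ^ 2 / 4 := by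
  have h1 : HasSum (fun j : ℕ => c j * (∑ i : Fin d, if j = d + i then 2 * (ε i : ℝ) ^ 2 else 0))
      (2 * c0 * ∑ i, (ε i : ℝ) ^ 2) := by
    have h2 : HasSum (fun j : ℕ => ∑ i : Fin d, if j = d + i then c0 * (2 * (ε i : ℝ) ^ 2) else 0)
      (∑ i : Fin d, c0 * (2 * (ε i : ℝ) ^ 2)) := by
      refine hasSum_sum (fun i _ => ?_)
      exact hasSum_ite_eq (d + (i : ℕ)) _
    have h3 : (∑ i : Fin d, c0 * (2 * (ε i : ℝ) ^ 2)) = 2 * c0 * ∑ i, (ε i : ℝ) ^ 2 := by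
      rw [Finset.mul_sum]
      exact Finset.sum_congr rfl (fun i _ => by ring)
    rw [← h3]
    have h4 : (fun j : ℕ => c j * (∑ i : Fin d, if j = d + i then 2 * (ε i : ℝ) ^ 2 else 0))
        = (fun j : ℕ => ∑ i : Fin d, if j = d + i then c0 * (2 * (ε i : ℝ) ^ 2) else 0) := by
      funext j
      rw [Finset.mul_sum]
      refine Finset.sum_congr rfl (fun i _ => ?_)
      split_ifs with h
      · rw [h, hc i]
      · simp
    rw [h4]
    exact h2
  have h5 := (U_summable (ang d ε)).hasSum.sub h1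
  have h6 : U (ang d ε) - 2 * c0 * ∑ i, (ε i : ℝ) ^ 2 = ∑' j, (c j * (1 - Real.cos (a j * ang d ε)) - c j * (∑ i : Fin d, if j = d + i then 2 * (ε i : ℝ) ^ 2 else 0)) :=
    h5.tsum_eq.symm
  rw [h6]
  have h7 : HasSum (fun j : ℕ => c j * ((d * (Real.pi * (1 / 16) ^ d)) ^ 2 / 2)) ((∑' j, c j) * ((d * (Real.pi * (1 / 16) ^ d)) ^ 2 / 2)) :=
    c_summable.hasSum.mul_right _
  have h8 := tsum_of_norm_bounded (f := fun j : ℕ => (c j * (1 - Real.cos (a j * ang d ε)) - c j * (∑ i : Fin d, if j = d + i then 2 * (ε i : ℝ) ^ 2 else 0))) h7 (fun j => by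
    rw [← mul_sub, norm_mul, Real.norm_of_nonneg (c_pos j).le]
    exact mul_le_mul_of_nonneg_left (by rw [Real.norm_eq_abs]; exact cos_err d ε hε j) (c_pos j).le)
  rw [Real.norm_eq_abs] at h8
  refine h8.trans ?_
  have h9 := c_tsum_le
  have h10 : 0 ≤ (d * (Real.pi * (1 / 16) ^ d)) ^ 2 / 2 := by positivity
  nlinarith


/-! ### The test function -/

/-- Fourier coefficients of one factor of the test function -/
def wt (β : ℝ) (e : ℤ) : ℂ := if e = 0 then 1 else Complex.I * β / 2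

/-- index set of the expansion -/
def idx (d : ℕ) : Finset (Fin d → ℤ) := Fintype.piFinset (fun _ : Fin d => ({-1, 0, 1} : Finset ℤ))

lemma wt_neg (β : ℝ) : wt β (-1) = Complex.I * β / 2 := by simp [wt]

lemma wt_zero (β : ℝ) : wt β 0 = 1 := by simp [wt]

lemma wt_one (β : ℝ) : wt β 1 = Complex.I * β / 2 := by simp [wt]

lemma mem_idx (d : ℕ) (ε : Fin d → ℤ) (h : ε ∈ idx d) (i : Fin d) : ε i = -1 ∨ ε i = 0 ∨ ε i = 1 := by
  unfold idx at h
  rw [Fintype.mem_piFinset] at h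
  simpa using h i

lemma sum3 {E : Type*} [AddCommMonoid E] (f : ℤ → E) :
    ∑ e ∈ ({-1, 0, 1} : Finset ℤ), f e = f (-1) + (f 0 + f 1) := by
  rw [Finset.sum_insert (by decide), Finset.sum_insert (by decide), Finset.sum_singleton]

lemma ch_sum {ι : Type*} (s : Finset ι) (f : ι → ℝ) (m : ℤ) :
    ch (∑ i ∈ s, f i) m = ∏ i ∈ s, ch (f i) m := by
  unfold ch
  rw [← Complex.exp_sum]
  congr 1
  push_cast
  rw [Finset.mul_sum, Finset.sum_mul]

lemma factor_eq (β φ : ℝ) (m : ℤ) :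
    ∑ e ∈ ({-1, 0, 1} : Finset ℤ), wt β e * ch (φ * e) m = 1 + Complex.I * (β * Real.cos (φ * m) : ℝ) := by
  rw [sum3]
  have h1 : ch (φ * ((-1 : ℤ) : ℝ)) m = Complex.exp (-(φ * m : ℂ) * Complex.I) := by
    unfold ch; congr 1; push_cast; ring
  have h2 : ch (φ * ((1 : ℤ) : ℝ)) m = Complex.exp ((φ * m : ℂ) * Complex.I) := by
    unfold ch; congr 1; push_cast; ring
  have h3 : ch (φ * ((0 : ℤ) : ℝ)) m = 1 := by
    unfold ch; simp
  rw [h1, h2, h3]
  simp only [wt]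
  push_cast
  rw [Complex.cos]
  norm_num
  ring

lemma factor_norm (β φ : ℝ) (m : ℤ) :
    ‖(1 + Complex.I * (β * Real.cos (φ * m) : ℝ) : ℂ)‖ ≤ Real.exp (β ^ 2 / 2) := by
  have h1 : ‖(1 + Complex.I * (β * Real.cos (φ * m) : ℝ) : ℂ)‖ ^ 2 = 1 + (β * Real.cos (φ * m)) ^ 2 := by
    generalize β * Real.cos (φ * m) = r
    rw [Complex.sq_norm, Complex.normSq_apply]
    simp
    ring
  have h2 : 1 + (β * Real.cos (φ * m)) ^ 2 ≤ Real.exp (β ^ 2) := by
    have h3 := Real.add_one_le_exp (β ^ 2)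
    have h4 : Real.cos (φ * m) ^ 2 ≤ 1 := Real.cos_sq_le_one _
    have h5 : (β * Real.cos (φ * m)) ^ 2 ≤ β ^ 2 := by
      rw [mul_pow]; nlinarith [sq_nonneg β]
    linarith
  have h3 : Real.exp (β ^ 2) = Real.exp (β ^ 2 / 2) ^ 2 := by
    rw [← Real.exp_nat_mul]; congr 1; push_cast; ring
  rw [h3] at h2
  rw [← h1] at h2
  exact le_of_sq_le_sq h2 (Real.exp_pos _).le

lemma test_bound (d : ℕ) (β : ℝ) (hβ : d * β ^ 2 ≤ 1) (m : ℤ) :
    ‖∑ ε ∈ idx d, (∏ i, wt β (ε i)) * ch (ang d ε) m‖ ≤ 2 := by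
  have h1 : ∑ ε ∈ idx d, (∏ i, wt β (ε i)) * ch (ang d ε) m
      = ∏ i : Fin d, ∑ e ∈ ({-1, 0, 1} : Finset ℤ), wt β e * ch (Real.pi / (a (d + i) : ℝ) * e) m := by
    rw [Finset.prod_univ_sum]
    refine Finset.sum_congr rfl (fun ε _ => ?_)
    rw [Finset.prod_mul_distrib]
    congr 1
    unfold ang
    rw [ch_sum]
    refine Finset.prod_congr rfl (fun i _ => ?_)
    congr 1
    ring
  rw [h1, norm_prod]
  calc ∏ i : Fin d, ‖∑ e ∈ ({-1, 0, 1} : Finset ℤ), wt β e * ch (Real.pi / (a (d + i) : ℝ) * e) m‖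
      ≤ ∏ i : Fin d, Real.exp (β ^ 2 / 2) := by
        refine Finset.prod_le_prod (fun i _ => norm_nonneg _) (fun i _ => ?_)
        rw [factor_eq]
        exact factor_norm _ _ _
    _ = Real.exp (d * (β ^ 2 / 2)) := by
        rw [Finset.prod_const, Finset.card_univ, Fintype.card_fin, ← Real.exp_nat_mul]
    _ ≤ Real.exp (1 / 2) := by
        apply Real.exp_le_exp.mpr; linarith
    _ ≤ 2 := by
        have h2 : Real.exp (1 / 2) ^ 2 = Real.exp 1 := by
          rw [← Real.exp_nat_mul]; norm_num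
        have h3 := Real.exp_one_lt_d9
        have h4 := Real.exp_pos (1 / 2)
        nlinarith

lemma coef_sum (d : ℕ) (β : ℝ) (h0 : 0 ≤ β) (h1 : β ≤ 1) :
    ∑ ε ∈ idx d, ‖∏ i, wt β (ε i)‖ ≤ 2 ^ d := by
  have h2 : ∑ ε ∈ idx d, ‖∏ i, wt β (ε i)‖ = ∏ i : Fin d, ∑ e ∈ ({-1, 0, 1} : Finset ℤ), ‖wt β e‖ := by
    rw [Finset.prod_univ_sum]
    exact Finset.sum_congr rfl (fun ε _ => norm_prod _ _)
  rw [h2]
  calc ∏ i : Fin d, ∑ e ∈ ({-1, 0, 1} : Finset ℤ), ‖wt β e‖ ≤ ∏ i : Fin d, (2 : ℝ) := by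
        refine Finset.prod_le_prod (fun i _ => Finset.sum_nonneg (fun _ _ => norm_nonneg _)) (fun i _ => ?_)
        rw [sum3]
        simp only [wt]
        norm_num
        rw [abs_of_nonneg h0]
        linarith
    _ = 2 ^ d := by simp

lemma main_sum (d : ℕ) (β : ℝ) :
    ∑ ε ∈ idx d, (∏ i, wt β (ε i)) * (((∑ i, (ε i : ℝ) ^ 2) * Real.exp (-(∑ i, (ε i : ℝ) ^ 2)) : ℝ) : ℂ)
      = d * (Complex.I * (β * Real.exp (-1) : ℝ)) * (1 + Complex.I * (β * Real.exp (-1) : ℝ)) ^ (d - 1) := by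
  have h1 : ∀ ε : Fin d → ℤ, (∏ i, wt β (ε i)) * (((∑ i, (ε i : ℝ) ^ 2) * Real.exp (-(∑ i, (ε i : ℝ) ^ 2)) : ℝ) : ℂ)
      = ∑ l : Fin d, ∏ i : Fin d, (wt β (ε i) * (Real.exp (-((ε i : ℝ) ^ 2)) : ℝ) * (if i = l then ((ε i : ℝ) ^ 2 : ℝ) else (1 : ℝ) : ℝ)) := by
    intro ε
    have h2 : Real.exp (-(∑ i, (ε i : ℝ) ^ 2)) = ∏ i, Real.exp (-((ε i : ℝ) ^ 2)) := by
      rw [← Real.exp_sum, Finset.sum_neg_distrib]
    rw [h2]
    push_cast
    rw [Finset.sum_mul, Finset.mul_sum]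
    refine Finset.sum_congr rfl (fun l _ => ?_)
    rw [Finset.prod_mul_distrib, Finset.prod_mul_distrib]
    simp only [apply_ite Complex.ofReal, Complex.ofReal_one]
    rw [Finset.prod_ite_eq' Finset.univ l]
    simp only [Finset.mem_univ, if_true]
    push_cast
    ring
  rw [Finset.sum_congr rfl (fun ε _ => h1 ε), Finset.sum_comm]
  have h3 : ∀ l : Fin d, ∑ ε ∈ idx d, ∏ i : Fin d, (wt β (ε i) * (Real.exp (-((ε i : ℝ) ^ 2)) : ℝ) * (if i = l then ((ε i : ℝ) ^ 2 : ℝ) else (1 : ℝ) : ℝ))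
      = (Complex.I * (β * Real.exp (-1) : ℝ)) * (1 + Complex.I * (β * Real.exp (-1) : ℝ)) ^ (d - 1) := by
    intro l
    have h4 : ∏ i : Fin d, ∑ e ∈ ({-1, 0, 1} : Finset ℤ), (wt β e * (Real.exp (-((e : ℝ) ^ 2)) : ℝ) * (if i = l then ((e : ℝ) ^ 2 : ℝ) else (1 : ℝ) : ℝ))
      = ∑ ε ∈ idx d, ∏ i : Fin d, (wt β (ε i) * (Real.exp (-((ε i : ℝ) ^ 2)) : ℝ) * (if i = l then ((ε i : ℝ) ^ 2 : ℝ) else (1 : ℝ) : ℝ)) := by
      rw [Finset.prod_univ_sum]; rfl
    rw [← h4]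
    have h5 : ∀ i : Fin d, ∑ e ∈ ({-1, 0, 1} : Finset ℤ), (wt β e * (Real.exp (-((e : ℝ) ^ 2)) : ℝ) * (if i = l then ((e : ℝ) ^ 2 : ℝ) else (1 : ℝ) : ℝ))
        = if i = l then (Complex.I * (β * Real.exp (-1) : ℝ)) else (1 + Complex.I * (β * Real.exp (-1) : ℝ)) := by
      intro i
      rw [sum3, wt_neg, wt_zero, wt_one]
      by_cases h : i = l
      · simp only [h, if_true]
        norm_num
        ring
      · simp only [h, if_false]
        norm_num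
        ring
    rw [Finset.prod_congr rfl (fun i _ => h5 i)]
    rw [← Finset.mul_prod_erase Finset.univ _ (Finset.mem_univ l)]
    simp only [if_true]
    congr 1
    rw [Finset.prod_congr rfl (fun i hi => if_neg (Finset.ne_of_mem_erase hi))]
    rw [Finset.prod_const, Finset.card_erase_of_mem (Finset.mem_univ l), Finset.card_univ, Fintype.card_fin]
  rw [Finset.sum_congr rfl (fun l _ => h3 l)]
  simp
  ring


lemma G_lip (u v : ℝ) (hu : 0 ≤ u) (hv : 0 ≤ v) :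
    |u * Real.exp (-u) - v * Real.exp (-v)| ≤ |u - v| := by
  have key : ∀ x y : ℝ, 0 ≤ y → y ≤ x → |x * Real.exp (-x) - y * Real.exp (-y)| ≤ |x - y| := by
    intro x y hy hxy
    have hx : 0 ≤ x := hy.trans hxy
    have h1 : Real.exp (-x) ≤ 1 := Real.exp_le_one_iff.mpr (by linarith)
    have h2 : 0 < Real.exp (-x) := Real.exp_pos _
    have h2y : 0 < Real.exp (-y) := Real.exp_pos _
    have h3 : Real.exp (-x) = Real.exp (-y) * Real.exp (-(x - y)) := by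
      rw [← Real.exp_add]; congr 1; ring
    have h4 : 1 - (x - y) ≤ Real.exp (-(x - y)) := by
      have := Real.add_one_le_exp (-(x - y)); linarith
    have h5 : Real.exp (-(x - y)) ≤ 1 := Real.exp_le_one_iff.mpr (by linarith)
    have h6 : y * Real.exp (-y) ≤ 1 := by
      have h7 : y ≤ Real.exp y := by have := Real.add_one_le_exp y; linarith
      have h8 : Real.exp y * Real.exp (-y) = 1 := by rw [← Real.exp_add]; simp
      nlinarith
    rw [abs_of_nonneg (by linarith : 0 ≤ x - y), abs_le]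
    constructor
    · have h9 : y * Real.exp (-y) * (1 - Real.exp (-(x - y))) ≤ x - y := by
        have h10 : y * Real.exp (-y) * (1 - Real.exp (-(x - y))) ≤ 1 * (x - y) :=
          mul_le_mul h6 (by linarith) (by linarith) (by norm_num)
        linarith
      have h11 : y * Real.exp (-x) ≤ x * Real.exp (-x) := mul_le_mul_of_nonneg_right hxy h2.le
      have h12 : y * Real.exp (-x) = y * Real.exp (-y) * Real.exp (-(x - y)) := by rw [h3]; ring
      nlinarith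
    · have h9 : (x - y) * Real.exp (-x) ≤ x - y := by
        have := mul_le_mul_of_nonneg_left h1 (by linarith : 0 ≤ x - y)
        linarith
      have h10 : Real.exp (-x) ≤ Real.exp (-y) := Real.exp_le_exp.mpr (by linarith)
      have h11 : y * Real.exp (-x) ≤ y * Real.exp (-y) := mul_le_mul_of_nonneg_left h10 hy
      nlinarith
  rcases le_total v u with h | h
  · exact key u v hv h
  · rw [abs_sub_comm, abs_sub_comm u v]; exact key v u hu h

lemma final_bound (C : ℝ) (hC : ∀ n : ℕ, (n : ℝ) * T P n ≤ C) (r : ℕ) :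
    (2 : ℝ) ^ r * Real.exp (-1) ≤ 2 * (2 * C + 2) + 240 := by
  set d : ℕ := 4 ^ r with hd
  set β : ℝ := (1 / 2) ^ r with hβ
  set c0 : ℝ := (1 / 192) * (1 / 16) ^ r with hc0
  set t : ℝ := 96 * 16 ^ r with ht
  have hdR : (d : ℝ) = 4 ^ r := by rw [hd]; push_cast; rfl
  have hdpos : 1 ≤ d := Nat.one_le_pow _ _ (by norm_num)
  have hβ0 : 0 ≤ β := by positivity
  have hβ1 : β ≤ 1 := pow_le_one₀ (by norm_num) (by norm_num)
  have hdβ : (d : ℝ) * β ^ 2 = 1 := by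
    rw [hdR, hβ, ← pow_mul, mul_comm r 2, pow_mul, ← mul_pow]; norm_num
  have hdβ' : (d : ℝ) * β = 2 ^ r := by
    rw [hdR, hβ, ← mul_pow]; norm_num
  have hcd : ∀ i : Fin d, c (d + i) = c0 := by
    intro i
    have hlog : Nat.log 4 (d + (i : ℕ)) = r := by
      rw [Nat.log_eq_iff (Or.inr ⟨by norm_num, by omega⟩)]
      have := i.2
      constructor
      · omega
      · rw [pow_succ, ← hd]; omega
    unfold c
    rw [hlog]
  have ht0 : 0 < t := by positivity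
  have htc : t * (2 * c0) = 1 := by
    have : (16 : ℝ) ^ r * (1 / 16) ^ r = 1 := by rw [← mul_pow]; norm_num
    rw [ht, hc0]; linear_combination this
  -- the Ritt bound, Poissonized
  have hR := poisson (idx d) (fun ε => ∏ i, wt β (ε i)) (fun ε => 1 - U (ang d ε)) (2 * (2 * C + 2))
    (by
      intro n
      have h1 := duality P P_nonneg P_hasSum_one.summable (idx d) (fun ε => ∏ i, wt β (ε i))
        (fun ε => ang d ε) (fun ε => ((1 - U (ang d ε) : ℝ) : ℂ)) (fun ε _ => P_fourier _) 2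
        (test_bound d β hdβ.le) n
      have h2 := T_bound P P_nonneg P_hasSum_one.summable P_hasSum_one.tsum_eq C hC n
      refine h1.trans ?_
      rw [mul_div_assoc]
      linarith) t ht0
  -- comparison with the ideal sum
  have hcmp : ‖∑ ε ∈ idx d, (∏ i, wt β (ε i)) * (((∑ i, (ε i : ℝ) ^ 2) * Real.exp (-(∑ i, (ε i : ℝ) ^ 2)) : ℝ) : ℂ)
      - ∑ ε ∈ idx d, (∏ i, wt β (ε i)) * ((t * (1 - (1 - U (ang d ε))) * Real.exp (-(t * (1 - (1 - U (ang d ε))))) : ℝ) : ℂ)‖ ≤ 240 := by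
    rw [← Finset.sum_sub_distrib]
    have h1 : ∀ ε ∈ idx d, ‖(∏ i, wt β (ε i)) * (((∑ i, (ε i : ℝ) ^ 2) * Real.exp (-(∑ i, (ε i : ℝ) ^ 2)) : ℝ) : ℂ)
      - (∏ i, wt β (ε i)) * ((t * (1 - (1 - U (ang d ε))) * Real.exp (-(t * (1 - (1 - U (ang d ε))))) : ℝ) : ℂ)‖
        ≤ ‖∏ i, wt β (ε i)‖ * (t * ((d * (Real.pi * (1 / 16) ^ d)) ^ 2 / 4)) := by
      intro ε hε
      rw [← mul_sub, norm_mul]
      refine mul_le_mul_of_nonneg_left ?_ (norm_nonneg _)
      rw [← Complex.ofReal_sub, Complex.norm_real, Real.norm_eq_abs]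
      have h2 := U_approx d c0 hcd ε (mem_idx d ε hε)
      have h3 : 0 ≤ ∑ i, (ε i : ℝ) ^ 2 := Finset.sum_nonneg (fun i _ => sq_nonneg _)
      have h4 : t * (1 - (1 - U (ang d ε))) = t * U (ang d ε) := by ring
      rw [h4]
      refine (G_lip _ _ h3 (mul_nonneg ht0.le (U_nonneg _))).trans ?_
      have h5 : ∑ i, (ε i : ℝ) ^ 2 - t * U (ang d ε) = t * (2 * c0 * ∑ i, (ε i : ℝ) ^ 2 - U (ang d ε)) := by
        linear_combination (-(∑ i, (ε i : ℝ) ^ 2)) * htc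
      rw [h5, abs_mul, abs_of_pos ht0, abs_sub_comm]
      exact mul_le_mul_of_nonneg_left h2 ht0.le
    refine (norm_sum_le _ _).trans ((Finset.sum_le_sum h1).trans ?_)
    rw [← Finset.sum_mul]
    have h2 := coef_sum d β hβ0 hβ1
    have h3 : (0:ℝ) ≤ t * ((d * (Real.pi * (1 / 16) ^ d)) ^ 2 / 4) := by positivity
    refine (mul_le_mul_of_nonneg_right h2 h3).trans ?_
    have h4 : (16 : ℝ) ^ r = (d : ℝ) ^ 2 := by
      rw [hdR, ← pow_mul, mul_comm r 2, pow_mul]; norm_num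
    have h5 : (d : ℝ) ≤ 2 ^ d := by exact_mod_cast (Nat.lt_two_pow_self (n := d)).le
    have h6 : (d : ℝ) ^ 4 ≤ 16 ^ d := by
      calc (d : ℝ) ^ 4 ≤ (2 ^ d) ^ 4 := pow_le_pow_left₀ (by positivity) h5 4
        _ = 16 ^ d := by rw [← pow_mul, mul_comm d 4, pow_mul]; norm_num
    have h7 : (2 : ℝ) ^ d * (t * ((d * (Real.pi * (1 / 16) ^ d)) ^ 2 / 4))
        = 24 * Real.pi ^ 2 * ((d : ℝ) ^ 4 * (1 / 128) ^ d) := by
      have e1 : (2 : ℝ) ^ d * ((1 / 16) ^ d) ^ 2 = (1 / 128) ^ d := by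
        rw [← pow_mul, mul_comm d 2, pow_mul, ← mul_pow]; norm_num
      rw [ht, h4, ← e1]; ring
    rw [h7]
    have h8 : (d : ℝ) ^ 4 * (1 / 128) ^ d ≤ 1 := by
      calc (d : ℝ) ^ 4 * (1 / 128) ^ d ≤ 16 ^ d * (1 / 128) ^ d := mul_le_mul_of_nonneg_right h6 (by positivity)
        _ = (1 / 8) ^ d := by rw [← mul_pow]; norm_num
        _ ≤ 1 := pow_le_one₀ (by norm_num) (by norm_num)
    have h9 : Real.pi ^ 2 ≤ 10 := by
      have := Real.pi_lt_d2
      have := Real.pi_pos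
      nlinarith
    have h10 : 0 ≤ (d : ℝ) ^ 4 * (1 / 128) ^ d := by positivity
    nlinarith
  have hmain : (2 : ℝ) ^ r * Real.exp (-1) ≤ ‖∑ ε ∈ idx d, (∏ i, wt β (ε i)) * (((∑ i, (ε i : ℝ) ^ 2) * Real.exp (-(∑ i, (ε i : ℝ) ^ 2)) : ℝ) : ℂ)‖ := by
    rw [main_sum, norm_mul, norm_mul, norm_mul, norm_pow]
    have h1 : 1 ≤ ‖(1 + Complex.I * (β * Real.exp (-1) : ℝ) : ℂ)‖ := by
      have h2 := Complex.abs_re_le_norm (1 + Complex.I * (β * Real.exp (-1) : ℝ) : ℂ)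
      have h3 : (1 + Complex.I * (β * Real.exp (-1) : ℝ) : ℂ).re = 1 := by
        generalize β * Real.exp (-1) = s
        simp
      rw [h3, abs_one] at h2
      exact h2
    have h2 : (1 : ℝ) ≤ ‖(1 + Complex.I * (β * Real.exp (-1) : ℝ) : ℂ)‖ ^ (d - 1) := one_le_pow₀ h1
    have h3 : ‖(d : ℂ)‖ * (‖Complex.I‖ * ‖((β * Real.exp (-1) : ℝ) : ℂ)‖) = 2 ^ r * Real.exp (-1) := by
      rw [Complex.norm_I, Complex.norm_real, Real.norm_of_nonneg (by positivity), Complex.norm_natCast, one_mul, ← mul_assoc, hdβ']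
    rw [h3]
    exact le_mul_of_one_le_right (by positivity) h2
  have htri := norm_sub_norm_le (∑ ε ∈ idx d, (∏ i, wt β (ε i)) * (((∑ i, (ε i : ℝ) ^ 2) * Real.exp (-(∑ i, (ε i : ℝ) ^ 2)) : ℝ) : ℂ))
    (∑ ε ∈ idx d, (∏ i, wt β (ε i)) * ((t * (1 - (1 - U (ang d ε))) * Real.exp (-(t * (1 - (1 - U (ang d ε))))) : ℝ) : ℂ))
  linarith

theorem not_ritt : ¬ ∃ C : ℝ, ∀ n : ℕ, (n : ℝ) * T P n ≤ C := by
  rintro ⟨C, hC⟩
  obtain ⟨r, hr⟩ := pow_unbounded_of_one_lt ((2 * (2 * C + 2) + 240) / Real.exp (-1)) (one_lt_two : (1:ℝ) < 2)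
  have h := final_bound C hC r
  rw [div_lt_iff₀ (Real.exp_pos _)] at hr
  linarith

end

/-- The negation of the preceding statement: For every probability measure on the integers whose Fourier transform has modulus below 1 off 0 mod 2π: the bound ∣1−μ̂(t)∣ ≤ C(1−∣μ̂(t)∣) holds iff n·‖μ^n − μ^(n+1)‖ in ℓ¹ stays bounded. -/
theorem result :
    ¬ (∀ p : ℤ → ℝ, (∀ n, 0 ≤ p n) → Summable p → ∑' n, p n = 1 →
      (∀ t : ℝ, t ∈ Set.Ioo 0 (2 * Real.pi) →
        ‖∑' n : ℤ, (p n : ℂ) * Complex.exp (Complex.I * (t : ℂ) * (n : ℂ))‖ < 1) →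
      ((∃ C : ℝ, ∀ t : ℝ, t ∈ Set.Ioo 0 (2 * Real.pi) →
          ‖1 - ∑' n : ℤ, (p n : ℂ) * Complex.exp (Complex.I * (t : ℂ) * (n : ℂ))‖
            ≤ C * (1 - ‖∑' n : ℤ, (p n : ℂ) * Complex.exp (Complex.I * (t : ℂ) * (n : ℂ))‖)) ↔
       (∃ C : ℝ, ∀ n : ℕ,
          (n : ℝ) * ∑' k : ℤ,
            |((fun f : ℤ → ℝ => fun m : ℤ => ∑' j : ℤ, f j * p (m - j))^[n]
                (fun m : ℤ => if m = 0 then (1 : ℝ) else 0)) k
              - ((fun f : ℤ → ℝ => fun m : ℤ => ∑' j : ℤ, f j * p (m - j))^[n + 1]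
                (fun m : ℤ => if m = 0 then (1 : ℝ) else 0)) k| ≤ C))) := by
  intro h
  have hval : ∀ t : ℝ, ∑' n : ℤ, (P n : ℂ) * Complex.exp (Complex.I * (t : ℂ) * (n : ℂ))
      = ((1 - U t : ℝ) : ℂ) := fun t => (P_fourier t).tsum_eq
  have hnorm : ∀ t : ℝ, ‖((1 - U t : ℝ) : ℂ)‖ = 1 - U t := fun t => by
    rw [Complex.norm_real, Real.norm_of_nonneg (by have := U_le_one t; linarith)]
  have h1 := h P P_nonneg P_hasSum_one.summable P_hasSum_one.tsum_eq (by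
    intro t ht
    rw [hval t, hnorm t]
    have := U_pos t ht.1 ht.2
    linarith)
  refine not_ritt (h1.mp ⟨1, ?_⟩)
  intro t ht
  rw [hval t, hnorm t]
  have h2 : (1 : ℂ) - ((1 - U t : ℝ) : ℂ) = ((U t : ℝ) : ℂ) := by push_cast; ring
  rw [h2, Complex.norm_real, Real.norm_of_nonneg (U_nonneg t)]
  linarith


end Pool.Agent.S04016
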