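import Pool.Statements.S00522
import Pool.Agent.PuncBundle.Final

set_option autoImplicit false
open AlgebraicGeometry CategoryTheory CategoryTheory.Limits
open Pool Pool.MP_e97ce4_ag

namespace Pool.Agent.S00522

/-- The negation of the preceding statement: For n > 1, every Zariski-locally trivial bundle over the punctured complex plane with fiber complex affine n-space is isomorphic over the base to the product bundle exactly when its total space is not an affine scheme. -/
theorem result :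
    ¬ (∀ (n : ℕ), 1 < n →
  ∀ (U : (Spec (CommRingCat.of (MvPolynomial (Fin 2) ℂ))).Opens),
    U = (PrimeSpectrum.basicOpen (MvPolynomial.X 0 : MvPolynomial (Fin 2) ℂ) ⊔
          PrimeSpectrum.basicOpen (MvPolynomial.X 1 : MvPolynomial (Fin 2) ℂ) :
          (Spec (CommRingCat.of (MvPolynomial (Fin 2) ℂ))).Opens) →
  ∀ (X : Scheme.{0}) (p : X ⟶ U.toScheme),
    (∀ x : U.toScheme, ∃ V : U.toScheme.Opens, x ∈ V ∧
      ∃ e : (p ⁻¹ᵁ V).toScheme ≅
          pullback (V.ι ≫ U.ι ≫ Spec.map (CommRingCat.ofHom (algebraMap ℂ (MvPolynomial (Fin 2) ℂ))))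
            (Spec.map (CommRingCat.ofHom (algebraMap ℂ (MvPolynomial (Fin n) ℂ)))),
        e.hom ≫ pullback.fst
            (V.ι ≫ U.ι ≫ Spec.map (CommRingCat.ofHom (algebraMap ℂ (MvPolynomial (Fin 2) ℂ))))
            (Spec.map (CommRingCat.ofHom (algebraMap ℂ (MvPolynomial (Fin n) ℂ))))
          = p ∣_ V) →
    ((∃ e : X ≅
          pullback (U.ι ≫ Spec.map (CommRingCat.ofHom (algebraMap ℂ (MvPolynomial (Fin 2) ℂ))))
            (Spec.map (CommRingCat.ofHom (algebraMap ℂ (MvPolynomial (Fin n) ℂ)))),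
        e.hom ≫ pullback.fst
            (U.ι ≫ Spec.map (CommRingCat.ofHom (algebraMap ℂ (MvPolynomial (Fin 2) ℂ))))
            (Spec.map (CommRingCat.ofHom (algebraMap ℂ (MvPolynomial (Fin n) ℂ))))
          = p) ↔ ¬ IsAffine X)) := by
  intro H
  -- the total space: `Spec R` restricted to the punctured plane
  have hloc : ∀ x : (PuncBundle.UU).toScheme, ∃ V : (PuncBundle.UU).toScheme.Opens, x ∈ V ∧
      ∃ e : ((Spec.map PuncBundle.φ ∣_ PuncBundle.UU) ⁻¹ᵁ V).toScheme ≅
          pullback (V.ι ≫ (PuncBundle.UU).ι ≫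
            Spec.map (CommRingCat.ofHom (algebraMap ℂ (MvPolynomial (Fin 2) ℂ))))
            (Spec.map (CommRingCat.ofHom (algebraMap ℂ (MvPolynomial (Fin 2) ℂ)))),
        e.hom ≫ pullback.fst
            (V.ι ≫ (PuncBundle.UU).ι ≫
              Spec.map (CommRingCat.ofHom (algebraMap ℂ (MvPolynomial (Fin 2) ℂ))))
            (Spec.map (CommRingCat.ofHom (algebraMap ℂ (MvPolynomial (Fin 2) ℂ))))
          = (Spec.map PuncBundle.φ ∣_ PuncBundle.UU) ∣_ V := by
    intro x
    have hx : x.1 ∈ PuncBundle.UU := x.2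
    rcases hx with hx | hx
    · have hr : (Spec.map (CommRingCat.ofHom (algebraMap PuncBundle.A PuncBundle.Ax))).opensRange
          = (PrimeSpectrum.basicOpen PuncBundle.xA : (Spec (CommRingCat.of PuncBundle.A)).Opens) :=
        TopologicalSpace.Opens.ext (PrimeSpectrum.localization_away_comap_range _ _)
      obtain ⟨V, hV, e, he⟩ := PuncBundle.exists_iso_of_chart PuncBundle.φ PuncBundle.UU
        (CommRingCat.ofHom (algebraMap ℂ (MvPolynomial (Fin 2) ℂ)))
        (CommRingCat.ofHom (algebraMap PuncBundle.A PuncBundle.Ax))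
        (CommRingCat.ofHom (algebraMap ℂ (MvPolynomial (Fin 2) ℂ)))
        _ _ _ PuncBundle.isPushout_x (PuncBundle.isPushout_poly ℂ PuncBundle.Ax)
        (by rw [hr]; exact le_sup_left)
      refine ⟨V, ?_, e, he⟩
      rw [hV, hr]
      exact hx
    · have hr : (Spec.map (CommRingCat.ofHom (algebraMap PuncBundle.A PuncBundle.Ay))).opensRange
          = (PrimeSpectrum.basicOpen PuncBundle.yA : (Spec (CommRingCat.of PuncBundle.A)).Opens) :=
        TopologicalSpace.Opens.ext (PrimeSpectrum.localization_away_comap_range _ _)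
      obtain ⟨V, hV, e, he⟩ := PuncBundle.exists_iso_of_chart PuncBundle.φ PuncBundle.UU
        (CommRingCat.ofHom (algebraMap ℂ (MvPolynomial (Fin 2) ℂ)))
        (CommRingCat.ofHom (algebraMap PuncBundle.A PuncBundle.Ay))
        (CommRingCat.ofHom (algebraMap ℂ (MvPolynomial (Fin 2) ℂ)))
        _ _ _ PuncBundle.isPushout_y (PuncBundle.isPushout_poly ℂ PuncBundle.Ay)
        (by rw [hr]; exact le_sup_right)
      refine ⟨V, ?_, e, he⟩
      rw [hV, hr]
      exact hx
  have key := H 2 one_lt_two PuncBundle.UU rfl (Spec.map PuncBundle.φ ⁻¹ᵁ PuncBundle.UU).toScheme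
    (Spec.map PuncBundle.φ ∣_ PuncBundle.UU) hloc
  -- the total space is not affine
  have hna : ¬ IsAffine (Spec.map PuncBundle.φ ⁻¹ᵁ PuncBundle.UU).toScheme := by
    let p : Spec (CommRingCat.of PuncBundle.R) :=
      PrimeSpectrum.comap (((TrivSqZeroExt.fstHom ℂ ℂ ℂ) : DualNumber ℂ →+* ℂ).comp
        PuncBundle.evalDual) ⊥
    refine PuncBundle.not_isAffine_of_isIso_resHom _ _ PuncBundle.isIso_R p ?_
    rw [PuncBundle.preimage_UU]
    have hx : ∀ a : PuncBundle.A, MvPolynomial.eval (fun _ => (0 : ℂ)) a = 0 →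
        algebraMap PuncBundle.A PuncBundle.R a ∈ p.asIdeal := by
      intro a ha
      change (((TrivSqZeroExt.fstHom ℂ ℂ ℂ) : DualNumber ℂ →+* ℂ).comp
        PuncBundle.evalDual) (algebraMap PuncBundle.A PuncBundle.R a) ∈ (⊥ : Ideal ℂ)
      rw [RingHom.comp_apply, PuncBundle.evalDual_algebraMap, ha]
      simp
    rintro (h | h)
    · exact h (hx _ (by simp))
    · exact h (hx _ (by simp))
  obtain ⟨e, he⟩ := key.mpr hna
  obtain ⟨E, hE⟩ := PuncBundle.exists_iso_trivial PuncBundle.ψ PuncBundle.UU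
    (CommRingCat.ofHom (algebraMap ℂ (MvPolynomial (Fin 2) ℂ)))
    (CommRingCat.ofHom (algebraMap ℂ (MvPolynomial (Fin 2) ℂ))) _
    (PuncBundle.isPushout_poly ℂ PuncBundle.A)
  obtain ⟨f, hf⟩ := PuncBundle.exists_algebra_iso PuncBundle.φ PuncBundle.ψ PuncBundle.UU
    PuncBundle.isIso_R PuncBundle.isIso_P (e ≪≫ E.symm) (by
      rw [← hE, Iso.trans_hom, Iso.symm_hom, Category.assoc, Iso.inv_hom_id_assoc]
      exact he)
  exact PuncBundle.no_algebra_iso f hf

end Pool.Agent.S00522
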