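-- Counterexample: a right distributive (even right chain) ring, integral over its center, that is
-- not left distributive.
import Pool.Statements.S00790

set_option autoImplicit false
open Pool Pool.MP_145108_al

namespace Pool.Agent.S00790


section Triv

variable {F D : Type} [Field F] [Ring D] [Algebra F D] (σ : D →ₐ[F] D)

/-- The ring of matrices `[[σ d, e], [0, d]]`. -/
def triv : Subalgebra F (Matrix (Fin 2) (Fin 2) D) where
  carrier := {M | M 1 0 = 0 ∧ M 0 0 = σ (M 1 1)}
  mul_mem' := by
    rintro a b ⟨ha, ha'⟩ ⟨hb, hb'⟩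
    constructor
    · simp [Matrix.mul_apply, Fin.sum_univ_two, ha, hb]
    · simp [Matrix.mul_apply, Fin.sum_univ_two, ha, hb, ha', hb']
  add_mem' := by
    rintro a b ⟨ha, ha'⟩ ⟨hb, hb'⟩
    constructor
    · simp [ha, hb]
    · simp [ha', hb']
  algebraMap_mem' := by
    intro r
    constructor
    · simp [Matrix.algebraMap_matrix_apply]
    · simp [Matrix.algebraMap_matrix_apply]

variable {σ}

/-- the element with coordinates `d`, `e` -/
def mk (d e : D) : triv σ := ⟨!![σ d, e; 0, d], by constructor <;> simp⟩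

/-- coordinates -/
def fs (x : triv σ) : D := x.1 1 1
def sn (x : triv σ) : D := x.1 0 1

@[simp] lemma fs_mk (d e : D) : fs (mk (σ := σ) d e) = d := by simp [fs, mk]
@[simp] lemma sn_mk (d e : D) : sn (mk (σ := σ) d e) = e := by simp [sn, mk]

lemma ext' {x y : triv σ} (h1 : fs x = fs y) (h2 : sn x = sn y) : x = y := by
  obtain ⟨x, hx, hx'⟩ := x
  obtain ⟨y, hy, hy'⟩ := y
  simp only [fs, sn] at h1 h2
  apply Subtype.ext
  ext i j
  fin_cases i <;> fin_cases j
  · simp [hx', hy', h1]
  · simpa using h2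
  · simp [hx, hy]
  · simpa using h1

@[simp] lemma fs_mul (x y : triv σ) : fs (x * y) = fs x * fs y := by
  obtain ⟨x, hx, hx'⟩ := x
  obtain ⟨y, hy, hy'⟩ := y
  simp [fs, Matrix.mul_apply, Fin.sum_univ_two, hx]

@[simp] lemma sn_mul (x y : triv σ) : sn (x * y) = σ (fs x) * sn y + sn x * fs y := by
  obtain ⟨x, hx, hx'⟩ := x
  obtain ⟨y, hy, hy'⟩ := y
  simp [fs, sn, Matrix.mul_apply, Fin.sum_univ_two, hx']

@[simp] lemma fs_add (x y : triv σ) : fs (x + y) = fs x + fs y := rfl
@[simp] lemma sn_add (x y : triv σ) : sn (x + y) = sn x + sn y := rfl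
@[simp] lemma fs_zero : fs (0 : triv σ) = 0 := rfl
@[simp] lemma sn_zero : sn (0 : triv σ) = 0 := rfl
@[simp] lemma fs_one : fs (1 : triv σ) = 1 := by simp [fs]
@[simp] lemma sn_one : sn (1 : triv σ) = 0 := by simp [sn]

/-- first coordinate as an algebra hom -/
def fsHom (σ : D →ₐ[F] D) : triv σ →ₐ[F] D where
  toFun := fs
  map_one' := fs_one
  map_mul' := fs_mul
  map_zero' := fs_zero
  map_add' := fs_add
  commutes' r := by
    simp only [fs]
    change (algebraMap F (Matrix (Fin 2) (Fin 2) D) r) 1 1 = _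
    simp [Matrix.algebraMap_matrix_apply]

lemma integral_triv [Algebra.IsIntegral F D] (x : triv σ) : IsIntegral F x := by
  obtain ⟨p, hp, hpx⟩ := Algebra.IsIntegral.isIntegral (R := F) (fsHom σ x)
  refine ⟨p ^ 2, hp.pow 2, ?_⟩
  have h1 : fs (Polynomial.aeval x p) = 0 := by
    have := Polynomial.aeval_algHom_apply (fsHom σ) x p
    have h2 : fsHom σ (Polynomial.aeval x p) = 0 := by
      rw [← this]; exact hpx
    exact h2
  change Polynomial.aeval x (p ^ 2) = 0
  rw [map_pow, pow_two]
  apply ext'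
  · simp [h1]
  · simp [h1]

/-- chain condition on right divisibility -/
lemma right_chain (hdiv : ∀ d : D, d ≠ 0 → ∃ d', d * d' = 1) (x y : triv σ) :
    (∃ r, y = x * r) ∨ (∃ r, x = y * r) := by
  by_cases hx : fs x = 0
  · by_cases hy : fs y = 0
    · by_cases hx' : sn x = 0
      · right
        refine ⟨0, ?_⟩
        apply ext' <;> simp [hx, hx']
      · left
        obtain ⟨e, he⟩ := hdiv _ hx'
        refine ⟨mk (e * sn y) 0, ?_⟩
        apply ext'
        · simp [hx, hy]
        · simp [← mul_assoc, he]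
    · right
      obtain ⟨e, he⟩ := hdiv _ hy
      refine ⟨mk (e * fs x) (σ e * (sn x - sn y * (e * fs x))), ?_⟩
      apply ext'
      · simp [← mul_assoc, he]
      · have : σ (fs y) * σ e = 1 := by rw [← map_mul, he, map_one]
        simp only [sn_mul, sn_mk, fs_mk]
        rw [← mul_assoc, this]
        simp
  · left
    obtain ⟨e, he⟩ := hdiv _ hx
    refine ⟨mk (e * fs y) (σ e * (sn y - sn x * (e * fs y))), ?_⟩
    apply ext'
    · simp [← mul_assoc, he]
    · have : σ (fs x) * σ e = 1 := by rw [← map_mul, he, map_one]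
      simp only [sn_mul, sn_mk, fs_mk]
      rw [← mul_assoc, this]
      simp

lemma le_total_right (hdiv : ∀ d : D, d ≠ 0 → ∃ d', d * d' = 1)
    (I J : Submodule (triv σ)ᵐᵒᵖ (triv σ)) : I ≤ J ∨ J ≤ I := by
  by_contra hcon
  push Not at hcon
  obtain ⟨h1, h2⟩ := hcon
  rw [SetLike.not_le_iff_exists] at h1 h2
  obtain ⟨x, hxI, hxJ⟩ := h1
  obtain ⟨y, hyJ, hyI⟩ := h2
  rcases right_chain hdiv x y with ⟨r, hr⟩ | ⟨r, hr⟩
  · apply hyI
    rw [hr]
    exact I.smul_mem (MulOpposite.op r) hxI
  · apply hxJ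
    rw [hr]
    exact J.smul_mem (MulOpposite.op r) hyJ

lemma distrib_right (hdiv : ∀ d : D, d ≠ 0 → ∃ d', d * d' = 1)
    (a b c : Submodule (triv σ)ᵐᵒᵖ (triv σ)) : a ⊓ (b ⊔ c) = (a ⊓ b) ⊔ (a ⊓ c) := by
  rcases le_total_right hdiv b c with h | h
  · rw [sup_eq_right.mpr h, sup_eq_right.mpr (inf_le_inf_left a h)]
  · rw [sup_eq_left.mpr h, sup_eq_left.mpr (inf_le_inf_left a h)]

lemma not_distrib_left (hdiv' : ∀ d : D, d ≠ 0 → ∃ d', d' * d = 1) [Nontrivial D]
    (t : D) (ht : t ∉ Set.range σ) :
    ¬ ∀ a b c : Submodule (triv σ) (triv σ), a ⊓ (b ⊔ c) = (a ⊓ b) ⊔ (a ⊓ c) := by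
  intro h
  have key := h (Submodule.span _ {mk 0 (1 + t)}) (Submodule.span _ {mk 0 1})
    (Submodule.span _ {mk 0 t})
  have h1 : mk (σ := σ) 0 (1 + t) ∈ (Submodule.span (triv σ) {mk (σ := σ) 0 (1 + t)}) ⊓
      ((Submodule.span (triv σ) {mk (σ := σ) 0 1}) ⊔ (Submodule.span (triv σ) {mk (σ := σ) 0 t})) := by
    refine ⟨Submodule.mem_span_singleton_self _, ?_⟩
    have : mk (σ := σ) 0 (1 + t) = mk 0 1 + mk 0 t := by
      apply ext' <;> simp
    rw [this]
    exact Submodule.add_mem_sup (Submodule.mem_span_singleton_self _)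
      (Submodule.mem_span_singleton_self _)
  have hb : (Submodule.span (triv σ) {mk (σ := σ) 0 (1 + t)}) ⊓
      (Submodule.span (triv σ) {mk (σ := σ) 0 1}) = ⊥ := by
    rw [eq_bot_iff]
    rintro z ⟨hz1, hz2⟩
    rw [SetLike.mem_coe, Submodule.mem_span_singleton] at hz1 hz2
    obtain ⟨r, hr⟩ := hz1
    obtain ⟨s, hs⟩ := hz2
    rw [smul_eq_mul] at hr hs
    by_cases hr0 : fs r = 0
    · rw [Submodule.mem_bot, ← hr]
      apply ext' <;> simp [hr0]
    · exfalso
      obtain ⟨e, he⟩ := hdiv' _ hr0
      have h3 : sn (r * mk (σ := σ) 0 (1 + t)) = sn (s * mk (σ := σ) 0 1) := by rw [hr, hs]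
      simp only [sn_mul, sn_mk, fs_mk, mul_zero, add_zero, mul_one] at h3
      apply ht
      refine ⟨e * fs s - 1, ?_⟩
      rw [map_sub, map_mul, ← h3, ← mul_assoc, ← map_mul, he]
      simp
  have hc : (Submodule.span (triv σ) {mk (σ := σ) 0 (1 + t)}) ⊓
      (Submodule.span (triv σ) {mk (σ := σ) 0 t}) = ⊥ := by
    rw [eq_bot_iff]
    rintro z ⟨hz1, hz2⟩
    rw [SetLike.mem_coe, Submodule.mem_span_singleton] at hz1 hz2
    obtain ⟨r, hr⟩ := hz1
    obtain ⟨s, hs⟩ := hz2
    rw [smul_eq_mul] at hr hs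
    by_cases hr0 : fs r = 0
    · rw [Submodule.mem_bot, ← hr]
      apply ext' <;> simp [hr0]
    · exfalso
      have h3 : sn (r * mk (σ := σ) 0 (1 + t)) = sn (s * mk (σ := σ) 0 t) := by rw [hr, hs]
      simp only [sn_mul, sn_mk, fs_mk, mul_zero, add_zero] at h3
      -- σ r (1+t) = σ s t
      by_cases hrs : fs s = fs r
      · rw [hrs] at h3
        have : σ (fs r) = 0 := by
          have h4 : σ (fs r) * (1 + t) - σ (fs r) * t = 0 := by rw [h3, sub_self]
          rw [← mul_sub] at h4
          simpa using h4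
        obtain ⟨e, he⟩ := hdiv' _ hr0
        have : (1 : D) = 0 := by
          rw [← map_one σ, ← he, map_mul, this, mul_zero]
        exact one_ne_zero this
      · have hne : fs s - fs r ≠ 0 := sub_ne_zero.mpr hrs
        obtain ⟨e, he⟩ := hdiv' _ hne
        apply ht
        refine ⟨e * fs r, ?_⟩
        have h5 : σ (fs r) = σ (fs s - fs r) * t := by
          rw [map_sub, sub_mul, ← h3]
          rw [mul_add, mul_one]
          abel
        rw [map_mul, h5, ← mul_assoc, ← map_mul, he]
        simp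
  rw [key, hb, hc] at h1
  simp only [sup_bot_eq, Submodule.mem_bot] at h1
  have h6 : sn (mk (σ := σ) 0 (1 + t)) = 0 := by rw [h1]; simp
  rw [sn_mk] at h6
  apply ht
  refine ⟨-1, ?_⟩
  rw [map_neg, map_one]
  have : t = (1 + t) - 1 := by abel
  rw [this, h6]
  simp

end Triv



section Cliff

open CliffordAlgebra

variable {F : Type} [Field F] (d α : ℕ → F)

/-- diagonal bilinear form -/
noncomputable def B : LinearMap.BilinForm F (ℕ →₀ F) :=
  Finsupp.linearCombination F (fun i => d i • (Finsupp.lapply i : (ℕ →₀ F) →ₗ[F] F))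

noncomputable def Q : QuadraticForm F (ℕ →₀ F) := LinearMap.BilinMap.toQuadraticMap (B d)

/-- basis vector -/
noncomputable def e (F : Type) [Field F] (i : ℕ) : ℕ →₀ F := Finsupp.single i 1

lemma B_e (i : ℕ) (y : ℕ →₀ F) : B d (e F i) y = d i * y i := by
  simp [B, e, Finsupp.linearCombination_single]

lemma B_symm (x y : ℕ →₀ F) : B d x y = B d y x := by
  have h : B d = (B d).flip := by
    apply Finsupp.lhom_ext'
    intro i
    apply LinearMap.ext_ring
    apply Finsupp.lhom_ext'
    intro j
    apply LinearMap.ext_ring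
    change B d (e F i) (e F j) = B d (e F j) (e F i)
    rw [B_e, B_e]
    by_cases hij : i = j
    · subst hij; rfl
    · simp [e, hij, Ne.symm hij]
  conv_lhs => rw [h]
  rfl

/-- reversed polynomials -/
noncomputable def w : ℕ → (ℕ →₀ F)
  | 0 => e F 0
  | n + 1 => w n - α n • (e F (n+1) + α n • w n)

noncomputable def u (n : ℕ) : ℕ →₀ F := e F (n+1) + α n • w α n

lemma w_zero : w α 0 = e F 0 := by simp [w]
lemma w_succ (n : ℕ) : w α (n+1) = w α n - α n • u α n := by rw [w, u]

lemma w_supp (n k : ℕ) (h : n < k) : w α n k = 0 := by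
  induction n with
  | zero => simp [w_zero, e, Finsupp.single_apply]; omega
  | succ n ih =>
    have h1 : w α n k = 0 := ih (by omega)
    rw [w_succ, u]
    simp only [Finsupp.coe_sub, Finsupp.coe_smul, Finsupp.coe_add, Pi.sub_apply, Pi.smul_apply,
      Pi.add_apply, h1, smul_eq_mul, e, Finsupp.single_apply]
    rw [if_neg (by omega)]
    simp

lemma u_supp (n k : ℕ) (h : n + 1 < k) : u α n k = 0 := by
  have h1 : w α n k = 0 := w_supp α n k (by omega)
  rw [u]
  simp only [Finsupp.coe_smul, Finsupp.coe_add, Pi.smul_apply,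
      Pi.add_apply, h1, smul_eq_mul, e, Finsupp.single_apply]
  rw [if_neg (by omega)]
  simp

variable {d α}

lemma Bw_w (hd : ∀ n, d (n+1) = (1 - α n ^ 2) * d n) (n : ℕ) : B d (w α n) (w α n) = d n := by
  induction n with
  | zero => rw [w_zero, B_e]; simp [e]
  | succ n ih =>
    have h0 : B d (e F (n+1)) (w α n) = 0 := by
      rw [B_e, w_supp α n (n+1) (by omega), mul_zero]
    have h0' : B d (w α n) (e F (n+1)) = 0 := by rw [B_symm, h0]
    have h1 : B d (e F (n+1)) (e F (n+1)) = d (n+1) := by rw [B_e]; simp [e]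
    rw [w_succ, u]
    simp only [map_sub, map_add, map_smul, LinearMap.sub_apply, LinearMap.add_apply,
      LinearMap.smul_apply, h0, h0', h1, ih, smul_eq_mul]
    rw [hd n]; ring

lemma Bu_u (hd : ∀ n, d (n+1) = (1 - α n ^ 2) * d n) (n : ℕ) : B d (u α n) (u α n) = d n := by
  have h0 : B d (e F (n+1)) (w α n) = 0 := by
    rw [B_e, w_supp α n (n+1) (by omega), mul_zero]
  have h0' : B d (w α n) (e F (n+1)) = 0 := by rw [B_symm, h0]
  have h1 : B d (e F (n+1)) (e F (n+1)) = d (n+1) := by rw [B_e]; simp [e]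
  rw [u]
  simp only [map_add, map_smul, LinearMap.add_apply,
      LinearMap.smul_apply, h0, h0', h1, Bw_w hd, smul_eq_mul]
  rw [hd n]; ring

lemma Be_u (m n : ℕ) (h : m < n) : B d (e F (n+1)) (u α m) = 0 := by
  rw [B_e, u_supp α m (n+1) (by omega), mul_zero]

lemma Bw_u (hd : ∀ n, d (n+1) = (1 - α n ^ 2) * d n) (m n : ℕ) (h : m < n) :
    B d (w α n) (u α m) = 0 := by
  induction n with
  | zero => omega
  | succ n ih =>
    rw [w_succ]
    rcases Nat.lt_succ_iff_lt_or_eq.mp h with h | h
    · have h1 := ih h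
      have h2 := Be_u (d := d) (α := α) m n h
      rw [u]
      simp only [map_sub, map_add, map_smul, LinearMap.sub_apply, LinearMap.add_apply,
        LinearMap.smul_apply, smul_eq_mul, h1, h2]
      ring
    · subst h
      have h0 : B d (w α m) (e F (m+1)) = 0 := by
        rw [B_symm, B_e, w_supp α m (m+1) (by omega), mul_zero]
      have h3 : B d (w α m) (u α m) = α m * d m := by
        rw [u]
        simp only [map_add, map_smul, h0, Bw_w hd, smul_eq_mul]
        ring
      simp only [map_sub, map_smul, LinearMap.sub_apply,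
        LinearMap.smul_apply, smul_eq_mul, h3, Bu_u hd]
      ring

lemma Bu_u' (hd : ∀ n, d (n+1) = (1 - α n ^ 2) * d n) (m n : ℕ) (h : m < n) :
    B d (u α n) (u α m) = 0 := by
  have h1 := Bw_u hd m n h
  have h2 := Be_u (d := d) (α := α) m n h
  conv_lhs => rw [u]
  simp only [map_add, map_smul, LinearMap.add_apply,
        LinearMap.smul_apply, smul_eq_mul, h1, h2]
  ring

lemma B_uu (hd : ∀ n, d (n+1) = (1 - α n ^ 2) * d n) (m n : ℕ) :
    B d (u α m) (u α n) = B d (e F m) (e F n) := by
  rcases lt_trichotomy m n with h | h | h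
  · rw [B_symm, Bu_u' hd m n h, B_e]
    simp [e, h.ne]
  · subst h
    rw [Bu_u hd, B_e]
    simp [e]
  · rw [Bu_u' hd n m h, B_e]
    simp [e, h.ne']

/-- the isometry -/
noncomputable def shiftIso (hd : ∀ n, d (n+1) = (1 - α n ^ 2) * d n) : (Q d) →qᵢ (Q d) where
  toLinearMap := Finsupp.linearCombination F (u α)
  map_app' := by
    have h : (B d).compl₁₂ (Finsupp.linearCombination F (u α)) (Finsupp.linearCombination F (u α))
        = B d := by
      apply Finsupp.lhom_ext'
      intro i
      apply LinearMap.ext_ring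
      apply Finsupp.lhom_ext'
      intro j
      apply LinearMap.ext_ring
      change B d (Finsupp.linearCombination F (u α) (Finsupp.single i 1))
        (Finsupp.linearCombination F (u α) (Finsupp.single j 1)) = B d (e F i) (e F j)
      rw [Finsupp.linearCombination_single, Finsupp.linearCombination_single, one_smul, one_smul]
      exact B_uu hd i j
    intro x
    have := congrArg (fun L => L x x) h
    exact this

/-- the linear functional -/
noncomputable def lam (α : ℕ → F) : Module.Dual F (ℕ →₀ F) :=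
  Finsupp.linearCombination F (fun k => match k with
    | 0 => (1 : F)
    | n + 1 => - α n)

lemma lam_e_zero : lam α (e F 0) = 1 := by simp [lam, e]
lemma lam_e_succ (n : ℕ) : lam α (e F (n+1)) = - α n := by simp [lam, e]

lemma lam_w (n : ℕ) : lam α (w α n) = 1 ∧ lam α (u α n) = 0 := by
  induction n with
  | zero =>
    refine ⟨by rw [w_zero, lam_e_zero], ?_⟩
    rw [u, w_zero, map_add, map_smul, lam_e_succ, lam_e_zero]
    simp
  | succ n ih =>
    have h1 : lam α (w α (n+1)) = 1 := by
      rw [w_succ, map_sub, map_smul, ih.1, ih.2]; simp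
    refine ⟨h1, ?_⟩
    rw [u, map_add, map_smul, h1, lam_e_succ]
    simp

/-- the endomorphism of the Clifford algebra -/
noncomputable def sig (hd : ∀ n, d (n+1) = (1 - α n ^ 2) * d n) :
    CliffordAlgebra (Q d) →ₐ[F] CliffordAlgebra (Q d) :=
  CliffordAlgebra.map (shiftIso hd)

lemma contract_sig (hd : ∀ n, d (n+1) = (1 - α n ^ 2) * d n) (x : CliffordAlgebra (Q d)) :
    contractLeft (lam α) (sig hd x) = 0 := by
  have hl : ∀ m : ℕ →₀ F, lam α (shiftIso hd m) = 0 := by
    intro m
    have : lam α ∘ₗ (Finsupp.linearCombination F (u α)) = 0 := by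
      apply Finsupp.lhom_ext'
      intro i
      apply LinearMap.ext_ring
      change lam α (Finsupp.linearCombination F (u α) (Finsupp.single i 1)) = 0
      rw [Finsupp.linearCombination_single, one_smul]
      exact (lam_w i).2
    exact congrArg (fun L => L m) this
  induction x using CliffordAlgebra.left_induction with
  | algebraMap r =>
    rw [AlgHom.commutes, contractLeft_algebraMap]
  | add x y hx hy => rw [map_add, map_add, hx, hy, add_zero]
  | ι_mul x m hx =>
    rw [map_mul, sig, CliffordAlgebra.map_apply_ι, contractLeft_ι_mul, hl, zero_smul]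
    rw [sig] at hx
    rw [hx, mul_zero, sub_zero]

lemma not_mem_range [Nontrivial (CliffordAlgebra (Q d))] (hd : ∀ n, d (n+1) = (1 - α n ^ 2) * d n) :
    ι (Q d) (e F 0) ∉ Set.range (sig (α := α) hd) := by
  rintro ⟨x, hx⟩
  have h1 := contract_sig hd x
  rw [hx, contractLeft_ι, lam_e_zero, map_one] at h1
  exact one_ne_zero h1

/-- the generators -/
noncomputable def g (d : ℕ → F) (i : ℕ) : CliffordAlgebra (Q d) := ι (Q d) (e F i)

lemma g_sq (i : ℕ) : g d i * g d i = algebraMap F _ (d i) := by
  rw [g, ι_sq_scalar]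
  congr 1
  change B d (e F i) (e F i) = d i
  rw [B_e]; simp [e]

lemma g_anti (i j : ℕ) (h : i ≠ j) : g d i * g d j = - (g d j * g d i) := by
  rw [g, g, ι_mul_ι_comm]
  have : QuadraticMap.polar (Q d) (e F i) (e F j) = 0 := by
    have h1 : QuadraticMap.polar (Q d) (e F i) (e F j) = B d (e F i) (e F j) + B d (e F j) (e F i) := by
      exact LinearMap.BilinMap.polar_toQuadraticMap (B := B d) (e F i) (e F j)
    rw [h1, B_e, B_e]
    simp [e, h, Ne.symm h]
  rw [this]; simp

/-- filtration -/
noncomputable def Mf (d : ℕ → F) : ℕ → Submodule F (CliffordAlgebra (Q d))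
  | 0 => Submodule.span F {1}
  | n + 1 => Mf d n ⊔ (Mf d n).map (LinearMap.mulLeft F (g d n))

lemma mem_Mf_succ (n : ℕ) (x : CliffordAlgebra (Q d)) :
    x ∈ Mf d (n+1) ↔ ∃ a ∈ Mf d n, ∃ b ∈ Mf d n, x = a + g d n * b := by
  rw [Mf, Submodule.mem_sup]
  constructor
  · rintro ⟨a, ha, c, hc, rfl⟩
    obtain ⟨b, hb, rfl⟩ := (Submodule.mem_map).mp hc
    exact ⟨a, ha, b, hb, rfl⟩
  · rintro ⟨a, ha, b, hb, rfl⟩
    exact ⟨a, ha, _, Submodule.mem_map.mpr ⟨b, hb, rfl⟩, rfl⟩

lemma Mf_mono (n : ℕ) : Mf d n ≤ Mf d (n+1) := by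
  rw [Mf]; exact le_sup_left

lemma Mf_mono' {m n : ℕ} (h : m ≤ n) : Mf d m ≤ Mf d n := monotone_nat_of_le_succ Mf_mono h

lemma Mf_g (n i : ℕ) (h : i < n) (x : CliffordAlgebra (Q d)) (hx : x ∈ Mf d n) :
    g d i * x ∈ Mf d n := by
  induction n generalizing x with
  | zero => omega
  | succ n ih =>
    rw [mem_Mf_succ] at hx
    obtain ⟨a, ha, b, hb, rfl⟩ := hx
    rcases Nat.lt_succ_iff_lt_or_eq.mp h with h' | h'
    · rw [mem_Mf_succ]
      refine ⟨g d i * a, ih h' a ha, -(g d i * b), (Mf d n).neg_mem (ih h' b hb), ?_⟩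
      rw [mul_add, ← mul_assoc, g_anti i n h'.ne]
      noncomm_ring
    · subst h'
      rw [mem_Mf_succ]
      refine ⟨algebraMap F _ (d i) * b, ?_, a, ha, ?_⟩
      · rw [← Algebra.smul_def]; exact (Mf d i).smul_mem _ hb
      · rw [mul_add, ← mul_assoc, g_sq, add_comm]

lemma one_mem_Mf (n : ℕ) : (1 : CliffordAlgebra (Q d)) ∈ Mf d n :=
  Mf_mono' (Nat.zero_le n) (by rw [Mf]; exact Submodule.mem_span_singleton_self _)

lemma exists_Mf (x : CliffordAlgebra (Q d)) : ∃ n, x ∈ Mf d n := by
  induction x using CliffordAlgebra.left_induction with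
  | algebraMap r =>
    refine ⟨0, ?_⟩
    rw [Algebra.algebraMap_eq_smul_one]
    exact (Mf d 0).smul_mem _ (one_mem_Mf 0)
  | add x y hx hy =>
    obtain ⟨n, hn⟩ := hx
    obtain ⟨m, hm⟩ := hy
    exact ⟨max n m, (Mf d _).add_mem (Mf_mono' (le_max_left _ _) hn) (Mf_mono' (le_max_right _ _) hm)⟩
  | ι_mul x m hx =>
    obtain ⟨n, hn⟩ := hx
    induction m using Finsupp.induction_linear with
    | zero => exact ⟨n, by rw [map_zero, zero_mul]; exact (Mf d n).zero_mem⟩
    | add f1 f2 h1 h2 =>
      obtain ⟨n1, h1⟩ := h1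
      obtain ⟨n2, h2⟩ := h2
      refine ⟨max n1 n2, ?_⟩
      rw [map_add, add_mul]
      exact (Mf d _).add_mem (Mf_mono' (le_max_left _ _) h1) (Mf_mono' (le_max_right _ _) h2)
    | single i c =>
      refine ⟨max n (i+1), ?_⟩
      have : (Finsupp.single i c : ℕ →₀ F) = c • e F i := by simp [e]
      rw [this, map_smul, smul_mul_assoc]
      exact (Mf d _).smul_mem _ (Mf_g _ i (by omega) x (Mf_mono' (le_max_left _ _) hn))

lemma Mf_mul (k n : ℕ) (h : k ≤ n) (x y : CliffordAlgebra (Q d)) (hx : x ∈ Mf d k)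
    (hy : y ∈ Mf d n) : x * y ∈ Mf d n := by
  induction k generalizing x y with
  | zero =>
    rw [Mf, Submodule.mem_span_singleton] at hx
    obtain ⟨c, rfl⟩ := hx
    rw [smul_mul_assoc, one_mul]
    exact (Mf d n).smul_mem _ hy
  | succ k ih =>
    rw [mem_Mf_succ] at hx
    obtain ⟨a, ha, b, hb, rfl⟩ := hx
    rw [add_mul, mul_assoc]
    refine (Mf d n).add_mem (ih (by omega) a y ha hy) (Mf_g n k (by omega) _ (ih (by omega) b y hb hy))

lemma Mf_fg (n : ℕ) : (Mf d n).FG := by
  induction n with
  | zero => exact Submodule.fg_span_singleton _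
  | succ n ih => exact ih.sup (ih.map _)

/-- the subalgebras -/
noncomputable def Sf (d : ℕ → F) (n : ℕ) : Subalgebra F (CliffordAlgebra (Q d)) where
  carrier := Mf d n
  mul_mem' := fun {a b} ha hb => Mf_mul n n le_rfl a b ha hb
  add_mem' := fun {a b} ha hb => (Mf d n).add_mem ha hb
  algebraMap_mem' := fun r => by
    rw [Algebra.algebraMap_eq_smul_one]
    exact (Mf d n).smul_mem _ (one_mem_Mf n)

instance integral_cliff : Algebra.IsIntegral F (CliffordAlgebra (Q d)) := by
  constructor
  intro x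
  obtain ⟨n, hn⟩ := exists_Mf x
  refine IsIntegral.of_mem_of_fg (Sf d n) ?_ x hn
  have : Subalgebra.toSubmodule (Sf d n) = Mf d n := by
    ext y; rfl
  rw [this]
  exact Mf_fg n

end Cliff



section Hahn

/-- exponent group -/
abbrev Gam : Type := Lex (ℕ →₀ ℤ)

/-- the big field -/
abbrev K : Type := HahnSeries Gam ℚ

/-- the parity functional -/
noncomputable def par (n : ℕ) : Gam →+ ℤ where
  toFun γ := ∑ m ∈ Finset.range n, (ofLex γ) m
  map_zero' := by simp
  map_add' a b := by
    simp [Finset.sum_add_distrib]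

/-- characters -/
noncomputable def chi (n : ℕ) (γ : Gam) : ℚ := (-1 : ℚ) ^ (par n γ)

lemma chi_zero (n : ℕ) : chi n 0 = 1 := by simp [chi]

lemma chi_add (n : ℕ) (a b : Gam) : chi n (a + b) = chi n a * chi n b := by
  rw [chi, chi, chi, map_add, zpow_add₀ (by norm_num)]

lemma chi_ne (n : ℕ) (a : Gam) : chi n a ≠ 0 := zpow_ne_zero _ (by norm_num)

lemma chi_sq (n : ℕ) (a : Gam) : chi n a * chi n a = 1 := by
  rcases Int.even_or_odd (par n a) with h | h
  · simp [chi, h.neg_one_zpow]
  · simp [chi, h.neg_one_zpow]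

lemma even_of_chi (n : ℕ) (a : Gam) (h : chi n a = 1) : Even (par n a) := by
  by_contra hcon
  rw [Int.not_even_iff_odd] at hcon
  rw [chi, hcon.neg_one_zpow] at h
  norm_num at h

/-- sign-change automorphism -/
noncomputable def eps0 (n : ℕ) (x : K) : K where
  coeff γ := chi n γ * x.coeff γ
  isPWO_support' := x.isPWO_support.mono (by
    intro γ hγ
    rw [Function.mem_support] at hγ
    rw [HahnSeries.mem_support]
    exact right_ne_zero_of_mul hγ)

lemma coeff_eps0 (n : ℕ) (x : K) (γ : Gam) : (eps0 n x).coeff γ = chi n γ * x.coeff γ := rfl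

lemma supp_eps0 (n : ℕ) (x : K) : (eps0 n x).support = x.support := by
  ext γ
  rw [HahnSeries.mem_support, HahnSeries.mem_support, coeff_eps0]
  simp [chi_ne]

noncomputable def eps (n : ℕ) : K →+* K where
  toFun := eps0 n
  map_one' := by
    ext γ
    rw [coeff_eps0, HahnSeries.coeff_one]
    split_ifs with h
    · subst h; simp [chi_zero]
    · simp
  map_zero' := by
    ext γ
    rw [coeff_eps0]; simp
  map_add' x y := by
    ext γ
    simp only [coeff_eps0, HahnSeries.coeff_add]
    ring
  map_mul' x y := by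
    ext γ
    rw [coeff_eps0]
    rw [HahnSeries.coeff_mul, HahnSeries.coeff_mul, Finset.mul_sum]
    refine Finset.sum_congr ?_ ?_
    · ext ij
      simp only [Finset.mem_antidiagonal, supp_eps0]
    · intro ij hij
      rw [coeff_eps0, coeff_eps0]
      simp only [Finset.mem_antidiagonal] at hij
      rw [← hij.2.2, chi_add]
      ring

lemma coeff_eps (n : ℕ) (x : K) (γ : Gam) : (eps n x).coeff γ = chi n γ * x.coeff γ := rfl

lemma eps_eps (n : ℕ) (x : K) : eps n (eps n x) = x := by
  ext γ
  rw [coeff_eps, coeff_eps, ← mul_assoc, chi_sq, one_mul]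

lemma eps_comm (n m : ℕ) (x : K) : eps n (eps m x) = eps m (eps n x) := by
  ext γ
  simp only [coeff_eps]; ring

lemma orderTop_eps (n : ℕ) (x : K) : (eps n x).orderTop = x.orderTop := by
  by_cases hx : x = 0
  · simp [hx]
  · obtain ⟨g, hg⟩ := WithTop.ne_top_iff_exists.mp (HahnSeries.orderTop_ne_top.mpr hx)
    rw [← hg]
    apply HahnSeries.orderTop_eq_of_le
    · change g ∈ (eps0 n x).support
      rw [supp_eps0, HahnSeries.mem_support]
      exact HahnSeries.coeff_orderTop_ne hg.symm
    · intro g' hg'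
      change g' ∈ (eps0 n x).support at hg'
      rw [supp_eps0, HahnSeries.mem_support] at hg'
      have := HahnSeries.orderTop_le_of_coeff_ne_zero hg'
      rw [← hg] at this
      exact WithTop.coe_le_coe.mp this

/-- the base field -/
noncomputable def FF : Subfield K := ⨅ n, RingHom.eqLocusField (eps n) (RingHom.id K)

lemma mem_F (x : K) : x ∈ FF ↔ ∀ n, eps n x = x := by
  rw [FF, Subfield.mem_iInf]
  rfl

/-- unit vector exponents -/
noncomputable def dl (n : ℕ) : Gam := toLex (Finsupp.single n 1)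

lemma par_dl (n m : ℕ) : par n (dl m) = if m < n then 1 else 0 := by
  change ∑ k ∈ Finset.range n, (Finsupp.single m (1:ℤ)) k = _
  simp only [Finsupp.single_apply, Finset.sum_ite_eq, Finset.mem_range]

/-- monomials -/
noncomputable def z (n : ℕ) : K := HahnSeries.single (dl n) 1

lemma eps_z (n m : ℕ) : eps n (z m) = if m < n then - z m else z m := by
  ext γ
  rw [coeff_eps]
  by_cases hγ : γ = dl m
  · subst hγ
    rw [chi, par_dl]
    split_ifs with h
    · rw [HahnSeries.coeff_neg]; simp
    · simp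
  · have : (z m).coeff γ = 0 := HahnSeries.coeff_single_of_ne hγ
    split_ifs <;> simp [this]

lemma orderTop_z (n : ℕ) : (z n).orderTop = (dl n : WithTop Gam) := by
  rw [z, HahnSeries.orderTop_single one_ne_zero]

lemma z_ne (n : ℕ) : z n ≠ 0 := by
  rw [← HahnSeries.orderTop_ne_top, orderTop_z]
  exact WithTop.coe_ne_top

/-- squares of the monomials, in FF -/
noncomputable def T (n : ℕ) : FF := ⟨z n * z n, by
  rw [mem_F]
  intro m
  rw [map_mul, eps_z]
  split_ifs <;> ring⟩

lemma T_val (n : ℕ) : (T n : K) = z n * z n := rfl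

lemma T_ne (n : ℕ) : T n ≠ 0 := by
  intro h
  have : (T n : K) = 0 := by rw [h]; rfl
  rw [T_val] at this
  exact mul_ne_zero (z_ne n) (z_ne n) this

lemma orderTop_neg' (x : K) : (-x).orderTop = x.orderTop := by
  exact HahnSeries.orderTop_neg

lemma dl_inj {n m : ℕ} (h : dl n = dl m) : n = m := by
  by_contra hne
  have := congrArg (fun γ : Gam => (ofLex γ) n) h
  simp [dl, Finsupp.single_apply, Ne.symm hne] at this

lemma TT_ne (n : ℕ) : T n + T (n+1) ≠ 0 := by
  intro h
  have h1 : (T n : K) + (T (n+1) : K) = 0 := by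
    have := congrArg (fun x : FF => (x : K)) h
    exact this
  rw [T_val, T_val] at h1
  have h2 : z n * z n = - (z (n+1) * z (n+1)) := by linear_combination h1
  have h3 := congrArg HahnSeries.orderTop h2
  rw [orderTop_neg', HahnSeries.orderTop_mul, HahnSeries.orderTop_mul, orderTop_z, orderTop_z,
    ← WithTop.coe_add, ← WithTop.coe_add, WithTop.coe_inj] at h3
  have h4 := congrArg (fun γ : Gam => (ofLex γ) n) h3
  simp [dl] at h4

/-- Verblunsky-type parameters -/
noncomputable def al (n : ℕ) : FF := (T n - T (n+1)) / (T n + T (n+1))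

noncomputable def s : ℕ → FF
  | 0 => 1
  | n + 1 => s n * (2 * T n / (T n + T (n+1)))

noncomputable def dd (n : ℕ) : FF := s n ^ 2 * T n

lemma dd_succ (n : ℕ) : dd (n+1) = (1 - al n ^ 2) * dd n := by
  have h := TT_ne n
  rw [dd, dd, s, al]
  field_simp
  ring

instance : CharZero K := by
  have : Function.Injective (algebraMap ℚ K) := (algebraMap ℚ K).injective
  exact charZero_of_injective_algebraMap this

instance : CharZero FF := by
  have : Function.Injective (algebraMap FF K) := (algebraMap FF K).injective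
  constructor
  intro a b hab
  have := congrArg (algebraMap FF K) hab
  simpa using this

lemma s_ne (n : ℕ) : s n ≠ 0 := by
  induction n with
  | zero => rw [s]; exact one_ne_zero
  | succ n ih =>
    rw [s]
    exact mul_ne_zero ih (div_ne_zero (mul_ne_zero two_ne_zero (T_ne n)) (TT_ne n))

lemma dd_ne (n : ℕ) : dd n ≠ 0 := mul_ne_zero (pow_ne_zero _ (s_ne n)) (T_ne n)

lemma eps_F (n : ℕ) (c : FF) : eps n (c : K) = c := (mem_F _).mp c.2 n

/-- evenness of orders in FF -/
lemma even_order (c : FF) (γ : Gam) (h : (c : K).orderTop = γ) (m : ℕ) : Even ((ofLex γ) m) := by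
  have hc : ∀ n, Even (par n γ) := by
    intro n
    apply even_of_chi
    have h1 := congrArg (fun x : K => x.coeff γ) (eps_F n c)
    simp only [coeff_eps] at h1
    have h2 := HahnSeries.coeff_orderTop_ne h
    exact mul_right_cancel₀ h2 (by rw [h1, one_mul])
  have h1 := hc (m+1)
  have h2 := hc m
  have h3 : par (m+1) γ = par m γ + (ofLex γ) m := by
    change ∑ k ∈ Finset.range (m+1), _ = _
    rw [Finset.sum_range_succ]; rfl
  rw [h3] at h1
  exact (Int.even_add.mp h1).mp h2

/-- operators -/
noncomputable def E (n : ℕ) : Module.End FF K where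
  toFun y := (s n : K) * (z n * eps n y)
  map_add' a b := by rw [map_add]; ring
  map_smul' c a := by
    rw [Subfield.smul_def, smul_eq_mul, map_mul, eps_F, Subfield.smul_def, smul_eq_mul]
    simp only [RingHom.id_apply]
    ring

lemma E_apply (n : ℕ) (y : K) : E n y = (s n : K) * (z n * eps n y) := rfl

lemma E_sq (n : ℕ) : E n * E n = algebraMap FF _ (dd n) := by
  ext1 y
  rw [Module.End.mul_apply, E_apply, E_apply, map_mul, map_mul, eps_F, eps_z, eps_eps,
    if_neg (lt_irrefl n)]
  rw [Module.algebraMap_end_apply, Subfield.smul_def, smul_eq_mul, dd]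
  push_cast
  rw [T_val]
  ring

lemma E_anti' (n m : ℕ) (h : n < m) : E n * E m = - (E m * E n) := by
  ext1 y
  rw [LinearMap.neg_apply, Module.End.mul_apply, Module.End.mul_apply, E_apply, E_apply, E_apply, E_apply]
  rw [map_mul, map_mul, map_mul, map_mul, eps_F, eps_F, eps_z, eps_z, if_neg (by omega), if_pos h,
    eps_comm n m]
  ring

lemma E_anti (n m : ℕ) (h : n ≠ m) : E n * E m = - (E m * E n) := by
  rcases lt_or_gt_of_ne h with h | h
  · exact E_anti' n m h
  · rw [E_anti' m n h, neg_neg]

lemma orderTop_E (n : ℕ) : ∃ γ : Gam, (∀ m, m ≠ n → Even ((ofLex γ) m)) ∧ Odd ((ofLex γ) n) ∧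
    ∀ y : K, (E n y).orderTop = γ + y.orderTop := by
  have hs : (s n : K) ≠ 0 := by
    intro h
    exact s_ne n (Subtype.ext h)
  obtain ⟨g, hg⟩ := WithTop.ne_top_iff_exists.mp (HahnSeries.orderTop_ne_top.mpr hs)
  refine ⟨g + dl n, ?_, ?_, ?_⟩
  · intro m hm
    have h1 := even_order (s n) g hg.symm m
    have : (ofLex (g + dl n)) m = (ofLex g) m + 0 := by
      rw [ofLex_add]
      simp [dl, Finsupp.single_apply, Ne.symm hm]
    rw [this, add_zero]; exact h1
  · have h1 := even_order (s n) g hg.symm n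
    have : (ofLex (g + dl n)) n = (ofLex g) n + 1 := by
      rw [ofLex_add]
      simp [dl]
    rw [this]; exact h1.add_one
  · intro y
    rw [E_apply, HahnSeries.orderTop_mul, HahnSeries.orderTop_mul, orderTop_z, orderTop_eps, ← hg,
      WithTop.coe_add, add_assoc]

end Hahn


section Final

open CliffordAlgebra

noncomputable abbrev D : Type := CliffordAlgebra (Q dd)

lemma two_unit : IsUnit (2 : Module.End FF K) := by
  have : (2 : Module.End FF K) = algebraMap FF _ 2 := (map_ofNat (algebraMap FF (Module.End FF K)) 2).symm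
  rw [this]
  exact (IsUnit.mk0 (2 : FF) two_ne_zero).map _

lemma E_cond (v : ℕ →₀ FF) : Finsupp.linearCombination FF E v * Finsupp.linearCombination FF E v
    = algebraMap FF _ (Q dd v) := by
  revert v
  rw [forall_mul_self_eq_iff two_unit]
  apply Finsupp.lhom_ext'
  intro i
  apply LinearMap.ext_ring
  apply Finsupp.lhom_ext'
  intro j
  apply LinearMap.ext_ring
  change Finsupp.linearCombination FF E (Finsupp.single i 1) *
      Finsupp.linearCombination FF E (Finsupp.single j 1) +
    Finsupp.linearCombination FF E (Finsupp.single j 1) *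
      Finsupp.linearCombination FF E (Finsupp.single i 1) =
    algebraMap FF _ (QuadraticMap.polar (Q dd) (e FF i) (e FF j))
  have h1 : QuadraticMap.polar (Q dd) (e FF i) (e FF j) = B dd (e FF i) (e FF j) + B dd (e FF j) (e FF i) := by
    exact LinearMap.BilinMap.polar_toQuadraticMap (B := B dd) (e FF i) (e FF j)
  rw [h1, B_e, B_e, Finsupp.linearCombination_single, Finsupp.linearCombination_single, one_smul,
    one_smul]
  by_cases hij : i = j
  · subst hij
    rw [E_sq]
    simp [e]
  · rw [E_anti i j hij]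
    simp [e, hij, Ne.symm hij]

/-- the representation on `K` -/
noncomputable def rho : D →ₐ[FF] Module.End FF K :=
  CliffordAlgebra.lift (Q dd) ⟨Finsupp.linearCombination FF E, E_cond⟩

lemma rho_g (i : ℕ) : rho (g dd i) = E i := by
  rw [rho, g, CliffordAlgebra.lift_ι_apply, e, Finsupp.linearCombination_single, one_smul]

lemma order_rho (n : ℕ) (x : D) (hx : x ∈ Mf dd n) : x = 0 ∨ ∃ γ : Gam,
    (∀ m, n ≤ m → Even ((ofLex γ) m)) ∧ ∀ y : K, (rho x y).orderTop = γ + y.orderTop := by
  induction n generalizing x with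
  | zero =>
    rw [Mf, Submodule.mem_span_singleton] at hx
    obtain ⟨c, rfl⟩ := hx
    by_cases hc : c = 0
    · left; rw [hc, zero_smul]
    · right
      have hc' : (c : K) ≠ 0 := fun h => hc (Subtype.ext h)
      obtain ⟨γ, hγ⟩ := WithTop.ne_top_iff_exists.mp (HahnSeries.orderTop_ne_top.mpr hc')
      refine ⟨γ, fun m _ => even_order c γ hγ.symm m, ?_⟩
      intro y
      rw [map_smul, map_one, LinearMap.smul_apply, Module.End.one_apply, Subfield.smul_def,
        smul_eq_mul, HahnSeries.orderTop_mul, hγ]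
  | succ n ih =>
    rw [mem_Mf_succ] at hx
    obtain ⟨a, ha, b, hb, rfl⟩ := hx
    obtain ⟨δ, hδ1, hδ2, hδ⟩ := orderTop_E n
    have hEb : ∀ y, rho (g dd n * b) y = E n (rho b y) := by
      intro y
      rw [map_mul, rho_g]; rfl
    rcases ih a ha with ha0 | ⟨γa, hγa1, hγa⟩
    · rcases ih b hb with hb0 | ⟨γb, hγb1, hγb⟩
      · left; rw [ha0, hb0]; simp
      · right
        refine ⟨δ + γb, ?_, ?_⟩
        · intro m hm
          rw [ofLex_add, Finsupp.add_apply]
          exact (hδ1 m (by omega)).add (hγb1 m (by omega))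
        · intro y
          rw [ha0, zero_add, hEb, hδ, hγb, WithTop.coe_add, add_assoc]
    · rcases ih b hb with hb0 | ⟨γb, hγb1, hγb⟩
      · right
        refine ⟨γa, fun m hm => hγa1 m (by omega), ?_⟩
        intro y
        rw [hb0, mul_zero, add_zero, hγa]
      · right
        have hne : γa ≠ δ + γb := by
          intro h
          have h1 := hγa1 n le_rfl
          rw [h, ofLex_add, Finsupp.add_apply] at h1
          have h2 := hδ2.add_even (hγb1 n le_rfl)
          exact (Int.not_even_iff_odd.mpr h2) h1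
        have hEb' : ∀ y, (rho (g dd n * b) y).orderTop = (δ + γb : Gam) + y.orderTop := by
          intro y
          rw [hEb, hδ, hγb, WithTop.coe_add, add_assoc]
        rcases lt_or_gt_of_ne hne with hlt | hlt
        · refine ⟨γa, fun m hm => hγa1 m (by omega), ?_⟩
          intro y
          by_cases hy : y = 0
          · simp [hy]
          · obtain ⟨o, ho⟩ := WithTop.ne_top_iff_exists.mp (HahnSeries.orderTop_ne_top.mpr hy)
            have h3 : (rho a y).orderTop < (rho (g dd n * b) y).orderTop := by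
              rw [hγa, hEb', ← ho, ← WithTop.coe_add, ← WithTop.coe_add, WithTop.coe_lt_coe]
              exact add_lt_add_left hlt o
            rw [map_add, LinearMap.add_apply, HahnSeries.orderTop_add_eq_left h3, hγa]
        · refine ⟨δ + γb, ?_, ?_⟩
          · intro m hm
            rw [ofLex_add, Finsupp.add_apply]
            exact (hδ1 m (by omega)).add (hγb1 m (by omega))
          intro y
          by_cases hy : y = 0
          · simp [hy]
          · obtain ⟨o, ho⟩ := WithTop.ne_top_iff_exists.mp (HahnSeries.orderTop_ne_top.mpr hy)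
            have h3 : (rho (g dd n * b) y).orderTop < (rho a y).orderTop := by
              rw [hγa, hEb', ← ho, ← WithTop.coe_add, ← WithTop.coe_add, WithTop.coe_lt_coe]
              exact add_lt_add_left hlt o
            rw [map_add, LinearMap.add_apply, HahnSeries.orderTop_add_eq_right h3, hEb']

instance : Nontrivial D := by
  refine ⟨⟨0, 1, ?_⟩⟩
  intro h
  have h1 : rho 0 = rho 1 := by rw [h]
  rw [map_zero, map_one] at h1
  have h2 := congrArg (fun f : Module.End FF K => f 1) h1
  simp at h2

instance : NoZeroDivisors D := by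
  constructor
  intro x y hxy
  obtain ⟨n, hn⟩ := exists_Mf x
  obtain ⟨m, hm⟩ := exists_Mf y
  rcases order_rho n x hn with hx | ⟨γx, -, hγx⟩
  · exact Or.inl hx
  rcases order_rho m y hm with hy | ⟨γy, -, hγy⟩
  · exact Or.inr hy
  exfalso
  have h1 : (rho (x * y) 1).orderTop = γx + (γy + (1 : K).orderTop) := by
    rw [map_mul, Module.End.mul_apply, hγx, hγy]
  rw [hxy, map_zero, LinearMap.zero_apply, HahnSeries.orderTop_zero, HahnSeries.orderTop_one,
    ← WithTop.coe_zero, ← WithTop.coe_add, ← WithTop.coe_add] at h1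
  exact WithTop.coe_ne_top h1.symm

instance : IsDomain D := NoZeroDivisors.to_isDomain D

lemma exists_inv (x : D) (hx : x ≠ 0) : (∃ y, x * y = 1) ∧ (∃ y, y * x = 1) := by
  have hint : IsIntegral FF x := Algebra.IsIntegral.isIntegral x
  have hc := minpoly.coeff_zero_ne_zero hint hx
  have h0 := minpoly.aeval FF x
  have h1 := Polynomial.divX_mul_X_add (minpoly FF x)
  have h2 := Polynomial.X_mul_divX_add (minpoly FF x)
  set c := (minpoly FF x).coeff 0
  set q := (minpoly FF x).divX
  rw [← h1, map_add, map_mul, Polynomial.aeval_X, Polynomial.aeval_C] at h0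
  have h0' := minpoly.aeval FF x
  rw [← h2, map_add, map_mul, Polynomial.aeval_X, Polynomial.aeval_C] at h0'
  have hcc : algebraMap FF D (-c⁻¹) * algebraMap FF D (-c) = 1 := by
    rw [← map_mul, neg_mul_neg, inv_mul_cancel₀ hc, map_one]
  constructor
  · refine ⟨Polynomial.aeval x q * algebraMap FF D (-c⁻¹), ?_⟩
    have h3 : x * Polynomial.aeval x q = algebraMap FF D (-c) := by
      rw [map_neg]; exact eq_neg_of_add_eq_zero_left h0'
    rw [← mul_assoc, h3, ← Algebra.commutes, hcc]
  · refine ⟨algebraMap FF D (-c⁻¹) * Polynomial.aeval x q, ?_⟩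
    have h3 : Polynomial.aeval x q * x = algebraMap FF D (-c) := by
      rw [map_neg]; exact eq_neg_of_add_eq_zero_left h0
    rw [mul_assoc, h3, hcc]

/-- the endomorphism used -/
noncomputable def sg : D →ₐ[FF] D := sig (d := dd) (α := al) dd_succ

end Final

/-- The negation of the preceding statement: For every unital ring R: if the lattice of right ideals is distributive and each element is a root of a monic polynomial with central coefficients, then the lattice of left ideals is distributive. -/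
theorem result :
    ¬ (∀ (R : Type) [Ring R],
      (∀ a b c : Submodule Rᵐᵒᵖ R, a ⊓ (b ⊔ c) = (a ⊓ b) ⊔ (a ⊓ c)) →
      (∀ x : R, ∃ p : Polynomial (Subring.center R),
          p.Monic ∧ Polynomial.eval₂ (Subring.center R).subtype x p = 0) →
      ∀ a b c : Submodule R R, a ⊓ (b ⊔ c) = (a ⊓ b) ⊔ (a ⊓ c)) := by
  intro h
  have h1 := h (triv sg) (distrib_right (fun d hd => (exists_inv d hd).1)) ?_
  · exact not_distrib_left (fun d hd => (exists_inv d hd).2) _ (not_mem_range dd_succ) h1
  · intro x
    obtain ⟨p, hp, hpx⟩ := integral_triv x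
    let φ : FF →+* Subring.center (triv sg) :=
      (algebraMap FF (triv sg)).codRestrict (Subring.center (triv sg)) (by
        intro c
        rw [Subring.mem_center_iff]
        intro g
        exact (Algebra.commutes c g).symm)
    refine ⟨p.map φ, hp.map φ, ?_⟩
    rw [Polynomial.eval₂_map]
    exact hpx

end Pool.Agent.S00790
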