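import Pool.Statements.S00942
import Pool.Agent.Hhelper10.FBMain

set_option autoImplicit false
open Pool Pool.MP_233a97_al

namespace Pool.Agent.S00942

/-- The negation of the preceding statement: For every group G and finite-index subgroup H: if some finite set of laws of H generates all laws of H as a verbal subgroup of the free group on countably many letters, then the same holds for G. -/
theorem result :
    ¬ (∀ (G : Type) [Group G] (H : Subgroup G), H.FiniteIndex →
      (∃ S : Finset (FreeGroup ℕ),
          (∀ s ∈ S, ∀ φ : FreeGroup ℕ →* H, φ s = 1) ∧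
          ∀ w : FreeGroup ℕ, (∀ φ : FreeGroup ℕ →* H, φ w = 1) →
            w ∈ Subgroup.closure
              {v : FreeGroup ℕ | ∃ s ∈ S, ∃ ψ : FreeGroup ℕ →* FreeGroup ℕ, ψ s = v}) →
      (∃ S : Finset (FreeGroup ℕ),
          (∀ s ∈ S, ∀ φ : FreeGroup ℕ →* G, φ s = 1) ∧
          ∀ w : FreeGroup ℕ, (∀ φ : FreeGroup ℕ →* G, φ w = 1) →
            w ∈ Subgroup.closure
              {v : FreeGroup ℕ | ∃ s ∈ S, ∃ ψ : FreeGroup ℕ →* FreeGroup ℕ, ψ s = v})) := by
  intro hall
  exact Pool.Agent.Hhelper10.FB.GG_not_based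
    (hall Pool.Agent.Hhelper10.FB.GG (Pool.Agent.Hhelper10.FB.epsG).ker inferInstance
      Pool.Agent.Hhelper10.FB.HH_based)

end Pool.Agent.S00942
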