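import Pool.Statements.S01057
import Pool.Agent.FT.Final

set_option autoImplicit false
open Pool Pool.MP_2cd00b_al

namespace Pool.Agent.S01057

/-- There is a function f such that every finite nilpotent group with a fixed-point-free automorphism of order n has derived length at most f(n). -/
theorem result :
    ∃ f : ℕ → ℕ, ∀ (G : Type) [Group G] [Finite G] [Group.IsNilpotent G] (φ : MulAut G),
      (∀ g : G, φ g = g → g = 1) → derivedSeries G (f (orderOf φ)) = ⊥ :=
  Pool.Agent.FT.all

end Pool.Agent.S01057
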