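import Pool.Statements.S01317
import Pool.Agent.Hhelper13.ALoop.Hall

set_option autoImplicit false
open Pool Pool.MP_428e1d_al

namespace Pool.Agent.S01317

/-- Every finite automorphic loop that is solvable (normal series with abelian group factors) has, for each set of primes P, a subloop whose order involves only primes in P and whose index involves only primes outside P. -/
theorem result :
  ∀ (Q : Type) [Fintype Q] (mul : Q → Q → Q) (e : Q),
    (∀ x, mul e x = x ∧ mul x e = x) →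
    (∀ a, Function.Bijective (mul a)) →
    (∀ a, Function.Bijective (fun x => mul x a)) →
    (∀ x y u v a b, mul (mul x y) a = mul x (mul y u) →
        mul (mul x y) b = mul x (mul y v) →
        mul (mul x y) (mul a b) = mul x (mul y (mul u v))) →
    (∀ x y u v a b, mul a (mul y x) = mul (mul u y) x →
        mul b (mul y x) = mul (mul v y) x →
        mul (mul a b) (mul y x) = mul (mul (mul u v) y) x) →
    (∀ x u v a b, mul a x = mul x u → mul b x = mul x v →
        mul (mul a b) x = mul x (mul u v)) →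
    (∃ (n : ℕ) (S : ℕ → Set Q), S 0 = {e} ∧ S n = Set.univ ∧
      ∀ i < n, S i ⊆ S (i + 1) ∧ e ∈ S i ∧
        (∀ a ∈ S i, ∀ b ∈ S i, mul a b ∈ S i) ∧
        (∀ x ∈ S (i + 1), ∀ y ∈ S (i + 1), ∀ m ∈ S i,
          (∃ m' ∈ S i, mul x m = mul m' x) ∧
          (∃ m' ∈ S i, mul (mul m x) y = mul m' (mul x y)) ∧
          (∃ m' ∈ S i, mul y (mul x m) = mul (mul y x) m')) ∧
        (∀ x ∈ S (i + 1), ∀ y ∈ S (i + 1), ∀ z ∈ S (i + 1),
          (∃ m ∈ S i, mul (mul x y) z = mul (mul x (mul y z)) m) ∧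
          (∃ m ∈ S i, mul x y = mul (mul y x) m))) →
    ∀ P : Set ℕ, ∃ H : Finset Q, e ∈ H ∧ (∀ a ∈ H, ∀ b ∈ H, mul a b ∈ H) ∧
      ∃ k : ℕ, H.card * k = Fintype.card Q ∧
        (∀ p : ℕ, p.Prime → p ∣ H.card → p ∈ P) ∧
        (∀ p : ℕ, p.Prime → p ∣ k → p ∉ P) := by
  intro Q _ mul e he hl hr hL hM hT hchain P
  obtain ⟨n, S, hS0, hSn, hS⟩ := hchain
  classical
  letI inst : MulOneClass Q :=
    { mul := mul, one := e, one_mul := fun x => (he x).1, mul_one := fun x => (he x).2 }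
  haveI hloop : H13.ALoop.IsALoop Q := ⟨hl, hr, hL, hM, hT⟩
  have hsolv : H13.ALoop.Solv Q := by
    intro H hH
    have hex : ∃ k, ∀ x ∈ H, x ∈ S k := ⟨n, fun x _ => by rw [hSn]; exact Set.mem_univ x⟩
    have hfind := Nat.find_spec hex
    have hmin : ∀ m, m < Nat.find hex → ¬ ∀ x ∈ H, x ∈ S m := fun m hm => Nat.find_min hex hm
    have hle : Nat.find hex ≤ n := Nat.find_le (fun x _ => by rw [hSn]; exact Set.mem_univ x)
    have hpos : Nat.find hex ≠ 0 := by
      intro h0
      rw [h0, hS0] at hfind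
      apply hH
      rw [eq_bot_iff]
      intro x hx
      have h1 := hfind x hx
      rw [Submonoid.mem_bot]
      exact h1
    obtain ⟨i, hi⟩ := Nat.exists_eq_succ_of_ne_zero hpos
    rw [hi] at hfind hmin hle
    have hnot := hmin i (Nat.lt_succ_self i)
    obtain ⟨-, he', hmul, -, hab⟩ := hS i hle
    let K : Submonoid Q :=
      { carrier := {x | x ∈ H ∧ x ∈ S i}
        one_mem' := ⟨one_mem H, he'⟩
        mul_mem' := fun {a b} ha hb => ⟨mul_mem ha.1 hb.1, hmul a ha.2 b hb.2⟩ }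
    refine ⟨K, ?_, ?_⟩
    · refine lt_of_le_of_ne (fun x hx => hx.1) ?_
      intro hEq
      apply hnot
      intro x hx
      rw [← hEq] at hx
      exact hx.2
    · intro x hx y hy z hz
      obtain ⟨⟨m, hm, e1⟩, ⟨m', hm', e2⟩⟩ := hab x (hfind x hx) y (hfind y hy) z (hfind z hz)
      have e1' : (x * y) * z = (x * (y * z)) * m := e1
      have e2' : x * y = (y * x) * m' := e2
      refine ⟨⟨m, ⟨?_, hm⟩, e1'⟩, ⟨m', ⟨?_, hm'⟩, e2'⟩⟩
      · apply H13.ALoop.mem_of_mul_mem_left (mul_mem hx (mul_mem hy hz))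
        rw [← e1']
        exact mul_mem (mul_mem hx hy) hz
      · apply H13.ALoop.mem_of_mul_mem_left (mul_mem hy hx)
        rw [← e2']
        exact mul_mem hx hy
  obtain ⟨H, k, h1, h2, h3⟩ := H13.ALoop.hall P _ Q rfl hsolv
  have hcard : (Finset.univ.filter (fun x => x ∈ H)).card = Nat.card H := by
    rw [Nat.card_eq_fintype_card, Fintype.card_subtype]
  refine ⟨Finset.univ.filter (fun x => x ∈ H), ?_, ?_, k, ?_, ?_, h3⟩
  · rw [Finset.mem_filter]
    exact ⟨Finset.mem_univ _, one_mem H⟩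
  · intro a ha b hb
    rw [Finset.mem_filter] at ha hb ⊢
    exact ⟨Finset.mem_univ _, mul_mem ha.2 hb.2⟩
  · rw [hcard, h1, Nat.card_eq_fintype_card]
  · rw [hcard]
    exact h2

end Pool.Agent.S01317
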