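import Pool.Statements.S01864
-- import your own Pool.Agent.* helpers here

set_option autoImplicit false
set_option linter.unusedSimpArgs false
open Pool Pool.MP_702bfb_al

namespace Pool.Agent.S01864

open Polynomial

noncomputable section

/-!
The counterexample.  Let `L` be a commutative ring of characteristic two containing elements
`ζ i` with `ζ i ^ 2 = 0` all of whose finite products are nonzero, and let `φ : L[s] → L` be the
`L`-linear map with `φ (s ^ i) = ζ i`.  The ambient algebra has elements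
`(α, y0, y1, c0, c1, z)` with `α, z` in `L` and the others in `L[s]`, and the nonzero products are
`a * y = (s y1, y0)`, `y * a = (0, y0)`, `a * c = (s c1, c0)`, `c * a = (0, c0)`,
`y * c = c * y = φ (y0 c0 + s y1 c1)`, `y * z = y z`, `z * z' = z z'`.
The subring generated by `a`, `y = (1, 0)`, `c = (1, 0)` is right alternative, nil of index four
and contains all the `ζ i`, hence is not solvable.
-/

/-- Carrier of the ambient algebra: coordinates are the coefficient of `a`,
the even and odd parts of the `y`-component, the even and odd parts of the `c`-component,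
and the `z`-component. -/
@[ext] structure Alg {L : Type} [CommRing L] (φ : L[X] →ₗ[L] L) : Type where
  /-- coefficient of `a` -/
  al : L
  /-- even part of `y` -/
  y0 : L[X]
  /-- odd part of `y` -/
  y1 : L[X]
  /-- even part of `c` -/
  c0 : L[X]
  /-- odd part of `c` -/
  c1 : L[X]
  /-- the `z`-component -/
  zz : L

namespace Alg

variable {L : Type} [CommRing L] {φ : L[X] →ₗ[L] L}

instance : Zero (Alg φ) := ⟨⟨0, 0, 0, 0, 0, 0⟩⟩
instance : Add (Alg φ) := ⟨fun x y =>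
  ⟨x.al + y.al, x.y0 + y.y0, x.y1 + y.y1, x.c0 + y.c0, x.c1 + y.c1, x.zz + y.zz⟩⟩
instance : Neg (Alg φ) := ⟨fun x => ⟨-x.al, -x.y0, -x.y1, -x.c0, -x.c1, -x.zz⟩⟩
instance : Mul (Alg φ) := ⟨fun x u =>
  ⟨0,
    x.al • (X * u.y1) + u.zz • x.y0,
    x.al • u.y0 + u.al • x.y0 + u.zz • x.y1,
    x.al • (X * u.c1),
    x.al • u.c0 + u.al • x.c0,
    φ (x.y0 * u.c0 + X * x.y1 * u.c1) + φ (u.y0 * x.c0 + X * u.y1 * x.c1) + x.zz * u.zz⟩⟩

@[simp] theorem al_add (x y : Alg φ) : (x + y).al = x.al + y.al := rfl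
@[simp] theorem y0_add (x y : Alg φ) : (x + y).y0 = x.y0 + y.y0 := rfl
@[simp] theorem y1_add (x y : Alg φ) : (x + y).y1 = x.y1 + y.y1 := rfl
@[simp] theorem c0_add (x y : Alg φ) : (x + y).c0 = x.c0 + y.c0 := rfl
@[simp] theorem c1_add (x y : Alg φ) : (x + y).c1 = x.c1 + y.c1 := rfl
@[simp] theorem zz_add (x y : Alg φ) : (x + y).zz = x.zz + y.zz := rfl
@[simp] theorem al_zero : (0 : Alg φ).al = 0 := rfl
@[simp] theorem y0_zero : (0 : Alg φ).y0 = 0 := rfl
@[simp] theorem y1_zero : (0 : Alg φ).y1 = 0 := rfl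
@[simp] theorem c0_zero : (0 : Alg φ).c0 = 0 := rfl
@[simp] theorem c1_zero : (0 : Alg φ).c1 = 0 := rfl
@[simp] theorem zz_zero : (0 : Alg φ).zz = 0 := rfl
@[simp] theorem al_neg (x : Alg φ) : (-x).al = - x.al := rfl
@[simp] theorem y0_neg (x : Alg φ) : (-x).y0 = - x.y0 := rfl
@[simp] theorem y1_neg (x : Alg φ) : (-x).y1 = - x.y1 := rfl
@[simp] theorem c0_neg (x : Alg φ) : (-x).c0 = - x.c0 := rfl
@[simp] theorem c1_neg (x : Alg φ) : (-x).c1 = - x.c1 := rfl
@[simp] theorem zz_neg (x : Alg φ) : (-x).zz = - x.zz := rfl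
@[simp] theorem al_mul (x u : Alg φ) : (x * u).al = 0 := rfl
@[simp] theorem y0_mul (x u : Alg φ) : (x * u).y0 = x.al • (X * u.y1) + u.zz • x.y0 := rfl
@[simp] theorem y1_mul (x u : Alg φ) :
    (x * u).y1 = x.al • u.y0 + u.al • x.y0 + u.zz • x.y1 := rfl
@[simp] theorem c0_mul (x u : Alg φ) : (x * u).c0 = x.al • (X * u.c1) := rfl
@[simp] theorem c1_mul (x u : Alg φ) : (x * u).c1 = x.al • u.c0 + u.al • x.c0 := rfl
@[simp] theorem zz_mul (x u : Alg φ) :
    (x * u).zz = φ (x.y0 * u.c0 + X * x.y1 * u.c1) + φ (u.y0 * x.c0 + X * u.y1 * x.c1)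
      + x.zz * u.zz := rfl

instance : AddCommGroup (Alg φ) where
  add_assoc x y z := by ext1 <;> simp [add_assoc]
  zero_add x := by ext1 <;> simp
  add_zero x := by ext1 <;> simp
  neg_add_cancel x := by ext1 <;> simp
  add_comm x y := by ext1 <;> simp [add_comm]
  nsmul := nsmulRec
  zsmul := zsmulRec

instance : NonUnitalNonAssocRing (Alg φ) where
  left_distrib x u v := by
    ext1
    · simp
    · simp only [y0_mul, y0_add, y1_add, zz_add, add_smul, mul_add, smul_add]; abel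
    · simp only [y1_mul, y1_add, zz_add, y0_add, al_add, add_smul, mul_add, smul_add]; abel
    · simp only [c0_mul, c0_add, c1_add, al_add, add_smul, mul_add, smul_add]
    · simp only [c1_mul, c0_add, c1_add, al_add, add_smul, mul_add, smul_add]; abel
    · simp only [zz_mul, zz_add, y0_add, y1_add, c0_add, c1_add, mul_add, add_mul, map_add]
      ring
  right_distrib x u v := by
    ext1
    · simp
    · simp only [y0_mul, y1_add, zz_add, y0_add, al_add, add_smul, mul_add, smul_add]; abel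
    · simp only [y1_mul, y1_add, zz_add, y0_add, al_add, add_smul, mul_add, smul_add]; abel
    · simp only [c0_mul, c0_add, c1_add, al_add, add_smul, mul_add, smul_add]
    · simp only [c1_mul, c0_add, c1_add, al_add, add_smul, mul_add, smul_add]; abel
    · simp only [zz_mul, zz_add, y0_add, y1_add, c0_add, c1_add, mul_add, add_mul, map_add]
      ring
  zero_mul x := by ext1 <;> simp
  mul_zero x := by ext1 <;> simp

theorem two_poly (h2 : (2 : L) = 0) : (2 : L[X]) = 0 := by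
  have := congrArg (C : L →+* L[X]) h2
  simpa only [map_ofNat, map_zero] using this

theorem rightAlt (h2 : (2 : L) = 0) (x u : Alg φ) : (x * u) * u = x * (u * u) := by
  have h2' : (2 : L[X]) = 0 := two_poly h2
  have hd : ∀ w : L, w + w = 0 := fun w => by rw [← two_mul, h2, zero_mul]
  have hd' : ∀ w : L[X], w + w = 0 := fun w => by rw [← two_mul, h2', zero_mul]
  ext1
  · simp
  · simp only [y0_mul, y1_mul, zz_mul, al_mul, hd, hd', smul_eq_C_mul, map_zero, map_add, map_mul]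
    ring
  · simp only [y0_mul, y1_mul, zz_mul, al_mul, hd, hd', smul_eq_C_mul, map_zero, map_add, map_mul]
    linear_combination (C (u.al) * C (u.zz) * x.y0) * h2'
  · simp only [c0_mul, c1_mul, zz_mul, al_mul, hd, hd', smul_eq_C_mul, map_zero, map_add, map_mul]
    ring
  · simp only [c0_mul, c1_mul, zz_mul, al_mul, hd, hd', smul_eq_C_mul, map_zero, map_add, map_mul]
    ring
  · simp only [c0_mul, c1_mul, y0_mul, y1_mul, zz_mul, al_mul, hd, hd', mul_add, add_mul, map_add,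
      smul_mul_assoc, mul_smul_comm, map_smul, smul_eq_mul, zero_smul, mul_zero, zero_mul, map_zero]
    have e1 : u.y0 * (X * u.c1) = X * u.y0 * u.c1 := by ring
    have e2 : x.y0 * (X * u.c1) = X * x.y0 * u.c1 := by ring
    rw [e1, e2]
    linear_combination (x.al * φ (X * u.y1 * u.c0) + x.al * φ (X * u.y0 * u.c1)
      + u.zz * φ (x.y0 * u.c0) + u.zz * φ (X * x.y1 * u.c1)) * h2

/-- The fourth power vanishes as soon as the `z`-component has square zero. -/
theorem sq_sq (h2 : (2 : L) = 0) (x : Alg φ) (hz : x.zz * x.zz = 0) :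
    (x * x) * (x * x) = 0 := by
  have hd : ∀ w : L, w + w = 0 := fun w => by rw [← two_mul, h2, zero_mul]
  have h2' : (2 : L[X]) = 0 := two_poly h2
  have hd' : ∀ w : L[X], w + w = 0 := fun w => by rw [← two_mul, h2', zero_mul]
  have w1 : (x * x).al = 0 := rfl
  have w2 : (x * x).c1 = 0 := by rw [c1_mul, hd']
  have w3 : (x * x).zz = 0 := by rw [zz_mul, hd, hz, add_zero]
  generalize x * x = w at w1 w2 w3
  ext1 <;> simp only [al_mul, y0_mul, y1_mul, c0_mul, c1_mul, zz_mul, w1, w2, w3, hd,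
        zero_smul, mul_zero, add_zero, al_zero, y0_zero, y1_zero, c0_zero, c1_zero, zz_zero]

/-- The three generators. -/
def gens (φ : L[X] →ₗ[L] L) : Set (Alg φ) :=
  {⟨1, 0, 0, 0, 0, 0⟩, ⟨0, 1, 0, 0, 0, 0⟩, ⟨0, 0, 0, 1, 0, 0⟩}

/-- The subring generated by the three generators. -/
def sub (φ : L[X] →ₗ[L] L) : NonUnitalSubring (Alg φ) := NonUnitalSubring.closure (gens φ)

theorem sub_fg (φ : L[X] →ₗ[L] L) :
    ∃ s : Finset (sub φ), NonUnitalSubring.closure (s : Set (sub φ)) = ⊤ := by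
  have hfin : (((↑) : sub φ → Alg φ) ⁻¹' (gens φ)).Finite :=
    Set.Finite.preimage Subtype.val_injective.injOn (by simp [gens])
  refine ⟨hfin.toFinset, ?_⟩
  rw [Set.Finite.coe_toFinset, eq_top_iff]
  have hle : NonUnitalSubring.closure (gens φ) ≤
      (NonUnitalSubring.closure (((↑) : sub φ → Alg φ) ⁻¹' (gens φ))).map
        (NonUnitalSubringClass.subtype (sub φ)) := by
    rw [NonUnitalSubring.closure_le]
    intro x hx
    exact ⟨⟨x, NonUnitalSubring.subset_closure hx⟩, NonUnitalSubring.subset_closure hx, rfl⟩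
  rintro ⟨x, hx⟩ -
  obtain ⟨k, hk, hkx⟩ := hle hx
  have : k = ⟨x, hx⟩ := Subtype.ext hkx
  rw [← this]
  exact hk

theorem zz_mem (I : Ideal L) (hφI : ∀ f, φ f ∈ I) (x : Alg φ) (hx : x ∈ sub φ) :
    x.zz ∈ I := by
  refine NonUnitalSubring.closure_induction (p := fun x _ => x.zz ∈ I) ?_ ?_ ?_ ?_ ?_ hx
  · rintro x (rfl | rfl | rfl) <;> simp
  · simp
  · intro x y _ _ hx hy; rw [zz_add]; exact I.add_mem hx hy
  · intro x _ hx; rw [zz_neg]; exact I.neg_mem hx
  · intro x y _ _ hx hy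
    rw [zz_mul]
    exact I.add_mem (I.add_mem (hφI _) (hφI _)) (I.mul_mem_left _ hy)

theorem z_mem (i : ℕ) : (⟨0, 0, 0, 0, 0, φ (X ^ i)⟩ : Alg φ) ∈ sub φ := by
  have ha : (⟨1, 0, 0, 0, 0, 0⟩ : Alg φ) ∈ sub φ := NonUnitalSubring.subset_closure (by simp [gens])
  have hc : (⟨0, 0, 0, 1, 0, 0⟩ : Alg φ) ∈ sub φ := NonUnitalSubring.subset_closure (by simp [gens])
  have hy : ∀ i : ℕ, (⟨0, X ^ i, 0, 0, 0, 0⟩ : Alg φ) ∈ sub φ := by
    intro i
    induction i with
    | zero => exact NonUnitalSubring.subset_closure (by simp [gens])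
    | succ i ih =>
      have h1 := (sub φ).mul_mem ha ((sub φ).mul_mem ha ih)
      have h3 : (⟨1, 0, 0, 0, 0, 0⟩ * (⟨1, 0, 0, 0, 0, 0⟩ * ⟨0, X ^ i, 0, 0, 0, 0⟩) : Alg φ)
          = ⟨0, X ^ (i + 1), 0, 0, 0, 0⟩ := by
        ext1 <;> simp [pow_succ']
      rwa [h3] at h1
  have h1 := (sub φ).mul_mem (hy i) hc
  have h3 : (⟨0, X ^ i, 0, 0, 0, 0⟩ * ⟨0, 0, 0, 1, 0, 0⟩ : Alg φ)
      = ⟨0, 0, 0, 0, 0, φ (X ^ i)⟩ := by
    ext1 <;> simp
  rwa [h3] at h1

theorem mul_z (u v : L) : (⟨0, 0, 0, 0, 0, u⟩ * ⟨0, 0, 0, 0, 0, v⟩ : Alg φ)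
    = ⟨0, 0, 0, 0, 0, u * v⟩ := by
  ext1 <;> simp

end Alg

/-- Binary products of the `z`-variables. -/
def pp {L : Type} [CommRing L] (ζ : ℕ → L) : ℕ → ℕ → L
  | i, 0 => ζ i
  | i, k + 1 => pp ζ (2 * i) k * pp ζ (2 * i + 1) k

theorem pp_eq {L : Type} [CommRing L] (ζ : ℕ → L) (k : ℕ) : ∀ i,
    pp ζ i k = ∏ j ∈ Finset.Ico (i * 2 ^ k) ((i + 1) * 2 ^ k), ζ j := by
  induction k with
  | zero => intro i; simp [pp]
  | succ k ih =>
    intro i
    rw [pp, ih, ih]
    have e1 : 2 * i * 2 ^ k = i * 2 ^ (k + 1) := by ring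
    have e2 : (2 * i + 1 + 1) * 2 ^ k = (i + 1) * 2 ^ (k + 1) := by ring
    rw [e1, e2, Finset.prod_Ico_consecutive]
    · rw [← e1]; exact Nat.mul_le_mul_right _ (by omega)
    · rw [← e2]; exact Nat.mul_le_mul_right _ (by omega)

theorem key (L : Type) [CommRing L] (h2 : (2 : L) = 0) (ζ : ℕ → L)
    (hζ : ∀ i, ζ i * ζ i = 0) (hp : ∀ n, ∏ i ∈ Finset.range n, ζ i ≠ 0) :
    ¬ (∀ (R : Type) [NonUnitalNonAssocRing R],
      (∀ x y : R, (x * y) * y = x * (y * y)) →
      (∃ s : Finset R, NonUnitalSubring.closure (s : Set R) = ⊤) →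
      (∃ n : ℕ, ∀ x : R, (fun y => y * x)^[n] x = 0) →
      ∃ D : ℕ → AddSubgroup R,
        D 0 = ⊤ ∧
        (∀ k : ℕ, D (k + 1) =
          AddSubgroup.closure {z : R | ∃ a ∈ D k, ∃ b ∈ D k, z = a * b}) ∧
        ∃ m : ℕ, D m = ⊥) := by
  intro H
  -- the functional
  obtain ⟨φ, hφ⟩ : ∃ φ : L[X] →ₗ[L] L, ∀ f, φ f = f.sum (fun k r => r * ζ k) :=
    ⟨Polynomial.lsum (fun n => LinearMap.mulRight L (ζ n)), fun f => rfl⟩
  have hφX : ∀ n, φ (X ^ n) = ζ n := by
    intro n
    rw [hφ, ← monomial_one_right_eq_X_pow, sum_monomial_index _ _ (by simp)]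
    simp
  let I : Ideal L := Ideal.span (Set.range ζ)
  have hI : ∀ z ∈ I, z * z = 0 := by
    intro z hz
    refine Submodule.span_induction (p := fun z _ => z * z = 0) ?_ ?_ ?_ ?_ hz
    · rintro _ ⟨i, rfl⟩; exact hζ i
    · simp
    · intro x y _ _ hx hy
      linear_combination hx + hy + (x * y) * h2
    · intro r x _ hx
      rw [smul_eq_mul]
      linear_combination r * r * hx
  have hφI : ∀ f, φ f ∈ I := by
    intro f
    rw [hφ]
    refine Submodule.sum_mem _ fun k _ => ?_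
    exact Ideal.mul_mem_left _ _ (Ideal.subset_span ⟨k, rfl⟩)
  obtain ⟨D, hD0, hDs, m, hDm⟩ := H (Alg.sub φ)
    (fun x y => Subtype.ext (Alg.rightAlt h2 x.1 y.1))
    (Alg.sub_fg φ)
    (by
      refine ⟨3, fun x => Subtype.ext ?_⟩
      show ((x.1 * x.1) * x.1) * x.1 = 0
      rw [Alg.rightAlt h2]
      exact Alg.sq_sq h2 x.1 (hI _ (Alg.zz_mem I hφI x.1 x.2)))
  have hDk : ∀ k i : ℕ, ∃ r : Alg.sub φ, r ∈ D k ∧ (r : Alg φ) = ⟨0, 0, 0, 0, 0, pp ζ i k⟩ := by
    intro k
    induction k with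
    | zero =>
      intro i
      refine ⟨⟨_, Alg.z_mem i⟩, by rw [hD0]; trivial, ?_⟩
      show (⟨0, 0, 0, 0, 0, φ (X ^ i)⟩ : Alg φ) = _
      rw [hφX]; rfl
    | succ k ih =>
      intro i
      obtain ⟨r1, h1, e1⟩ := ih (2 * i)
      obtain ⟨r2, h2, e2⟩ := ih (2 * i + 1)
      refine ⟨r1 * r2, ?_, ?_⟩
      · rw [hDs]
        exact AddSubgroup.subset_closure ⟨r1, h1, r2, h2, rfl⟩
      · show (r1 : Alg φ) * (r2 : Alg φ) = _
        rw [e1, e2, Alg.mul_z]
        rfl
  obtain ⟨r, hr, er⟩ := hDk m 0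
  rw [hDm, AddSubgroup.mem_bot] at hr
  rw [hr] at er
  have e3 : pp ζ 0 m = 0 := (congrArg Alg.zz er).symm
  rw [pp_eq] at e3
  apply hp (2 ^ m)
  rw [Finset.range_eq_Ico]
  simpa only [zero_mul, zero_add, one_mul] using e3

/-- The ideal generated by the squares of the variables. -/
def sqIdeal : Ideal (MvPolynomial ℕ (ZMod 2)) :=
  Ideal.span ((fun s => MvPolynomial.monomial s (1 : ZMod 2)) ''
    (Set.range fun i : ℕ => (Finsupp.single i 2 : ℕ →₀ ℕ)))

theorem prod_not_mem (n : ℕ) :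
    (∏ i ∈ Finset.range n, (MvPolynomial.X i : MvPolynomial ℕ (ZMod 2))) ∉ sqIdeal := by
  have h : (∏ i ∈ Finset.range n, (MvPolynomial.X i : MvPolynomial ℕ (ZMod 2)))
      = MvPolynomial.monomial (∑ i ∈ Finset.range n, Finsupp.single i 1) 1 := by
    induction n with
    | zero => simp
    | succ n ih =>
      rw [Finset.prod_range_succ, Finset.sum_range_succ, ih, MvPolynomial.X,
        MvPolynomial.monomial_mul, one_mul]
  rw [h, sqIdeal, MvPolynomial.mem_ideal_span_monomial_image]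
  push Not
  refine ⟨∑ i ∈ Finset.range n, Finsupp.single i 1, ?_, ?_⟩
  · rw [MvPolynomial.mem_support_iff, MvPolynomial.coeff_monomial, if_pos rfl]
    exact one_ne_zero
  · rintro _ ⟨j, rfl⟩ hle
    have h1 := hle j
    rw [Finsupp.single_eq_same, Finsupp.finsetSum_apply] at h1
    simp only [Finsupp.single_apply] at h1
    rw [Finset.sum_ite_eq'] at h1
    split_ifs at h1 <;> omega

/-- The negation of the preceding statement: Every finitely generated ring with (xy)y = x(yy) in which some fixed right power x^N vanishes for all x has a derived series (R, R², products of squares, …) that reaches zero after finitely many steps. -/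
theorem result :
    ¬ (∀ (R : Type) [NonUnitalNonAssocRing R],
      (∀ x y : R, (x * y) * y = x * (y * y)) →
      (∃ s : Finset R, NonUnitalSubring.closure (s : Set R) = ⊤) →
      (∃ n : ℕ, ∀ x : R, (fun y => y * x)^[n] x = 0) →
      ∃ D : ℕ → AddSubgroup R,
        D 0 = ⊤ ∧
        (∀ k : ℕ, D (k + 1) =
          AddSubgroup.closure {z : R | ∃ a ∈ D k, ∃ b ∈ D k, z = a * b}) ∧
        ∃ m : ℕ, D m = ⊥) := by
  refine key (MvPolynomial ℕ (ZMod 2) ⧸ sqIdeal) ?_
    (fun i => Ideal.Quotient.mk sqIdeal (MvPolynomial.X i)) ?_ ?_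
  · have h : (2 : MvPolynomial ℕ (ZMod 2)) = 0 := by
      have : (2 : ZMod 2) = 0 := by decide
      have := congrArg (MvPolynomial.C : ZMod 2 →+* MvPolynomial ℕ (ZMod 2)) this
      simpa only [map_ofNat, map_zero] using this
    have := congrArg (Ideal.Quotient.mk sqIdeal) h
    simpa only [map_ofNat, map_zero] using this
  · intro i
    rw [← map_mul, Ideal.Quotient.eq_zero_iff_mem]
    refine Ideal.subset_span ⟨Finsupp.single i 2, ⟨i, rfl⟩, ?_⟩
    show MvPolynomial.monomial (Finsupp.single i 2) 1 = _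
    rw [MvPolynomial.X, MvPolynomial.monomial_mul, one_mul, ← Finsupp.single_add]
  · intro n h
    rw [← map_prod, Ideal.Quotient.eq_zero_iff_mem] at h
    exact prod_not_mem n h

end

end Pool.Agent.S01864
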