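import Pool.Statements.S02997
import Pool.Agent.LarsenW.Main

set_option autoImplicit false
open Pool Pool.MP_c4bad2_al

namespace Pool.Agent.S02997

/-- For each k ≥ 1 there is N such that for every n and every finite field F with ∣F∣^(n^2) ≥ N, every n×n matrix over F is a sum of two k-th powers of n×n matrices over F. -/
theorem result :
    ∀ k : ℕ, 1 ≤ k → ∃ N : ℕ, ∀ (n : ℕ) (F : Type) [Field F] [Fintype F],
      N ≤ Fintype.card F ^ (n ^ 2) →
        ∀ A : Matrix (Fin n) (Fin n) F, ∃ X Y : Matrix (Fin n) (Fin n) F, A = X ^ k + Y ^ k := by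
  intro k hk
  exact Pool.Agent.LarsenW.larsen k hk

end Pool.Agent.S02997
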