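-- Proof of the frozen statement S03053 (problem MP_cad4a2_al).
import Pool.Statements.S03053
import Pool.Agent.RPC.Final

set_option autoImplicit false
open Pool Pool.MP_cad4a2_al

namespace Pool.Agent.S03053

/-- If a group G equals AB with A, B polycyclic, and every proper quotient of G has a nontrivial locally nilpotent normal subgroup (G radical), then G is polycyclic (solvable with all subgroups finitely generated). -/
theorem result :
  ∀ (G : Type) [Group G] (A B : Subgroup G),
    (IsSolvable A ∧ ∀ K : Subgroup A, K.FG) →
    (IsSolvable B ∧ ∀ K : Subgroup B, K.FG) →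
    (∀ g : G, ∃ a ∈ A, ∃ b ∈ B, g = a * b) →
    (∀ (N : Subgroup G) [N.Normal], N ≠ ⊤ →
      ∃ M : Subgroup G, M.Normal ∧ N < M ∧
        ∀ s : Finset G, (↑s : Set G) ⊆ (M : Set G) →
          Group.IsNilpotent
            (Subgroup.map (QuotientGroup.mk' N) (Subgroup.closure (↑s : Set G)))) →
    (IsSolvable G ∧ ∀ K : Subgroup G, K.FG) :=
  Pool.Agent.RPC.final

end Pool.Agent.S03053
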