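import Pool.Statements.S03771
import Pool.Agent.HaymanWu.Final
import Pool.Agent.HaymanWu.LowerFinal

set_option autoImplicit false
open Pool Pool.MP_0a9e96_an

namespace Pool.Agent.S03771

/-- The least constant C such that, for every injective holomorphic map f on the open unit disc and every line L, the 1-dimensional Hausdorff measure (length) of the points of the disc mapped into L is at most C, equals π². -/
theorem result :
    IsLeast
      {C : ENNReal | ∀ f : ℂ → ℂ, DifferentiableOn ℂ f (Metric.ball (0:ℂ) 1) →
        Set.InjOn f (Metric.ball (0:ℂ) 1) → ∀ a b : ℂ, b ≠ 0 →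
          MeasureTheory.Measure.hausdorffMeasure 1
            {z ∈ Metric.ball (0:ℂ) 1 | ∃ t : ℝ, f z = a + (t : ℂ) * b} ≤ C}
      (ENNReal.ofReal (Real.pi ^ 2)) := by
  apply Pool.Agent.HaymanWu.isLeast_of_lower
  intro ε hε
  obtain ⟨f, h1, h2, h3⟩ := Pool.Agent.HaymanWu.Lower.hayman_wu_lower ε hε
  exact ⟨f, h1, h2, h3⟩

end Pool.Agent.S03771
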