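import Pool.Statements.S04196
import Pool.Agent.Hhelper30.Forsythe.Assemble
import Pool.Agent.Hhelper30.Forsythe.Reduction
import Pool.Agent.Hhelper30.Forsythe.Abs

set_option autoImplicit false
open Matrix Filter Topology
open Pool Pool.MP_2d0f4a_an

namespace Pool.Agent.S04196

/-- The negation of the preceding statement: For SPD A, 2 ≤ s < deg minpoly(A), and r0 of grade ≥ s+1, every run of restarted optimum s-gradient (Galerkin step in the Krylov space of the normalized residual) has both even and odd normalized residual subsequences convergent. -/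
theorem result :
    ¬ (∀ (n : ℕ) (A : Matrix (Fin n) (Fin n) ℝ) (b : Fin n → ℝ) (s : ℕ),
      A.PosDef → 2 ≤ s → s < (minpoly ℝ A).natDegree →
      ∀ x : ℕ → (Fin n → ℝ),
        LinearIndependent ℝ
          (fun i : Fin (s + 1) => (A ^ (i : ℕ)) *ᵥ (b - A *ᵥ x 0)) →
        (∀ k : ℕ,
          x (k + 1) - x k ∈ Submodule.span ℝ (Set.range (fun i : Fin s =>
            (A ^ (i : ℕ)) *ᵥ ((Real.sqrt ((b - A *ᵥ x k) ⬝ᵥ (b - A *ᵥ x k)))⁻¹
              • (b - A *ᵥ x k)))) ∧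
          ∀ v ∈ Submodule.span ℝ (Set.range (fun i : Fin s =>
            (A ^ (i : ℕ)) *ᵥ ((Real.sqrt ((b - A *ᵥ x k) ⬝ᵥ (b - A *ᵥ x k)))⁻¹
              • (b - A *ᵥ x k)))),
            v ⬝ᵥ (b - A *ᵥ x (k + 1)) = 0) →
        (∃ L : Fin n → ℝ, Tendsto (fun k : ℕ =>
            (Real.sqrt ((b - A *ᵥ x (2 * k)) ⬝ᵥ (b - A *ᵥ x (2 * k))))⁻¹
              • (b - A *ᵥ x (2 * k))) atTop (𝓝 L)) ∧
        (∃ L : Fin n → ℝ, Tendsto (fun k : ℕ =>
            (Real.sqrt ((b - A *ᵥ x (2 * k + 1)) ⬝ᵥ (b - A *ᵥ x (2 * k + 1))))⁻¹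
              • (b - A *ᵥ x (2 * k + 1))) atTop (𝓝 L))) := by
  obtain ⟨r, hr⟩ := Pool.Agent.Hhelper30.Forsythe.exists_ref
  obtain ⟨B, c0, c1, c2, hc0, hc, H⟩ := Pool.Agent.Hhelper30.Forsythe.segments_of_abs r hr
    (fun C cc hC hcc => Pool.Agent.Hhelper30.Forsythe.abs_main _
      (Pool.Agent.Hhelper30.Forsythe.goodCoef_ref r hr) C cc hC hcc)
  obtain ⟨w, p, sg, h1, h2, h3, h4, h5, h6, h7, h8⟩ :=
    Pool.Agent.Hhelper30.Forsythe.forward_of_segments B c0 c1 c2 hc0 hc H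
  exact Pool.Agent.Hhelper30.Forsythe.not_main_of_forward w p sg h1 h2 h3 h4 h5 h6 h7 h8

end Pool.Agent.S04196
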