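import Pool.Statements.S04259
import Pool.Agent.LandauF.HFin

set_option autoImplicit false
open Pool Pool.MP_313fff_an

namespace Pool.Agent.S04259

/-- Every smooth ancient solution on t≤0 of the 3D space-homogeneous Landau–Coulomb equation (non-divergence form) with 0≤f≤1 and ∫f/⟨v⟩ finite at each time equals a fixed Maxwellian ρ·exp(−∣v−u∣²/2T), ρ≥0. -/
theorem result :
  ∀ f : ℝ → EuclideanSpace ℝ (Fin 3) → ℝ,
    ContDiffOn ℝ (⊤ : ℕ∞) (fun p : ℝ × EuclideanSpace ℝ (Fin 3) => f p.1 p.2)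
      (Set.Iic (0:ℝ) ×ˢ Set.univ) →
    (∀ t ≤ (0:ℝ), ∀ v, 0 ≤ f t v ∧ f t v ≤ 1) →
    (∀ t ≤ (0:ℝ), MeasureTheory.Integrable (fun v => f t v / Real.sqrt (1 + ‖v‖ ^ 2))) →
    (∀ t < (0:ℝ), ∀ v, deriv (fun s => f s v) t =
       (∑ i : Fin 3, ∑ j : Fin 3,
         (∫ w, (1 / (8 * Real.pi)) *
             ((if i = j then (1:ℝ) else 0) / ‖v - w‖
               - (v - w) i * (v - w) j / ‖v - w‖ ^ 3) * f t w) *
         fderiv ℝ (fun x => fderiv ℝ (f t) x (EuclideanSpace.single j 1)) v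
           (EuclideanSpace.single i 1))
       + f t v ^ 2) →
    ∃ ρ : ℝ, ∃ T : ℝ, ∃ u : EuclideanSpace ℝ (Fin 3), 0 ≤ ρ ∧ 0 < T ∧
      ∀ t ≤ (0:ℝ), ∀ v, f t v = ρ * Real.exp (-(‖v - u‖ ^ 2) / (2 * T)) := by
  intro f hs h01 hi hpde
  exact Pool.Agent.LandauF.liouville f hs (Pool.Agent.Landau.to_solW f hs h01 hi hpde)

end Pool.Agent.S04259
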