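import Pool.Statements.S04627
import Pool.Agent.Steklov.Final

set_option autoImplicit false
open MeasureTheory
open Pool Pool.MP_4db88f_an

namespace Pool.Agent.S04627

/-- There are two bounded connected open plane sets with Lipschitz boundary whose Steklov eigenvalues (defined by min-max of boundary Rayleigh quotients over C¹ functions) all agree, yet no isometry of the plane maps one onto the other. -/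
theorem result :
  ∃ Ω₁ Ω₂ : Set (EuclideanSpace ℝ (Fin 2)),
    IsOpen Ω₁ ∧ IsConnected Ω₁ ∧ Bornology.IsBounded Ω₁ ∧
    (∀ p ∈ frontier Ω₁, ∃ r : ℝ, 0 < r ∧
      ∃ a b : EuclideanSpace ℝ (Fin 2), ‖a‖ = 1 ∧ ‖b‖ = 1 ∧ inner ℝ a b = 0 ∧
      ∃ g : ℝ → ℝ, ∃ K : NNReal, LipschitzWith K g ∧
        ∀ x ∈ Metric.ball p r, (x ∈ Ω₁ ↔ g (inner ℝ (x - p) a) < inner ℝ (x - p) b)) ∧
    IsOpen Ω₂ ∧ IsConnected Ω₂ ∧ Bornology.IsBounded Ω₂ ∧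
    (∀ p ∈ frontier Ω₂, ∃ r : ℝ, 0 < r ∧
      ∃ a b : EuclideanSpace ℝ (Fin 2), ‖a‖ = 1 ∧ ‖b‖ = 1 ∧ inner ℝ a b = 0 ∧
      ∃ g : ℝ → ℝ, ∃ K : NNReal, LipschitzWith K g ∧
        ∀ x ∈ Metric.ball p r, (x ∈ Ω₂ ↔ g (inner ℝ (x - p) a) < inner ℝ (x - p) b)) ∧
    (∀ k : ℕ,
      sInf {s : ℝ | ∃ V : Submodule ℝ (EuclideanSpace ℝ (Fin 2) → ℝ),
        (∀ u ∈ V, ContDiff ℝ 1 u) ∧ Module.finrank ℝ V = k + 1 ∧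
        (∀ u ∈ V, u ≠ 0 → 0 < ∫ x in frontier Ω₁, u x ^ 2 ∂μH[1]) ∧
        s = sSup {t : ℝ | ∃ u ∈ V, u ≠ 0 ∧
          t = (∫ x in Ω₁, ‖fderiv ℝ u x‖ ^ 2) / ∫ x in frontier Ω₁, u x ^ 2 ∂μH[1]}}
      =
      sInf {s : ℝ | ∃ V : Submodule ℝ (EuclideanSpace ℝ (Fin 2) → ℝ),
        (∀ u ∈ V, ContDiff ℝ 1 u) ∧ Module.finrank ℝ V = k + 1 ∧
        (∀ u ∈ V, u ≠ 0 → 0 < ∫ x in frontier Ω₂, u x ^ 2 ∂μH[1]) ∧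
        s = sSup {t : ℝ | ∃ u ∈ V, u ≠ 0 ∧
          t = (∫ x in Ω₂, ‖fderiv ℝ u x‖ ^ 2) / ∫ x in frontier Ω₂, u x ^ 2 ∂μH[1]}}) ∧
    ¬ ∃ f : EuclideanSpace ℝ (Fin 2) ≃ᵢ EuclideanSpace ℝ (Fin 2), f '' Ω₁ = Ω₂ := by
  exact Pool.Agent.Steklov.exists_pair_euclidean

end Pool.Agent.S04627
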