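import Pool.Statements.S05254
import Pool.Agent.Hhelper32.Final

set_option autoImplicit false
open Pool Pool.MP_83fdb4_an

namespace Pool.Agent.S05254

/-- The negation of the preceding statement: For every analytic f on the open unit disc mapping it onto the whole complex plane, there is an analytic, injective, bounded g on the disc such that f+g also maps the disc onto the whole plane. -/
theorem result :
    ¬ (∀ f : ℂ → ℂ, AnalyticOnNhd ℂ f (Metric.ball (0:ℂ) 1) →
      f '' Metric.ball (0:ℂ) 1 = Set.univ →
      ∃ g : ℂ → ℂ, AnalyticOnNhd ℂ g (Metric.ball (0:ℂ) 1) ∧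
        Set.InjOn g (Metric.ball (0:ℂ) 1) ∧
        Bornology.IsBounded (g '' Metric.ball (0:ℂ) 1) ∧
        (fun z => f z + g z) '' Metric.ball (0:ℂ) 1 = Set.univ) := by
  intro h
  obtain ⟨f, hf, hfu, hfg⟩ := Pool.Agent.Hhelper32.main_theorem
  obtain ⟨g, hg, hgi, hgb, hgu⟩ := h f hf hfu
  exact hfg g hg hgi hgb hgu

end Pool.Agent.S05254
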