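import Pool.Statements.S05255
import Pool.Agent.Dcs.Fnl

set_option autoImplicit false
open scoped ContDiff
open Pool Pool.MP_843cd6_an

namespace Pool.Agent.S05255

/-- For any compact piece of a smooth graph hypersurface in R^d with nondegenerate Hessian, any 0<p≤d(d−1) and ε>0, the L^p norm over the piece of sum a_n e(n x_1+…+n^d x_d) for n from −N to N is at most C N^ε times the ℓ² norm of a. -/
theorem result :
    ∀ m : ℕ, 1 ≤ m → ∀ j : Fin (m + 1), ∀ φ : (Fin m → ℝ) → ℝ, ContDiff ℝ ∞ φ →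
      ∀ K : Set (Fin m → ℝ), IsCompact K →
        (∀ y ∈ K, Function.Injective (fderiv ℝ (fderiv ℝ φ) y)) →
        ∀ p : ℝ, 0 < p → p ≤ ((m + 1 : ℝ) * (m : ℝ)) →
          ∀ ε : ℝ, 0 < ε → ∃ C : ℝ, ∀ N : ℕ, 1 ≤ N → ∀ a : ℤ → ℂ,
            (∫ y in K, ‖∑ n ∈ Finset.Icc (-(N : ℤ)) N,
                a n * Complex.exp (2 * (Real.pi : ℂ) * Complex.I *
                  (((∑ k : Fin (m + 1), ((n : ℝ) ^ (k.val + 1)) *
                      (Fin.insertNth (α := fun _ => ℝ) j (φ y) y) k : ℝ)) : ℂ))‖ ^ p) ^ (1 / p)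
              ≤ C * (N : ℝ) ^ ε * Real.sqrt (∑ n ∈ Finset.Icc (-(N : ℤ)) N, ‖a n‖ ^ 2) := by
  intro m hm j φ hφ K hK h p hp hp' ε hε
  exact Pool.Agent.Dcs.main_thm m hm j (hφ.of_le (by norm_cast)) hK h hp hp' hε

end Pool.Agent.S05255
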