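import Pool.Statements.S05304
import Pool.Agent.Hhelper32.Weiss.Final

set_option autoImplicit false
open Pool Pool.MP_8988f3_an

namespace Pool.Agent.S05304

/-- The negation of the preceding statement: For d ≥ 2, every ℤ^d subshift that is a sliding-block-code image of a finite-type ℤ^d shift is the sliding-block-code image of some finite-type ℤ^d shift having the same topological entropy. -/
theorem result :
    ¬ (∀ (d : ℕ), 2 ≤ d → ∀ (k : ℕ) (X : Set ((Fin d → ℤ) → Fin k)),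
    (∃ (m : ℕ) (F : Finset (Fin d → ℤ)) (P : Set (F → Fin m)) (G : Finset (Fin d → ℤ))
        (Φ : (G → Fin m) → Fin k),
      X = {x | ∃ y : (Fin d → ℤ) → Fin m,
        (∀ v : Fin d → ℤ, (fun u : F => y ((u : Fin d → ℤ) + v)) ∈ P) ∧
        x = fun v => Φ (fun u : G => y ((u : Fin d → ℤ) + v))}) →
    ∃ (m : ℕ) (F : Finset (Fin d → ℤ)) (P : Set (F → Fin m)) (G : Finset (Fin d → ℤ))
        (Φ : (G → Fin m) → Fin k) (Y : Set ((Fin d → ℤ) → Fin m)),
      Y = {y | ∀ v : Fin d → ℤ, (fun u : F => y ((u : Fin d → ℤ) + v)) ∈ P} ∧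
      X = {x | ∃ y ∈ Y, x = fun v => Φ (fun u : G => y ((u : Fin d → ℤ) + v))} ∧
      (⨅ n : ℕ, Real.log ((({p : (Fin d → Fin (n+1)) → Fin m |
          ∃ y ∈ Y, ∀ i, p i = y (fun j => ((i j : ℕ) : ℤ))}.ncard : ℕ) : ℝ))
          / ((n : ℝ) + 1) ^ d) =
      (⨅ n : ℕ, Real.log ((({p : (Fin d → Fin (n+1)) → Fin k |
          ∃ x ∈ X, ∀ i, p i = x (fun j => ((i j : ℕ) : ℤ))}.ncard : ℕ) : ℝ))
          / ((n : ℝ) + 1) ^ d)) := by
  exact Pool.Agent.Hhelper32.Weiss.main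

end Pool.Agent.S05304
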