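import Pool.Statements.S06884
import Mathlib

set_option autoImplicit false
open Pool Pool.MP_016f39_co

namespace Pool.Agent.S06884

/-! The counterexample: 19 vertices.  Vertices `0..5` are the branch vertices, vertex `18` is the
hub, and each branch vertex `x` has two private vertices `6 + 2 x + j` (`j = 0, 1`), adjacent to
`x`, to the hub and to the private vertex number `j` of the partner of `x`
(partners: 0 and 1, 2 and 3, 4 and 5).  Besides, 1-2, 3-4 and 5-0 are edges. -/

def adjL : List ℕ := [224, 772, 3074, 12304, 49160, 196609, 262401, 262657, 262210, 262274, 266244, 270340, 263176, 264200, 327696, 393232, 278560, 294944, 262080]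

def datL : List (List (ℕ × ℕ × ℕ)) := [
  [(0, 0, 0), (0, 0, 0), (0, 0, 0), (0, 0, 0), (0, 0, 0), (1, 262156, 39933624667412079714500608), (1, 262194, 158523977955396952889787392), (1, 262194, 158523977955465189182702592), (0, 0, 0), (0, 0, 0), (0, 0, 0), (0, 0, 0), (0, 0, 0), (0, 0, 0), (0, 0, 0), (0, 0, 0), (0, 0, 0), (0, 0, 0), (0, 0, 0)],
  [(0, 0, 0), (0, 0, 0), (1, 262192, 118590466384628314380731392), (0, 0, 0), (0, 0, 0), (0, 0, 0), (0, 0, 0), (0, 0, 0), (1, 262157, 39933662750978629836996608), (1, 262157, 39933662751046866129911808), (0, 0, 0), (0, 0, 0), (0, 0, 0), (0, 0, 0), (0, 0, 0), (0, 0, 0), (0, 0, 0), (0, 0, 0), (0, 0, 0)],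
  [(0, 0, 0), (1, 262192, 118590466384628314380731392), (0, 0, 0), (0, 0, 0), (0, 0, 0), (0, 0, 0), (0, 0, 0), (0, 0, 0), (0, 0, 0), (0, 0, 0), (1, 262155, 39933516187063912793899008), (1, 262155, 39933659288942072491409408), (0, 0, 0), (0, 0, 0), (0, 0, 0), (0, 0, 0), (0, 0, 0), (0, 0, 0), (0, 0, 0)],
  [(0, 0, 0), (0, 0, 0), (0, 0, 0), (0, 0, 0), (1, 262147, 39933511570874294739140608), (0, 0, 0), (0, 0, 0), (0, 0, 0), (0, 0, 0), (0, 0, 0), (0, 0, 0), (0, 0, 0), (1, 262196, 158523979109442156232736768), (1, 262196, 158524014884911696157114368), (0, 0, 0), (0, 0, 0), (0, 0, 0), (0, 0, 0), (0, 0, 0)],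
  [(0, 0, 0), (0, 0, 0), (0, 0, 0), (1, 262147, 39933511570874294739140608), (0, 0, 0), (0, 0, 0), (0, 0, 0), (0, 0, 0), (0, 0, 0), (0, 0, 0), (0, 0, 0), (0, 0, 0), (0, 0, 0), (0, 0, 0), (1, 262188, 43563943901118119438974976), (1, 262188, 156103840146005351937867776), (0, 0, 0), (0, 0, 0), (0, 0, 0)],
  [(1, 262156, 39933624667412079714500608), (0, 0, 0), (0, 0, 0), (0, 0, 0), (0, 0, 0), (0, 0, 0), (0, 0, 0), (0, 0, 0), (0, 0, 0), (0, 0, 0), (0, 0, 0), (0, 0, 0), (0, 0, 0), (0, 0, 0), (0, 0, 0), (0, 0, 0), (1, 262163, 43563830804580334496120832), (1, 262163, 156103727049467566995013632), (0, 0, 0)],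
  [(1, 262194, 158523977955396952889787392), (0, 0, 0), (0, 0, 0), (0, 0, 0), (0, 0, 0), (0, 0, 0), (0, 0, 0), (0, 0, 0), (1, 262155, 39933511570876493762396160), (0, 0, 0), (0, 0, 0), (0, 0, 0), (0, 0, 0), (0, 0, 0), (0, 0, 0), (0, 0, 0), (0, 0, 0), (0, 0, 0), (0, 114, 158523977955396950742303744)],
  [(1, 262194, 158523977955465189182702592), (0, 0, 0), (0, 0, 0), (0, 0, 0), (0, 0, 0), (0, 0, 0), (0, 0, 0), (0, 0, 0), (0, 0, 0), (1, 262155, 39933511570909479111229440), (0, 0, 0), (0, 0, 0), (0, 0, 0), (0, 0, 0), (0, 0, 0), (0, 0, 0), (0, 0, 0), (0, 0, 0), (0, 178, 158523977955465120463225856)],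
  [(0, 0, 0), (1, 262157, 39933662750978629836996608), (0, 0, 0), (0, 0, 0), (0, 0, 0), (0, 0, 0), (1, 262155, 39933511570876493762396160), (0, 0, 0), (0, 0, 0), (0, 0, 0), (0, 0, 0), (0, 0, 0), (0, 0, 0), (0, 0, 0), (0, 0, 0), (0, 0, 0), (0, 0, 0), (0, 0, 0), (0, 269, 39933662750976430813741056)],
  [(0, 0, 0), (1, 262157, 39933662751046866129911808), (0, 0, 0), (0, 0, 0), (0, 0, 0), (0, 0, 0), (0, 0, 0), (1, 262155, 39933511570909479111229440), (0, 0, 0), (0, 0, 0), (0, 0, 0), (0, 0, 0), (0, 0, 0), (0, 0, 0), (0, 0, 0), (0, 0, 0), (0, 0, 0), (0, 0, 0), (0, 525, 39933662750976497385734144)],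
  [(0, 0, 0), (0, 0, 0), (1, 262155, 39933516187063912793899008), (0, 0, 0), (0, 0, 0), (0, 0, 0), (0, 0, 0), (0, 0, 0), (0, 0, 0), (0, 0, 0), (0, 0, 0), (0, 0, 0), (1, 262155, 39933516182560313166528512), (0, 0, 0), (0, 0, 0), (0, 0, 0), (0, 0, 0), (0, 0, 0), (0, 1035, 39933516182560313166528512)],
  [(0, 0, 0), (0, 0, 0), (1, 262155, 39933659288942072491409408), (0, 0, 0), (0, 0, 0), (0, 0, 0), (0, 0, 0), (0, 0, 0), (0, 0, 0), (0, 0, 0), (0, 0, 0), (0, 0, 0), (0, 0, 0), (1, 262155, 39933659144826884415553536), (0, 0, 0), (0, 0, 0), (0, 0, 0), (0, 0, 0), (0, 2059, 39933659144826884415553536)],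
  [(0, 0, 0), (0, 0, 0), (0, 0, 0), (1, 262196, 158523979109442156232736768), (0, 0, 0), (0, 0, 0), (0, 0, 0), (0, 0, 0), (0, 0, 0), (0, 0, 0), (1, 262155, 39933516182560313166528512), (0, 0, 0), (0, 0, 0), (0, 0, 0), (0, 0, 0), (0, 0, 0), (0, 0, 0), (0, 0, 0), (0, 4148, 158523976803599147019042816)],
  [(0, 0, 0), (0, 0, 0), (0, 0, 0), (1, 262196, 158524014884911696157114368), (0, 0, 0), (0, 0, 0), (0, 0, 0), (0, 0, 0), (0, 0, 0), (0, 0, 0), (0, 0, 0), (1, 262155, 39933659144826884415553536), (0, 0, 0), (0, 0, 0), (0, 0, 0), (0, 0, 0), (0, 0, 0), (0, 0, 0), (0, 8244, 158523941097935401318907904)],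
  [(0, 0, 0), (0, 0, 0), (0, 0, 0), (0, 0, 0), (1, 262188, 43563943901118119438974976), (0, 0, 0), (0, 0, 0), (0, 0, 0), (0, 0, 0), (0, 0, 0), (0, 0, 0), (0, 0, 0), (0, 0, 0), (0, 0, 0), (0, 0, 0), (0, 0, 0), (1, 262163, 39937053345736446972002304), (0, 0, 0), (0, 16428, 43559221534635249793761280)],
  [(0, 0, 0), (0, 0, 0), (0, 0, 0), (0, 0, 0), (1, 262188, 156103840146005351937867776), (0, 0, 0), (0, 0, 0), (0, 0, 0), (0, 0, 0), (0, 0, 0), (0, 0, 0), (0, 0, 0), (0, 0, 0), (0, 0, 0), (0, 0, 0), (0, 0, 0), (0, 0, 0), (1, 262163, 40046848366463166223220736), (0, 32812, 155952724418553523291029504)],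
  [(0, 0, 0), (0, 0, 0), (0, 0, 0), (0, 0, 0), (0, 0, 0), (1, 262163, 43563830804580334496120832), (0, 0, 0), (0, 0, 0), (0, 0, 0), (0, 0, 0), (0, 0, 0), (0, 0, 0), (0, 0, 0), (0, 0, 0), (1, 262163, 39937053345736446972002304), (0, 0, 0), (0, 0, 0), (0, 0, 0), (0, 65555, 38728127526121817797296128)],
  [(0, 0, 0), (0, 0, 0), (0, 0, 0), (0, 0, 0), (0, 0, 0), (1, 262163, 156103727049467566995013632), (0, 0, 0), (0, 0, 0), (0, 0, 0), (0, 0, 0), (0, 0, 0), (0, 0, 0), (0, 0, 0), (0, 0, 0), (0, 0, 0), (1, 262163, 40046848366463166223220736), (0, 0, 0), (0, 0, 0), (0, 131091, 1361222138795032632623104)],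
  [(0, 0, 0), (0, 0, 0), (0, 0, 0), (0, 0, 0), (0, 0, 0), (0, 0, 0), (0, 262194, 158523977955396950742303744), (0, 262194, 158523977955465120463225856), (0, 262157, 39933662750976430813741056), (0, 262157, 39933662750976497385734144), (0, 262155, 39933516182560313166528512), (0, 262155, 39933659144826884415553536), (0, 262196, 158523976803599147019042816), (0, 262196, 158523941097935401318907904), (0, 262188, 43559221534635249793761280), (0, 262188, 155952724418553523291029504), (0, 262163, 38728127526121817797296128), (0, 262163, 1361222138795032632623104), (0, 0, 0)]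
]

def adjB (a b : Fin 19) : Bool := (adjL.getD a.val 0).testBit b.val

lemma adjB_symm : ∀ a b : Fin 19, adjB a b = true → adjB b a = true := by decide +kernel

lemma adjB_irrefl : ∀ a : Fin 19, ¬ (adjB a a = true) := by decide +kernel

/-- The graph. -/
def G : SimpleGraph (Fin 19) where
  Adj a b := adjB a b = true
  symm := ⟨fun a b h => adjB_symm a b h⟩
  loopless := ⟨fun a h => adjB_irrefl a h⟩

instance : DecidableRel G.Adj := fun a b => inferInstanceAs (Decidable (adjB a b = true))

lemma comp_lower {W : Type} [Finite W] (H : SimpleGraph W) (f : W → ℕ)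
    (hf : ∀ a b, H.Adj a b → f a = f b) (k : ℕ) (hk : ∀ i ≤ k, ∃ x, f x = i) :
    k + 1 ≤ Nat.card H.ConnectedComponent := by
  classical
  have hr : ∀ a b, H.Reachable a b → f a = f b := by
    intro a b h
    obtain ⟨p⟩ := h
    induction p with
    | nil => rfl
    | cons h _ ih => exact (hf _ _ h).trans ih
  choose x hx using hk
  have : Function.Injective (fun i : Fin (k + 1) =>
      H.connectedComponentMk (x i.val (by omega))) := by
    intro i j hij
    have h1 := SimpleGraph.ConnectedComponent.exact hij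
    have h2 := hr _ _ h1
    rw [hx i.val (by omega), hx j.val (by omega)] at h2
    exact Fin.ext h2
  have h3 := Nat.card_le_card_of_injective _ this
  simpa using h3

/-- Reachability in the graph with `S` removed. -/
def reach (S : Finset (Fin 19)) (a b : Fin 19) : Prop :=
  ∃ (ha : a ∈ ((S : Set (Fin 19))ᶜ)) (hb : b ∈ ((S : Set (Fin 19))ᶜ)),
    (G.induce ((S : Set (Fin 19))ᶜ)).Reachable ⟨a, ha⟩ ⟨b, hb⟩

lemma reach.trans {S : Finset (Fin 19)} {a b c : Fin 19} (h1 : reach S a b) (h2 : reach S b c) :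
    reach S a c := by
  obtain ⟨ha, hb, h⟩ := h1
  obtain ⟨hb', hc, h'⟩ := h2
  exact ⟨ha, hc, h.trans h'⟩

lemma reach_refl {S : Finset (Fin 19)} {a : Fin 19} (h : a ∉ S) : reach S a a :=
  ⟨by simpa using h, by simpa using h, SimpleGraph.Reachable.refl _⟩

lemma reach_adj {S : Finset (Fin 19)} {a b : Fin 19} (ha : a ∉ S) (hb : b ∉ S)
    (h : adjB a b = true) : reach S a b := by
  refine ⟨by simpa using ha, by simpa using hb, ?_⟩
  apply SimpleGraph.Adj.reachable
  rw [SimpleGraph.induce_adj]
  exact h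

lemma comp_upper (S R : Finset (Fin 19)) (h : ∀ w, w ∉ S → ∃ r ∈ R, reach S r w) :
    Nat.card (G.induce ((S : Set (Fin 19))ᶜ)).ConnectedComponent ≤ R.card := by
  classical
  have key : ∀ c : (G.induce ((S : Set (Fin 19))ᶜ)).ConnectedComponent, ∃ r : R,
      ∃ hr : r.val ∈ ((S : Set (Fin 19))ᶜ),
        (G.induce ((S : Set (Fin 19))ᶜ)).connectedComponentMk ⟨r.val, hr⟩ = c := by
    intro c
    induction c using SimpleGraph.ConnectedComponent.ind with
    | _ w =>
      obtain ⟨r, hr, ha, hb, hab⟩ := h w.val (fun hw => w.property (by simpa using hw))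
      exact ⟨⟨r, hr⟩, ha, SimpleGraph.ConnectedComponent.sound hab⟩
  choose r hr hrc using key
  have hinj : Function.Injective r := by
    intro c d hcd
    have h1 := hrc c
    have h2 := hrc d
    have h3 := congrArg Subtype.val hcd
    rw [← h1, ← h2]
    congr 1
    exact Subtype.ext h3
  have := Nat.card_le_card_of_injective r hinj
  simpa using this

/-- The branch vertex number `x`. -/
def br (x : Fin 6) : Fin 19 := ⟨x.val, by omega⟩

/-- The private vertex number `j` of branch vertex number `x`. -/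
def pv (x : Fin 6) (j : Fin 2) : Fin 19 := ⟨6 + 2 * x.val + j.val, by omega⟩

/-- The partner. -/
def pr (x : Fin 6) : Fin 6 := if x.val % 2 = 0 then x + 1 else x - 1

lemma cases19 : ∀ w : Fin 19, w = 18 ∨ (∃ x, w = br x) ∨ (∃ x j, w = pv x j) := by decide +kernel

lemma adj_hub_pv : ∀ x j, adjB 18 (pv x j) = true := by decide +kernel

lemma adj_br_pv : ∀ x j, adjB (br x) (pv x j) = true := by decide +kernel

lemma adj_pv_pv : ∀ x j, adjB (pv x j) (pv (pr x) j) = true := by decide +kernel

lemma br_inj : ∀ x y, br x = br y → x = y := by decide +kernel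

lemma pv_inj : ∀ p q : Fin 6 × Fin 2, pv p.1 p.2 = pv q.1 q.2 → p = q := by decide +kernel

lemma br_ne : ∀ x, br x ≠ 18 := by decide +kernel

lemma next_adj : ∀ x : Fin 6, adjB (br x) (br (x + 1)) = true ∨ pr x = x + 1 := by decide +kernel

lemma tough_nohub (S : Finset (Fin 19)) (hS : S.Nonempty) (h18 : (18 : Fin 19) ∉ S) :
    Nat.card (G.induce ((S : Set (Fin 19))ᶜ)).ConnectedComponent ≤ S.card := by
  classical
  set X : Finset (Fin 6) := Finset.univ.filter (fun x => pv x 0 ∈ S ∧ pv x 1 ∈ S) with hX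
  have hcard : 2 * X.card ≤ S.card := by
    have h1 : (X ×ˢ (Finset.univ : Finset (Fin 2))).card ≤ S.card := by
      apply Finset.card_le_card_of_injOn (fun p => pv p.1 p.2)
      · rintro ⟨x, j⟩ h
        simp only [hX, Finset.coe_product, Set.mem_prod, Finset.mem_coe, Finset.mem_filter,
          Finset.mem_univ, true_and, and_true] at h ⊢
        fin_cases j
        · exact h.1
        · exact h.2
      · intro p _ q _ h
        exact pv_inj p q h
    rw [Finset.card_product] at h1
    simpa [mul_comm] using h1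
  have hR : (insert 18 (X.image br)).card ≤ S.card := by
    have h1 := Finset.card_insert_le (18 : Fin 19) (X.image br)
    have h2 := Finset.card_image_le (s := X) (f := br)
    have h3 := hS.card_pos
    omega
  refine le_trans (comp_upper S (insert 18 (X.image br)) ?_) hR
  intro w hw
  rcases cases19 w with rfl | ⟨x, rfl⟩ | ⟨x, j, rfl⟩
  · exact ⟨18, Finset.mem_insert_self _ _, reach_refl hw⟩
  · by_cases hx : pv x 0 ∈ S ∧ pv x 1 ∈ S
    · refine ⟨br x, Finset.mem_insert_of_mem (Finset.mem_image_of_mem _ ?_), reach_refl hw⟩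
      simp [hX, hx]
    · have : ∃ j, pv x j ∉ S := by
        by_contra hcon
        push Not at hcon
        exact hx ⟨hcon 0, hcon 1⟩
      obtain ⟨j, hj⟩ := this
      exact ⟨18, Finset.mem_insert_self _ _, (reach_adj h18 hj (adj_hub_pv x j)).trans
        (reach_adj hj hw (adjB_symm _ _ (adj_br_pv x j)))⟩
  · exact ⟨18, Finset.mem_insert_self _ _, reach_adj h18 hw (adj_hub_pv x j)⟩

/-- Stopping places of the walk around the hexagon. -/
def stop (T : Finset (Fin 6)) (x : Fin 6) : Bool :=
  decide (x ∉ T) && (decide (x + 1 ∈ T) || (decide (T = ∅) && decide (x = 0)))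

/-- Full pairs. -/
def fullp (T : Finset (Fin 6)) (x : Fin 6) : Bool :=
  decide (x.val % 2 = 0) && decide (x ∈ T) && decide (x + 1 ∈ T)

/-- The representatives of the components. -/
def reps (T : Finset (Fin 6)) : Finset (Fin 19) :=
  ((Finset.univ.filter (fun x => stop T x = true)).image br) ∪
    (((Finset.univ.filter (fun x => fullp T x = true)) ×ˢ (Finset.univ : Finset (Fin 2))).image
      (fun p => pv p.1 p.2))

lemma reps_card : ∀ T : Finset (Fin 6), ¬ (1 ∈ T ∧ 2 ∈ T) → ¬ (3 ∈ T ∧ 4 ∈ T) →
    ¬ (5 ∈ T ∧ 0 ∈ T) → (reps T).card ≤ T.card + 1 := by decide +kernel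

lemma exists_stop : ∀ T : Finset (Fin 6), ∀ x : Fin 6, x ∉ T →
    ∃ n : Fin 6, stop T ((fun y : Fin 6 => y + 1)^[n.val] x) = true := by decide +kernel

lemma tough_hub (S : Finset (Fin 19)) (h18 : (18 : Fin 19) ∈ S)
    (hind : ∀ a ∈ S, ∀ b ∈ S, ¬ (adjB a b = true)) :
    Nat.card (G.induce ((S : Set (Fin 19))ᶜ)).ConnectedComponent ≤ S.card := by
  classical
  set T : Finset (Fin 6) := Finset.univ.filter (fun x => br x ∈ S) with hT
  have memT : ∀ x, x ∈ T ↔ br x ∈ S := by intro x; simp [hT]
  have hpv : ∀ x j, pv x j ∉ S := fun x j h => hind _ h18 _ h (adj_hub_pv x j)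
  have hTS : T.card + 1 ≤ S.card := by
    have h1 : (insert 18 (T.image br)).card = T.card + 1 := by
      rw [Finset.card_insert_of_notMem, Finset.card_image_of_injective _ (fun x y h => br_inj x y h)]
      intro h
      rw [Finset.mem_image] at h
      obtain ⟨x, -, hx⟩ := h
      exact br_ne x hx
    rw [← h1]
    apply Finset.card_le_card
    intro y hy
    rw [Finset.mem_insert, Finset.mem_image] at hy
    rcases hy with rfl | ⟨x, hx, rfl⟩
    · exact h18
    · exact (memT x).1 hx
  have hR : (reps T).card ≤ T.card + 1 := by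
    apply reps_card
    · rintro ⟨h1, h2⟩
      exact hind _ ((memT 1).1 h1) _ ((memT 2).1 h2) (by decide +kernel)
    · rintro ⟨h1, h2⟩
      exact hind _ ((memT 3).1 h1) _ ((memT 4).1 h2) (by decide +kernel)
    · rintro ⟨h1, h2⟩
      exact hind _ ((memT 5).1 h1) _ ((memT 0).1 h2) (by decide +kernel)
  refine le_trans (comp_upper S (reps T) ?_) (hR.trans hTS)
  -- walking around the hexagon
  have hstep : ∀ x, x ∉ T → x + 1 ∉ T → reach S (br (x + 1)) (br x) := by
    intro x hx hx1
    have hx' : br x ∉ S := fun h => hx ((memT x).2 h)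
    have hx1' : br (x + 1) ∉ S := fun h => hx1 ((memT _).2 h)
    rcases next_adj x with h | h
    · exact reach_adj hx1' hx' (adjB_symm _ _ h)
    · have h1 := adj_pv_pv x 0
      rw [h] at h1
      exact ((reach_adj hx1' (hpv (x + 1) 0) (adj_br_pv (x + 1) 0)).trans
        (reach_adj (hpv (x + 1) 0) (hpv x 0) (adjB_symm _ _ h1))).trans
        (reach_adj (hpv x 0) hx' (adjB_symm _ _ (adj_br_pv x 0)))
  have hwalk : ∀ n : ℕ, ∀ x : Fin 6, x ∉ T →
      stop T ((fun y : Fin 6 => y + 1)^[n] x) = true →
      ∃ r ∈ reps T, reach S r (br x) := by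
    intro n
    induction n with
    | zero =>
      intro x hx hs
      refine ⟨br x, ?_, reach_refl (fun h => hx ((memT x).2 h))⟩
      unfold reps
      apply Finset.mem_union_left
      apply Finset.mem_image_of_mem
      simpa using hs
    | succ n ih =>
      intro x hx hs
      by_cases hsx : stop T x = true
      · refine ⟨br x, ?_, reach_refl (fun h => hx ((memT x).2 h))⟩
        unfold reps
        apply Finset.mem_union_left
        apply Finset.mem_image_of_mem
        simpa using hsx
      · have hx1 : x + 1 ∉ T := by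
          intro h
          apply hsx
          simp [stop, hx, h]
        obtain ⟨r, hr, hrr⟩ := ih (x + 1) hx1 hs
        exact ⟨r, hr, hrr.trans (hstep x hx hx1)⟩
  have hbr : ∀ x : Fin 6, x ∉ T → ∃ r ∈ reps T, reach S r (br x) := by
    intro x hx
    obtain ⟨n, hn⟩ := exists_stop T x hx
    exact hwalk n.val x hx hn
  have hprpr : ∀ x, pr (pr x) = x := by decide +kernel
  intro w hw
  rcases cases19 w with rfl | ⟨x, rfl⟩ | ⟨x, j, rfl⟩
  · exact absurd h18 hw
  · exact hbr x (fun h => hw ((memT x).1 h))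
  · by_cases hx : x ∈ T
    · by_cases hx' : pr x ∈ T
      · by_cases hpar : x.val % 2 = 0
        · refine ⟨pv x j, ?_, reach_refl (hpv x j)⟩
          unfold reps
          apply Finset.mem_union_right
          rw [Finset.mem_image]
          refine ⟨(x, j), ?_, rfl⟩
          have : pr x = x + 1 := by simp [pr, hpar]
          rw [this] at hx'
          simp [fullp, hpar, hx, hx']
        · refine ⟨pv (pr x) j, ?_, ?_⟩
          · unfold reps
            apply Finset.mem_union_right
            rw [Finset.mem_image]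
            refine ⟨(pr x, j), ?_, rfl⟩
            have h1 : ∀ x : Fin 6, ¬ (x.val % 2 = 0) → (pr x).val % 2 = 0 ∧ pr x + 1 = x := by
              decide +kernel
            obtain ⟨h2, h3⟩ := h1 x hpar
            simp only [Finset.mem_product, Finset.mem_filter, Finset.mem_univ, true_and, and_true]
            unfold fullp
            rw [h3]
            simp [h2, hx, hx']
          · exact reach_adj (hpv _ _) (hpv _ _) (adjB_symm _ _ (adj_pv_pv x j))
      · obtain ⟨r, hr, hrr⟩ := hbr (pr x) hx'
        refine ⟨r, hr, (hrr.trans (reach_adj (fun h => hx' ((memT _).2 h)) (hpv (pr x) j)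
          (adj_br_pv (pr x) j))).trans (reach_adj (hpv _ _) (hpv _ _)
            (adjB_symm _ _ (adj_pv_pv x j)))⟩
    · obtain ⟨r, hr, hrr⟩ := hbr x hx
      exact ⟨r, hr, hrr.trans (reach_adj (fun h => hx ((memT _).2 h)) (hpv x j) (adj_br_pv x j))⟩

lemma tough (S : Finset (Fin 19)) (hS : S.Nonempty) (hind : G.IsIndepSet (S : Set (Fin 19))) :
    Nat.card (G.induce ((S : Set (Fin 19))ᶜ)).ConnectedComponent ≤ S.card := by
  by_cases h18 : (18 : Fin 19) ∈ S
  · apply tough_hub S h18
    intro a ha b hb hab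
    by_cases hne : a = b
    · subst hne
      exact adjB_irrefl a hab
    · exact hind (by simpa using ha) (by simpa using hb) hne hab
  · exact tough_nohub S hS h18



/-- Membership in the set coded by the bits of `s`. -/
def inS (s : ℕ) (x : Fin 19) : Bool := s.testBit x.val

/-- The label of `x` coded in `l` (5 bits per vertex). -/
def lab (l : ℕ) (x : Fin 19) : ℕ := (l >>> (5 * x.val)) % 32

def dat (u v : Fin 19) : ℕ × ℕ × ℕ := (datL.getD u.val []).getD v.val (0, 0, 0)

/-- Number of elements of the coded set. -/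
def cnt (s : ℕ) : ℕ := (Finset.univ.filter (fun x : Fin 19 => inS s x = true)).card

/-- The adjacency in the contraction (before symmetrising). -/
def conR (u v x y : Fin 19) : Bool := adjB x y || (decide (x = u) && adjB v y)

/-- The check that deleting `uv` destroys the property. -/
def chkDel (u v : Fin 19) (s l : ℕ) : Bool :=
  decide (∃ x, inS s x = true) &&
  decide (∀ x y : Fin 19, inS s x = true → inS s y = true → ¬ (adjB x y = true)) &&
  decide (∀ x y : Fin 19, inS s x = false → inS s y = false → adjB x y = true →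
    ¬ ((x = u ∧ y = v) ∨ (x = v ∧ y = u)) → lab l x = lab l y) &&
  decide (∀ i : Fin 19, i.val ≤ cnt s → ∃ x : Fin 19, inS s x = false ∧ lab l x = i.val) &&
  decide (cnt s < 19)

/-- The check that contracting `uv` destroys the property. -/
def chkCon (u v : Fin 19) (s l : ℕ) : Bool :=
  decide (∃ x, inS s x = true) && decide (inS s v = false) &&
  decide (∀ x y : Fin 19, inS s x = true → inS s y = true → x ≠ y →
    ¬ (conR u v x y = true)) &&
  decide (∀ x y : Fin 19, x ≠ v → y ≠ v → inS s x = false → inS s y = false →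
    conR u v x y = true → lab l x = lab l y) &&
  decide (∀ i : Fin 19, i.val ≤ cnt s →
    ∃ x : Fin 19, x ≠ v ∧ inS s x = false ∧ lab l x = i.val) &&
  decide (cnt s < 19)

lemma all_chk : ∀ u v : Fin 19, adjB u v = true →
    (chkDel u v (dat u v).2.1 (dat u v).2.2 = true ∧ (dat u v).1 = 1) ∨
    (chkCon u v (dat u v).2.1 (dat u v).2.2 = true ∧ (dat u v).1 = 0) := by decide +kernel

lemma del_bad (u v : Fin 19) (s l : ℕ) (h : chkDel u v s l = true) :
    ∃ S : Finset (Fin 19), S.Nonempty ∧
      (G.deleteEdges {s(u, v)}).IsIndepSet (S : Set (Fin 19)) ∧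
      S.card < Nat.card ((G.deleteEdges {s(u, v)}).induce ((S : Set (Fin 19))ᶜ)).ConnectedComponent
      := by
  classical
  simp only [chkDel, Bool.and_eq_true, decide_eq_true_eq] at h
  obtain ⟨⟨⟨⟨⟨x, hx⟩, hind⟩, hlab⟩, hsurj⟩, hcnt⟩ := h
  set S : Finset (Fin 19) := Finset.univ.filter (fun x => inS s x = true) with hS
  have memS : ∀ y, y ∈ S ↔ inS s y = true := by intro y; simp [hS]
  refine ⟨S, ⟨x, (memS x).2 hx⟩, ?_, ?_⟩
  · intro a ha b hb _ hadj
    rw [SimpleGraph.deleteEdges_adj] at hadj
    exact hind a b ((memS a).1 (by simpa using ha)) ((memS b).1 (by simpa using hb)) hadj.1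
  · have hk := comp_lower ((G.deleteEdges {s(u, v)}).induce ((S : Set (Fin 19))ᶜ))
      (fun w => lab l w.val) (by
        intro a b hab
        rw [SimpleGraph.induce_adj, SimpleGraph.deleteEdges_adj] at hab
        obtain ⟨h1, h2⟩ := hab
        have ha : inS s a.val = false := by
          by_contra hcon
          exact a.property (by simpa [memS] using hcon)
        have hb : inS s b.val = false := by
          by_contra hcon
          exact b.property (by simpa [memS] using hcon)
        apply hlab a.val b.val ha hb h1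
        intro hcon
        apply h2
        rw [Set.mem_singleton_iff, Sym2.eq_iff]
        exact hcon) S.card (by
        intro i hi
        have hcS : S.card = cnt s := rfl
        obtain ⟨y, hy1, hy2⟩ := hsurj ⟨i, by omega⟩ (by simpa [hcS] using hi)
        refine ⟨⟨y, ?_⟩, hy2⟩
        intro hcon
        have := (memS y).1 (by simpa using hcon)
        rw [hy1] at this
        exact Bool.false_ne_true this)
    omega

lemma con_bad (u v : Fin 19) (s l : ℕ) (h : chkCon u v s l = true) :
    ∃ S : Finset {w : Fin 19 // w ≠ v}, S.Nonempty ∧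
      (SimpleGraph.fromRel (fun a b : {w : Fin 19 // w ≠ v} =>
              G.Adj a.1 b.1 ∨ (a.1 = u ∧ G.Adj v b.1))).IsIndepSet
            (S : Set {w : Fin 19 // w ≠ v}) ∧
      S.card < Nat.card ((SimpleGraph.fromRel (fun a b : {w : Fin 19 // w ≠ v} =>
              G.Adj a.1 b.1 ∨ (a.1 = u ∧ G.Adj v b.1))).induce
              ((S : Set {w : Fin 19 // w ≠ v})ᶜ)).ConnectedComponent := by
  classical
  simp only [chkCon, Bool.and_eq_true, decide_eq_true_eq] at h
  obtain ⟨⟨⟨⟨⟨⟨x, hx⟩, hv⟩, hind⟩, hlab⟩, hsurj⟩, hcnt⟩ := h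
  have hcon : ∀ a b : {w : Fin 19 // w ≠ v}, (G.Adj a.1 b.1 ∨ (a.1 = u ∧ G.Adj v b.1)) →
      conR u v a.1 b.1 = true := by
    intro a b hab
    unfold conR
    rcases hab with hab | ⟨h1, h2⟩
    · have : adjB a.1 b.1 = true := hab
      simp [this]
    · have : adjB v b.1 = true := h2
      simp [this, h1]
  set S : Finset {w : Fin 19 // w ≠ v} := Finset.univ.filter (fun x => inS s x.1 = true) with hS
  have memS : ∀ y, y ∈ S ↔ inS s y.1 = true := by intro y; simp [hS]
  have hxv : x ≠ v := by
    rintro rfl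
    rw [hv] at hx
    exact Bool.false_ne_true hx
  have hcS : S.card ≤ cnt s := by
    unfold cnt
    apply Finset.card_le_card_of_injOn (fun w => w.1)
    · intro w hw
      simp only [Finset.coe_filter, Finset.mem_univ, true_and, Set.mem_ofPred_eq]
      exact (memS w).1 (by simpa using hw)
    · intro a _ b _ hab
      exact Subtype.ext hab
  refine ⟨S, ⟨⟨x, hxv⟩, (memS _).2 hx⟩, ?_, ?_⟩
  · intro a ha b hb hne hadj
    rw [SimpleGraph.fromRel_adj] at hadj
    have ha' := (memS a).1 (by simpa using ha)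
    have hb' := (memS b).1 (by simpa using hb)
    have hne' : a.1 ≠ b.1 := fun h => hne (Subtype.ext h)
    rcases hadj.2 with h1 | h1
    · exact hind a.1 b.1 ha' hb' hne' (hcon a b h1)
    · exact hind b.1 a.1 hb' ha' hne'.symm (hcon b a h1)
  · have hk := comp_lower ((SimpleGraph.fromRel (fun a b : {w : Fin 19 // w ≠ v} =>
              G.Adj a.1 b.1 ∨ (a.1 = u ∧ G.Adj v b.1))).induce
              ((S : Set {w : Fin 19 // w ≠ v})ᶜ))
      (fun w => lab l w.1.1) (by
        intro a b hab
        rw [SimpleGraph.induce_adj, SimpleGraph.fromRel_adj] at hab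
        have ha : inS s a.1.1 = false := by
          by_contra hc
          exact a.2 (by simpa [memS] using hc)
        have hb : inS s b.1.1 = false := by
          by_contra hc
          exact b.2 (by simpa [memS] using hc)
        rcases hab.2 with h1 | h1
        · exact hlab _ _ a.1.2 b.1.2 ha hb (hcon _ _ h1)
        · exact (hlab _ _ b.1.2 a.1.2 hb ha (hcon _ _ h1)).symm) S.card (by
        intro i hi
        obtain ⟨y, hyv, hy1, hy2⟩ := hsurj ⟨i, by omega⟩ (by
          show i ≤ cnt s
          omega)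
        refine ⟨⟨⟨y, hyv⟩, ?_⟩, hy2⟩
        intro hc
        have := (memS ⟨y, hyv⟩).1 (by simpa using hc)
        rw [hy1] at this
        exact Bool.false_ne_true this)
    omega

lemma deg_ge : ∀ x : Fin 19, 3 ≤ G.degree x := by
  intro x
  rw [← SimpleGraph.card_neighborFinset_eq_degree]
  have h : ∀ x : Fin 19, 3 ≤ (Finset.univ.filter (fun y => adjB x y = true)).card := by
    decide +kernel
  refine (h x).trans (Finset.card_le_card ?_)
  intro y hy
  rw [SimpleGraph.mem_neighborFinset]
  exact (Finset.mem_filter.1 hy).2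

/-- The negation of the preceding statement: Every finite graph of minimum degree at least 3 in which no nonempty independent set S leaves more than ∣S∣ components has an edge uv such that deleting it, and also contracting it, keep that property. -/
theorem result :
    ¬ (∀ (V : Type) [Fintype V] [Nonempty V] (G : SimpleGraph V) [DecidableRel G.Adj],
      (∀ x : V, 3 ≤ G.degree x) →
      (∀ S : Finset V, S.Nonempty → G.IsIndepSet (S : Set V) →
        Nat.card (G.induce ((S : Set V)ᶜ)).ConnectedComponent ≤ S.card) →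
      ∃ u v : V, G.Adj u v ∧
        (∀ S : Finset V, S.Nonempty →
          (G.deleteEdges {s(u, v)}).IsIndepSet (S : Set V) →
          Nat.card ((G.deleteEdges {s(u, v)}).induce ((S : Set V)ᶜ)).ConnectedComponent
            ≤ S.card) ∧
        (∀ S : Finset {w : V // w ≠ v}, S.Nonempty →
          (SimpleGraph.fromRel (fun a b : {w : V // w ≠ v} =>
              G.Adj a.1 b.1 ∨ (a.1 = u ∧ G.Adj v b.1))).IsIndepSet
            (S : Set {w : V // w ≠ v}) →
          Nat.card ((SimpleGraph.fromRel (fun a b : {w : V // w ≠ v} =>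
              G.Adj a.1 b.1 ∨ (a.1 = u ∧ G.Adj v b.1))).induce
              ((S : Set {w : V // w ≠ v})ᶜ)).ConnectedComponent ≤ S.card)) := by
  intro hall
  obtain ⟨u, v, huv, hdel, hcon⟩ := hall (Fin 19) G deg_ge tough
  rcases all_chk u v huv with ⟨h, -⟩ | ⟨h, -⟩
  · obtain ⟨S, hne, hind, hlt⟩ := del_bad u v _ _ h
    have := hdel S hne hind
    omega
  · obtain ⟨S, hne, hind, hlt⟩ := con_bad u v _ _ h
    have := hcon S hne hind
    omega

end Pool.Agent.S06884
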