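import Pool.Statements.S07244
import Pool.Agent.Hhelper57.UDIso

set_option autoImplicit false
open Pool Pool.MP_113321_co

namespace Pool.Agent.S07244

/-- The negation of the preceding statement: For every d ≥ 2 and every n > d, some map from d-dimensional to n-dimensional Euclidean space sends points at distance 1 to points at distance 1 but changes some distance; that is, k_d = d for all d ≥ 2. -/
theorem result :
    ¬ (∀ d : ℕ, 2 ≤ d → ∀ n : ℕ, d < n →
      ∃ f : EuclideanSpace ℝ (Fin d) → EuclideanSpace ℝ (Fin n),
        (∀ x y : EuclideanSpace ℝ (Fin d), dist x y = 1 → dist (f x) (f y) = 1) ∧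
        ∃ x y : EuclideanSpace ℝ (Fin d), dist (f x) (f y) ≠ dist x y) := by
  intro H
  obtain ⟨f, hf, x, y, hxy⟩ := H 8 (by norm_num) 9 (by norm_num)
  apply hxy
  rw [dist_eq_norm, dist_eq_norm]
  refine Hhelper57.UD.isometry_of_pres (t := 1) one_pos ?_ x y
  intro p q hpq
  rw [← dist_eq_norm] at hpq ⊢
  exact hf p q hpq

end Pool.Agent.S07244
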