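import Pool.Statements.S07328
import Pool.Agent.Hhelper47.Recon.NonIso

set_option autoImplicit false
open Pool Pool.MP_160273_co

namespace Pool.Agent.S07328

open Pool.Agent.Hhelper47.Recon in
/-- The negation of the preceding statement: Every finite binary matroid that is neither a circuit nor free is edge-reconstructible: any matroid on the same ground set with all single-element deletions isomorphic to those of M is isomorphic to M. -/
theorem result :
    ¬ (∀ (α : Type) (M : Matroid α), M.E.Finite →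
      (∃ n : ℕ, ∃ φ : α → (Fin n → ZMod 2),
        ∀ I ⊆ M.E, (M.Indep I ↔ LinearIndependent (ZMod 2) (fun x : I => φ x))) →
      ¬ (¬ M.Indep M.E ∧ ∀ e ∈ M.E, M.Indep (M.E \ {e})) →
      ¬ M.Indep M.E →
      ∀ N : Matroid α, N.E = M.E →
        (∀ e ∈ M.E, ∃ f : α → α, Set.BijOn f (M.E \ {e}) (M.E \ {e}) ∧
          ∀ I ⊆ M.E \ {e},
            ((M.restrict (M.E \ {e})).Indep I ↔ (N.restrict (M.E \ {e})).Indep (f '' I))) →
        ∃ f : α → α, Set.BijOn f M.E M.E ∧
          ∀ I ⊆ M.E, (M.Indep I ↔ N.Indep (f '' I))) := by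
  intro h
  obtain ⟨M, hME, hMb, hM⟩ := exists_matroid B1 B1_zero B1_add B1_ne
  obtain ⟨N, hNE, hNb, hN⟩ := exists_matroid B2 B2_zero B2_add B2_ne
  have h1 : ¬ (¬ M.Indep M.E ∧ ∀ e ∈ M.E, M.Indep (M.E \ {e})) := by
    rintro ⟨-, h2⟩
    have h3 := (hM _).1 (h2 0 (hME ▸ Set.mem_univ _))
    have h4 : ∃ l : Fin 16, l ≠ 0 ∧ B1 l 0 = false := by decide +kernel
    obtain ⟨l, hl, hl0⟩ := h4
    obtain ⟨x, hx, hBx⟩ := h3 l hl
    rw [hME] at hx
    have hx0 : x = 0 := by
      by_contra hx0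
      exact hx ⟨Set.mem_univ _, hx0⟩
    rw [hx0, hl0] at hBx
    exact absurd hBx (by decide)
  have h2 : ¬ M.Indep M.E := by
    intro h2
    obtain ⟨x, hx, -⟩ := (hM _).1 h2 1 (by decide)
    exact hx (hME ▸ Set.mem_univ _)
  obtain ⟨f, hf, hiso⟩ := h (Fin 30) M (hME ▸ Set.finite_univ) hMb h1 h2 N (by rw [hME, hNE]) (by
    intro e _
    have hinj : Function.Injective (fMap e) := fun a b hab => fMap_inj e a b hab
    have hbij : Function.Bijective (fMap e) := Finite.injective_iff_bijective.1 hinj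
    have hmaps : Set.MapsTo (fMap e) (M.E \ {e}) (M.E \ {e}) := by
      rintro x ⟨-, hx⟩
      exact ⟨hME ▸ Set.mem_univ _, fMap_ne e x hx⟩
    refine ⟨fMap e, ⟨hmaps, hinj.injOn, ?_⟩, ?_⟩
    · rintro y ⟨-, hy⟩
      obtain ⟨x, rfl⟩ := hbij.surjective y
      refine ⟨x, ⟨hME ▸ Set.mem_univ _, ?_⟩, rfl⟩
      rintro (rfl : x = e)
      obtain ⟨z, hz⟩ := hbij.surjective x
      by_cases hzx : z = x
      · rw [hzx] at hz
        exact hy hz
      · exact fMap_ne x z hzx hz
    · intro I hI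
      have heI : e ∉ I := fun h' => (hI h').2 rfl
      rw [Matroid.restrict_indep_iff, Matroid.restrict_indep_iff]
      have h5 : fMap e '' I ⊆ M.E \ {e} := by
        rintro _ ⟨x, hx, rfl⟩
        exact hmaps (hI hx)
      rw [and_iff_left hI, and_iff_left h5]
      exact deck_iso M N hM hN e I heI)
  have hfb : Function.Bijective f := by
    rw [hME] at hf
    exact Set.bijOn_univ.1 hf
  exact no_iso M N hM hN f hfb fun I => hiso I (hME ▸ Set.subset_univ _)

end Pool.Agent.S07328
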