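import Pool.Statements.S07506
import Mathlib

set_option autoImplicit false
open Pool Pool.MP_1d7c98_co

namespace Pool.Agent.S07506

/-- The graph: `N` blocks, each a clique on 12 vertices, consecutive blocks joined by a matching
of 7 edges (between vertices of the same position `< 7`). -/
def blockPath (N : ℕ) : SimpleGraph (Fin (N * 12)) where
  Adj v w := v ≠ w ∧ (v.val / 12 = w.val / 12 ∨
    (v.val % 12 = w.val % 12 ∧ v.val % 12 < 7 ∧
      (v.val / 12 + 1 = w.val / 12 ∨ w.val / 12 + 1 = v.val / 12)))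
  symm := ⟨by
    intro v w h
    refine ⟨h.1.symm, ?_⟩
    rcases h.2 with h | ⟨h1, h2, h3⟩
    · exact Or.inl h.symm
    · right
      refine ⟨h1.symm, by omega, h3.symm⟩⟩
  loopless := ⟨by
    intro v h
    exact h.1 rfl⟩

instance (N : ℕ) : DecidableRel (blockPath N).Adj := by
  intro v w
  unfold blockPath
  dsimp only
  infer_instance

/-- The vertex in block `i` at position `j`. -/
def vtx (N : ℕ) (i j : ℕ) (hi : i < N) (hj : j < 12) : Fin (N * 12) :=
  ⟨i * 12 + j, by nlinarith⟩

lemma same_block (N : ℕ) (S : Finset (Fin (N * 12)))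
    (a b : ((S : Set (Fin (N * 12)))ᶜ : Set (Fin (N * 12))))
    (h : a.1.val / 12 = b.1.val / 12) :
    ((blockPath N).induce ((S : Set (Fin (N * 12)))ᶜ)).Reachable a b := by
  by_cases hab : a = b
  · subst hab; exact SimpleGraph.Reachable.refl _
  · apply SimpleGraph.Adj.reachable
    rw [SimpleGraph.induce_adj]
    refine ⟨fun h' => hab (Subtype.ext h'), Or.inl h⟩

lemma exists_pos (N : ℕ) (S : Finset (Fin (N * 12))) (hS : S.card + 1 < 8) (i : ℕ)
    (hi : i + 1 < N) :
    ∃ j : ℕ, ∃ hj : j < 7, vtx N i j (by omega) (by omega) ∉ S ∧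
      vtx N (i + 1) j (by omega) (by omega) ∉ S := by
  classical
  by_contra hcon
  push Not at hcon
  have hsub : Finset.range 7 ⊆ S.image (fun v : Fin (N * 12) => v.val % 12) := by
    intro j hj
    rw [Finset.mem_range] at hj
    rw [Finset.mem_image]
    by_cases h1 : vtx N i j (by omega) (by omega) ∈ S
    · refine ⟨_, h1, ?_⟩
      simp only [vtx]
      omega
    · refine ⟨_, hcon j hj h1, ?_⟩
      simp only [vtx]
      omega
  have h1 := Finset.card_le_card hsub
  have h2 : (S.image (fun v : Fin (N * 12) => v.val % 12)).card ≤ S.card := Finset.card_image_le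
  rw [Finset.card_range] at h1
  omega

lemma reach_add (N : ℕ) (S : Finset (Fin (N * 12))) (hS : S.card + 1 < 8) (d : ℕ) :
    ∀ a b : ((S : Set (Fin (N * 12)))ᶜ : Set (Fin (N * 12))),
      a.1.val / 12 + d = b.1.val / 12 →
      ((blockPath N).induce ((S : Set (Fin (N * 12)))ᶜ)).Reachable a b := by
  induction d with
  | zero => intro a b h; exact same_block N S a b (by omega)
  | succ d ih =>
    intro a b h
    have hb := b.1.isLt
    obtain ⟨j, hj, h1, h2⟩ := exists_pos N S hS (a.1.val / 12 + d) (by omega)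
    have h1' : vtx N (a.1.val / 12 + d) j (by omega) (by omega) ∈
        ((S : Set (Fin (N * 12)))ᶜ : Set (Fin (N * 12))) := by
      simpa using h1
    have h2' : vtx N (a.1.val / 12 + d + 1) j (by omega) (by omega) ∈
        ((S : Set (Fin (N * 12)))ᶜ : Set (Fin (N * 12))) := by
      simpa using h2
    have r1 := ih a ⟨_, h1'⟩ (by simp only [vtx]; omega)
    have r2 : ((blockPath N).induce ((S : Set (Fin (N * 12)))ᶜ)).Reachable
        ⟨_, h1'⟩ ⟨_, h2'⟩ := by
      apply SimpleGraph.Adj.reachable
      rw [SimpleGraph.induce_adj]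
      refine ⟨?_, Or.inr ⟨?_, ?_, ?_⟩⟩
      · intro h'
        have := congrArg Fin.val h'
        simp only [vtx] at this
        omega
      · simp only [vtx]; omega
      · simp only [vtx]; omega
      · left; simp only [vtx]; omega
    have r3 := same_block N S ⟨_, h2'⟩ b (by simp only [vtx]; omega)
    exact r1.trans (r2.trans r3)

lemma conn (N : ℕ) (hN : 0 < N) (S : Finset (Fin (N * 12))) (hS : S.card + 1 < 8) :
    ((blockPath N).induce ((S : Set (Fin (N * 12)))ᶜ)).Connected := by
  classical
  have hne : Nonempty ((S : Set (Fin (N * 12)))ᶜ : Set (Fin (N * 12))) := by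
    by_contra hcon
    have : S = Finset.univ := by
      rw [Finset.eq_univ_iff_forall]
      intro v
      by_contra hv
      exact hcon ⟨⟨v, by simpa using hv⟩⟩
    rw [this, Finset.card_univ, Fintype.card_fin] at hS
    omega
  refine ⟨?_⟩
  intro a b
  rcases Nat.le_total (a.1.val / 12) (b.1.val / 12) with h | h
  · exact reach_add N S hS (b.1.val / 12 - a.1.val / 12) a b (by omega)
  · exact (reach_add N S hS (a.1.val / 12 - b.1.val / 12) b a (by omega)).symm

/-- For a map from a 12-set to an 8-set, at least 8 ordered pairs collide. -/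
lemma collide (f : Fin 12 → Fin 8) :
    8 ≤ (Finset.univ.filter (fun p : Fin 12 × Fin 12 => p.1 ≠ p.2 ∧ f p.1 = f p.2)).card := by
  classical
  have key : ∀ c : Fin 8, 2 * (((Finset.univ.filter (fun j : Fin 12 => f j = c)).card : ℤ) - 1) ≤
      (((Finset.univ.filter (fun j : Fin 12 => f j = c)).offDiag.card : ℕ) : ℤ) := by
    intro c
    rw [Finset.offDiag_card]
    set n := (Finset.univ.filter (fun j : Fin 12 => f j = c)).card with hn
    have : n ≤ n * n := Nat.le_mul_self n
    push_cast [Nat.cast_sub this]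
    rcases Nat.lt_or_ge n 2 with h | h
    · interval_cases n <;> norm_num
    · nlinarith [(by exact_mod_cast h : (2 : ℤ) ≤ n)]
  have hsum : ((Finset.univ.filter (fun p : Fin 12 × Fin 12 => p.1 ≠ p.2 ∧ f p.1 = f p.2)).card : ℤ)
      = ∑ c : Fin 8, (((Finset.univ.filter (fun j : Fin 12 => f j = c)).offDiag.card : ℕ) : ℤ) := by
    rw [← Nat.cast_sum]
    congr 1
    rw [Finset.card_eq_sum_card_fiberwise (f := fun p : Fin 12 × Fin 12 => f p.1)
      (t := (Finset.univ : Finset (Fin 8))) (by intro x _; simp)]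
    apply Finset.sum_congr rfl
    intro c _
    congr 1
    ext ⟨p, q⟩
    simp only [Finset.mem_filter, Finset.mem_univ, true_and, Finset.mem_offDiag]
    constructor
    · rintro ⟨⟨h1, h2⟩, h3⟩
      exact ⟨h3, by rw [← h2, h3], h1⟩
    · rintro ⟨h1, h2, h3⟩
      exact ⟨⟨h3, by rw [h1, h2]⟩, h1⟩
  have hcount : (12 : ℤ) = ∑ c : Fin 8, ((Finset.univ.filter (fun j : Fin 12 => f j = c)).card : ℤ) := by
    rw [← Nat.cast_sum]
    have := Finset.card_eq_sum_card_fiberwise (f := f) (s := (Finset.univ : Finset (Fin 12)))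
      (t := (Finset.univ : Finset (Fin 8))) (by intro x _; simp)
    rw [← this]
    simp
  have : (8 : ℤ) ≤ ((Finset.univ.filter
      (fun p : Fin 12 × Fin 12 => p.1 ≠ p.2 ∧ f p.1 = f p.2)).card : ℤ) := by
    rw [hsum]
    calc (8 : ℤ) = ∑ c : Fin 8,
        2 * (((Finset.univ.filter (fun j : Fin 12 => f j = c)).card : ℤ) - 1) := by
          rw [← Finset.mul_sum, Finset.sum_sub_distrib, ← hcount]
          simp
      _ ≤ _ := Finset.sum_le_sum (fun c _ => key c)
  exact_mod_cast this


lemma deg_le (N : ℕ) (v : Fin (N * 12)) :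
    (Finset.univ.filter (fun w => (blockPath N).Adj v w)).card ≤
      11 + (if v.val % 12 < 7 then 2 else 0) := by
  classical
  set A : Finset ℕ := ((Finset.range 12).erase (v.val % 12)).image
    (fun j => v.val / 12 * 12 + j) with hA
  set B : Finset ℕ := (if v.val % 12 < 7 then {v.val + 12, v.val - 12} else ∅) with hB
  have hAc : A.card ≤ 11 := by
    refine Finset.card_image_le.trans ?_
    rw [Finset.card_erase_of_mem]
    · simp
    · rw [Finset.mem_range]; omega
  have hBc : B.card ≤ (if v.val % 12 < 7 then 2 else 0) := by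
    rw [hB]
    split_ifs
    · exact Finset.card_le_two
    · simp
  have hsub : (Finset.univ.filter (fun w => (blockPath N).Adj v w)).image (fun w => w.val) ⊆
      A ∪ B := by
    intro x hx
    rw [Finset.mem_image] at hx
    obtain ⟨w, hw, rfl⟩ := hx
    rw [Finset.mem_filter] at hw
    obtain ⟨-, hne, h⟩ := hw
    have hne' : v.val ≠ w.val := fun h' => hne (Fin.ext h')
    rw [Finset.mem_union]
    rcases h with h | ⟨h1, h2, h3⟩
    · left
      rw [hA, Finset.mem_image]
      refine ⟨w.val % 12, ?_, ?_⟩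
      · rw [Finset.mem_erase, Finset.mem_range]
        constructor
        · intro h'
          apply hne'
          omega
        · omega
      · omega
    · right
      rw [hB, if_pos h2]
      simp only [Finset.mem_insert, Finset.mem_singleton]
      rcases h3 with h3 | h3
      · left; omega
      · right; omega
  have h1 : (Finset.univ.filter (fun w => (blockPath N).Adj v w)).card =
      ((Finset.univ.filter (fun w => (blockPath N).Adj v w)).image (fun w => w.val)).card := by
    rw [Finset.card_image_of_injective _ Fin.val_injective]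
  rw [h1]
  exact (Finset.card_le_card hsub).trans ((Finset.card_union_le _ _).trans (add_le_add hAc hBc))

lemma pairs_le (N : ℕ) :
    (Finset.univ.filter (fun p : Fin (N * 12) × Fin (N * 12) =>
      (blockPath N).Adj p.1 p.2)).card ≤ 146 * N := by
  classical
  rw [Finset.card_eq_sum_card_fiberwise (f := fun p : Fin (N * 12) × Fin (N * 12) => p.1)
      (t := (Finset.univ : Finset (Fin (N * 12)))) (by intro x _; simp)]
  have h1 : ∀ v : Fin (N * 12), (Finset.filter (fun p : Fin (N * 12) × Fin (N * 12) => p.1 = v)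
      (Finset.univ.filter (fun p : Fin (N * 12) × Fin (N * 12) =>
      (blockPath N).Adj p.1 p.2))).card ≤ 11 + (if v.val % 12 < 7 then 2 else 0) := by
    intro v
    refine le_trans ?_ (deg_le N v)
    apply Finset.card_le_card_of_injOn (fun p => p.2)
    · rintro ⟨a, b⟩ h
      simp only [Finset.coe_filter, Finset.mem_filter, Finset.mem_univ, true_and,
        Set.mem_ofPred_eq] at h ⊢
      obtain ⟨h1, h2⟩ := h
      rw [← h2]; exact h1
    · rintro ⟨a, b⟩ h ⟨a', b'⟩ h' hbb
      simp only [Finset.coe_filter, Finset.mem_filter, Finset.mem_univ, true_and,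
        Set.mem_ofPred_eq] at h h' hbb
      rw [Prod.mk.injEq]
      exact ⟨h.2.trans h'.2.symm, hbb⟩
  refine (Finset.sum_le_sum (fun v _ => h1 v)).trans ?_
  rw [← Equiv.sum_comp finProdFinEquiv, Fintype.sum_prod_type]
  have h2 : ∀ i : Fin N, (∑ j : Fin 12, (11 + (if (finProdFinEquiv (i, j) : Fin (N * 12)).val % 12 < 7
      then 2 else 0))) = 146 := by
    intro i
    have h3 : ∀ j : Fin 12, (11 + (if (finProdFinEquiv (i, j) : Fin (N * 12)).val % 12 < 7
      then 2 else 0)) = (11 + (if j.val < 7 then 2 else 0)) := by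
      intro j
      have : (finProdFinEquiv (i, j) : Fin (N * 12)).val % 12 = j.val := by
        simp only [finProdFinEquiv_apply_val]
        omega
      rw [this]
    rw [Finset.sum_congr rfl (fun j _ => h3 j)]
    decide
  rw [Finset.sum_congr rfl (fun i _ => h2 i)]
  simp [mul_comm]

lemma mono_ge (N : ℕ) (c : Fin (N * 12) → Fin 8) :
    8 * N ≤ (Finset.univ.filter (fun p : Fin (N * 12) × Fin (N * 12) =>
      (blockPath N).Adj p.1 p.2 ∧ c p.1 = c p.2)).card := by
  classical
  rw [Finset.card_eq_sum_card_fiberwise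
      (f := fun p : Fin (N * 12) × Fin (N * 12) => (finProdFinEquiv.symm p.1).1)
      (t := (Finset.univ : Finset (Fin N))) (by intro x _; simp)]
  have h1 : ∀ i : Fin N, 8 ≤ (Finset.filter (fun p : Fin (N * 12) × Fin (N * 12) =>
      (finProdFinEquiv.symm p.1).1 = i)
      (Finset.univ.filter (fun p : Fin (N * 12) × Fin (N * 12) =>
      (blockPath N).Adj p.1 p.2 ∧ c p.1 = c p.2))).card := by
    intro i
    refine le_trans (collide (fun j => c (finProdFinEquiv (i, j)))) ?_
    apply Finset.card_le_card_of_injOn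
      (fun p => (finProdFinEquiv (i, p.1), finProdFinEquiv (i, p.2)))
    · rintro ⟨a, b⟩ h
      simp only [Finset.coe_filter, Finset.mem_filter, Finset.mem_univ, true_and,
        Set.mem_ofPred_eq] at h ⊢
      obtain ⟨h1, h2⟩ := h
      refine ⟨⟨⟨?_, ?_⟩, h2⟩, ?_⟩
      · intro h'
        apply h1
        have := finProdFinEquiv.injective h'
        exact (Prod.mk.inj this).2
      · left
        simp only [finProdFinEquiv_apply_val]
        omega
      · simp
    · rintro ⟨a, b⟩ h ⟨a', b'⟩ h' hbb
      rw [Prod.mk.injEq] at hbb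
      have e1 := finProdFinEquiv.injective hbb.1
      have e2 := finProdFinEquiv.injective hbb.2
      rw [Prod.mk.injEq]
      exact ⟨(Prod.mk.inj e1).2, (Prod.mk.inj e2).2⟩
  calc 8 * N = ∑ _i : Fin N, 8 := by simp [mul_comm]
    _ ≤ _ := Finset.sum_le_sum (fun i _ => h1 i)

/-- The negation of the preceding statement: For each k≥2 there is a constant C so that every graph on n vertices with m edges, which stays connected after deleting fewer than k−1 vertices, has a k-colouring cutting at least (k−1)m/k + (k−1)n/(2k) − C edges. -/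
theorem result :
    ¬ (∀ k : ℕ, 2 ≤ k → ∃ C : ℝ, ∀ n : ℕ, ∀ G : SimpleGraph (Fin n),
      (∀ S : Finset (Fin n), S.card + 1 < k →
          (G.induce ((S : Set (Fin n))ᶜ)).Connected) →
      ∃ c : Fin n → Fin k,
        ((k : ℝ) - 1) / k * (G.edgeSet.ncard : ℝ) + ((k : ℝ) - 1) / (2 * k) * (n : ℝ) - C
          ≤ ({p : Fin n × Fin n | G.Adj p.1 p.2 ∧ c p.1 ≠ c p.2}.ncard : ℝ) / 2) := by
  classical
  intro hall
  obtain ⟨C, hC⟩ := hall 8 (by norm_num)
  obtain ⟨N, hN⟩ := exists_nat_gt (8 * C)
  obtain ⟨c, hc⟩ := hC ((N + 1) * 12) (blockPath (N + 1))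
    (fun S hS => conn (N + 1) (by omega) S hS)
  -- the number of edges
  have hm : 2 * (blockPath (N + 1)).edgeSet.ncard =
      (Finset.univ.filter (fun p : Fin ((N + 1) * 12) × Fin ((N + 1) * 12) =>
        (blockPath (N + 1)).Adj p.1 p.2)).card := by
    rw [← SimpleGraph.coe_edgeFinset, Set.ncard_coe_finset, SimpleGraph.two_mul_card_edgeFinset]
  have hcut : {p : Fin ((N + 1) * 12) × Fin ((N + 1) * 12) |
      (blockPath (N + 1)).Adj p.1 p.2 ∧ c p.1 ≠ c p.2}.ncard =
      (Finset.univ.filter (fun p : Fin ((N + 1) * 12) × Fin ((N + 1) * 12) =>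
        (blockPath (N + 1)).Adj p.1 p.2 ∧ c p.1 ≠ c p.2)).card := by
    rw [← Set.ncard_coe_finset]
    congr 1
    ext p
    simp
  have hsplit : (Finset.univ.filter (fun p : Fin ((N + 1) * 12) × Fin ((N + 1) * 12) =>
        (blockPath (N + 1)).Adj p.1 p.2 ∧ c p.1 = c p.2)).card +
      (Finset.univ.filter (fun p : Fin ((N + 1) * 12) × Fin ((N + 1) * 12) =>
        (blockPath (N + 1)).Adj p.1 p.2 ∧ c p.1 ≠ c p.2)).card =
      (Finset.univ.filter (fun p : Fin ((N + 1) * 12) × Fin ((N + 1) * 12) =>
        (blockPath (N + 1)).Adj p.1 p.2)).card := by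
    rw [← Finset.card_filter_add_card_filter_not (s := Finset.univ.filter
      (fun p : Fin ((N + 1) * 12) × Fin ((N + 1) * 12) => (blockPath (N + 1)).Adj p.1 p.2))
      (fun p => c p.1 = c p.2), Finset.filter_filter, Finset.filter_filter]
  have h1 := pairs_le (N + 1)
  have h2 := mono_ge (N + 1) c
  rw [hcut] at hc
  set m := (blockPath (N + 1)).edgeSet.ncard with hmdef
  set P := (Finset.univ.filter (fun p : Fin ((N + 1) * 12) × Fin ((N + 1) * 12) =>
        (blockPath (N + 1)).Adj p.1 p.2)).card with hP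
  set M := (Finset.univ.filter (fun p : Fin ((N + 1) * 12) × Fin ((N + 1) * 12) =>
        (blockPath (N + 1)).Adj p.1 p.2 ∧ c p.1 = c p.2)).card with hM
  set K := (Finset.univ.filter (fun p : Fin ((N + 1) * 12) × Fin ((N + 1) * 12) =>
        (blockPath (N + 1)).Adj p.1 p.2 ∧ c p.1 ≠ c p.2)).card with hK
  have e1 : 2 * (m : ℝ) = (P : ℝ) := by exact_mod_cast hm
  have e2 : (M : ℝ) + (K : ℝ) = (P : ℝ) := by exact_mod_cast hsplit
  have e3 : (P : ℝ) ≤ 146 * ((N : ℝ) + 1) := by exact_mod_cast h1
  have e4 : 8 * ((N : ℝ) + 1) ≤ (M : ℝ) := by exact_mod_cast h2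
  push_cast at hc
  norm_num at hc
  linarith

end Pool.Agent.S07506
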