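import Pool.Statements.S07542
import Pool.Agent.Locked.Main

set_option autoImplicit false
open Pool Pool.MP_1e88d9_co

namespace Pool.Agent.S07542

/-- The negation of the preceding statement: Every simple polygonal chain in 3-space with all links of length 1 can be moved continuously, keeping link lengths 1 and staying non-self-intersecting throughout, into a straight line configuration. -/
theorem result :
    ¬ (∀ n : ℕ, ∀ p : ℕ → EuclideanSpace ℝ (Fin 3),
      ((∀ i, i < n → dist (p i) (p (i + 1)) = 1) ∧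
       (∀ i j, i + 1 < j → j < n →
          Disjoint (segment ℝ (p i) (p (i + 1))) (segment ℝ (p j) (p (j + 1)))) ∧
       (∀ i, i + 1 < n →
          segment ℝ (p i) (p (i + 1)) ∩ segment ℝ (p (i + 1)) (p (i + 2)) = {p (i + 1)})) →
      ∃ γ : ℝ → ℕ → EuclideanSpace ℝ (Fin 3),
        Continuous γ ∧
        (∀ i, i ≤ n → γ 0 i = p i) ∧
        (∀ t ∈ Set.Icc (0 : ℝ) 1,
          (∀ i, i < n → dist (γ t i) (γ t (i + 1)) = 1) ∧
          (∀ i j, i + 1 < j → j < n →
            Disjoint (segment ℝ (γ t i) (γ t (i + 1))) (segment ℝ (γ t j) (γ t (j + 1)))) ∧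
          (∀ i, i + 1 < n →
            segment ℝ (γ t i) (γ t (i + 1)) ∩ segment ℝ (γ t (i + 1)) (γ t (i + 2))
              = {γ t (i + 1)})) ∧
        ∃ v : EuclideanSpace ℝ (Fin 3), ‖v‖ = 1 ∧
          ∀ i, i ≤ n → γ 1 i = γ 1 0 + (i : ℝ) • v) := by
  intro h
  obtain ⟨γ, hγ, h0, hs, v, hv, h1⟩ := h 18 Locked.lockedChain
    ⟨Locked.locked_unit, Locked.locked_disj, Locked.locked_adj⟩
  exact Locked.locked_main γ hγ h0 (fun t ht => ⟨(hs t ht).1, (hs t ht).2.1⟩) v hv h1

end Pool.Agent.S07542
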