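import Pool.Statements.S07610
import Pool.Agent.Moser.Final

set_option autoImplicit false
open Pool Pool.MP_20facf_co

namespace Pool.Agent.S07610

/-- The negation of the preceding statement: There is a constant C such that for every d ≥ 1, any set of points of {1,2,3}^d in ℝ^d with no three distinct points collinear has at most C·3^d/√d points. -/
theorem result :
    ¬ (∃ C : ℝ, ∀ d : ℕ, 1 ≤ d → ∀ S : Finset (Fin d → ℝ),
      (∀ x ∈ S, ∀ i, x i = 1 ∨ x i = 2 ∨ x i = 3) →
      (∀ p ∈ S, ∀ q ∈ S, ∀ r ∈ S, p ≠ q → p ≠ r → q ≠ r →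
        ¬ Collinear ℝ ({p, q, r} : Set (Fin d → ℝ))) →
      (S.card : ℝ) ≤ C * (3 : ℝ) ^ d / Real.sqrt (d : ℝ)) := by
  exact Pool.Agent.Moser.main

end Pool.Agent.S07610
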