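import Pool.Statements.S07711
import Pool.Agent.Hhelper5.OrdR.Num

set_option autoImplicit false
open Pool Pool.MP_259689_co

namespace Pool.Agent.S07711

open Pool.Agent.Hhelper5.OrdR in
/-- large degrees -/
theorem large (Δ : ℕ) (hΔ : 1000 < Δ) : ∃ n₀ : ℕ, ∀ n : ℕ, n₀ ≤ n →
      ∃ G : SimpleGraph (Fin n),
        (∀ v, (G.neighborSet v).ncard ≤ Δ) ∧
        (∃ u v, G.Adj u v) ∧
        (∃ k : ℕ, ∀ u v, G.Adj u v → (u.val < k ↔ k ≤ v.val)) ∧
        ∀ N : ℕ, (N : ℝ) < (n : ℝ) ^ ((1 / 1000 : ℝ) * (Δ : ℝ)) →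
          ∃ f : Fin N → Fin N → Bool, ∀ φ : Fin n → Fin N, StrictMono φ → ∀ b : Bool,
            ∃ u v, G.Adj u v ∧ u < v ∧ f (φ u) (φ v) ≠ b := by
  obtain ⟨h, hh⟩ : ∃ h, h = Δ / 2 := ⟨_, rfl⟩
  have h1 : 1 ≤ h := by omega
  obtain ⟨M, hM⟩ := big_ev h h1
  obtain ⟨D, hD⟩ : ∃ D, D = 2 * h := ⟨_, rfl⟩
  obtain ⟨C, hC⟩ : ∃ C, C = 2 * D := ⟨_, rfl⟩
  have hC2 : 2 ≤ C := by omega
  obtain ⟨B, hB⟩ : ∃ B, B = C ^ (400 * D) := ⟨_, rfl⟩
  have hB2 : 2 ≤ B := by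
    rw [hB]
    calc 2 ≤ C := hC2
      _ = C ^ 1 := (pow_one C).symm
      _ ≤ C ^ (400 * D) := Nat.pow_le_pow_right (by omega) (by omega)
  refine ⟨2 * B ^ (M + 1), fun n hn => ?_⟩
  obtain ⟨m, hm⟩ : ∃ m, m = Nat.log B (n / 2) := ⟨_, rfl⟩
  have hn2 : B ^ (M + 1) ≤ n / 2 := by omega
  have hn0 : n / 2 ≠ 0 := by
    have : 0 < B ^ (M + 1) := Nat.pow_pos (by omega)
    omega
  have hmM : M + 1 ≤ m := by
    rw [hm]; exact (Nat.le_log_iff_pow_le (by omega) hn0).2 hn2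
  have hlow : B ^ m ≤ n / 2 := by rw [hm]; exact Nat.pow_log_le_self B hn0
  have hup : n / 2 < B ^ (m + 1) := by rw [hm]; exact Nat.lt_pow_succ_log_self (by omega) _
  have hbig := hM m (by omega)
  rw [← hD, ← hC] at hbig
  have hn3 : 2 * C ^ (400 * (D * m)) ≤ n := by
    have e : C ^ (400 * (D * m)) = B ^ m := by rw [hB, ← pow_mul]; congr 1; ring
    rw [e]; omega
  obtain ⟨G, g1, g2, g3, g4⟩ := hbig.graph hn3
  refine ⟨G, fun v => (g1 v).trans (by omega), g2, g3, fun N hN => g4 N ?_⟩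
  -- size of the host
  have hq : (C ^ (D * D)) ^ (5 * m) = C ^ (5 * (D * D) * m) := by
    rw [← pow_mul]; congr 1; ring
  rw [hq]
  have hnup : n ≤ C ^ (802 * D * m) := by
    have h2 : n ≤ 2 * B ^ (m + 1) := by omega
    calc n ≤ 2 * B ^ (m + 1) := h2
      _ ≤ C * B ^ (m + 1) := Nat.mul_le_mul_right _ hC2
      _ = C ^ (1 + 400 * D * (m + 1)) := by
          rw [hB, ← pow_mul, pow_add C 1 (400 * D * (m + 1)), pow_one]
      _ ≤ C ^ (802 * D * m) := by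
          apply Nat.pow_le_pow_right (by omega)
          have hD1 : 1 ≤ D := by omega
          have hm1 : 1 ≤ m := by omega
          have hDm : 1 ≤ D * m := Nat.mul_pos hD1 hm1
          have hDm2 : D ≤ D * m := Nat.le_mul_of_pos_right _ hm1
          calc 1 + 400 * D * (m + 1) = 1 + 400 * (D * m) + 400 * D := by ring
            _ ≤ 802 * (D * m) := by omega
            _ = 802 * D * m := by ring
  have hCr : (1 : ℝ) ≤ (C : ℝ) := by exact_mod_cast (by omega : 1 ≤ C)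
  have hC0 : (0 : ℝ) ≤ (C : ℝ) := by linarith
  have hreal : (n : ℝ) ^ ((1 / 1000 : ℝ) * (Δ : ℝ)) ≤ (C : ℝ) ^ (5 * (D * D) * m) := by
    calc (n : ℝ) ^ ((1 / 1000 : ℝ) * (Δ : ℝ))
        ≤ ((C : ℝ) ^ (802 * D * m)) ^ ((1 / 1000 : ℝ) * (Δ : ℝ)) := by
          apply Real.rpow_le_rpow (Nat.cast_nonneg _)
          · exact_mod_cast hnup
          · positivity
      _ = (C : ℝ) ^ (((802 * D * m : ℕ) : ℝ) * ((1 / 1000 : ℝ) * (Δ : ℝ))) := by
          rw [← Real.rpow_natCast, ← Real.rpow_mul hC0]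
      _ ≤ (C : ℝ) ^ ((5 * (D * D) * m : ℕ) : ℝ) := by
          apply Real.rpow_le_rpow_of_exponent_le hCr
          have hΔ2 : (Δ : ℝ) ≤ 2 * D := by
            have : Δ ≤ 2 * D := by omega
            exact_mod_cast this
          push_cast
          have hDm : (0 : ℝ) ≤ (D : ℝ) * m := by positivity
          have h5 : (D : ℝ) * m * Δ ≤ D * m * (2 * D) := mul_le_mul_of_nonneg_left hΔ2 hDm
          have h6 : (0 : ℝ) ≤ (D : ℝ) * D * m := by positivity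
          nlinarith
      _ = (C : ℝ) ^ (5 * (D * D) * m) := Real.rpow_natCast _ _
  have hfin : (N : ℝ) < ((C ^ (5 * (D * D) * m) : ℕ) : ℝ) := by
    push_cast
    exact lt_of_lt_of_le hN hreal
  exact (Nat.cast_lt.1 hfin).le

/-- small degrees are trivial -/
theorem small (Δ : ℕ) (h1 : 1 ≤ Δ) (hΔ : Δ ≤ 1000) : ∃ n₀ : ℕ, ∀ n : ℕ, n₀ ≤ n →
      ∃ G : SimpleGraph (Fin n),
        (∀ v, (G.neighborSet v).ncard ≤ Δ) ∧
        (∃ u v, G.Adj u v) ∧
        (∃ k : ℕ, ∀ u v, G.Adj u v → (u.val < k ↔ k ≤ v.val)) ∧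
        ∀ N : ℕ, (N : ℝ) < (n : ℝ) ^ ((1 / 1000 : ℝ) * (Δ : ℝ)) →
          ∃ f : Fin N → Fin N → Bool, ∀ φ : Fin n → Fin N, StrictMono φ → ∀ b : Bool,
            ∃ u v, G.Adj u v ∧ u < v ∧ f (φ u) (φ v) ≠ b := by
  refine ⟨2, fun n hn => ?_⟩
  let G : SimpleGraph (Fin n) :=
    { Adj := fun a b => (a.val = 0 ∧ b.val = 1) ∨ (a.val = 1 ∧ b.val = 0)
      symm := ⟨fun a b h => by rcases h with h | h <;> [exact Or.inr ⟨h.2, h.1⟩; exact Or.inl ⟨h.2, h.1⟩]⟩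
      loopless := ⟨fun a h => by rcases h with h | h <;> omega⟩ }
  refine ⟨G, ?_, ?_, ⟨1, ?_⟩, ?_⟩
  · intro v
    have hsub : G.neighborSet v ⊆ {⟨1 - v.val, by omega⟩} := by
      intro a ha
      rw [Set.mem_singleton_iff]
      apply Fin.ext
      rcases ha with ha | ha
      · have e1 := ha.1; have e2 := ha.2
        simp only [e1, e2]
      · have e1 := ha.1; have e2 := ha.2
        simp only [e1, e2]
    calc (G.neighborSet v).ncard ≤ ({⟨1 - v.val, by omega⟩} : Set (Fin n)).ncard :=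
          Set.ncard_le_ncard hsub (Set.finite_singleton _)
      _ = 1 := Set.ncard_singleton _
      _ ≤ Δ := h1
  · exact ⟨⟨0, by omega⟩, ⟨1, by omega⟩, Or.inl ⟨rfl, rfl⟩⟩
  · intro u v huv
    rcases huv with huv | huv <;> constructor <;> intro _ <;> omega
  · intro N hN
    have hlt : N < n := by
      have hn1 : (1 : ℝ) ≤ n := by exact_mod_cast (by omega : 1 ≤ n)
      have h2 : (n : ℝ) ^ ((1 / 1000 : ℝ) * (Δ : ℝ)) ≤ (n : ℝ) ^ (1 : ℝ) := by
        apply Real.rpow_le_rpow_of_exponent_le hn1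
        have : (Δ : ℝ) ≤ 1000 := by exact_mod_cast hΔ
        linarith
      rw [Real.rpow_one] at h2
      exact_mod_cast lt_of_lt_of_le hN h2
    refine ⟨fun _ _ => true, fun φ hφ => ?_⟩
    exfalso
    have := Fintype.card_le_of_injective φ hφ.injective
    rw [Fintype.card_fin, Fintype.card_fin] at this
    omega

/-- Some absolute c>0 works as follows: for every Δ≥1 and all large n there is an n-vertex ordered graph with max degree ≤Δ and interval chromatic number 2 whose 2-colour ordered Ramsey number is at least n^(cΔ). -/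
theorem result :
    ∃ c : ℝ, 0 < c ∧ ∀ Δ : ℕ, 1 ≤ Δ → ∃ n₀ : ℕ, ∀ n : ℕ, n₀ ≤ n →
      ∃ G : SimpleGraph (Fin n),
        (∀ v, (G.neighborSet v).ncard ≤ Δ) ∧
        (∃ u v, G.Adj u v) ∧
        (∃ k : ℕ, ∀ u v, G.Adj u v → (u.val < k ↔ k ≤ v.val)) ∧
        ∀ N : ℕ, (N : ℝ) < (n : ℝ) ^ (c * (Δ : ℝ)) →
          ∃ f : Fin N → Fin N → Bool, ∀ φ : Fin n → Fin N, StrictMono φ → ∀ b : Bool,
            ∃ u v, G.Adj u v ∧ u < v ∧ f (φ u) (φ v) ≠ b := by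
  refine ⟨1 / 1000, by norm_num, fun Δ h1 => ?_⟩
  rcases Nat.lt_or_ge 1000 Δ with h | h
  · exact large Δ h
  · exact small Δ h1 h

end Pool.Agent.S07711
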