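import Pool.Statements.S08033
import Pool.Agent.UniM.Final

set_option autoImplicit false
open N36365310
open Pool Pool.MP_346bfe_co

namespace Pool.Agent.S08033

/-- For every finite vertex type V and acyclic simple graph G on V, the sequence k ↦ number of independent k-element vertex sets of G is weakly increasing up to some m and weakly decreasing from m on. -/
theorem result :
    ∀ (V : Type) [Fintype V] (G : SimpleGraph V), G.IsAcyclic → UnimodalSeq (indepSeq G) := by
  intro V _ G hG
  exact Pool.Agent.UniM.unimodal_forest V G hG

end Pool.Agent.S08033
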