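import Pool.Statements.S08495
import Pool.Agent.Hhelper79.PL.All

set_option autoImplicit false
open Pool Pool.MP_46dc5d_co

namespace Pool.Agent.S08495

/-- For every even n ≥ 10 and every m ≤ n−2 or m = n, some latin square of order n has exactly m as the largest number of pairwise cell-disjoint transversals. -/
theorem result :
    ∀ n : ℕ, Even n → 10 ≤ n → ∀ m : ℕ, (m ≤ n - 2 ∨ m = n) →
      ∃ L : Fin n → Fin n → Fin n,
        (∀ i, Function.Injective (L i)) ∧
        (∀ j, Function.Injective (fun i => L i j)) ∧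
        (∃ S : Finset (Equiv.Perm (Fin n)), S.card = m ∧
          (∀ σ ∈ S, Function.Injective (fun i => L i (σ i))) ∧
          (∀ σ ∈ S, ∀ τ ∈ S, σ ≠ τ → ∀ i, σ i ≠ τ i)) ∧
        ∀ S : Finset (Equiv.Perm (Fin n)),
          (∀ σ ∈ S, Function.Injective (fun i => L i (σ i))) →
          (∀ σ ∈ S, ∀ τ ∈ S, σ ≠ τ → ∀ i, σ i ≠ τ i) →
          S.card ≤ m := by
  exact fun n hn h10 m hm => Pool.Agent.Hhelper79.PL.main n hn h10 m hm

end Pool.Agent.S08495
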