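-- Proof of the negation: every proper edge colouring of the complete graph on ten vertices contains a rainbow
-- Hamiltonian path. The finite search is checked by the kernel in Pool/Agent/Hhelper35/Rainbow.
import Pool.Statements.S08718
import Pool.Agent.Hhelper35.Rainbow.Final

set_option autoImplicit false
open Pool Pool.MP_50639e_co

namespace Pool.Agent.S08718

open Pool.Agent.Hhelper35.Rainbow in
/-- Every symmetric proper colouring of the pairs of ten vertices has a rainbow Hamiltonian path. -/
theorem no_colouring_ten (c : Fin 10 → Fin 10 → ℕ) (hs : ∀ u v : Fin 10, c u v = c v u)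
    (hp : ∀ u v w : Fin 10, u ≠ v → u ≠ w → v ≠ w → c u v ≠ c u w)
    (hn : ∀ p : ℕ → Fin 10, (∀ i j : ℕ, i < 10 → j < 10 → p i = p j → i = j) →
      ∃ i j : ℕ, i < j ∧ j + 1 < 10 ∧ c (p i) (p (i + 1)) = c (p j) (p (j + 1))) : False := by
  have hinj : ∀ a b : ℕ, a < 10 → b < 10 → Fin.ofNat 10 a = Fin.ofNat 10 b → a = b := by
    intro a b ha hb h
    have := congrArg Fin.val h
    simp only [Fin.val_ofNat] at this
    rwa [Nat.mod_eq_of_lt ha, Nat.mod_eq_of_lt hb] at this
  have hC : Good (fun a b => c (Fin.ofNat 10 a) (Fin.ofNat 10 b)) := by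
    refine ⟨fun a b _ _ => hs _ _, ?_⟩
    intro a b d ha hb hd hab had hbd
    exact hp _ _ _ (fun e => hab (hinj a b ha hb e)) (fun e => had (hinj a d ha hd e))
      (fun e => hbd (hinj b d hb hd e))
  apply main hC
  intro f hf
  obtain ⟨i, j, hij, hj, he⟩ := hn (fun i => Fin.ofNat 10 (f i)) (fun i j hi hj h =>
    hf.2 i hi j hj (hinj _ _ (hf.1 i hi) (hf.1 j hj) h))
  exact ⟨i, j, hij, by omega, he⟩

/-- The negation of the preceding statement: For every even n at least 4 there is a proper edge colouring of the complete graph on n vertices in which every Hamiltonian path (n-1 edges) has two edges of the same colour. -/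
theorem result :
    ¬ (∀ n : ℕ, 4 ≤ n → Even n →
      ∃ c : Fin n → Fin n → ℕ,
        (∀ u v : Fin n, c u v = c v u) ∧
        (∀ u v w : Fin n, u ≠ v → u ≠ w → v ≠ w → c u v ≠ c u w) ∧
        ∀ p : ℕ → Fin n,
          (∀ i j : ℕ, i < n → j < n → p i = p j → i = j) →
          ∃ i j : ℕ, i < j ∧ j + 1 < n ∧
            c (p i) (p (i + 1)) = c (p j) (p (j + 1))) := by
  intro h
  obtain ⟨c, hs, hp, hn⟩ := h 10 (by norm_num) ⟨5, rfl⟩
  exact no_colouring_ten c hs hp hn

end Pool.Agent.S08718
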