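import Pool.Statements.S09169
import Pool.Agent.Hhelper36.KostkaBridge

set_option autoImplicit false
open Pool Pool.MP_62af7b_co

namespace Pool.Agent.S09169

open Pool.Agent.Hhelper36.Kostka in
/-- Two polynomials with the same values at all positive integers agree. -/
theorem poly_subsingleton (F : ℕ → ℕ) :
    {p : Polynomial ℚ | ∀ k : ℕ, 1 ≤ k → p.eval (k : ℚ) = ((F k : ℕ) : ℚ)}.Subsingleton := by
  intro p hp q hq
  apply Polynomial.eq_of_infinite_eval_eq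
  refine (Set.infinite_range_of_injective (f := fun k : ℕ => ((k + 1 : ℕ) : ℚ)) ?_).mono ?_
  · intro a b h
    have h' : ((a + 1 : ℕ) : ℚ) = ((b + 1 : ℕ) : ℚ) := h
    have := Nat.cast_injective (R := ℚ) h'
    omega
  · rintro _ ⟨k, rfl⟩
    show p.eval _ = q.eval _
    rw [hp (k + 1) (by omega), hq (k + 1) (by omega)]

/-- For every natural m, only finitely many rational polynomials p with p(1)=m arise as p(k)=K_{kλ,kν} for all k≥1, where λ,ν are partitions and K is the Kostka number (count of semistandard tableaux of shape kλ, content kν). -/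
theorem result :
    ∀ m : ℕ, Set.Finite {p : Polynomial ℚ | p.eval 1 = (m : ℚ) ∧
      ∃ lam nu : ℕ → ℕ, Antitone lam ∧ Antitone nu ∧
        (∃ N : ℕ, ∀ i, N ≤ i → lam i = 0 ∧ nu i = 0) ∧
        ∀ k : ℕ, 1 ≤ k → p.eval (k : ℚ) =
          ((Nat.card {T : ℕ × ℕ → ℕ //
              (∀ x : ℕ × ℕ, ¬ (x.2 < k * lam x.1) → T x = 0) ∧
              (∀ i j : ℕ, j + 1 < k * lam i → T (i, j) ≤ T (i, j + 1)) ∧
              (∀ i j : ℕ, j < k * lam (i + 1) → T (i, j) < T (i + 1, j)) ∧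
              (∀ c : ℕ, Set.ncard {x : ℕ × ℕ | x.2 < k * lam x.1 ∧ T x = c} = k * nu c)} : ℕ) : ℚ)} := by
  intro m
  -- the finite set of possible value functions
  have key : ∃ S : Set (ℕ → ℕ), S.Finite ∧ ∀ p : Polynomial ℚ, p.eval 1 = (m : ℚ) →
      (∃ lam nu : ℕ → ℕ, Antitone lam ∧ Antitone nu ∧
        (∃ N : ℕ, ∀ i, N ≤ i → lam i = 0 ∧ nu i = 0) ∧
        ∀ k : ℕ, 1 ≤ k → p.eval (k : ℚ) =
          ((Nat.card {T : ℕ × ℕ → ℕ //
              (∀ x : ℕ × ℕ, ¬ (x.2 < k * lam x.1) → T x = 0) ∧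
              (∀ i j : ℕ, j + 1 < k * lam i → T (i, j) ≤ T (i, j + 1)) ∧
              (∀ i j : ℕ, j < k * lam (i + 1) → T (i, j) < T (i + 1, j)) ∧
              (∀ c : ℕ, Set.ncard {x : ℕ × ℕ | x.2 < k * lam x.1 ∧ T x = c} = k * nu c)} : ℕ) : ℚ)) →
      ∃ F ∈ S, ∀ k : ℕ, 1 ≤ k → p.eval (k : ℚ) = ((F k : ℕ) : ℚ) := by
    have bridge : ∀ (lam nu : ℕ → ℕ), Antitone lam →
        ∀ N : ℕ, (∀ i, N ≤ i → lam i = 0 ∧ nu i = 0) → ∀ k : ℕ,
        Nat.card {T : ℕ × ℕ → ℕ //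
              (∀ x : ℕ × ℕ, ¬ (x.2 < k * lam x.1) → T x = 0) ∧
              (∀ i j : ℕ, j + 1 < k * lam i → T (i, j) ≤ T (i, j + 1)) ∧
              (∀ i j : ℕ, j < k * lam (i + 1) → T (i, j) < T (i + 1, j)) ∧
              (∀ c : ℕ, Set.ncard {x : ℕ × ℕ | x.2 < k * lam x.1 ∧ T x = c} = k * nu c)} =
          Pool.Agent.Hhelper36.Kostka.SF N lam nu k := by
      intro lam nu hl N hN k
      exact Pool.Agent.Hhelper36.Kostka.card_ssyt (fun i => k * lam i) (fun i => k * nu i)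
        (fun a b hab => Nat.mul_le_mul_left k (hl hab)) N
        (fun i hi => by rw [(hN i hi).1, (hN i hi).2]; simp)
    have hone : ∀ (N : ℕ) (lam nu : ℕ → ℕ), Pool.Agent.Hhelper36.Kostka.SF N lam nu 1 =
        Pool.Agent.Hhelper36.Kostka.K N lam nu := by
      intro N lam nu
      simp [Pool.Agent.Hhelper36.Kostka.SF]
    rcases Nat.eq_zero_or_pos m with rfl | hm
    · refine ⟨{fun _ => 0}, Set.finite_singleton _, ?_⟩
      rintro p hp ⟨lam, nu, hl, hn, ⟨N, hN⟩, hk⟩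
      refine ⟨fun _ => 0, rfl, fun k hk1 => ?_⟩
      have h1 := hk 1 le_rfl
      rw [bridge lam nu hl N hN 1, hone] at h1
      rw [Nat.cast_one, hp] at h1
      have h0 : Pool.Agent.Hhelper36.Kostka.K N lam nu = 0 := by
        have : ((0 : ℕ) : ℚ) = ((Pool.Agent.Hhelper36.Kostka.K N lam nu : ℕ) : ℚ) := h1
        exact_mod_cast this.symm
      rw [hk k hk1, bridge lam nu hl N hN k]
      have := Pool.Agent.Hhelper36.Kostka.K_zero_of_zero (n := N) (fun i _ => hl (Nat.le_succ i))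
        (fun i _ => hn (Nat.le_succ i)) h0 hk1
      simp only [Pool.Agent.Hhelper36.Kostka.SF]
      rw [this]
    · refine ⟨Pool.Agent.Hhelper36.Kostka.SS m, Pool.Agent.Hhelper36.Kostka.SS_finite' m hm, ?_⟩
      rintro p hp ⟨lam, nu, hl, hn, ⟨N, hN⟩, hk⟩
      refine ⟨Pool.Agent.Hhelper36.Kostka.SF N lam nu, ⟨N, lam, nu,
        (fun i _ => hl (Nat.le_succ i)), (fun i _ => hn (Nat.le_succ i)), ?_, rfl⟩, ?_⟩
      · have h1 := hk 1 le_rfl
        rw [bridge lam nu hl N hN 1, hone] at h1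
        rw [Nat.cast_one, hp] at h1
        exact_mod_cast h1.symm
      · intro k hk1
        rw [hk k hk1, bridge lam nu hl N hN k]
  obtain ⟨S, hS, hcov⟩ := key
  refine (hS.biUnion (t := fun F => {p : Polynomial ℚ | ∀ k : ℕ, 1 ≤ k →
    p.eval (k : ℚ) = ((F k : ℕ) : ℚ)}) (fun F _ => (poly_subsingleton F).finite)).subset ?_
  rintro p ⟨hp1, hp2⟩
  obtain ⟨F, hF, hF'⟩ := hcov p hp1 hp2
  exact Set.mem_biUnion hF hF'

end Pool.Agent.S09169
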