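import Pool.Statements.S09562
import Pool.Agent.CdV.Counter

set_option autoImplicit false
open Pool Pool.MP_765e2d_co

namespace Pool.Agent.S09562

open Pool.Agent.CdV Pool.Agent.CdV.Counter in
theorem aux (k : ℕ)
    (hk : k = sSup {c : ℕ | ∃ M : Matrix (Fin 12) (Fin 12) ℝ, M.IsHermitian ∧
        (∀ i j, Counter.G.Adj i j → M i j < 0) ∧
        (∀ i j, i ≠ j → ¬ Counter.G.Adj i j → M i j = 0) ∧
        (∀ h : M.IsHermitian,
          (Finset.univ.filter (fun i => h.eigenvalues i < 0)).card = 1) ∧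
        (∀ X : Matrix (Fin 12) (Fin 12) ℝ, X.IsSymm →
          (∀ i j, (i = j ∨ Counter.G.Adj i j) → X i j = 0) → M * X = 0 → X = 0) ∧
        c = Module.finrank ℝ (LinearMap.ker (Matrix.toLin' M))}) : k ≤ 6 := by
  rw [hk]
  apply csSup_le'
  rintro c ⟨M, h1, h2, h3, -, h5, rfl⟩
  by_contra hc
  push Not at hc
  have hs : M.IsSymm := by
    have h6 : M.conjTranspose = M := h1
    rw [Matrix.conjTranspose_eq_transpose_of_trivial] at h6
    exact h6
  obtain ⟨X, hX1, hX2, hX3, hX4⟩ := exists_stress hs h2 h3 hc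
  exact hX4 (h5 X hX1 hX2 hX3)

/-- The negation of the preceding statement: For every finite graph G that is mu(G)-connected, the largest corank of a symmetric matrix that is negative on edges, zero on non-edges and has exactly one negative eigenvalue equals mu(G), the same maximum restricted to matrices with the Strong Arnold Property. -/
theorem result :
    ¬ (∀ (V : Type) [Fintype V] [DecidableEq V] (G : SimpleGraph V) (k : ℕ),
    k = sSup {c : ℕ | ∃ M : Matrix V V ℝ, M.IsHermitian ∧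
        (∀ i j, G.Adj i j → M i j < 0) ∧
        (∀ i j, i ≠ j → ¬ G.Adj i j → M i j = 0) ∧
        (∀ h : M.IsHermitian,
          (Finset.univ.filter (fun i => h.eigenvalues i < 0)).card = 1) ∧
        (∀ X : Matrix V V ℝ, X.IsSymm →
          (∀ i j, (i = j ∨ G.Adj i j) → X i j = 0) → M * X = 0 → X = 0) ∧
        c = Module.finrank ℝ (LinearMap.ker (Matrix.toLin' M))} →
    k < Fintype.card V →
    (∀ S : Finset V, S.card < k → (G.induce ((S : Set V)ᶜ)).Connected) →
    sSup {c : ℕ | ∃ M : Matrix V V ℝ, M.IsHermitian ∧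
        (∀ i j, G.Adj i j → M i j < 0) ∧
        (∀ i j, i ≠ j → ¬ G.Adj i j → M i j = 0) ∧
        (∀ h : M.IsHermitian,
          (Finset.univ.filter (fun i => h.eigenvalues i < 0)).card = 1) ∧
        c = Module.finrank ℝ (LinearMap.ker (Matrix.toLin' M))} = k) := by
  intro H
  obtain ⟨k, hk⟩ : ∃ k : ℕ, k = sSup {c : ℕ | ∃ M : Matrix (Fin 12) (Fin 12) ℝ, M.IsHermitian ∧
        (∀ i j, Pool.Agent.CdV.Counter.G.Adj i j → M i j < 0) ∧
        (∀ i j, i ≠ j → ¬ Pool.Agent.CdV.Counter.G.Adj i j → M i j = 0) ∧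
        (∀ h : M.IsHermitian,
          (Finset.univ.filter (fun i => h.eigenvalues i < 0)).card = 1) ∧
        (∀ X : Matrix (Fin 12) (Fin 12) ℝ, X.IsSymm →
          (∀ i j, (i = j ∨ Pool.Agent.CdV.Counter.G.Adj i j) → X i j = 0) → M * X = 0 → X = 0) ∧
        c = Module.finrank ℝ (LinearMap.ker (Matrix.toLin' M))} := ⟨_, rfl⟩
  have hk6 : k ≤ 6 := aux k hk
  have h1 := H (Fin 12) Pool.Agent.CdV.Counter.G k hk
    (by rw [Fintype.card_fin]; omega)
    (fun S hS => Pool.Agent.CdV.Counter.connected (by omega))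
  have h2 : 7 ≤ sSup {c : ℕ | ∃ M : Matrix (Fin 12) (Fin 12) ℝ, M.IsHermitian ∧
        (∀ i j, Pool.Agent.CdV.Counter.G.Adj i j → M i j < 0) ∧
        (∀ i j, i ≠ j → ¬ Pool.Agent.CdV.Counter.G.Adj i j → M i j = 0) ∧
        (∀ h : M.IsHermitian,
          (Finset.univ.filter (fun i => h.eigenvalues i < 0)).card = 1) ∧
        c = Module.finrank ℝ (LinearMap.ker (Matrix.toLin' M))} := by
    refine le_trans Pool.Agent.CdV.Counter.M0_corank (le_csSup ⟨12, ?_⟩ ?_)
    · rintro c ⟨M, -, -, -, -, rfl⟩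
      have := Submodule.finrank_le (LinearMap.ker (Matrix.toLin' M))
      rwa [Module.finrank_fintype_fun_eq_card, Fintype.card_fin] at this
    · exact ⟨Pool.Agent.CdV.Counter.M0, Pool.Agent.CdV.Counter.M0_herm,
        Pool.Agent.CdV.Counter.M0_neg, Pool.Agent.CdV.Counter.M0_zero,
        Pool.Agent.CdV.Counter.M0_inertia, rfl⟩
  omega

end Pool.Agent.S09562
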