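import Pool.Statements.S10219
import Pool.Agent.LTD.Main

set_option autoImplicit false
open Pool Pool.MP_94f1c2_co

namespace Pool.Agent.S10219

/-- Every finite graph with no isolated vertices and no two vertices sharing an open or a closed neighbourhood has a vertex set D meeting every neighbourhood and separating all vertices outside D by their neighbours in D, with size at most 2n/3. -/
theorem result :
    ∀ (V : Type) [Fintype V] (G : SimpleGraph V),
      (∀ v : V, ∃ u : V, G.Adj v u) →
      (∀ u v : V, u ≠ v → G.neighborSet u ≠ G.neighborSet v) →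
      (∀ u v : V, u ≠ v →
        (insert u (G.neighborSet u) : Set V) ≠ insert v (G.neighborSet v)) →
      ∃ D : Finset V,
        (∀ v : V, ∃ u ∈ D, G.Adj v u) ∧
        (∀ u v : V, u ∉ D → v ∉ D → u ≠ v →
          {w : V | w ∈ D ∧ G.Adj u w} ≠ {w : V | w ∈ D ∧ G.Adj v w}) ∧
        3 * D.card ≤ 2 * Fintype.card V := by
  intro V _ G hiso hop hcl
  exact Pool.Agent.LTD.ltd hiso hop hcl

end Pool.Agent.S10219
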