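import Pool.Statements.S10353
import Pool.Agent.ZTR.Star
import Pool.Agent.ZTR.Tree

set_option autoImplicit false
open Pool Pool.MP_9adbbc_co

namespace Pool.Agent.S10353

/-- For all m,n ≥ 1 with s+1 = ⌈m/2⌉+⌈n/2⌉, every colouring of the edges of K_{m,n} by integers mod s has a subtree with exactly s edges whose colours sum to 0 mod s. -/
theorem result :
    ∀ m n : ℕ, 1 ≤ m → 1 ≤ n → ∀ s : ℕ, s + 1 = (m + 1) / 2 + (n + 1) / 2 →
      ∀ c : Sym2 (Fin m ⊕ Fin n) → ZMod s,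
        ∃ H : (completeBipartiteGraph (Fin m) (Fin n)).Subgraph,
          H.coe.IsTree ∧ H.edgeSet.ncard = s ∧ (∑ᶠ e ∈ H.edgeSet, c e) = 0 := by
  intro m n hm hn s hs c
  have hs0 : s ≠ 0 := by omega
  haveI : NeZero s := ⟨hs0⟩
  have hm' : 2 * ((m + 1) / 2) - 1 ≤ m := by omega
  have hn' : 2 * ((n + 1) / 2) - 1 ≤ n := by omega
  obtain ⟨u, v, X, Y, hu, hv, hcard, hsum⟩ := Pool.Agent.ZTR.star (G := ZMod s)
    (A := Fin (2 * ((m + 1) / 2) - 1)) (B := Fin (2 * ((n + 1) / 2) - 1))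
    (fun a b => c s(Sum.inl (Fin.castLE hm' a), Sum.inr (Fin.castLE hn' b)))
    (by
      rw [Fintype.card_fin]
      exact ⟨(m + 1) / 2 - 1, by omega⟩)
    (by
      rw [Fintype.card_fin]
      exact ⟨(n + 1) / 2 - 1, by omega⟩)
    (by
      rw [Fintype.card_fin, Fintype.card_fin, ZMod.card]
      omega)
  rw [ZMod.card] at hcard
  have hu' : Fin.castLE hm' u ∉ X.map (Fin.castLEEmb hm') := by
    intro h
    rw [Finset.mem_map] at h
    obtain ⟨a, ha, hau⟩ := h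
    have : a = u := Fin.castLE_injective hm' hau
    exact hu (this ▸ ha)
  have hv' : Fin.castLE hn' v ∉ Y.map (Fin.castLEEmb hn') := by
    intro h
    rw [Finset.mem_map] at h
    obtain ⟨a, ha, hau⟩ := h
    have : a = v := Fin.castLE_injective hn' hau
    exact hv (this ▸ ha)
  refine ⟨Pool.Agent.ZTR.dstar (Fin.castLE hm' u) (Fin.castLE hn' v) (X.map (Fin.castLEEmb hm'))
    (Y.map (Fin.castLEEmb hn')), Pool.Agent.ZTR.dstar_isTree _ _ _ _ hu' hv', ?_, ?_⟩
  · rw [Pool.Agent.ZTR.dstar_card _ _ _ _ hu' hv', Finset.card_map, Finset.card_map]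
    exact hcard
  · rw [Pool.Agent.ZTR.dstar_sum _ _ _ _ hu' hv', Finset.sum_map, Finset.sum_map]
    exact hsum

end Pool.Agent.S10353
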