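-- Copy of the starting file for statement S10632.
import Pool.Statements.S10632

set_option autoImplicit false
open Pool Pool.MP_a78613_co

namespace Pool.Agent.S10632

/-- Adjacency of the counterexample on `Fin 40`: four blocks of ten consecutive vertices, each block a
`K_{5,5}` (even versus odd vertices) with the edge between its first and last vertex removed,
joined in a ring by the edges from the last vertex of a block to the first vertex of the next one. -/
def adjB (u v : Fin 40) : Bool :=
  ((u.val + v.val) % 2 == 1) &&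
    (((u.val / 10 == v.val / 10) && !(((u.val % 10 == 0) && (v.val % 10 == 9)) ||
        ((u.val % 10 == 9) && (v.val % 10 == 0)))) ||
      ((u.val % 10 == 9) && (v.val == (u.val + 1) % 40)) ||
      ((v.val % 10 == 9) && (u.val == (v.val + 1) % 40)))

/-- The counterexample graph. -/
def G : SimpleGraph (Fin 40) where
  Adj u v := adjB u v = true
  symm := ⟨by decide +kernel⟩
  loopless := ⟨by decide +kernel⟩

instance : DecidableRel G.Adj := fun u v => inferInstanceAs (Decidable (adjB u v = true))

theorem G_colorable : G.Colorable 2 := by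
  refine ⟨SimpleGraph.Coloring.mk (fun v => (⟨v.val % 2, by omega⟩ : Fin 2)) ?_⟩
  have h : ∀ u v : Fin 40, adjB u v = true →
      (⟨u.val % 2, by omega⟩ : Fin 2) ≠ ⟨v.val % 2, by omega⟩ := by decide +kernel
  intro u v huv
  exact h u v huv

theorem cycle_le : SimpleGraph.cycleGraph 40 ≤ G := by
  have h : ∀ u v : Fin 40, (u - v = 1 ∨ v - u = 1) → adjB u v = true := by decide +kernel
  intro u v huv
  exact h u v (SimpleGraph.cycleGraph_adj.mp huv)

theorem G_ham : G.IsHamiltonian := by
  refine SimpleGraph.IsHamiltonian.mono cycle_le ?_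
  intro _
  refine ⟨0, SimpleGraph.cycleGraph.cycle 37, ?_⟩
  rw [SimpleGraph.Walk.isHamiltonianCycle_iff_isCycle_and_length_eq]
  refine ⟨SimpleGraph.cycleGraph.isCycle_cycle, ?_⟩
  rw [SimpleGraph.cycleGraph.length_cycle]
  simp

theorem G_minDegree : G.minDegree = 5 := by
  have h : ∀ v : Fin 40, 5 ≤ (Finset.univ.filter (fun w => adjB v w = true)).card := by
    decide +kernel
  have h0 : (Finset.univ.filter (fun w => adjB 0 w = true)).card = 5 := by
    decide +kernel
  have hdeg : ∀ v : Fin 40, G.degree v = (Finset.univ.filter (fun w => adjB v w = true)).card := by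
    intro v
    rw [← SimpleGraph.card_neighborFinset_eq_degree]
    congr 1
    ext w
    rw [SimpleGraph.mem_neighborFinset, Finset.mem_filter]
    exact ⟨fun h => ⟨Finset.mem_univ _, h⟩, fun h => h.2⟩
  apply le_antisymm
  · have := G.minDegree_le_degree 0
    rw [hdeg, h0] at this
    exact this
  · apply G.le_minDegree_of_forall_le_degree
    intro v
    rw [hdeg]
    exact h v

/-- One walk that may use the edge `e` at most once: bound on the change of a potential. -/
theorem pot (φ : Fin 40 → ℤ) (x y : Fin 40)
    (h1 : ∀ a b, G.Adj a b → s(a, b) ≠ s(x, y) → |φ b - φ a| ≤ 1)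
    (h2 : 15 ≤ |φ y - φ x|) :
    ∀ {a b : Fin 40} (p : G.Walk a b), p.edges.Nodup →
      (s(x, y) ∉ p.edges → |φ b - φ a| ≤ p.length) ∧
      (s(x, y) ∈ p.edges → 16 - (p.length : ℤ) ≤ |φ b - φ a|) := by
  intro a b p
  induction p with
  | nil => intro _; simp
  | @cons u v w h p ih =>
    intro hnd
    rw [SimpleGraph.Walk.edges_cons, List.nodup_cons] at hnd
    obtain ⟨ih1, ih2⟩ := ih hnd.2
    rw [SimpleGraph.Walk.edges_cons, SimpleGraph.Walk.length_cons]
    push_cast
    constructor
    · intro hn
      rw [List.mem_cons, not_or] at hn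
      have := ih1 hn.2
      have h3 := h1 u v h (fun h => hn.1 h.symm)
      rw [abs_le] at *
      constructor <;> linarith [this.1, this.2, h3.1, h3.2]
    · intro hm
      by_cases he : s(x, y) = s(u, v)
      · have hnm : s(x, y) ∉ p.edges := by rw [he]; exact hnd.1
        have h4 := ih1 hnm
        have h5 : |φ y - φ x| = |φ v - φ u| := by
          rcases Sym2.eq_iff.mp he with ⟨rfl, rfl⟩ | ⟨rfl, rfl⟩
          · rfl
          · exact abs_sub_comm _ _
        have h6 : |φ v - φ u| ≤ |φ w - φ u| + |φ w - φ v| := by
          have : φ v - φ u = (φ w - φ u) - (φ w - φ v) := by ring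
          rw [this]
          exact abs_sub _ _
        linarith
      · have hm' : s(x, y) ∈ p.edges := by
          rcases List.mem_cons.mp hm with h | h
          · exact absurd h he
          · exact h
        have h4 := ih2 hm'
        have h3 := h1 u v h (fun h => he h.symm)
        have h6 : |φ w - φ v| ≤ |φ w - φ u| + |φ v - φ u| := by
          have : φ w - φ v = (φ w - φ u) - (φ v - φ u) := by ring
          rw [this]
          exact abs_sub _ _
        linarith

/-- Distance from the first vertex of block `i + 1` when the ring edge leaving block `i` is removed. -/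
def phi (i : Fin 4) (v : Fin 40) : ℤ :=
  let w := (v.val + 70 - 10 * i.val) % 40
  4 * ((w / 10 : ℕ) : ℤ) +
    (if w % 10 = 0 then 0 else if w % 10 = 9 then 3 else if w % 2 = 1 then 1 else 2)

/-- Last vertex of block `i`. -/
def yv (i : Fin 4) : Fin 40 := ⟨10 * i.val + 9, by omega⟩

/-- First vertex of block `i + 1`. -/
def xv (i : Fin 4) : Fin 40 := ⟨(10 * i.val + 10) % 40, by omega⟩

theorem phi_lip : ∀ i : Fin 4, ∀ a b : Fin 40, adjB a b = true →
    (((a = yv i ∧ b = xv i) ∨ (a = xv i ∧ b = yv i)) ∨ |phi i b - phi i a| ≤ 1) := by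
  decide +kernel

theorem phi_far : ∀ i : Fin 4, 15 ≤ |phi i (xv i) - phi i (yv i)| := by
  decide +kernel

/-- A closed walk with distinct edges through a ring edge has length at least `16`. -/
theorem long_of_ring (i : Fin 4) {v : Fin 40} (c : G.Walk v v) (hc : c.edges.Nodup)
    (hm : s(yv i, xv i) ∈ c.edges) : 16 ≤ c.length := by
  have h := (pot (phi i) (yv i) (xv i) (by
    intro a b hab hne
    rcases phi_lip i a b hab with h | h
    · exfalso
      apply hne
      rcases h with ⟨rfl, rfl⟩ | ⟨rfl, rfl⟩
      · rfl
      · exact Sym2.eq_swap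
    · exact h) (phi_far i) c hc).2 hm
  simp only [sub_self, abs_zero] at h
  omega

theorem block_or_ring : ∀ a b : Fin 40, adjB a b = true →
    (a.val / 10 = b.val / 10 ∨ ∃ i : Fin 4, (a = yv i ∧ b = xv i) ∨ (a = xv i ∧ b = yv i)) := by
  decide +kernel

/-- A walk without ring edges stays in its block. -/
theorem block_const {a b : Fin 40} (p : G.Walk a b) (hp : ∀ i : Fin 4, s(yv i, xv i) ∉ p.edges) :
    ∀ w ∈ p.support, w.val / 10 = a.val / 10 := by
  induction p with
  | nil => intro w hw; simp at hw; rw [hw]
  | @cons u v w h p ih =>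
    intro z hz
    rw [SimpleGraph.Walk.support_cons, List.mem_cons] at hz
    rcases hz with rfl | hz
    · rfl
    · have h1 := ih (fun i hi => hp i (by rw [SimpleGraph.Walk.edges_cons]; exact List.mem_cons_of_mem _ hi)) z hz
      rcases block_or_ring u v h with h2 | ⟨i, h2⟩
      · rw [h1, h2]
      · exfalso
        apply hp i
        rw [SimpleGraph.Walk.edges_cons, List.mem_cons]
        left
        rcases h2 with ⟨rfl, rfl⟩ | ⟨rfl, rfl⟩
        · rfl
        · exact Sym2.eq_swap

theorem block_card : ∀ k : Fin 4, (Finset.univ.filter (fun w : Fin 40 => w.val / 10 = k.val)).card = 10 := by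
  decide +kernel

theorem no_cycle {v : Fin 40} (c : G.Walk v v) (hc : c.IsCycle) : c.length ≠ 12 := by
  intro hlen
  by_cases hr : ∃ i : Fin 4, s(yv i, xv i) ∈ c.edges
  · obtain ⟨i, hi⟩ := hr
    have := long_of_ring i c hc.isTrail.edges_nodup hi
    omega
  · push Not at hr
    have h1 := block_const c hr
    have hsub : c.support.tail.toFinset ⊆
        Finset.univ.filter (fun w : Fin 40 => w.val / 10 = (⟨v.val / 10, by omega⟩ : Fin 4).val) := by
      intro w hw
      rw [List.mem_toFinset] at hw
      simp only [Finset.mem_filter, Finset.mem_univ, true_and]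
      exact h1 w (List.mem_of_mem_tail hw)
    have h2 := Finset.card_le_card hsub
    rw [block_card, List.toFinset_card_of_nodup hc.support_nodup] at h2
    rw [List.length_tail, SimpleGraph.Walk.length_support] at h2
    omega

/-- The negation of the preceding statement: Every finite simple bipartite Hamiltonian graph on 2n vertices with minimum degree δ satisfying δ² − δ ≥ n has a cycle of length 2ℓ for every ℓ with 2 ≤ ℓ ≤ n. -/
theorem result :
    ¬ (∀ (V : Type) [Fintype V] [DecidableEq V] (G : SimpleGraph V) [DecidableRel G.Adj] (n : ℕ),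
      Fintype.card V = 2 * n →
      G.Colorable 2 →
      G.IsHamiltonian →
      G.minDegree ^ 2 - G.minDegree ≥ n →
      ∀ ℓ : ℕ, 2 ≤ ℓ → ℓ ≤ n →
        ∃ (v : V) (c : G.Walk v v), c.IsCycle ∧ c.length = 2 * ℓ) := by
  intro hall
  obtain ⟨v, c, hc, hlen⟩ := hall (Fin 40) G 20 (by simp) G_colorable G_ham
    (by rw [G_minDegree]; norm_num) 6 (by norm_num) (by norm_num)
  exact no_cycle c hc hlen

end Pool.Agent.S10632
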