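import Pool.Statements.S10975
import Pool.Agent.Hhelper50.Reduce
import Pool.Agent.Hhelper50.Congr
import Pool.Agent.Hhelper50.Geo5
import Pool.Agent.Hhelper50.ExtSum
import Pool.Agent.Hhelper50.GeoHd

set_option autoImplicit false
open Pool Pool.MP_b6c147_co

namespace Pool.Agent.S10975

/-- Take any tiling of the plane by isometric copies of one convex compact set with nonempty interior, with tiles covering the plane and having disjoint interiors. If every tile meets exactly n other tiles, then n is at most 21. -/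
theorem result :
    ∀ (𝒯 : Set (Set (EuclideanSpace ℝ (Fin 2)))) (K : Set (EuclideanSpace ℝ (Fin 2))) (n : ℕ),
      Convex ℝ K → IsCompact K → (interior K).Nonempty →
      (∀ A ∈ 𝒯, ∃ f : EuclideanSpace ℝ (Fin 2) ≃ᵢ EuclideanSpace ℝ (Fin 2), A = f '' K) →
      ⋃₀ 𝒯 = Set.univ →
      (∀ A ∈ 𝒯, ∀ B ∈ 𝒯, A ≠ B → Disjoint (interior A) (interior B)) →
      (∀ A ∈ 𝒯, {B | B ∈ 𝒯 ∧ B ≠ A ∧ (A ∩ B).Nonempty}.ncard = n) →
      n ≤ 21 := by
  apply Pool.Agent.Hhelper50.reduce
  intro X
  exact X.main_of (fun A hA s hs => X.ext_sum hA s hs)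
    (fun f p hp hint => X.ang_congr X.hK f hp hint)
    (fun A B C a b c hA hB hC hcorner nA nB nC angA angB angC dAB dAC dBC =>
      X.hd_core A B C a b c hA hB hC hcorner nA nB nC angA angB angC dAB dAC dBC)

end Pool.Agent.S10975
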