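import Mathlib
import Pool.Statements.S11804

set_option autoImplicit false
open Pool Pool.MP_da9eaf_co

namespace Pool.Agent.S11804

/-- The real parameter attached to a vertex index. -/
noncomputable def tv (m i : ℕ) : ℝ :=
  if i < m then ((i : ℝ) + 1)
  else if i < 2 * m then ((m : ℝ) ^ 2 + ((i : ℝ) - m) + 1)
  else -((m : ℝ) ^ 2 + ((i : ℝ) - 2 * m) + 2)

/-- The embedding into the plane: points of the parabola with abscissa `1 / tv`. -/
noncomputable def fm (m n : ℕ) (i : Fin n) : Fin 2 → ℝ :=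
  ![1 / tv m i.val, (1 / tv m i.val) ^ 2]

/-- The abscissa of the sum over the edge `(u, v)`. -/
noncomputable def X (m u v : ℕ) : ℝ :=
  1 / ((u : ℝ) + 1) + 1 / ((m : ℝ) ^ 2 + v + 1) - 1 / ((m : ℝ) ^ 2 + u + v + 2)

/-- On the parabola, distinct points are convexly independent. -/
theorem convexIndependent_parabola {ι : Type*} (p : ι → (Fin 2 → ℝ)) (x : ι → ℝ)
    (hp : ∀ i, p i = ![x i, (x i) ^ 2]) (hx : Function.Injective x) :
    ConvexIndependent ℝ p := by
  rw [convexIndependent_iff_notMem_convexHull_sdiff]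
  intro i s hmem
  have hsub : convexHull ℝ (p '' (s \ {i})) ⊆ {z : Fin 2 → ℝ | 0 < z 1 - 2 * x i * z 0 + (x i) ^ 2} := by
    apply convexHull_min
    · rintro _ ⟨j, ⟨_, hj⟩, rfl⟩
      have hne : x j ≠ x i := fun h => hj (hx h)
      have hpos : 0 < (x j - x i) ^ 2 := by
        have : x j - x i ≠ 0 := sub_ne_zero.mpr hne
        positivity
      change 0 < p j 1 - 2 * x i * p j 0 + (x i) ^ 2
      simp only [hp j, Matrix.cons_val_zero, Matrix.cons_val_one]
      nlinarith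
    · intro a ha b hb r s hr hs hrs
      change 0 < a 1 - 2 * x i * a 0 + (x i) ^ 2 at ha
      change 0 < b 1 - 2 * x i * b 0 + (x i) ^ 2 at hb
      change 0 < r * a 1 + s * b 1 - 2 * x i * (r * a 0 + s * b 0) + (x i) ^ 2
      have h1 : r * a 1 + s * b 1 - 2 * x i * (r * a 0 + s * b 0) + (x i) ^ 2
          = r * (a 1 - 2 * x i * a 0 + (x i) ^ 2) + s * (b 1 - 2 * x i * b 0 + (x i) ^ 2) := by
        have : (x i) ^ 2 = (r + s) * (x i) ^ 2 := by rw [hrs]; ring
        linear_combination this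
      rw [h1]
      rcases hr.eq_or_lt with h | h
      · subst h
        have : s = 1 := by linarith
        subst this
        simpa using hb
      · have h2 : 0 ≤ s * (b 1 - 2 * x i * b 0 + (x i) ^ 2) := mul_nonneg hs hb.le
        have h3 : 0 < r * (a 1 - 2 * x i * a 0 + (x i) ^ 2) := mul_pos h ha
        linarith
  have := hsub hmem
  change 0 < p i 1 - 2 * x i * p i 0 + (x i) ^ 2 at this
  simp only [hp i, Matrix.cons_val_zero, Matrix.cons_val_one] at this
  nlinarith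

theorem tv_ne_zero (m i : ℕ) : tv m i ≠ 0 := by
  unfold tv
  split_ifs with h1 h2
  · positivity
  · have : (m : ℝ) ≤ i := by exact_mod_cast not_lt.mp h1
    nlinarith [sq_nonneg (m : ℝ)]
  · have : (2 * m : ℝ) ≤ i := by exact_mod_cast not_lt.mp h2
    nlinarith [sq_nonneg (m : ℝ)]

theorem tv_injective (m : ℕ) : Function.Injective (tv m) := by
  intro i j hij
  unfold tv at hij
  have key : ∀ a : ℕ, (m : ℝ) ^ 2 = ((m ^ 2 : ℕ) : ℝ) := by intro a; push_cast; rfl
  have hm2 : (m : ℝ) ≤ (m : ℝ) ^ 2 := by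
    rw [key m]; exact_mod_cast Nat.le_self_pow (by norm_num) m
  split_ifs at hij with h1 h2 h3 h4 h5 h6 h7 h8 <;>
  · try rw [not_lt] at h1
    try rw [not_lt] at h2
    try rw [not_lt] at h3
    try rw [not_lt] at h4
    try rw [not_lt] at h5
    try rw [not_lt] at h6
    try rw [not_lt] at h7
    try rw [not_lt] at h8
    rify at *
    linarith

theorem fm_injective (m n : ℕ) : Function.Injective (fm m n) := by
  intro i j hij
  have h0 : 1 / tv m i.val = 1 / tv m j.val := by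
    have := congrFun hij 0
    simpa [fm] using this
  have h1 : tv m i.val = tv m j.val := by
    have := congrArg (fun z => 1 / z) h0
    simpa using this
  exact Fin.ext (tv_injective m h1)

theorem X_gt (m u v : ℕ) : 1 / ((u : ℝ) + 1) < X m u v := by
  unfold X
  have h : 1 / ((m : ℝ) ^ 2 + u + v + 2) < 1 / ((m : ℝ) ^ 2 + v + 1) := by
    apply one_div_lt_one_div_of_lt
    · positivity
    · have : (0 : ℝ) ≤ u := by positivity
      linarith
  linarith

theorem X_lt_of_lt {m u v u' v' : ℕ} (h : u < u') (hu' : u' < m) : X m u' v' < X m u v := by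
  refine lt_of_le_of_lt ?_ (X_gt m u v)
  have hu0 : (0 : ℝ) ≤ u := by positivity
  have hu : (u : ℝ) + 1 ≤ u' := by exact_mod_cast h
  have hm : (u' : ℝ) + 1 ≤ m := by exact_mod_cast hu'
  have hv : (0 : ℝ) ≤ v' := by positivity
  have hm0 : (0 : ℝ) < m := by linarith
  have hm1 : (1 : ℝ) ≤ m := by linarith
  -- the small term
  have e1 : 1 / ((m : ℝ) ^ 2 + v' + 1) - 1 / ((m : ℝ) ^ 2 + u' + v' + 2) ≤ 1 / (m : ℝ) ^ 2 := by
    have hb : (0 : ℝ) < (m : ℝ) ^ 2 + v' + 1 := by positivity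
    have hc : (0 : ℝ) < (m : ℝ) ^ 2 + u' + v' + 2 := by positivity
    have : 1 / ((m : ℝ) ^ 2 + v' + 1) - 1 / ((m : ℝ) ^ 2 + u' + v' + 2)
        = (u' + 1) / (((m : ℝ) ^ 2 + v' + 1) * ((m : ℝ) ^ 2 + u' + v' + 2)) := by
      field_simp
      ring
    rw [this, div_le_div_iff₀ (by positivity) (by positivity)]
    have h1 : (m : ℝ) ^ 2 ≤ (m : ℝ) ^ 2 + v' + 1 := by linarith
    have h2 : ((u' : ℝ) + 1) ≤ (m : ℝ) ^ 2 + u' + v' + 2 := by nlinarith
    nlinarith [mul_le_mul h2 h1 (by positivity) (by positivity)]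
  have e2 : 1 / (m : ℝ) ^ 2 ≤ 1 / ((u : ℝ) + 1) - 1 / ((u' : ℝ) + 1) := by
    have ha : (0 : ℝ) < (u : ℝ) + 1 := by positivity
    have ha' : (0 : ℝ) < (u' : ℝ) + 1 := by positivity
    have : 1 / ((u : ℝ) + 1) - 1 / ((u' : ℝ) + 1) = (u' - u) / (((u : ℝ) + 1) * ((u' : ℝ) + 1)) := by
      field_simp
      ring
    rw [this, div_le_div_iff₀ (by positivity) (by positivity)]
    have h1 : ((u : ℝ) + 1) * ((u' : ℝ) + 1) ≤ (m : ℝ) * m :=
      mul_le_mul (by linarith) hm (by positivity) (by positivity)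
    nlinarith
  unfold X
  linarith

theorem X_lt_of_lt' {m u v v' : ℕ} (h : v < v') : X m u v' < X m u v := by
  unfold X
  have hu0 : (0 : ℝ) ≤ u := by positivity
  have hv0 : (0 : ℝ) ≤ v := by positivity
  have hv : (v : ℝ) + 1 ≤ v' := by exact_mod_cast h
  have e : ∀ w : ℝ, 0 ≤ w → 1 / ((m : ℝ) ^ 2 + w + 1) - 1 / ((m : ℝ) ^ 2 + u + w + 2)
        = (u + 1) / (((m : ℝ) ^ 2 + w + 1) * ((m : ℝ) ^ 2 + u + w + 2)) := by
    intro w hw
    have hb : (0 : ℝ) < (m : ℝ) ^ 2 + w + 1 := by positivity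
    have hc : (0 : ℝ) < (m : ℝ) ^ 2 + u + w + 2 := by positivity
    field_simp
    ring
  have e1 := e v hv0
  have e2 := e v' (by linarith)
  have : (u + 1) / (((m : ℝ) ^ 2 + v' + 1) * ((m : ℝ) ^ 2 + u + v' + 2)) <
      (u + 1) / (((m : ℝ) ^ 2 + v + 1) * ((m : ℝ) ^ 2 + u + v + 2)) := by
    apply div_lt_div_of_pos_left (by positivity) (by positivity)
    apply mul_lt_mul (by linarith) (by linarith) (by positivity) (by positivity)
  linarith

theorem X_inj {m u v u' v' : ℕ} (hu : u < m) (hu' : u' < m) (h : X m u v = X m u' v') :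
    u = u' ∧ v = v' := by
  rcases lt_trichotomy u u' with h1 | h1 | h1
  · exact absurd h (X_lt_of_lt h1 hu').ne'
  · subst h1
    refine ⟨rfl, ?_⟩
    rcases lt_trichotomy v v' with h2 | h2 | h2
    · exact absurd h (X_lt_of_lt' h2).ne'
    · exact h2
    · exact absurd h (X_lt_of_lt' h2).ne
  · exact absurd h (X_lt_of_lt h1 hu).ne

/-- The edge attached to the pair `(u, v)`. -/
def edge (m : ℕ) (q : Fin m × Fin m) : Finset (Fin (4 * m)) :=
  {⟨q.1.val, by have := q.1.isLt; omega⟩, ⟨m + q.2.val, by have := q.2.isLt; omega⟩,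
    ⟨2 * m + (q.1.val + q.2.val), by have := q.1.isLt; have := q.2.isLt; omega⟩}

theorem edge_card (m : ℕ) (q : Fin m × Fin m) : (edge m q).card = 3 := by
  have h1 := q.1.isLt
  have h2 := q.2.isLt
  unfold edge
  rw [Finset.card_eq_three]
  refine ⟨_, _, _, ?_, ?_, ?_, rfl⟩
  · simp only [ne_eq, Fin.mk.injEq]; omega
  · simp only [ne_eq, Fin.mk.injEq]; omega
  · simp only [ne_eq, Fin.mk.injEq]; omega

theorem edge_sum (m : ℕ) (q : Fin m × Fin m) :
    ∑ v ∈ edge m q, fm m (4 * m) v = ![X m q.1 q.2, (X m q.1 q.2) ^ 2] := by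
  obtain ⟨⟨u, hu⟩, ⟨v, hv⟩⟩ := q
  have hne1 : (⟨u, by omega⟩ : Fin (4 * m)) ∉
      ({⟨m + v, by omega⟩, ⟨2 * m + (u + v), by omega⟩} : Finset (Fin (4 * m))) := by
    simp only [Finset.mem_insert, Finset.mem_singleton, Fin.mk.injEq]; omega
  have hne2 : (⟨m + v, by omega⟩ : Fin (4 * m)) ∉
      ({⟨2 * m + (u + v), by omega⟩} : Finset (Fin (4 * m))) := by
    simp only [Finset.mem_singleton, Fin.mk.injEq]; omega
  have t1 : tv m u = (u : ℝ) + 1 := by
    unfold tv; rw [if_pos hu]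
  have t2 : tv m (m + v) = (m : ℝ) ^ 2 + v + 1 := by
    unfold tv; rw [if_neg (by omega), if_pos (by omega)]; push_cast; ring
  have t3 : tv m (2 * m + (u + v)) = -((m : ℝ) ^ 2 + u + v + 2) := by
    unfold tv; rw [if_neg (by omega), if_neg (by omega)]; push_cast; ring
  unfold edge
  rw [Finset.sum_insert hne1, Finset.sum_insert hne2, Finset.sum_singleton]
  have e0 : (1 / ((u : ℝ) + 1)) + ((1 / ((m : ℝ) ^ 2 + v + 1)) + (1 / (-((m : ℝ) ^ 2 + u + v + 2))))
      = X m u v := by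
    unfold X
    rw [div_neg]; ring
  have e1 : (1 / ((u : ℝ) + 1)) ^ 2 + ((1 / ((m : ℝ) ^ 2 + v + 1)) ^ 2 +
      (1 / (-((m : ℝ) ^ 2 + u + v + 2))) ^ 2) = (X m u v) ^ 2 := by
    have hu0 : (0 : ℝ) < (u : ℝ) + 1 := by positivity
    have hv0 : (0 : ℝ) < (m : ℝ) ^ 2 + v + 1 := by positivity
    have hw : (m : ℝ) ^ 2 + u + v + 2 = ((u : ℝ) + 1) + ((m : ℝ) ^ 2 + v + 1) := by ring
    unfold X
    rw [hw]
    generalize (u : ℝ) + 1 = a at *
    generalize (m : ℝ) ^ 2 + v + 1 = b at *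
    have hw0 : (0 : ℝ) < a + b := by positivity
    rw [div_neg]
    field_simp
    ring
  ext i
  fin_cases i
  · change 1 / tv m u + (1 / tv m (m + v) + 1 / tv m (2 * m + (u + v))) = X m u v
    rw [t1, t2, t3]
    exact e0
  · change (1 / tv m u) ^ 2 + ((1 / tv m (m + v)) ^ 2 + (1 / tv m (2 * m + (u + v))) ^ 2)
      = (X m u v) ^ 2
    rw [t1, t2, t3]
    exact e1

theorem edge_inj (m : ℕ) : Function.Injective (edge m) := by
  intro q q' h
  have h1 := edge_sum m q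
  rw [h, edge_sum m q'] at h1
  have h2 : X m q'.1 q'.2 = X m q.1 q.2 := by simpa using congrFun h1 0
  obtain ⟨a, b⟩ := X_inj q'.1.isLt q.1.isLt h2
  exact Prod.ext (Fin.ext a.symm) (Fin.ext b.symm)

/-- The edge set. -/
def EE (m : ℕ) : Finset (Finset (Fin (4 * m))) := Finset.univ.image (edge m)

theorem EE_card (m : ℕ) : (EE m).card = m * m := by
  unfold EE
  rw [Finset.card_image_of_injective _ (edge_inj m)]
  simp

theorem EE_indep (m : ℕ) :
    ConvexIndependent ℝ (fun e : ↥(EE m) => ∑ v ∈ e.1, fm m (4 * m) v) := by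
  have hmem : ∀ e : ↥(EE m), ∃ q, edge m q = e.1 := by
    intro e
    obtain ⟨q, -, hq⟩ := Finset.mem_image.mp e.2
    exact ⟨q, hq⟩
  choose q hq using hmem
  apply convexIndependent_parabola _ (fun e => X m (q e).1 (q e).2)
  · intro e
    change ∑ v ∈ e.1, fm m (4 * m) v = _
    rw [← hq e, edge_sum]
  · intro e e' h
    obtain ⟨a, b⟩ := X_inj (q e).1.isLt (q e').1.isLt h
    have : q e = q e' := Prod.ext (Fin.ext a) (Fin.ext b)
    apply Subtype.ext
    rw [← hq e, ← hq e', this]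

/-- The negation of the preceding statement: For 2≤d≤k there is a rational α with d-1<α<d such that the maximum number of edges of a k-uniform hypergraph on n vertices with an injective embedding into R^d whose edge barycenters are in convex position is Θ(n^α). -/
theorem result :
    ¬ (∀ d k : ℕ, 2 ≤ d → d ≤ k →
      ∃ α : ℚ, ((d : ℝ) - 1 < (α : ℝ)) ∧ ((α : ℝ) < (d : ℝ)) ∧
        ∃ c C : ℝ, 0 < c ∧ 0 < C ∧ ∃ N : ℕ, ∀ n : ℕ, N ≤ n →
          (∀ E : Finset (Finset (Fin n)), (∀ e ∈ E, e.card = k) →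
              (∃ f : Fin n → (Fin d → ℝ), Function.Injective f ∧
                  ConvexIndependent ℝ (fun e : ↥E => ∑ v ∈ e.1, f v)) →
              (E.card : ℝ) ≤ C * (n : ℝ) ^ (α : ℝ)) ∧
          (∃ E : Finset (Finset (Fin n)), (∀ e ∈ E, e.card = k) ∧
              (∃ f : Fin n → (Fin d → ℝ), Function.Injective f ∧
                  ConvexIndependent ℝ (fun e : ↥E => ∑ v ∈ e.1, f v)) ∧
              c * (n : ℝ) ^ (α : ℝ) ≤ (E.card : ℝ))) := by
  intro H
  obtain ⟨α, -, hα2, c, C, -, hC, N, hN⟩ := H 2 3 (le_refl 2) (by norm_num)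
  have hα : (α : ℝ) < 2 := by exact_mod_cast hα2
  have hlim : Filter.Tendsto (fun m : ℕ => ((m : ℕ) : ℝ) ^ (2 - (α : ℝ))) Filter.atTop Filter.atTop :=
    (tendsto_rpow_atTop (by linarith)).comp tendsto_natCast_atTop_atTop
  have hev := (hlim.eventually_gt_atTop (C * (4 : ℝ) ^ (α : ℝ))).and
    (Filter.eventually_ge_atTop (N + 1))
  obtain ⟨m, hm1, hm2⟩ := hev.exists
  have hmN : N ≤ 4 * m := by omega
  have hmpos : (0 : ℝ) < (m : ℝ) := by
    have : 0 < m := by omega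
    exact_mod_cast this
  have hcard : ∀ e ∈ EE m, e.card = 3 := by
    intro e he
    unfold EE at he
    obtain ⟨q, -, rfl⟩ := Finset.mem_image.mp he
    exact edge_card m q
  have hbound := (hN (4 * m) hmN).1 (EE m) hcard ⟨fm m (4 * m), fm_injective m (4 * m), EE_indep m⟩
  rw [EE_card] at hbound
  have h1 : (((4 * m : ℕ)) : ℝ) ^ (α : ℝ) = (4 : ℝ) ^ (α : ℝ) * (m : ℝ) ^ (α : ℝ) := by
    push_cast
    rw [Real.mul_rpow (by norm_num) hmpos.le]
  rw [h1] at hbound
  have h2 : ((m * m : ℕ) : ℝ) = (m : ℝ) ^ (2 - (α : ℝ)) * (m : ℝ) ^ (α : ℝ) := by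
    rw [← Real.rpow_add hmpos]
    push_cast
    have : (2 : ℝ) - (α : ℝ) + (α : ℝ) = (2 : ℕ) := by push_cast; ring
    rw [this, Real.rpow_natCast]
    ring
  rw [h2] at hbound
  have h3 : (0 : ℝ) < (m : ℝ) ^ (α : ℝ) := Real.rpow_pos_of_pos hmpos _
  have h4 : C * (4 : ℝ) ^ (α : ℝ) * (m : ℝ) ^ (α : ℝ) < (m : ℝ) ^ (2 - (α : ℝ)) * (m : ℝ) ^ (α : ℝ) :=
    mul_lt_mul_of_pos_right hm1 h3
  linarith

end Pool.Agent.S11804
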