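import Pool.Statements.S12034
import Pool.Agent.ILab.Strong

set_option autoImplicit false
open Pool Pool.MP_e2b059_co

namespace Pool.Agent.S12034

/-- The negation of the preceding statement: Some hereditary graph class with at most n!·c^n labeled n-vertex graphs admits, for some f with f(n)/log n → ∞ and infinitely many n, no adjacency labeling of its n-vertex graphs using labels of at most f(n) bits. -/
theorem result :
    ¬ (∃ C : (n : ℕ) → Set (SimpleGraph (Fin n)),
      (∀ (n m : ℕ) (e : Fin m ↪ Fin n) (G : SimpleGraph (Fin n)),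
          G ∈ C n → G.comap ⇑e ∈ C m) ∧
      (∃ c : ℕ, ∀ n : ℕ, (C n).ncard ≤ n.factorial * c ^ n) ∧
      ∃ f : ℕ → ℕ,
        Filter.Tendsto (fun n : ℕ => (f n : ℝ) / Real.log (n : ℝ)) Filter.atTop Filter.atTop ∧
        ∃ᶠ n in Filter.atTop,
          ¬ ∃ D : List Bool → List Bool → Prop,
              ∀ G ∈ C n, ∃ ℓ : Fin n → List Bool,
                (∀ v, (ℓ v).length ≤ f n) ∧
                ∀ u v, u ≠ v → (G.Adj u v ↔ D (ℓ u) (ℓ v))) := by
  rintro ⟨C, hered, small, f, hf, hfreq⟩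
  obtain ⟨K, hK⟩ := Pool.Agent.ILab.log_labels C hered small
  apply hfreq
  filter_upwards [hf.eventually_ge_atTop (4 * K : ℝ), Filter.eventually_ge_atTop 2] with n h1 h2
  push Not
  refine ⟨Pool.Agent.ILab.DecAll, fun G hG => ?_⟩
  obtain ⟨ℓ, -, hlen, hadj⟩ := hK n G hG
  refine ⟨ℓ, fun v => ?_, fun u v _ => hadj u v⟩
  rw [hlen v]
  have hn : (2 : ℝ) ≤ n := by exact_mod_cast h2
  have hlog : 0 < Real.log n := Real.log_pos (by linarith)
  have h3 : 4 * (K : ℝ) * Real.log n ≤ f n := by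
    rwa [le_div_iff₀ hlog] at h1
  have h4 : ((Nat.log 2 n : ℕ) : ℝ) * Real.log 2 ≤ Real.log n := by
    rw [← Real.log_pow]
    apply Real.log_le_log (by positivity)
    exact_mod_cast Nat.pow_log_le_self 2 (by omega)
  have h5 : Real.log 2 ≤ Real.log n := Real.log_le_log (by norm_num) hn
  have h6 : (0.5 : ℝ) < Real.log 2 := by linarith [Real.log_two_gt_d9]
  have h7 : ((Nat.log 2 n : ℕ) : ℝ) + 1 ≤ 4 * Real.log n := by
    nlinarith [Nat.cast_nonneg (α := ℝ) (Nat.log 2 n)]
  have h8 : (0 : ℝ) ≤ K := Nat.cast_nonneg _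
  have h9 : ((K * (Nat.log 2 n + 1) : ℕ) : ℝ) ≤ f n := by
    push_cast
    calc (K : ℝ) * ((Nat.log 2 n : ℕ) + 1) ≤ K * (4 * Real.log n) :=
          mul_le_mul_of_nonneg_left h7 h8
      _ = 4 * K * Real.log n := by ring
      _ ≤ f n := h3
  exact_mod_cast h9

end Pool.Agent.S12034
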