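import Pool.Statements.S12213
import Pool.Agent.Rebel.Final

set_option autoImplicit false
open Pool Pool.MP_ead61c_co

namespace Pool.Agent.S12213

/-- For every poset tournament S there is a constant c such that every finite tournament with no subtournament isomorphic to S has a dominating set of at most c vertices. -/
theorem result :
    ∀ (m : ℕ) (S : Fin m → Fin m → Prop),
      (∀ i, ¬ S i i) →
      (∀ i j, i ≠ j → (S i j ↔ ¬ S j i)) →
      (∃ σ : Equiv.Perm (Fin m), ∀ a b c : Fin m, a < b → b < c →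
          S (σ a) (σ b) → S (σ b) (σ c) → S (σ a) (σ c)) →
      ∃ c : ℕ, ∀ (n : ℕ) (T : Fin n → Fin n → Prop),
        (∀ i, ¬ T i i) →
        (∀ i j, i ≠ j → (T i j ↔ ¬ T j i)) →
        (¬ ∃ f : Fin m ↪ Fin n, ∀ i j, S i j ↔ T (f i) (f j)) →
        ∃ D : Finset (Fin n), D.card ≤ c ∧ ∀ v, v ∉ D → ∃ u ∈ D, T u v := by
  intro m S hS1 hS2 hσ
  obtain ⟨σ, hσ⟩ := hσ
  obtain ⟨c, hc⟩ := Pool.Agent.Rebel.main (fun i j => S (σ i) (σ j))
    ⟨fun u => hS1 _, fun u v h => hS2 _ _ (fun h' => h (σ.injective h'))⟩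
    (fun i j k hij hjk h1 h2 => hσ i j k hij hjk h1 h2)
  refine ⟨c, fun n T hT1 hT2 hF => hc n T ⟨hT1, hT2⟩ ?_⟩
  rintro ⟨f, hf⟩
  apply hF
  refine ⟨σ.symm.toEmbedding.trans f, fun i j => ?_⟩
  have := hf (σ.symm i) (σ.symm j)
  simpa using this

end Pool.Agent.S12213
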