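import Pool.Statements.S12409
-- import your own Pool.Agent.* helpers here
import Pool.Agent.Hhelper10.Dom.Final

set_option autoImplicit false
open Pool Pool.MP_f4fe70_co

namespace Pool.Agent.S12409

/-- For every t ≥ 1 there is K ≥ 1 such that every finite tournament in which no set of fewer than K vertices dominates all other vertices contains a vertex subset inducing the recursively defined tournament S_t. -/
theorem result :
    ∀ t : ℕ, 1 ≤ t → ∃ K : ℕ, 1 ≤ K ∧
      ∀ n : ℕ, ∀ adj : Fin n → Fin n → Prop,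
        (∀ u, ¬ adj u u) →
        (∀ u v, u ≠ v → (adj u v ↔ ¬ adj v u)) →
        (∀ D : Finset (Fin n), D.card < K → ∃ v, v ∉ D ∧ ∀ d ∈ D, ¬ adj d v) →
        ∃ X : Finset (Fin n),
          Nat.rec (motive := fun _ => Finset (Fin n) → Prop)
            (fun Y => Y.card = 1)
            (fun _ Q Y => ∃ A B : Finset (Fin n), ∃ c : Fin n,
              Disjoint A B ∧ c ∉ A ∧ c ∉ B ∧ Y = insert c (A ∪ B) ∧
              Q A ∧ Q B ∧
              (∀ a ∈ A, ∀ b ∈ B, adj a b) ∧
              (∀ b ∈ B, adj b c) ∧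
              (∀ a ∈ A, adj c a))
            (t - 1) X := by
  intro t _
  obtain ⟨K, hK, h⟩ := Pool.Agent.Hhelper10.Dom.main (t - 1)
  exact ⟨K, hK, fun n adj hirr htour hdom => h (Fin n) adj ⟨hirr, htour⟩ hdom⟩

end Pool.Agent.S12409
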