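import Pool.Statements.S12835
import Pool.Agent.Hhelper65.SphereLimits

set_option autoImplicit false
open Filter Topology
open Pool Pool.MP_1a07a1_gt

namespace Pool.Agent.S12835

/-- For every n ≥ 2 and every nonempty closed set C in the unit sphere of ℝⁿ, some sequence of self-homeomorphisms of the sphere converges pointwise everywhere to points of C, with every point of C attained as a limit. -/
theorem result :
    ∀ n : ℕ, 2 ≤ n →
      ∀ C : Set ↥(Metric.sphere (0 : EuclideanSpace ℝ (Fin n)) (1 : ℝ)),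
        IsClosed C → C.Nonempty →
        ∃ H : ℕ → (↥(Metric.sphere (0 : EuclideanSpace ℝ (Fin n)) (1 : ℝ)) ≃ₜ
                    ↥(Metric.sphere (0 : EuclideanSpace ℝ (Fin n)) (1 : ℝ))),
          (∀ p : ↥(Metric.sphere (0 : EuclideanSpace ℝ (Fin n)) (1 : ℝ)),
              ∃ q ∈ C, Tendsto (fun k : ℕ => H k p) atTop (𝓝 q)) ∧
          (∀ q ∈ C, ∃ p : ↥(Metric.sphere (0 : EuclideanSpace ℝ (Fin n)) (1 : ℝ)),
              Tendsto (fun k : ℕ => H k p) atTop (𝓝 q)) := by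
  intro n hn C hC hCne
  obtain ⟨c0, hc0⟩ := hCne
  have hv : ‖(c0 : EuclideanSpace ℝ (Fin n))‖ = 1 := by simp
  have hv0 : (c0 : EuclideanSpace ℝ (Fin n)) ≠ 0 := by
    intro h
    rw [h, norm_zero] at hv
    exact zero_ne_one hv
  let Ψ := onePointHyperplaneHomeoUnitSphere hv
  have hΨ : Ψ OnePoint.infty = c0 := by
    apply Subtype.ext
    rfl
  obtain ⟨m, rfl⟩ : ∃ m, n = m + 1 := ⟨n - 1, by omega⟩
  have : Fact (Module.finrank ℝ (EuclideanSpace ℝ (Fin (m + 1))) = m + 1) := ⟨by simp⟩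
  have hfin : Module.finrank ℝ (Submodule.span ℝ {(c0 : EuclideanSpace ℝ (Fin (m + 1)))})ᗮ = m :=
    Submodule.finrank_orthogonal_span_singleton hv0
  rcases Nat.lt_or_ge m 2 with hm | hm
  · -- the circle
    have hm1 : m = 1 := by omega
    subst hm1
    have e : ℝ ≃L[ℝ] (Submodule.span ℝ {(c0 : EuclideanSpace ℝ (Fin (1 + 1)))})ᗮ :=
      (FiniteDimensional.nonempty_continuousLinearEquiv_of_finrank_eq (by rw [hfin]; simp)).some
    let Θ : OnePoint ℝ ≃ₜ _ := e.toHomeomorph.onePointCongr.trans Ψ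
    have hΘ : Θ OnePoint.infty = c0 := hΨ
    exact Pool.Agent.Hhelper65.SphereLimits.main_real Θ C hC (by rw [hΘ]; exact hc0)
  · obtain ⟨j, rfl⟩ : ∃ j, m = j + 2 := ⟨m - 2, by omega⟩
    have e : (ℝ × EuclideanSpace ℝ (Fin (j + 1))) ≃L[ℝ]
        (Submodule.span ℝ {(c0 : EuclideanSpace ℝ (Fin (j + 2 + 1)))})ᗮ :=
      (FiniteDimensional.nonempty_continuousLinearEquiv_of_finrank_eq (by
        rw [hfin, Module.finrank_prod]; simp; omega)).some
    let Θ : OnePoint (ℝ × EuclideanSpace ℝ (Fin (j + 1))) ≃ₜ _ :=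
      e.toHomeomorph.onePointCongr.trans Ψ
    have hΘ : Θ OnePoint.infty = c0 := hΨ
    exact Pool.Agent.Hhelper65.SphereLimits.main_prod Θ C hC (by rw [hΘ]; exact hc0)

end Pool.Agent.S12835
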