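import Pool.Statements.S13123
import Pool.Agent.Hhelper63.Lens.Transfer

set_option autoImplicit false
open Filter Topology
open scoped Classical
open Pool Pool.MP_4a0c19_gt

namespace Pool.Agent.S13123

/-- For every n≥1, over lens spaces L(q;s) of dimension 2n−1 with q≤x, the share of isometry classes that are spectrally unique tends to 1, via the combinatorial isometry and 1-norm lattice isospectrality criteria. -/
theorem result :
  ∀ n : ℕ, 1 ≤ n →
  ∀ (S : ℕ → Finset (Fin n → ℕ)),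
   (∀ q : ℕ, S q = Fintype.piFinset
      (fun _ : Fin n => (Finset.range q).filter (fun a => Nat.Coprime a q))) →
  ∀ (Iso : ℕ → (Fin n → ℕ) → (Fin n → ℕ) → Prop),
   (∀ (q : ℕ) (s s' : Fin n → ℕ), Iso q s s' ↔
      ∃ σ : Equiv.Perm (Fin n), ∃ ε : Fin n → ℤ, (∀ j, ε j = 1 ∨ ε j = -1) ∧
        ∃ t : ℕ, Nat.Coprime t q ∧
          ∀ j, (s' j : ℤ) ≡ ε j * (t : ℤ) * (s (σ j) : ℤ) [ZMOD (q : ℤ)]) →
  ∀ (Spec : ℕ → (Fin n → ℕ) → (Fin n → ℕ) → Prop),
   (∀ (q : ℕ) (s s' : Fin n → ℕ), Spec q s s' ↔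
      ∀ k : ℕ,
        ((Fintype.piFinset (fun _ : Fin n => Finset.Icc (-(k : ℤ)) (k : ℤ))).filter
            (fun a => ∑ j, |a j| = (k : ℤ) ∧
              (∑ j, a j * (s j : ℤ)) ≡ 0 [ZMOD (q : ℤ)])).card =
        ((Fintype.piFinset (fun _ : Fin n => Finset.Icc (-(k : ℤ)) (k : ℤ))).filter
            (fun a => ∑ j, |a j| = (k : ℤ) ∧
              (∑ j, a j * (s' j : ℤ)) ≡ 0 [ZMOD (q : ℤ)])).card) →
  Tendsto (fun x : ℕ =>
      (∑ q ∈ Finset.Icc 1 x,
          ((((S q).filter (fun s => ∀ s' ∈ S q, Spec q s s' → Iso q s s')).image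
              (fun s => (S q).filter (fun s' => Iso q s s'))).card : ℝ)) /
      (∑ q ∈ Finset.Icc 1 x,
          (((S q).image (fun s => (S q).filter (fun s' => Iso q s s'))).card : ℝ)))
    atTop (𝓝 1) := by
  intro n hn S hS Iso hIso Spec hSpec
  refine (Pool.Agent.Hhelper63.Lens.density n hn S ?_ Iso hIso Spec ?_).congr ?_
  · intro q
    rw [hS q]
  · intro q s s'
    rw [hSpec q s s']
  · intro x
    rfl

end Pool.Agent.S13123
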