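import Pool.Statements.S13870
import Pool.Agent.CpS.Fin

set_option autoImplicit false
open Topology
open Pool Pool.MP_c0a969_gt

namespace Pool.Agent.S13870

/-- The negation of the preceding statement: For every scattered compact Hausdorff space X, the continuous real functions on X with the pointwise topology have a π-base, i.e. nonempty open sets with one inside every nonempty open set, in which each function lies in only countably many members. -/
theorem result :
    ¬ (∀ (X : Type) [TopologicalSpace X] [T2Space X] [CompactSpace X],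
      (∀ s : Set X, s.Nonempty → ∃ x ∈ s, ∃ U : Set X, IsOpen U ∧ U ∩ s = {x}) →
      ∃ 𝓑 : Set (Set C(X, ℝ)),
        (∀ B ∈ 𝓑,
          @IsOpen C(X, ℝ)
            (TopologicalSpace.induced (fun f : C(X, ℝ) => (f : X → ℝ)) inferInstance) B
          ∧ B.Nonempty) ∧
        (∀ U : Set C(X, ℝ),
          @IsOpen C(X, ℝ)
            (TopologicalSpace.induced (fun f : C(X, ℝ) => (f : X → ℝ)) inferInstance) U →
          U.Nonempty → ∃ B ∈ 𝓑, B ⊆ U) ∧
        (∀ f : C(X, ℝ), {B ∈ 𝓑 | f ∈ B}.Countable)) := by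
  intro h
  obtain ⟨I, L, i1, i2, i3, i4, H⟩ := Pool.CpS.exists_hyp
  obtain ⟨P, U, hP, hc, hU, hd, hg⟩ := Pool.CpS.exists_guess H
  obtain ⟨code, hcode⟩ := Pool.CpS.exists_code H
  let D : Pool.CpS.Par I L := ⟨P, U, code, hP, hc, hU, hd, hcode, hg⟩
  obtain ⟨𝓑, h1, h2, h3⟩ := h (OnePoint (Pool.CpS.Pt D)) (Pool.CpS.scattered D)
  exact Pool.CpS.no_pibase H D 𝓑 h1 h2 h3

end Pool.Agent.S13870
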