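import Pool.Statements.S14853
import Pool.Agent.KDir.Final

set_option autoImplicit false
open Pool Pool.MP_6af323_lc

namespace Pool.Agent.S14853

/-- There is a fixed k such that every modal algebra (Boolean algebra with a box preserving top and meets) with finitely many k-ary term functions has finitely many n-ary term functions for every n, i.e. k-tabular normal unimodal logics are locally tabular. -/
theorem result :
    ∃ k : ℕ, ∀ (B : Type) [BooleanAlgebra B] (f : B → B),
      f ⊤ = ⊤ → (∀ a b : B, f (a ⊓ b) = f a ⊓ f b) →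
      (⋂₀ {S : Set ((Fin k → B) → B) |
          (∀ i : Fin k, (fun v : Fin k → B => v i) ∈ S) ∧
          (fun _ : Fin k → B => (⊥ : B)) ∈ S ∧
          (∀ g ∈ S, (fun v : Fin k → B => (g v)ᶜ) ∈ S) ∧
          (∀ g ∈ S, ∀ h ∈ S, (fun v : Fin k → B => g v ⊓ h v) ∈ S) ∧
          (∀ g ∈ S, (fun v : Fin k → B => f (g v)) ∈ S)}).Finite →
      ∀ n : ℕ,
        (⋂₀ {S : Set ((Fin n → B) → B) |
          (∀ i : Fin n, (fun v : Fin n → B => v i) ∈ S) ∧
          (fun _ : Fin n → B => (⊥ : B)) ∈ S ∧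
          (∀ g ∈ S, (fun v : Fin n → B => (g v)ᶜ) ∈ S) ∧
          (∀ g ∈ S, ∀ h ∈ S, (fun v : Fin n → B => g v ⊓ h v) ∈ S) ∧
          (∀ g ∈ S, (fun v : Fin n → B => f (g v)) ∈ S)}).Finite := by
  refine ⟨9, ?_⟩
  intro B _ f htop hinf hfin n
  exact KD.tabular f htop hinf hfin n

end Pool.Agent.S14853
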