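import Pool.Statements.S15036

set_option autoImplicit false
open Pool Pool.MP_8bf09d_lc

namespace Pool.Agent.S15036

/-!
# A labelling problem that is computable on all highly computable graphs but not Baire measurable

Let `S` be the range of a sequence `s` that outgrows every computable function.
The labelling problem (two labels, radius two): if the degree of `v` is in `S`, if `v` has
exactly one neighbour `w` of larger degree, and if the degree of `w` is in `S`, then `v` and `w`
get different labels.

* Every highly computable graph `H` has a computable solution. Follow the chain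
  `u, next u, next (next u), ...` of unique neighbours of larger degree. Along it the degree
  increases, while all degrees met in the first `n + 1` steps from a vertex `u ≤ n` are bounded by
  a computable function `g n`. Hence the chain soon meets an edge `(v, next v)` with
  `deg v > K` and `deg (next v) ≤ g (deg v)`, and such an edge cannot have both degrees in `S`
  once `K` is large. Colour `u` by the parity of the distance to the first such edge.
* The Borel graph: main vertices `(n, a)` with `n` in `ℕ`, `a` in the Cantor space, the edge from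
  `(n, a)` to `(n + 1 + a 0, shift a)`, and pendant vertices that bring the degree of `(n, a)`
  up to `s n`. A Baire measurable solution would be generically constant on some level `N`,
  hence on the levels `N + 1` and `N + 2`, and the paths `N, N + 2` and `N, N + 1, N + 2` give
  contradictory parities.
-/

open Nat.Partrec (Code)

/-- A sequence that outgrows every computable function. -/
theorem exists_fast : ∃ s : ℕ → ℕ, StrictMono s ∧ (∀ n, 4 ≤ s n) ∧
    ∀ g : ℕ → ℕ, Computable g → ∃ K, ∀ i j, K < s i → i < j → g (s i) < s j := by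
  classical
  -- enumeration of the computable functions
  obtain ⟨E, hE⟩ : ∃ E : ℕ → ℕ → ℕ, ∀ g : ℕ → ℕ, Computable g → ∃ i, E i = g := by
    refine ⟨fun i n => if h : ((Denumerable.ofNat Code i).eval n).Dom
      then ((Denumerable.ofNat Code i).eval n).get h else 0, ?_⟩
    intro g hg
    have hg' : Nat.Partrec (fun n => Part.some (g n)) := by
      have := Partrec.nat_iff.1 hg.partrec
      exact this
    obtain ⟨c, hc⟩ := Code.exists_code.1 hg'
    refine ⟨Encodable.encode c, ?_⟩
    funext n
    simp [hc]
  let s : ℕ → ℕ := fun k => Nat.rec 4 (fun k sk => sk + 1 + ∑ i ∈ Finset.range (k+1), E i sk) k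
  have hs0 : s 0 = 4 := rfl
  have hs : ∀ k, s (k+1) = s k + 1 + ∑ i ∈ Finset.range (k+1), E i (s k) := fun k => rfl
  have hmono : StrictMono s := by
    apply strictMono_nat_of_lt_succ
    intro k
    rw [hs]
    omega
  refine ⟨s, hmono, ?_, ?_⟩
  · intro n
    have := hmono.monotone (Nat.zero_le n)
    omega
  · intro g hg
    obtain ⟨i0, rfl⟩ := hE g hg
    refine ⟨s i0, ?_⟩
    intro i j hi hij
    have hi0 : i0 < i := hmono.lt_iff_lt.1 hi
    have h1 : E i0 (s i) ≤ ∑ i' ∈ Finset.range (i+1), E i' (s i) :=
      Finset.single_le_sum (f := fun i' => E i' (s i)) (fun _ _ => Nat.zero_le _)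
        (Finset.mem_range.2 (by omega))
    have h2 : s (i+1) ≤ s j := hmono.monotone hij
    rw [hs] at h2
    omega



/-- mapping a computable function over a list is computable -/
theorem computable_list_map {β σ : Type} [Primcodable β] [Primcodable σ] {h : β → σ}
    (hh : Computable h) : Computable (fun l : List β => l.map h) := by
  have key : Computable (fun l : List β => (Nat.rec ([] : List σ)
      (fun n IH => IH ++ (Option.map h (l[n]?)).toList) l.length : List σ)) := by
    refine Computable.nat_rec (f := fun l : List β => l.length) (g := fun _ => ([] : List σ))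
      (h := fun (l : List β) (p : ℕ × List σ) => p.2 ++ (Option.map h (l[p.1]?)).toList) ?_ ?_ ?_
    · exact Computable.list_length
    · exact Computable.const _
    · have h1 : Computable (fun q : List β × (ℕ × List σ) => (q.1)[q.2.1]?) :=
        Computable.list_getElem?.comp Computable.fst (Computable.fst.comp Computable.snd)
      have h2 : Computable (fun q : List β × (ℕ × List σ) => Option.map h ((q.1)[q.2.1]?)) :=
        Computable.option_map h1 (hh.comp Computable.snd).to₂
      have h3 : Computable (fun q : List β × (ℕ × List σ) =>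
          (Option.map h ((q.1)[q.2.1]?)).toList) :=
        (Primrec.optionToList.to_comp).comp h2
      exact (Computable.list_append.comp (Computable.snd.comp Computable.snd) h3).to₂
  refine key.of_eq ?_
  intro l
  have : ∀ n, (Nat.rec ([] : List σ)
      (fun n IH => IH ++ (Option.map h (l[n]?)).toList) n : List σ) = (l.take n).map h := by
    intro n
    induction n with
    | zero => simp
    | succ n ih =>
      show _ ++ _ = _
      rw [ih, List.take_add_one, List.map_append]
      congr 1
      cases l[n]? <;> simp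
  rw [this, List.take_length]

/-- number of distinct entries -/
def dgl (l : List ℕ) : ℕ := l.dedup.length

theorem primrec_dgl : Primrec dgl := by
  have hmem : PrimrecRel (fun (L : List ℕ) (b : ℕ) => b ∈ L) := by
    refine (PrimrecRel.exists_mem_list (R := fun a b : ℕ => a = b) Primrec.eq).of_eq ?_
    intro L b
    simp
  have h1 : Primrec (fun l : List ℕ => l.foldr
      (fun a acc => if a ∈ acc then acc else a :: acc) []) := by
    refine Primrec.list_foldr (f := fun l : List ℕ => l) (g := fun _ => ([] : List ℕ))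
      (h := fun (_ : List ℕ) (p : ℕ × List ℕ) => if p.1 ∈ p.2 then p.2 else p.1 :: p.2)
      Primrec.id (Primrec.const _) ?_
    refine Primrec.ite ?_ ?_ ?_
    · exact hmem.comp (Primrec.snd.comp Primrec.snd) (Primrec.fst.comp Primrec.snd)
    · exact Primrec.snd.comp Primrec.snd
    · exact Primrec.list_cons.comp (Primrec.fst.comp Primrec.snd) (Primrec.snd.comp Primrec.snd)
  refine (Primrec.list_length.comp h1).of_eq ?_
  intro l
  unfold dgl
  congr 1
  induction l with
  | nil => simp
  | cons a l ih =>
    rw [List.foldr_cons, ih]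
    by_cases h : a ∈ l
    · rw [List.dedup_cons_of_mem h, if_pos (List.mem_dedup.2 h)]
    · rw [List.dedup_cons_of_notMem h, if_neg (fun h' => h (List.mem_dedup.1 h'))]

/-- Select the only neighbour of larger degree, or return the vertex itself. -/
def pick (v d : ℕ) (L : List (ℕ × ℕ)) : ℕ :=
  match (L.filter (fun p : ℕ × ℕ => d < p.2)).head? with
  | none => v
  | some p => if ∀ q ∈ L.filter (fun p : ℕ × ℕ => d < p.2), q.1 = p.1 then p.1 else v

theorem primrec_pick : Primrec (fun q : ℕ × ℕ × List (ℕ × ℕ) => pick q.1 q.2.1 q.2.2) := by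
  have hR : PrimrecRel (fun (p : ℕ × ℕ) (d : ℕ) => d < p.2) :=
    Primrec.nat_lt.comp Primrec.snd (Primrec.snd.comp Primrec.fst)
  have hF : Primrec (fun q : ℕ × ℕ × List (ℕ × ℕ) =>
      q.2.2.filter (fun p : ℕ × ℕ => q.2.1 < p.2)) :=
    (PrimrecRel.listFilter hR).comp (Primrec.snd.comp Primrec.snd) (Primrec.fst.comp Primrec.snd)
  have hH : Primrec (fun q : ℕ × ℕ × List (ℕ × ℕ) =>
      (q.2.2.filter (fun p : ℕ × ℕ => q.2.1 < p.2)).head?) := Primrec.list_head?.comp hF
  have hA : PrimrecRel (fun (L : List (ℕ × ℕ)) (p : ℕ × ℕ) => ∀ q ∈ L, q.1 = p.1) :=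
    PrimrecRel.forall_mem_list (R := fun q p : ℕ × ℕ => q.1 = p.1)
      (Primrec.eq.comp (Primrec.fst.comp Primrec.fst) (Primrec.fst.comp Primrec.snd))
  refine (Primrec.option_casesOn (o := fun q : ℕ × ℕ × List (ℕ × ℕ) =>
      (q.2.2.filter (fun p : ℕ × ℕ => q.2.1 < p.2)).head?) (f := fun q => q.1)
      (g := fun q p => if ∀ q' ∈ q.2.2.filter (fun p : ℕ × ℕ => q.2.1 < p.2), q'.1 = p.1 then p.1 else q.1)
      hH Primrec.fst ?_).of_eq ?_
  · refine Primrec.ite ?_ ?_ ?_
    · exact hA.comp (hF.comp Primrec.fst) Primrec.snd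
    · exact Primrec.fst.comp Primrec.snd
    · exact Primrec.fst.comp Primrec.fst
  · intro q
    unfold pick
    cases h : (q.2.2.filter (fun p : ℕ × ℕ => q.2.1 < p.2)).head? <;> rfl

/-- The successor function of a neighbour list function. -/
def nxt (nb : ℕ → List ℕ) (v : ℕ) : ℕ :=
  pick v (dgl (nb v)) ((nb v).map (fun w => (w, dgl (nb w))))

theorem computable_nxt {nb : ℕ → List ℕ} (hnb : Computable nb) : Computable (nxt nb) := by
  have hd : Computable (fun w => dgl (nb w)) := primrec_dgl.to_comp.comp hnb
  have hm : Computable (fun v => (nb v).map (fun w => (w, dgl (nb w)))) :=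
    (computable_list_map (Computable.pair Computable.id hd)).comp hnb
  exact primrec_pick.to_comp.comp (Computable.pair Computable.id (Computable.pair hd hm))

/-- uniform computable bound -/
theorem exists_bound {h : ℕ → ℕ → ℕ} (hh : Computable₂ h) :
    ∃ g : ℕ → ℕ, Computable g ∧ ∀ n u i, u ≤ n → i ≤ n + 1 → h u i ≤ g n := by
  refine ⟨fun n => Nat.rec 0 (fun p acc => acc + h p.unpair.1 p.unpair.2) ((n + 2) * (n+2)), ?_, ?_⟩
  · refine Computable.nat_rec (f := fun n : ℕ => (n + 2) * (n+2)) (g := fun _ : ℕ => 0)
      (h := fun (_ : ℕ) (q : ℕ × ℕ) => q.2 + h q.1.unpair.1 q.1.unpair.2) ?_ ?_ ?_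
    · have : Primrec (fun n : ℕ => n + 2) := Primrec.nat_add.comp Primrec.id (Primrec.const 2)
      exact (Primrec.nat_mul.comp this this).to_comp
    · exact Computable.const _
    · have hu : Computable (fun q : ℕ × (ℕ × ℕ) => q.2.1.unpair) :=
        Computable.unpair.comp (Computable.fst.comp Computable.snd)
      exact (Primrec.nat_add.to_comp.comp (Computable.snd.comp Computable.snd)
        (hh.comp (Computable.fst.comp hu) (Computable.snd.comp hu))).to₂
  · intro n u i hu hi
    have key : ∀ N p, p < N → h p.unpair.1 p.unpair.2 ≤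
        (Nat.rec 0 (fun p acc => acc + h p.unpair.1 p.unpair.2) N : ℕ) := by
      intro N
      induction N with
      | zero => intro p hp; omega
      | succ N ih =>
        intro p hp
        show _ ≤ _ + _
        rcases Nat.lt_succ_iff_lt_or_eq.1 hp with hp | hp
        · have := ih p hp
          omega
        · subst hp
          omega
    have := key ((n + 2) * (n+2)) (Nat.pair u i) ?_
    · simpa using this
    · have h1 := Nat.pair_lt_max_add_one_sq u i
      have h2 : max u i + 1 ≤ n + 2 := by omega
      nlinarith [Nat.pow_le_pow_left h2 2]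

theorem nxt_of_unique {nb : ℕ → List ℕ} {v w : ℕ} (hw : w ∈ nb v)
    (hlt : dgl (nb v) < dgl (nb w))
    (huniq : ∀ w' ∈ nb v, dgl (nb v) < dgl (nb w') → w' = w) : nxt nb v = w := by
  unfold nxt pick
  have hmemF : ∀ q : ℕ × ℕ, q ∈ ((nb v).map (fun w => (w, dgl (nb w)))).filter
      (fun p : ℕ × ℕ => dgl (nb v) < p.2) → q.1 = w := by
    intro q hq
    rw [List.mem_filter, List.mem_map] at hq
    obtain ⟨⟨w', hw', rfl⟩, h2⟩ := hq
    exact huniq w' hw' (by simpa using h2)
  cases hh : (((nb v).map (fun w => (w, dgl (nb w)))).filter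
      (fun p : ℕ × ℕ => dgl (nb v) < p.2)).head? with
  | none =>
    exfalso
    rw [List.head?_eq_none_iff] at hh
    have : (w, dgl (nb w)) ∈ ((nb v).map (fun w => (w, dgl (nb w)))).filter
      (fun p : ℕ × ℕ => dgl (nb v) < p.2) := by
      rw [List.mem_filter, List.mem_map]
      exact ⟨⟨w, hw, rfl⟩, by simpa using hlt⟩
    rw [hh] at this
    simp at this
  | some p =>
    have hp : p ∈ ((nb v).map (fun w => (w, dgl (nb w)))).filter
      (fun p : ℕ × ℕ => dgl (nb v) < p.2) := List.mem_of_mem_head? (by rw [hh]; rfl)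
    have hp1 : p.1 = w := hmemF p hp
    have : ∀ q ∈ ((nb v).map (fun w => (w, dgl (nb w)))).filter
      (fun p : ℕ × ℕ => dgl (nb v) < p.2), q.1 = p.1 := by
      intro q hq
      rw [hp1, hmemF q hq]
    show (if _ then p.1 else v) = w
    rw [if_pos this, hp1]

theorem nxt_cases (nb : ℕ → List ℕ) (v : ℕ) :
    nxt nb v = v ∨ dgl (nb v) < dgl (nb (nxt nb v)) := by
  unfold nxt pick
  cases hh : (((nb v).map (fun w => (w, dgl (nb w)))).filter
      (fun p : ℕ × ℕ => dgl (nb v) < p.2)).head? with
  | none => left; rfl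
  | some p =>
    have hp : p ∈ ((nb v).map (fun w => (w, dgl (nb w)))).filter
      (fun p : ℕ × ℕ => dgl (nb v) < p.2) := List.mem_of_mem_head? (by rw [hh]; rfl)
    rw [List.mem_filter, List.mem_map] at hp
    obtain ⟨⟨w', hw', rfl⟩, h2⟩ := hp
    simp only
    split_ifs
    · right
      simpa using h2
    · left; rfl

theorem exists_coloring {S : Set ℕ}
    (hS : ∀ g : ℕ → ℕ, Computable g → ∃ K, ∀ s ∈ S, ∀ t ∈ S, K < s → s < t → g s < t)
    {nb : ℕ → List ℕ} (hnb : Computable nb) :
    ∃ c : ℕ → Fin 2, Computable c ∧ ∀ v, dgl (nb v) ∈ S → dgl (nb (nxt nb v)) ∈ S →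
      nxt nb v ≠ v → c v ≠ c (nxt nb v) := by
  classical
  have hnx := computable_nxt hnb
  have hd : Computable (fun w => dgl (nb w)) := primrec_dgl.to_comp.comp hnb
  -- iterates
  have hit : Computable₂ (fun u i : ℕ => (nxt nb)^[i] u) := by
    have : Computable (fun q : ℕ × ℕ => (Nat.rec q.1 (fun _ IH => nxt nb IH) q.2 : ℕ)) := by
      refine Computable.nat_rec (f := fun q : ℕ × ℕ => q.2) (g := fun q : ℕ × ℕ => q.1)
        (h := fun (_ : ℕ × ℕ) (r : ℕ × ℕ) => nxt nb r.2) Computable.snd Computable.fst ?_
      exact (hnx.comp (Computable.snd.comp Computable.snd)).to₂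
    refine Computable.of_eq this ?_
    rintro ⟨u, i⟩
    simp only
    induction i with
    | zero => rfl
    | succ i ih =>
      rw [Function.iterate_succ_apply', ← ih]
  obtain ⟨g, hg, hgb⟩ := exists_bound (h := fun u i => dgl (nb ((nxt nb)^[i] u)))
    (hd.comp hit)
  obtain ⟨K, hK⟩ := hS g hg
  -- stop vertices
  let stop : ℕ → Prop := fun v =>
    nxt nb v = v ∨ (K < dgl (nb v) ∧ dgl (nb (nxt nb v)) ≤ g (dgl (nb v)))
  have hstop : ComputablePred stop := by
    have h1 : Computable (fun v => decide (nxt nb v = v)) :=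
      (Primrec.eq (α := ℕ)).decide.to_comp.comp hnx Computable.id
    have h2 : Computable (fun v => decide (K < dgl (nb v))) :=
      Primrec.nat_lt.decide.to_comp.comp (Computable.const K) hd
    have h3 : Computable (fun v => decide (dgl (nb (nxt nb v)) ≤ g (dgl (nb v)))) :=
      Primrec.nat_le.decide.to_comp.comp (hd.comp hnx) (hg.comp hd)
    refine ⟨inferInstance, ?_⟩
    refine (Primrec.or.to_comp.comp h1 (Primrec.and.to_comp.comp h2 h3)).of_eq ?_
    intro v
    simp [stop]
  have hex : ∀ u, ∃ i, stop ((nxt nb)^[i] u) := by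
    intro u
    by_contra hcon
    push Not at hcon
    have hlt : ∀ i, dgl (nb ((nxt nb)^[i] u)) < dgl (nb ((nxt nb)^[i+1] u)) := by
      intro i
      rcases nxt_cases nb ((nxt nb)^[i] u) with h | h
      · exact absurd (Or.inl h) (hcon i)
      · rwa [Function.iterate_succ_apply']
    have hge : ∀ i, i ≤ dgl (nb ((nxt nb)^[i] u)) := by
      intro i
      induction i with
      | zero => exact Nat.zero_le _
      | succ i ih => exact Nat.lt_of_le_of_lt ih (hlt i)
    have hm := hge (max u K + 1)
    apply hcon (max u K + 1)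
    right
    refine ⟨by omega, ?_⟩
    have h2 := hgb (dgl (nb ((nxt nb)^[max u K + 1] u))) u (max u K + 1 + 1) (by omega) (by omega)
    simp only [Function.iterate_succ_apply' (nxt nb) (max u K + 1) u] at h2
    exact h2
  have hP : ComputablePred (fun p : ℕ × ℕ => stop ((nxt nb)^[p.2] p.1)) := by
    obtain ⟨_, hs⟩ := hstop
    exact ⟨inferInstance, hs.comp hit⟩
  have hfind : Computable (fun u => Nat.find (hex u)) :=
    Computable.find (P := fun u i => stop ((nxt nb)^[i] u)) hP hex
  refine ⟨fun u => if (Nat.find (hex u)).bodd then 1 else 0, ?_, ?_⟩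
  · exact (Primrec.dom_bool (fun b : Bool => (if b then 1 else 0 : Fin 2))).to_comp.comp
      (Computable.nat_bodd.comp hfind)
  · intro v hv hnv hne
    have hns : ¬ stop v := by
      rintro (h | ⟨h1, h2⟩)
      · exact hne h
      · rcases nxt_cases nb v with h | h
        · exact hne h
        · have := hK _ hv _ hnv h1 h
          omega
    have hfs : Nat.find (hex v) = Nat.find (hex (nxt nb v)) + 1 := by
      have h0 : 0 < Nat.find (hex v) := by
        rw [Nat.find_pos]
        exact hns
      rw [Nat.find_eq_iff]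
      constructor
      · have := Nat.find_spec (hex (nxt nb v))
        rwa [← Function.iterate_succ_apply] at this
      · intro m hm hst
        rcases m with _ | m
        · exact hns hst
        · rw [Function.iterate_succ_apply] at hst
          exact Nat.find_min (hex (nxt nb v)) (by omega) hst
    simp only [hfs, Nat.bodd_succ]
    cases (Nat.find (hex (nxt nb v))).bodd <;> simp



/-- degree -/
noncomputable def dg {V : Type} (G : SimpleGraph V) (v : V) : ℕ := (G.neighborSet v).ncard

/-- The local constraint at a vertex. -/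
def Good {V : Type} (S : Set ℕ) (G : SimpleGraph V) (c : V → Fin 2) (v : V) : Prop :=
  ∀ w, G.Adj v w → dg G v ∈ S → dg G w ∈ S → dg G v < dg G w →
    (∀ w', G.Adj v w' → dg G v < dg G w' → w' = w) → c v ≠ c w

theorem dg_comap {V W : Type} (G : SimpleGraph V) (e : W → V) (he : Function.Injective e) (i : W)
    (h : ∀ w, G.Adj (e i) w → w ∈ Set.range e) : dg (SimpleGraph.comap e G) i = dg G (e i) := by
  unfold dg
  have : (SimpleGraph.comap e G).neighborSet i = e ⁻¹' (G.neighborSet (e i)) := by
    ext j
    simp [SimpleGraph.mem_neighborSet]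
  rw [this]
  exact Set.ncard_preimage_of_injective_subset_range he (fun w hw => h w hw)

theorem edist_le_two_of_adj {V : Type} {G : SimpleGraph V} {v w : V} (h : G.Adj v w) :
    G.edist v w ≤ 1 := by
  rw [SimpleGraph.edist_eq_one_iff_adj.2 h]

theorem good_iff {V W : Type} (S : Set ℕ) (G : SimpleGraph V) (c : V → Fin 2) (e : W → V)
    (he : Function.Injective e) (i : W) (hr : Set.range e = {w | G.edist (e i) w ≤ 2}) :
    Good S (SimpleGraph.comap e G) (c ∘ e) i ↔ Good S G c (e i) := by
  have hi : ∀ w, G.Adj (e i) w → w ∈ Set.range e := by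
    intro w hw
    rw [hr]
    exact (edist_le_two_of_adj hw).trans (by norm_num)
  have hj : ∀ w, G.Adj (e i) w → ∀ w', G.Adj w w' → w' ∈ Set.range e := by
    intro w hw w' hw'
    rw [hr]
    calc G.edist (e i) w' ≤ G.edist (e i) w + G.edist w w' := SimpleGraph.edist_triangle
      _ ≤ 1 + 1 := add_le_add (edist_le_two_of_adj hw) (edist_le_two_of_adj hw')
      _ = 2 := by norm_num
  have hdi : dg (SimpleGraph.comap e G) i = dg G (e i) := dg_comap G e he i hi
  have hdj : ∀ j, G.Adj (e i) (e j) → dg (SimpleGraph.comap e G) j = dg G (e j) := by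
    intro j hij
    exact dg_comap G e he j (hj _ hij)
  constructor
  · intro h w hw h1 h2 h3 h4
    obtain ⟨j, rfl⟩ := hi w hw
    have := h j hw (by rwa [hdi]) (by rwa [hdj j hw]) (by rwa [hdi, hdj j hw]) ?_
    · exact this
    · intro j' hj' hlt
      apply he
      apply h4 _ hj'
      rw [hdi, hdj j' hj'] at hlt
      exact hlt
  · intro h j hij h1 h2 h3 h4
    have hij' : G.Adj (e i) (e j) := hij
    rw [hdi] at h1
    rw [hdj j hij'] at h2
    rw [hdi, hdj j hij'] at h3
    refine h (e j) hij h1 h2 h3 ?_
    intro w' hw' hlt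
    obtain ⟨j', rfl⟩ := hi w' hw'
    congr 1
    apply h4 j' hw'
    rw [hdi, hdj j' hw']
    exact hlt

/-- Existence of an enumeration of the ball of radius two. -/
theorem exists_enum {V : Type} (G : SimpleGraph V) (hfin : ∀ v, (G.neighborSet v).Finite) (v : V) :
    ∃ n : ℕ, ∃ e : Fin (n + 1) → V, Function.Injective e ∧ e 0 = v ∧
      Set.range e = {w : V | G.edist v w ≤ 2} := by
  classical
  have hB : {w : V | G.edist v w ≤ 2}.Finite := by
    have hsub : {w : V | G.edist v w ≤ 2} ⊆
        {v} ∪ (G.neighborSet v ∪ ⋃ u ∈ G.neighborSet v, G.neighborSet u) := by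
      intro w hw
      have hw' : G.edist v w ≤ 2 := hw
      have hne : G.edist v w ≠ ⊤ := by
        intro h
        rw [h] at hw'
        exact absurd hw' (by simp)
      obtain ⟨p, hp⟩ := SimpleGraph.exists_walk_of_edist_ne_top hne
      rw [← hp] at hw'
      have hlen : p.length ≤ 2 := by exact_mod_cast hw'
      cases p with
      | nil => left; rfl
      | cons h q =>
        right
        cases q with
        | nil => left; exact h
        | cons h' q' =>
          right
          cases q' with
          | nil =>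
            simp only [Set.mem_iUnion]
            exact ⟨_, h, h'⟩
          | cons h'' q'' =>
            simp at hlen
    refine Set.Finite.subset ?_ hsub
    refine (Set.finite_singleton v).union ((hfin v).union ?_)
    exact (hfin v).biUnion (fun u _ => hfin u)
  have hv : v ∈ {w : V | G.edist v w ≤ 2} := by
    simp
  obtain ⟨n, hn⟩ : ∃ n, hB.toFinset.card = n + 1 := by
    refine Nat.exists_eq_succ_of_ne_zero ?_
    rw [Finset.card_ne_zero]
    exact ⟨v, hB.mem_toFinset.2 hv⟩
  let eq := (hB.toFinset.equivFinOfCardEq hn).symm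
  let i0 := eq.symm ⟨v, hB.mem_toFinset.2 hv⟩
  refine ⟨n, fun i => (eq (Equiv.swap 0 i0 i)).1, ?_, ?_, ?_⟩
  · intro i j hij
    have := eq.injective (Subtype.ext hij)
    exact (Equiv.swap 0 i0).injective this
  · simp [i0]
  · ext w
    constructor
    · rintro ⟨i, rfl⟩
      exact hB.mem_toFinset.1 (eq (Equiv.swap 0 i0 i)).2
    · intro hw
      refine ⟨(Equiv.swap 0 i0).symm (eq.symm ⟨w, hB.mem_toFinset.2 hw⟩), ?_⟩
      simp

/-! ### The Borel graph -/

abbrev Cantor := ℕ → Bool

def sh (a : Cantor) : Cantor := fun n => a (n + 1)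

def cons (b : Bool) (a : Cantor) : Cantor := fun n => Nat.casesOn n b a

@[simp] theorem sh_cons (b : Bool) (a : Cantor) : sh (cons b a) = a := rfl

@[simp] theorem cons_zero (b : Bool) (a : Cantor) : cons b a 0 = b := rfl

@[simp] theorem cons_succ (b : Bool) (a : Cantor) (n : ℕ) : cons b a (n+1) = a n := rfl

theorem cons_sh (a : Cantor) : cons (a 0) (sh a) = a := by
  funext n
  cases n <;> rfl

def inc (b : Bool) : ℕ := if b then 2 else 1

abbrev XX := ℕ × ℕ × Cantor

/-- forward edges -/
def RR (p : ℕ → ℕ) (x y : XX) : Prop :=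
  (x.2.1 = 0 ∧ y.2.1 = 0 ∧ y.1 = x.1 + inc (x.2.2 0) ∧ y.2.2 = sh x.2.2) ∨
  (x.2.1 = 0 ∧ 1 ≤ y.2.1 ∧ y.2.1 ≤ p x.1 ∧ y.1 = x.1 ∧ y.2.2 = x.2.2)

def GG (p : ℕ → ℕ) : SimpleGraph XX := SimpleGraph.fromRel (RR p)

theorem inc_pos (b : Bool) : 1 ≤ inc b := by cases b <;> simp [inc]
theorem inc_le (b : Bool) : inc b ≤ 2 := by cases b <;> simp [inc]

theorem RR_irrefl (p : ℕ → ℕ) (x : XX) : ¬ RR p x x := by
  rintro (⟨_, _, h, _⟩ | ⟨h0, h1, _⟩)
  · have := inc_pos (x.2.2 0)
    omega
  · omega

theorem GG_adj (p : ℕ → ℕ) (x y : XX) : (GG p).Adj x y ↔ RR p x y ∨ RR p y x := by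
  unfold GG
  rw [SimpleGraph.fromRel_adj]
  constructor
  · exact fun h => h.2
  · intro h
    refine ⟨?_, h⟩
    rintro rfl
    rcases h with h | h <;> exact RR_irrefl p x h

theorem measurable_sh : Measurable sh := by
  unfold sh
  exact measurable_pi_lambda _ (fun n => measurable_pi_apply _)

theorem measurableSet_RR (p : ℕ → ℕ) : MeasurableSet {q : XX × XX | RR p q.1 q.2} := by
  have h1 : Measurable (fun q : XX × XX => q.1.2.1) := measurable_fst.comp (measurable_snd.comp measurable_fst)
  have h2 : Measurable (fun q : XX × XX => q.2.2.1) := measurable_fst.comp (measurable_snd.comp measurable_snd)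
  have h3 : Measurable (fun q : XX × XX => q.2.1) := measurable_fst.comp measurable_snd
  have h4 : Measurable (fun q : XX × XX => q.1.1) := measurable_fst.comp measurable_fst
  have h5 : Measurable (fun q : XX × XX => q.1.2.2) := measurable_snd.comp (measurable_snd.comp measurable_fst)
  have h6 : Measurable (fun q : XX × XX => q.2.2.2) := measurable_snd.comp (measurable_snd.comp measurable_snd)
  have h7 : Measurable (fun q : XX × XX => inc (q.1.2.2 0)) :=
    (measurable_from_top (f := inc)).comp ((measurable_pi_apply 0).comp h5)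
  have h8 : Measurable (fun q : XX × XX => p q.1.1) := (measurable_from_top (f := p)).comp h4
  have e1 : MeasurableSet {q : XX × XX | q.1.2.1 = 0} := measurableSet_eq_fun h1 measurable_const
  have e2 : MeasurableSet {q : XX × XX | q.2.2.1 = 0} := measurableSet_eq_fun h2 measurable_const
  have e3 : MeasurableSet {q : XX × XX | q.2.1 = q.1.1 + inc (q.1.2.2 0)} :=
    measurableSet_eq_fun h3 (h4.add h7)
  have e4 : MeasurableSet {q : XX × XX | q.2.2.2 = sh q.1.2.2} :=
    measurableSet_eq_fun h6 (measurable_sh.comp h5)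
  have e5 : MeasurableSet {q : XX × XX | 1 ≤ q.2.2.1} := measurableSet_le measurable_const h2
  have e6 : MeasurableSet {q : XX × XX | q.2.2.1 ≤ p q.1.1} := measurableSet_le h2 h8
  have e7 : MeasurableSet {q : XX × XX | q.2.1 = q.1.1} := measurableSet_eq_fun h3 h4
  have e8 : MeasurableSet {q : XX × XX | q.2.2.2 = q.1.2.2} := measurableSet_eq_fun h6 h5
  exact (e1.inter (e2.inter (e3.inter e4))).union
    (e1.inter (e5.inter (e6.inter (e7.inter e8))))

theorem measurableSet_GG (p : ℕ → ℕ) : MeasurableSet {q : XX × XX | (GG p).Adj q.1 q.2} := by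
  have h := measurableSet_RR p
  have h' : MeasurableSet {q : XX × XX | RR p q.2 q.1} := measurable_swap h
  have : {q : XX × XX | (GG p).Adj q.1 q.2} = {q : XX × XX | RR p q.1 q.2} ∪ {q : XX × XX | RR p q.2 q.1} := by
    ext q
    simp only [Set.mem_ofPred_eq, GG_adj, Set.mem_union]
  rw [this]
  exact h.union h'

theorem finite_GG (p : ℕ → ℕ) (x : XX) : ((GG p).neighborSet x).Finite := by
  have hsub : (GG p).neighborSet x ⊆ (Set.Iic (x.1 + 2)) ×ˢ ((Set.Iic (p x.1)) ×ˢ
      {sh x.2.2, x.2.2, cons false x.2.2, cons true x.2.2}) := by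
    intro y hy
    rw [SimpleGraph.mem_neighborSet, GG_adj] at hy
    rcases hy with (⟨h1, h2, h3, h4⟩ | ⟨h1, h2, h3, h4, h5⟩) | (⟨h1, h2, h3, h4⟩ | ⟨h1, h2, h3, h4, h5⟩)
    · refine ⟨?_, ?_, ?_⟩
      · have := inc_le (x.2.2 0)
        simp only [Set.mem_Iic]; omega
      · simp only [Set.mem_Iic]; omega
      · left; exact h4
    · refine ⟨?_, ?_, ?_⟩
      · simp only [Set.mem_Iic]; omega
      · simp only [Set.mem_Iic]; omega
      · right; left; exact h5
    · refine ⟨?_, ?_, ?_⟩
      · simp only [Set.mem_Iic]; omega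
      · simp only [Set.mem_Iic]; omega
      · right; right
        have := cons_sh y.2.2
        rw [← h4] at this
        cases hb : y.2.2 0
        · left; rw [hb] at this; exact this.symm
        · right; rw [hb] at this; exact this.symm
    · refine ⟨?_, ?_, ?_⟩
      · simp only [Set.mem_Iic]; omega
      · simp only [Set.mem_Iic]; omega
      · right; left; exact h5.symm
  refine Set.Finite.subset ?_ hsub
  exact (Set.finite_Iic _).prod ((Set.finite_Iic _).prod (Set.toFinite _))

open Classical in
/-- neighbours of a main vertex -/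
theorem neighborSet_main (p : ℕ → ℕ) (n : ℕ) (a : Cantor) :
    (GG p).neighborSet (n, 0, a) =
      ((({(n + inc (a 0), 0, sh a)} : Finset XX) ∪
        (Finset.Icc 1 (p n)).map ⟨fun j => (n, j, a), fun i j h => by simpa using h⟩) ∪
        ((if 1 ≤ n then {(n - 1, 0, cons false a)} else ∅) ∪
          (if 2 ≤ n then {(n - 2, 0, cons true a)} else ∅)) : Finset XX) := by
  ext ⟨m, j, b⟩
  rw [SimpleGraph.mem_neighborSet, GG_adj]
  simp only [RR, Finset.coe_union, Set.mem_union, Finset.coe_singleton, Set.mem_singleton_iff,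
    Finset.coe_map, Set.mem_image, Finset.mem_coe, Finset.mem_Icc, Function.Embedding.coeFn_mk,
    Prod.mk.injEq]
  constructor
  · rintro ((⟨_, rfl, rfl, rfl⟩ | ⟨_, h2, h3, rfl, rfl⟩) | (⟨rfl, _, h3, rfl⟩ | ⟨_, h2, _⟩))
    · left; left; exact ⟨rfl, rfl, rfl⟩
    · left; right; exact ⟨j, ⟨h2, h3⟩, rfl, rfl, rfl⟩
    · right
      cases hb : b 0
      · left
        have h4 : n = m + 1 := by rw [hb] at h3; exact h3
        have h5 := cons_sh b
        rw [hb] at h5
        rw [if_pos (by omega)]
        simp [h5, h4]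
      · right
        have h4 : n = m + 2 := by rw [hb] at h3; exact h3
        have h5 := cons_sh b
        rw [hb] at h5
        rw [if_pos (by omega)]
        simp [h5, h4]
    · omega
  · rintro ((⟨rfl, rfl, rfl⟩ | ⟨i, ⟨h1, h2⟩, rfl, rfl, rfl⟩) | (h | h))
    · left; left; exact ⟨trivial, rfl, rfl, rfl⟩
    · left; right; exact ⟨trivial, h1, h2, rfl, rfl⟩
    · right; left
      split_ifs at h with hn
      · simp only [Finset.mem_singleton, Prod.mk.injEq] at h
        obtain ⟨rfl, rfl, rfl⟩ := h
        refine ⟨rfl, trivial, ?_, rfl⟩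
        simp only [cons_zero, inc]
        simp; omega
      · simp at h
    · right; left
      split_ifs at h with hn
      · simp only [Finset.mem_singleton, Prod.mk.injEq] at h
        obtain ⟨rfl, rfl, rfl⟩ := h
        refine ⟨rfl, trivial, ?_, rfl⟩
        simp only [cons_zero, inc]
        simp; omega
      · simp at h

open Classical in
theorem dg_main (p : ℕ → ℕ) (n : ℕ) (a : Cantor) :
    dg (GG p) (n, 0, a) = 1 + p n + min n 2 := by
  unfold dg
  rw [neighborSet_main, Set.ncard_coe_finset, Finset.card_union_of_disjoint,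
    Finset.card_union_of_disjoint, Finset.card_union_of_disjoint, Finset.card_map,
    Finset.card_singleton, Nat.card_Icc]
  · rcases n with _ | _ | n
    · simp
    · simp
    · simp
  · rw [Finset.disjoint_left]
    intro y hy hy'
    split_ifs at hy hy'
    · simp only [Finset.mem_singleton] at hy hy'
      rw [hy] at hy'
      simp at hy'
      omega
    all_goals simp_all
  · rw [Finset.disjoint_left]
    intro y hy hy'
    simp only [Finset.mem_singleton, Finset.mem_map, Finset.mem_Icc,
      Function.Embedding.coeFn_mk] at hy hy'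
    obtain ⟨i, ⟨h1, h2⟩, rfl⟩ := hy'
    simp at hy
    omega
  · rw [Finset.disjoint_left]
    intro y hy hy'
    have hy1 : y.1 < n := by
      rw [Finset.mem_union] at hy'
      rcases hy' with h | h
      · split_ifs at h
        · simp only [Finset.mem_singleton] at h
          rw [h]; simp; omega
        · simp at h
      · split_ifs at h
        · simp only [Finset.mem_singleton] at h
          rw [h]; simp; omega
        · simp at h
    rw [Finset.mem_union] at hy
    rcases hy with h | h
    · simp only [Finset.mem_singleton] at h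
      rw [h] at hy1
      simp at hy1
    · simp only [Finset.mem_map, Finset.mem_Icc, Function.Embedding.coeFn_mk] at h
      obtain ⟨i, _, rfl⟩ := h
      simp at hy1

theorem dg_pendant (p : ℕ → ℕ) (n j : ℕ) (hj : 1 ≤ j) (a : Cantor) :
    dg (GG p) (n, j, a) ≤ 1 := by
  unfold dg
  have hsub : (GG p).neighborSet (n, j, a) ⊆ {(n, 0, a)} := by
    rintro ⟨m, i, b⟩ hy
    rw [SimpleGraph.mem_neighborSet, GG_adj] at hy
    simp only [RR] at hy
    rcases hy with (⟨h1, _⟩ | ⟨h1, _⟩) | (⟨_, h1, _⟩ | ⟨h1, h2, h3, h4, h5⟩)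
    · omega
    · omega
    · omega
    · simp [h1, h4, h5]
  calc ((GG p).neighborSet (n, j, a)).ncard ≤ ({(n, 0, a)} : Set XX).ncard :=
        Set.ncard_le_ncard hsub (Set.finite_singleton _)
    _ = 1 := Set.ncard_singleton _

/-! ### Baire category -/

open Filter Topology

theorem continuous_sh : Continuous sh := continuous_pi (fun n => continuous_apply (n+1))

theorem continuous_cons (b : Bool) : Continuous (cons b) := by
  refine continuous_pi ?_
  intro n
  cases n with
  | zero => exact continuous_const
  | succ n => exact continuous_apply n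

theorem isOpenMap_cons (b : Bool) : IsOpenMap (cons b) := by
  intro U hU
  have : cons b '' U = (fun a : Cantor => a 0) ⁻¹' {b} ∩ sh ⁻¹' U := by
    ext a
    constructor
    · rintro ⟨x, hx, rfl⟩
      exact ⟨rfl, hx⟩
    · rintro ⟨h0, h1⟩
      refine ⟨sh a, h1, ?_⟩
      have h0' : a 0 = b := h0
      rw [← h0', cons_sh]
  rw [this]
  exact ((isOpen_discrete _).preimage (continuous_apply 0)).inter (hU.preimage continuous_sh)

theorem isOpenMap_emb (n : ℕ) : IsOpenMap (fun a : Cantor => ((n, 0, a) : XX)) := by
  intro U hU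
  have : (fun a : Cantor => ((n, 0, a) : XX)) '' U = {n} ×ˢ (({0} : Set ℕ) ×ˢ U) := by
    ext ⟨m, j, a⟩
    simp only [Set.mem_image, Prod.mk.injEq, Set.mem_prod, Set.mem_singleton_iff]
    constructor
    · rintro ⟨x, hx, rfl, rfl, rfl⟩
      exact ⟨rfl, rfl, hx⟩
    · rintro ⟨rfl, rfl, h⟩
      exact ⟨a, h, rfl, rfl, rfl⟩
  rw [this]
  exact (isOpen_discrete _).prod ((isOpen_discrete _).prod hU)

theorem continuous_emb (n : ℕ) : Continuous (fun a : Cantor => ((n, 0, a) : XX)) := by
  fun_prop

theorem fin2_ne {x i : Fin 2} (h : i ≠ x) : x = i + 1 := by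
  revert x i
  decide

theorem no_baire (c : XX → Fin 2) (hc : ∀ i, BaireMeasurableSet (c ⁻¹' {i}))
    (hne : ∀ n a, c (n, 0, a) ≠ c (n + inc (a 0), 0, sh a)) : False := by
  -- pulling back along `cons`
  have pull : ∀ (b : Bool) (P : Cantor → Prop), (∀ᵇ a, P a) → ∀ᵇ a, P (cons b a) := by
    intro b P hP
    exact tendsto_residual_of_isOpenMap (continuous_cons b) (isOpenMap_cons b) hP
  -- there is a cylinder on which the colour is generically constant
  have h1 : ∃ k n : ℕ, ∃ σ : Cantor, ∃ i : Fin 2,
      ∀ᵇ a : Cantor, (∀ m < k, a m = σ m) → c (n, 0, a) = i := by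
    have hB : BaireMeasurableSet ((fun a : Cantor => ((0, 0, a) : XX)) ⁻¹' (c ⁻¹' {0})) :=
      (hc 0).preimage (continuous_emb 0) (isOpenMap_emb 0)
    obtain ⟨U, hU, hBU⟩ := hB.residualEq_isOpen
    rcases U.eq_empty_or_nonempty with rfl | ⟨a0, ha0⟩
    · refine ⟨0, 0, fun _ => false, 1, ?_⟩
      filter_upwards [hBU] with a ha _
      have ha' : ¬ (c (0, 0, a) = 0) := by
        intro h
        have : ((fun a : Cantor => ((0, 0, a) : XX)) ⁻¹' (c ⁻¹' {0})) a := h
        rw [ha] at this
        exact this
      have := fin2_ne (i := 0) (x := c (0, 0, a)) (fun h => ha' h.symm)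
      simpa using this
    · obtain ⟨V, ⟨x, k, rfl⟩, hxV, hVU⟩ :=
        (PiNat.isTopologicalBasis_cylinders (fun _ : ℕ => Bool)).exists_subset_of_mem_open ha0 hU
      refine ⟨k, 0, x, 0, ?_⟩
      filter_upwards [hBU] with a ha hax
      have : U a := hVU hax
      rw [← ha] at this
      exact this
  obtain ⟨k, h1⟩ := h1
  have h2 : ∃ n : ℕ, ∃ i : Fin 2, ∀ᵇ a : Cantor, c (n, 0, a) = i := by
    induction k with
    | zero =>
      obtain ⟨n, σ, i, h⟩ := h1
      refine ⟨n, i, ?_⟩
      filter_upwards [h] with a ha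
      exact ha (fun m hm => absurd hm (Nat.not_lt_zero m))
    | succ k ih =>
      apply ih
      obtain ⟨n, σ, i, h⟩ := h1
      refine ⟨n + inc (σ 0), sh σ, i + 1, ?_⟩
      filter_upwards [pull (σ 0) _ h] with a ha hσ
      have h3 : c (n, 0, cons (σ 0) a) = i := by
        apply ha
        intro m hm
        cases m with
        | zero => rfl
        | succ m => exact hσ m (by omega)
      have h4 := hne n (cons (σ 0) a)
      rw [h3, cons_zero, sh_cons] at h4
      exact fin2_ne h4
  obtain ⟨n, i, h⟩ := h2
  have step : ∀ (n : ℕ) (i : Fin 2) (b : Bool), (∀ᵇ a : Cantor, c (n, 0, a) = i) →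
      ∀ᵇ a : Cantor, c (n + inc b, 0, a) = i + 1 := by
    intro n i b h
    filter_upwards [pull b _ h] with a ha
    have h4 := hne n (cons b a)
    rw [ha, cons_zero, sh_cons] at h4
    exact fin2_ne h4
  have e1 : ∀ᵇ a : Cantor, c (n + 2, 0, a) = i + 1 := step n i true h
  have e2 : ∀ᵇ a : Cantor, c (n + 1 + 1, 0, a) = i + 1 + 1 := step _ _ false (step n i false h)
  have e3 : ∀ᵇ a : Cantor, False := by
    filter_upwards [e1, e2] with a h1 h2
    rw [show n + 1 + 1 = n + 2 from rfl, h1] at h2
    revert h2
    generalize i = j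
    revert j
    decide
  obtain ⟨a, ha⟩ := (dense_of_mem_residual e3).nonempty
  exact ha


/-- The negation of the preceding statement: For every local labeling problem (finite labels, radius r, allowed labeled balls P), if every highly computable graph on ℕ has a computable solution, then every locally finite Borel graph on a Polish space has a Baire measurable solution. -/
theorem result :
    ¬ (∀ (k r : ℕ) (P : (n : ℕ) → SimpleGraph (Fin (n + 1)) → (Fin (n + 1) → Fin k) → Prop),
      (∀ (H : SimpleGraph ℕ),
          (∃ f : ℕ → List ℕ, Computable f ∧ ∀ a b : ℕ, H.Adj a b ↔ b ∈ f a) →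
          ∃ c : ℕ → Fin k, Computable c ∧
            ∀ v : ℕ, ∃ n : ℕ, ∃ e : Fin (n + 1) → ℕ,
              Function.Injective e ∧ e 0 = v ∧
              Set.range e = {w : ℕ | H.edist v w ≤ (r : ℕ∞)} ∧
              P n (SimpleGraph.comap e H) (c ∘ e)) →
      ∀ (X : Type) [TopologicalSpace X] [PolishSpace X] [MeasurableSpace X] [BorelSpace X]
        (G : SimpleGraph X),
        MeasurableSet {p : X × X | G.Adj p.1 p.2} →
        (∀ x : X, (G.neighborSet x).Finite) →
        ∃ c : X → Fin k, (∀ i : Fin k, BaireMeasurableSet (c ⁻¹' {i})) ∧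
          ∀ v : X, ∃ n : ℕ, ∃ e : Fin (n + 1) → X,
            Function.Injective e ∧ e 0 = v ∧
            Set.range e = {w : X | G.edist v w ≤ (r : ℕ∞)} ∧
            P n (SimpleGraph.comap e G) (c ∘ e)) := by
  intro hmain
  obtain ⟨s, hmono, h4, hfast⟩ := exists_fast
  -- the set of degrees under consideration
  let S : Set ℕ := Set.range s
  have hS : ∀ g : ℕ → ℕ, Computable g → ∃ K, ∀ x ∈ S, ∀ t ∈ S, K < x → x < t → g x < t := by
    intro g hg
    obtain ⟨K, hK⟩ := hfast g hg
    refine ⟨K, ?_⟩
    rintro _ ⟨i, rfl⟩ _ ⟨j, rfl⟩ h1 h2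
    exact hK i j h1 (hmono.lt_iff_lt.1 h2)
  -- the labelling problem, and the Borel graph
  have key := hmain 2 2 (fun n Γ ℓ => Good S Γ ℓ 0) ?_ XX (GG (fun n => s n - 1 - min n 2))
    (measurableSet_GG _) (finite_GG _)
  · obtain ⟨c, hc, hv⟩ := key
    refine no_baire c hc ?_
    intro n a
    obtain ⟨m, e, he, he0, hr, hP⟩ := hv (n, 0, a)
    have hgood : Good S (GG (fun n => s n - 1 - min n 2)) c (n, 0, a) := by
      rw [← he0]
      refine (good_iff S _ c e he 0 ?_).1 hP
      rw [hr, he0]
      rfl
    have hdeg : ∀ n a, dg (GG (fun n => s n - 1 - min n 2)) (n, 0, a) = s n := by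
      intro n a
      rw [dg_main]
      have := h4 n
      omega
    refine hgood (n + inc (a 0), 0, sh a) ?_ ?_ ?_ ?_ ?_
    · rw [GG_adj]
      left; left
      exact ⟨rfl, rfl, rfl, rfl⟩
    · rw [hdeg]; exact ⟨_, rfl⟩
    · rw [hdeg]; exact ⟨_, rfl⟩
    · rw [hdeg, hdeg]
      apply hmono
      have := inc_pos (a 0)
      omega
    · rintro ⟨m', j, b⟩ hadj hlt
      rw [GG_adj] at hadj
      rw [hdeg] at hlt
      simp only [RR] at hadj
      rcases hadj with (⟨_, rfl, rfl, rfl⟩ | ⟨_, h2, h3, rfl, rfl⟩) | (⟨rfl, _, h3, rfl⟩ | ⟨_, h2, _⟩)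
      · rfl
      · exfalso
        have := dg_pendant (fun n => s n - 1 - min n 2) m' j h2 b
        have := h4 m'
        omega
      · exfalso
        rw [hdeg] at hlt
        have := hmono.lt_iff_lt.1 hlt
        omega
      · omega
  · -- computable colourings of highly computable graphs
    rintro H ⟨nb, hnb, hadj⟩
    obtain ⟨c, hc, hcol⟩ := exists_coloring hS hnb
    have hfin : ∀ v, (H.neighborSet v).Finite := by
      intro v
      refine Set.Finite.subset (nb v).toFinset.finite_toSet ?_
      intro w hw
      rw [SimpleGraph.mem_neighborSet, hadj] at hw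
      simpa using hw
    have hdg : ∀ v, dg H v = dgl (nb v) := by
      intro v
      unfold dg dgl
      have : H.neighborSet v = ((nb v).toFinset : Set ℕ) := by
        ext w
        rw [SimpleGraph.mem_neighborSet, hadj]
        simp
      rw [this, Set.ncard_coe_finset, List.card_toFinset]
    refine ⟨c, hc, ?_⟩
    intro v
    obtain ⟨n, e, he, he0, hr⟩ := exists_enum H hfin v
    refine ⟨n, e, he, he0, ?_, ?_⟩
    · rw [hr]; rfl
    · refine (good_iff S H c e he 0 ?_).2 ?_
      · rw [hr, he0]
      · rw [he0]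
        intro w hw h1 h2 h3 h5
        rw [hdg] at h1 h2 h3
        rw [hdg] at h3
        have hn : nxt nb v = w := by
          refine nxt_of_unique ((hadj v w).1 hw) h3 ?_
          intro w' hw' hlt
          refine h5 w' ((hadj v w').2 hw') ?_
          rw [hdg, hdg]
          exact hlt
        have := hcol v h1 (by rw [hn]; exact h2) (by rw [hn]; exact hw.ne')
        rwa [hn] at this

end Pool.Agent.S15036
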