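import Pool.Statements.S15133
import Pool.Agent.Hhelper70.Closed

set_option autoImplicit false
open Pool Pool.MP_a224d9_lc

namespace Pool.Agent.S15133

/-- For every proper Borel ideal on ℕ containing all finite sets, some closed set of functions ℕ→ℕ has pairwise agreement sets in the ideal, and every function agrees with some member on a set outside the ideal. -/
theorem result :
    ∀ I : Set (Set ℕ),
      (∀ A ∈ I, ∀ B : Set ℕ, B ⊆ A → B ∈ I) →
      (∀ A ∈ I, ∀ B ∈ I, A ∪ B ∈ I) →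
      (∀ A : Set ℕ, A.Finite → A ∈ I) →
      (Set.univ : Set ℕ) ∉ I →
      @MeasurableSet (ℕ → Bool) (borel (ℕ → Bool)) {x : ℕ → Bool | {n : ℕ | x n = true} ∈ I} →
      ∃ ε : Set (ℕ → ℕ), IsClosed ε ∧
        (∀ f ∈ ε, ∀ g ∈ ε, f ≠ g → {n : ℕ | f n = g n} ∈ I) ∧
        (∀ h : ℕ → ℕ, ∃ f ∈ ε, {n : ℕ | f n = h n} ∉ I) := by
  intro I h1 h2 h3 h4 h5
  have hI : Pool.Agent.Hhelper70.IsIdeal I := ⟨h1, h2, h3, h4⟩
  have hm : MeasurableSet {x : ℕ → Bool | Pool.Agent.Hhelper70.toS x ∈ I} := by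
    have hb : (MeasurableSpace.pi : MeasurableSpace (ℕ → Bool)) = borel (ℕ → Bool) :=
      BorelSpace.measurable_eq
    rw [← hb] at h5
    exact h5
  exact Pool.Agent.Hhelper70.closed_family hI hm

end Pool.Agent.S15133
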