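import Pool.Statements.S15758
import Pool.Agent.Hhelper97.Sturm.Final
-- import your own Pool.Agent.* helpers here

set_option autoImplicit false
open Pool Pool.MP_8e2a40_mp

namespace Pool.Agent.S15758

/-- The negation of the preceding statement: For coupling λ>0 and irrational α, β in (0,1) whose continued fraction digits agree after shifting, the Sturmian spectra are mapped onto each other by a C^1 diffeomorphism between open neighborhoods of them. -/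
theorem result :
    ¬ (∀ (lam : ℝ), 0 < lam →
    ∀ (Sig : ℝ → Set ℝ),
      (∀ (γ E : ℝ), E ∈ Sig γ ↔
        ¬ (∀ u : ℤ → ℂ, Memℓp u 2 →
            ∃! v : ℤ → ℂ, Memℓp v 2 ∧
              ∀ n : ℤ, v (n + 1) + v (n - 1)
                + (((lam * (if 1 - γ ≤ Int.fract ((n : ℝ) * γ) then (1 : ℝ) else 0) - E : ℝ)) : ℂ) * v n
                = u n)) →
    ∀ (α β : ℝ), Irrational α → Irrational β → α ∈ Set.Ioo (0 : ℝ) 1 → β ∈ Set.Ioo (0 : ℝ) 1 →
      (∃ m n : ℕ, ∀ i : ℕ,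
        Stream'.Seq.get? (GenContFract.of β).partDens (i + m)
          = Stream'.Seq.get? (GenContFract.of α).partDens (i + n)) →
      ∃ U₁ U₂ : Set ℝ, IsOpen U₁ ∧ IsOpen U₂ ∧ Sig α ⊆ U₁ ∧ Sig β ⊆ U₂ ∧
        ∃ f g : ℝ → ℝ, ContDiffOn ℝ 1 f U₁ ∧ ContDiffOn ℝ 1 g U₂ ∧
          Set.MapsTo f U₁ U₂ ∧ Set.MapsTo g U₂ U₁ ∧
          (∀ x ∈ U₁, g (f x) = x) ∧ (∀ y ∈ U₂, f (g y) = y) ∧
          f '' Sig α = Sig β) := by
  intro h
  classical
  obtain ⟨c, hc, hmain⟩ := Pool.Agent.Hhelper97.Sturm.exists_tail (lam := 5) (by norm_num)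
  have hrep : ∀ (a : ℕ), 1 ≤ a → ∀ i, 1 ≤ Pool.Agent.Hhelper97.Sturm.rep a c i := by
    intro a ha i
    unfold Pool.Agent.Hhelper97.Sturm.rep
    split_ifs
    · exact ha
    · exact hc i
  have ha := hrep 6 (by norm_num)
  have hb := hrep 1 (by norm_num)
  set α : ℝ := Pool.Agent.Hhelper97.Sturm.cfv (Pool.Agent.Hhelper97.Sturm.rep 6 c) with hα
  set β : ℝ := Pool.Agent.Hhelper97.Sturm.cfv (Pool.Agent.Hhelper97.Sturm.rep 1 c) with hβ
  set ξ : ℝ := Pool.Agent.Hhelper97.Sturm.cfv (fun i => c (i + 1)) with hξ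
  have hξmem := Pool.Agent.Hhelper97.Sturm.cfv_mem (fun i => c (i + 1)) (fun i => hc _)
  have hα1 : α = 1 / (((6 : ℕ) : ℝ) + ξ) := by
    rw [hα, Pool.Agent.Hhelper97.Sturm.cfv_shift _ ha]
    rfl
  have hβ1 : β = 1 / (((1 : ℕ) : ℝ) + ξ) := by
    rw [hβ, Pool.Agent.Hhelper97.Sturm.cfv_shift _ hb]
    rfl
  obtain ⟨U₁, U₂, hU₁, hU₂, hs1, hs2, f, g, hf, hg, hfm, hgm, hgf, hfg, himg⟩ :=
    h 5 (by norm_num) (fun γ => Pool.Agent.Hhelper97.Sturm.specSet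
      (Pool.Agent.Hhelper97.Sturm.Va 5 γ)) (fun γ E => Iff.rfl) α β
      (Pool.Agent.Hhelper97.Sturm.irrational_cfv _ ha)
      (Pool.Agent.Hhelper97.Sturm.irrational_cfv _ hb)
      (Pool.Agent.Hhelper97.Sturm.cfv_mem _ ha) (Pool.Agent.Hhelper97.Sturm.cfv_mem _ hb)
      ⟨2, 2, fun i => by
        rw [hα1, hβ1]
        exact Pool.Agent.Hhelper97.Sturm.tail_eq (by norm_num) (by norm_num) hξmem.1 hξmem.2 i⟩
  -- g is Lipschitz on the spectrum of β
  have hcomp := Pool.Agent.Hhelper97.Sturm.isCompact_Sp (lam := 5) (by norm_num) hb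
  have hloc : LocallyLipschitzOn (Pool.Agent.Hhelper97.Sturm.Sp 5
      (Pool.Agent.Hhelper97.Sturm.rep 1 c)) g := by
    intro x hx
    have hxU : x ∈ U₂ := hs2 hx
    have hgx : ContDiffAt ℝ 1 g x := hg.contDiffAt (hU₂.mem_nhds hxU)
    obtain ⟨K, t, ht, hK⟩ := hgx.exists_lipschitzOnWith
    exact ⟨K, t, mem_nhdsWithin_of_mem_nhds ht, hK⟩
  obtain ⟨K, hK⟩ := hloc.exists_lipschitzOnWith_of_compact hcomp
  refine hmain g K K.2 ?_ ?_
  · intro y hy y' hy'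
    have := hK.dist_le_mul y hy y' hy'
    rwa [Real.dist_eq, Real.dist_eq] at this
  · rw [show Pool.Agent.Hhelper97.Sturm.Sp 5 (Pool.Agent.Hhelper97.Sturm.rep 1 c)
        = f '' (Pool.Agent.Hhelper97.Sturm.Sp 5 (Pool.Agent.Hhelper97.Sturm.rep 6 c)) from
      himg.symm, Set.image_image]
    ext x
    constructor
    · rintro ⟨z, hz, rfl⟩
      change g (f z) ∈ _
      rw [hgf z (hs1 hz)]
      exact hz
    · intro hx
      exact ⟨x, hx, hgf x (hs1 hx)⟩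

end Pool.Agent.S15758
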