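import Pool.Statements.S16547

set_option autoImplicit false
open Pool Pool.MP_3527b9_nt

namespace Pool.Agent.S16547

/-- If every prime factor of `d` is `1` modulo `M`, then so is `d`. -/
lemma modEq_one (M : ℕ) : ∀ d : ℕ, d ≠ 0 →
    (∀ p : ℕ, p.Prime → p ∣ d → p ≡ 1 [MOD M]) → d ≡ 1 [MOD M] := by
  intro d
  induction d using induction_on_primes with
  | zero => intro h; exact absurd rfl h
  | one => intro _ _; rfl
  | prime_mul p a hp ih =>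
    intro h0 h
    have ha0 : a ≠ 0 := by
      rintro rfl; simp at h0
    have h1 := ih ha0 (fun q hq hqa => h q hq (Dvd.dvd.mul_left hqa p))
    have h2 := h p hp (Dvd.intro a rfl)
    have := Nat.ModEq.mul h2 h1
    simpa using this

/-- The criterion used throughout. -/
lemma key (M n : ℕ) (hn : 1 < n) (hnp : ¬ n.Prime) (hdvd : n ∣ 2 ^ M - 1)
    (hp : ∀ p : ℕ, p.Prime → p ∣ n → M ∣ p - 1) :
    1 < n ∧ ¬ n.Prime ∧ ∀ d ∈ n.divisors, 1 < d → (d.Prime ∨ Nat.FermatPsp d 2) := by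
  refine ⟨hn, hnp, ?_⟩
  intro d hd hd1
  by_cases hdp : d.Prime
  · exact Or.inl hdp
  refine Or.inr ⟨?_, hdp, hd1⟩
  have hdn : d ∣ n := Nat.dvd_of_mem_divisors hd
  have hmod : d ≡ 1 [MOD M] := by
    apply modEq_one M d (by omega)
    intro p hpp hpd
    have h1 := hp p hpp (hpd.trans hdn)
    exact ((Nat.modEq_iff_dvd' hpp.one_lt.le).2 h1).symm
  have hM : M ∣ d - 1 := (Nat.modEq_iff_dvd' hd1.le).1 hmod.symm
  obtain ⟨c, hc⟩ := hM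
  show d ∣ 2 ^ (d - 1) - 1
  rw [hc, pow_mul]
  have h2 : 2 ^ M - 1 ∣ (2 ^ M) ^ c - 1 ^ c := Nat.sub_dvd_pow_sub_pow _ _ _
  rw [one_pow] at h2
  exact (hdn.trans hdvd).trans h2

/-- Exact prime power in a divisor. -/
lemma pow_dvd_of (r e m d : ℕ) (hr : r.Prime) (h1 : d ∣ r ^ (e + 1) * m) (hd0 : d ≠ 0)
    (h2 : ¬ d ∣ r ^ e * m) : r ^ (e + 1) ∣ d := by
  obtain ⟨f, d', hnd, hdd⟩ := Nat.exists_eq_pow_mul_and_not_dvd hd0 r hr.ne_one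
  by_contra hcon
  apply h2
  have hfe : f ≤ e := by
    by_contra hlt
    rw [not_le] at hlt
    apply hcon
    rw [hdd]
    exact Dvd.dvd.mul_right (pow_dvd_pow r hlt) d'
  have hcop : Nat.Coprime d' (r ^ (e + 1)) :=
    ((Nat.Prime.coprime_iff_not_dvd hr).2 hnd).symm.pow_right _
  have hd'm : d' ∣ m := by
    apply hcop.dvd_of_dvd_mul_left
    exact (Dvd.intro_left (r ^ f) hdd.symm).trans h1
  rw [hdd]
  exact mul_dvd_mul (pow_dvd_pow r hfe) hd'm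

/-- `x(Z) = Φ₁₅(Z)` -/
def fx (Z : ℕ) : ℕ := Z ^ 7 * (Z - 1) + Z ^ 4 * (Z - 1) + Z * (Z ^ 2 - 1) + 1
/-- `y(Z) = Φ₂₄(Z)` -/
def fy (Z : ℕ) : ℕ := Z ^ 4 * (Z ^ 4 - 1) + 1
/-- `z(Z) = Φ₃₀(Z)` -/
def fz (Z : ℕ) : ℕ := Z ^ 4 * (Z ^ 4 - 1) + Z * (Z ^ 2 - 1) * (Z ^ 4 - 1) + 1

lemma cast_fx (R : Type*) [CommRing R] (Z : ℕ) (hZ : 1 ≤ Z) :
    ((fx Z : ℕ) : R) = (Z : R) ^ 8 - Z ^ 7 + Z ^ 5 - Z ^ 4 + Z ^ 3 - Z + 1 := by
  have h2 : 1 ≤ Z ^ 2 := Nat.one_le_pow _ _ hZ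
  unfold fx
  push_cast [Nat.cast_sub hZ, Nat.cast_sub h2]
  ring

lemma cast_fy (R : Type*) [CommRing R] (Z : ℕ) (hZ : 1 ≤ Z) :
    ((fy Z : ℕ) : R) = (Z : R) ^ 8 - Z ^ 4 + 1 := by
  have h4 : 1 ≤ Z ^ 4 := Nat.one_le_pow _ _ hZ
  unfold fy
  push_cast [Nat.cast_sub h4]
  ring

lemma cast_fz (R : Type*) [CommRing R] (Z : ℕ) (hZ : 1 ≤ Z) :
    ((fz Z : ℕ) : R) = (Z : R) ^ 8 + Z ^ 7 - Z ^ 5 - Z ^ 4 - Z ^ 3 + Z + 1 := by
  have h4 : 1 ≤ Z ^ 4 := Nat.one_le_pow _ _ hZ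
  have h2 : 1 ≤ Z ^ 2 := Nat.one_le_pow _ _ hZ
  unfold fz
  push_cast [Nat.cast_sub h4, Nat.cast_sub h2]
  ring

lemma ap (Z : ℕ) (hZ : 2 ≤ Z) : fx Z < fy Z ∧ fy Z < fz Z ∧ fx Z + fz Z = 2 * fy Z := by
  have hsum : fx Z + fz Z = 2 * fy Z := by
    have : ((fx Z + fz Z : ℕ) : ℤ) = ((2 * fy Z : ℕ) : ℤ) := by
      push_cast
      rw [cast_fx ℤ Z (by omega), cast_fy ℤ Z (by omega), cast_fz ℤ Z (by omega)]
      ring
    exact_mod_cast this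
  have hlt : fy Z < fz Z := by
    unfold fy fz
    have h2 : 1 < Z ^ 2 := Nat.one_lt_pow (by norm_num) (by omega)
    have h4 : 1 < Z ^ 4 := Nat.one_lt_pow (by norm_num) (by omega)
    have : 0 < Z * (Z ^ 2 - 1) * (Z ^ 4 - 1) := by
      apply Nat.mul_pos (Nat.mul_pos _ _) _ <;> omega
    omega
  exact ⟨by omega, hlt, hsum⟩


lemma fx_gt (Z : ℕ) (hZ : 2 ≤ Z) : 1 < fx Z := by
  unfold fx
  have : 0 < Z ^ 7 * (Z - 1) := Nat.mul_pos (by positivity) (by omega)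
  omega

lemma fy_gt (Z : ℕ) (hZ : 2 ≤ Z) : 1 < fy Z := by
  unfold fy
  have h4 : 1 < Z ^ 4 := Nat.one_lt_pow (by norm_num) (by omega)
  have : 0 < Z ^ 4 * (Z ^ 4 - 1) := Nat.mul_pos (by positivity) (by omega)
  omega

lemma fz_gt (Z : ℕ) (hZ : 2 ≤ Z) : 1 < fz Z := by
  have := (ap Z hZ).2.1
  have := fy_gt Z hZ
  omega

/-- `Φ₁₅(X²) = Φ₁₅(X) Φ₃₀(X)` -/
lemma fx_sq (X : ℕ) (hX : 2 ≤ X) : fx (X ^ 2) = fx X * fz X := by
  have h1 : 1 ≤ X ^ 2 := Nat.one_le_pow _ _ (by omega)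
  have : ((fx (X ^ 2) : ℕ) : ℤ) = ((fx X * fz X : ℕ) : ℤ) := by
    rw [cast_fx ℤ _ h1]
    push_cast
    rw [cast_fx ℤ X (by omega), cast_fz ℤ X (by omega)]
    ring
  exact_mod_cast this

lemma fx_not_prime (K : ℕ) (hK : 0 < K) : ¬ (fx (4 ^ K)).Prime := by
  have h2 : 2 ≤ 2 ^ K := by
    calc 2 = 2 ^ 1 := by norm_num
      _ ≤ 2 ^ K := Nat.pow_le_pow_right (by norm_num) hK
  have h4 : (4 : ℕ) ^ K = (2 ^ K) ^ 2 := by
    rw [← pow_mul, mul_comm, pow_mul]; norm_num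
  rw [h4, fx_sq _ h2]
  exact Nat.not_prime_mul (fx_gt _ h2).ne' (fz_gt _ h2).ne'

/-- Aurifeuillian factors of `Φ₆₀(2w²) = Φ₃₀(4w⁴)`. -/
def AL (w : ℕ) : ℕ :=
  256 * w ^ 15 * (w - 1) + 128 * w ^ 13 * (w - 1) + 128 * w ^ 11 * (w - 1)
    + 32 * w ^ 9 * (3 * w - 2) + 16 * w ^ 7 * (3 * w - 2) + 8 * w ^ 5 * (3 * w - 2)
    + 4 * w ^ 3 * (2 * w - 1) + 2 * w * (w - 1) + 1
def AM (w : ℕ) : ℕ :=
  1 + 2 * w + 2 * w ^ 2 + 4 * w ^ 3 + 8 * w ^ 4 + 16 * w ^ 5 + 24 * w ^ 6 + 32 * w ^ 7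
    + 48 * w ^ 8 + 64 * w ^ 9 + 96 * w ^ 10 + 128 * w ^ 11 + 128 * w ^ 12 + 128 * w ^ 13
    + 128 * w ^ 14 + 256 * w ^ 15 + 256 * w ^ 16

lemma fz_aur (w : ℕ) (hw : 1 ≤ w) : fz (4 * w ^ 4) = AL w * AM w := by
  have h1 : 1 ≤ 4 * w ^ 4 := by
    have : 1 ≤ w ^ 4 := Nat.one_le_pow _ _ hw
    omega
  have h3 : 2 ≤ 3 * w := by omega
  have h4 : 1 ≤ 2 * w := by omega
  have : ((fz (4 * w ^ 4) : ℕ) : ℤ) = ((AL w * AM w : ℕ) : ℤ) := by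
    rw [cast_fz ℤ _ h1]
    unfold AL AM
    push_cast [Nat.cast_sub hw, Nat.cast_sub h3, Nat.cast_sub h4]
    ring
  exact_mod_cast this

lemma fz_not_prime (K : ℕ) (hK : Odd K) : ¬ (fz (4 ^ K)).Prime := by
  obtain ⟨h, rfl⟩ := hK
  have h4 : (4 : ℕ) ^ (2 * h + 1) = 4 * (2 ^ h) ^ 4 := by
    have e1 : (4 : ℕ) ^ (2 * h) = 16 ^ h := by rw [pow_mul]; norm_num
    have e2 : ((2 : ℕ) ^ h) ^ 4 = 16 ^ h := by rw [← pow_mul, mul_comm, pow_mul]; norm_num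
    rw [pow_succ, e1, e2, mul_comm]
  have hw : 1 ≤ 2 ^ h := Nat.one_le_two_pow
  rw [h4, fz_aur _ hw]
  generalize 2 ^ h = w at hw
  apply Nat.not_prime_mul
  · unfold AL
    have : 0 < 32 * w ^ 9 * (3 * w - 2) := Nat.mul_pos (by positivity) (by omega)
    omega
  · unfold AM
    omega

lemma fy_five (W : ℕ) (hW : 2 ≤ W) : fy W ∣ fy (W ^ 5) := by
  have h5 : 1 ≤ W ^ 5 := Nat.one_le_pow _ _ (by omega)
  rw [← Int.natCast_dvd_natCast, cast_fy ℤ _ h5, cast_fy ℤ W (by omega)]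
  refine ⟨(W : ℤ) ^ 32 + W ^ 28 - W ^ 20 - W ^ 16 - W ^ 12 + W ^ 4 + 1, ?_⟩
  push_cast
  ring

lemma fy_five_not_prime (W : ℕ) (hW : 2 ≤ W) : ¬ (fy (W ^ 5)).Prime := by
  apply Nat.not_prime_of_dvd_of_lt (fy_five W hW) (fy_gt W hW)
  unfold fy
  have h0 : W ^ 1 < W ^ 5 := Nat.pow_lt_pow_right (by omega) (by norm_num)
  rw [pow_one] at h0
  have h1 : W ^ 4 < (W ^ 5) ^ 4 := Nat.pow_lt_pow_left h0 (by norm_num)
  have h2 : W ^ 4 - 1 ≤ (W ^ 5) ^ 4 - 1 := by omega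
  have h3 : 1 < W ^ 4 := Nat.one_lt_pow (by norm_num) (by omega)
  have h4 : W ^ 4 * (W ^ 4 - 1) < (W ^ 5) ^ 4 * ((W ^ 5) ^ 4 - 1) :=
    Nat.mul_lt_mul_of_lt_of_le h1 h2 (by omega)
  omega

/-- Divisibility of `2^M - 1`. -/
lemma four_pow (K m : ℕ) : ((4 : ℕ) ^ K) ^ m = 2 ^ (2 * m * K) := by
  rw [← pow_mul, show (4 : ℕ) = 2 ^ 2 by norm_num, ← pow_mul]; congr 1; ring

lemma fx_dvd (K : ℕ) : fx (4 ^ K) ∣ 2 ^ (30 * K) - 1 := by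
  have hZ : 1 ≤ 4 ^ K := Nat.one_le_pow _ _ (by norm_num)
  rw [show 30 * K = 2 * 15 * K by ring, ← four_pow]
  generalize 4 ^ K = Z at hZ
  have h15 : 1 ≤ Z ^ 15 := Nat.one_le_pow _ _ hZ
  rw [← Int.natCast_dvd_natCast, cast_fx ℤ Z hZ, Nat.cast_sub h15]
  refine ⟨(Z : ℤ) ^ 7 + Z ^ 6 + Z ^ 5 - Z ^ 2 - Z - 1, ?_⟩
  push_cast
  ring

lemma fz_dvd (K : ℕ) : fz (4 ^ K) ∣ 2 ^ (60 * K) - 1 := by
  have hZ : 1 ≤ 4 ^ K := Nat.one_le_pow _ _ (by norm_num)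
  rw [show 60 * K = 2 * 30 * K by ring, ← four_pow]
  generalize 4 ^ K = Z at hZ
  have h30 : 1 ≤ Z ^ 30 := Nat.one_le_pow _ _ hZ
  rw [← Int.natCast_dvd_natCast, cast_fz ℤ Z hZ, Nat.cast_sub h30]
  refine ⟨((Z : ℤ) ^ 5 + 1) * (Z ^ 2 - Z + 1) * (Z ^ 15 - 1), ?_⟩
  push_cast
  ring

lemma fy_dvd (K : ℕ) : fy (4 ^ K) ∣ 2 ^ (48 * K) - 1 := by
  have hZ : 1 ≤ 4 ^ K := Nat.one_le_pow _ _ (by norm_num)
  rw [show 48 * K = 2 * 24 * K by ring, ← four_pow]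
  generalize 4 ^ K = Z at hZ
  have h24 : 1 ≤ Z ^ 24 := Nat.one_le_pow _ _ hZ
  rw [← Int.natCast_dvd_natCast, cast_fy ℤ Z hZ, Nat.cast_sub h24]
  refine ⟨((Z : ℤ) ^ 4 + 1) * (Z ^ 12 - 1), ?_⟩
  push_cast
  ring

/-- Small primes are excluded: at `p = 2, 3, 5` all three polynomials take the value `1`. -/
lemma four_cast (K p : ℕ) (hK : Odd K) (hp : p = 2 ∨ p = 3 ∨ p = 5) :
    (((4 : ℕ) ^ K : ℕ) : ZMod p) = 0 ∨ (((4 : ℕ) ^ K : ℕ) : ZMod p) = 1 ∨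
      (((4 : ℕ) ^ K : ℕ) : ZMod p) = -1 := by
  rcases hp with rfl | rfl | rfl
  · left
    have : ((4 : ℕ) : ZMod 2) = 0 := by decide
    rw [Nat.cast_pow, this, zero_pow (by rintro rfl; simp at hK)]
  · right; left
    have : ((4 : ℕ) : ZMod 3) = 1 := by decide
    rw [Nat.cast_pow, this, one_pow]
  · right; right
    have : ((4 : ℕ) : ZMod 5) = -1 := by decide
    rw [Nat.cast_pow, this, hK.neg_one_pow]

lemma small_x (K p : ℕ) [Fact p.Prime] (hK : Odd K) (h : p ∣ fx (4 ^ K)) :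
    p ≠ 2 ∧ p ≠ 3 ∧ p ≠ 5 := by
  have hZ : 1 ≤ 4 ^ K := Nat.one_le_pow _ _ (by norm_num)
  by_contra hcon
  have hp : p = 2 ∨ p = 3 ∨ p = 5 := by omega
  have h0 : ((fx (4 ^ K) : ℕ) : ZMod p) = 0 := (ZMod.natCast_eq_zero_iff _ _).2 h
  rw [cast_fx (ZMod p) _ hZ] at h0
  rcases four_cast K p hK hp with h1 | h1 | h1 <;> rw [h1] at h0 <;> ring_nf at h0 <;>
    exact one_ne_zero h0

lemma small_y (K p : ℕ) [Fact p.Prime] (hK : Odd K) (h : p ∣ fy (4 ^ K)) :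
    p ≠ 2 ∧ p ≠ 3 ∧ p ≠ 5 := by
  have hZ : 1 ≤ 4 ^ K := Nat.one_le_pow _ _ (by norm_num)
  by_contra hcon
  have hp : p = 2 ∨ p = 3 ∨ p = 5 := by omega
  have h0 : ((fy (4 ^ K) : ℕ) : ZMod p) = 0 := (ZMod.natCast_eq_zero_iff _ _).2 h
  rw [cast_fy (ZMod p) _ hZ] at h0
  rcases four_cast K p hK hp with h1 | h1 | h1 <;> rw [h1] at h0 <;> ring_nf at h0 <;>
    exact one_ne_zero h0

lemma small_z (K p : ℕ) [Fact p.Prime] (hK : Odd K) (h : p ∣ fz (4 ^ K)) :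
    p ≠ 2 ∧ p ≠ 3 ∧ p ≠ 5 := by
  have hZ : 1 ≤ 4 ^ K := Nat.one_le_pow _ _ (by norm_num)
  by_contra hcon
  have hp : p = 2 ∨ p = 3 ∨ p = 5 := by omega
  have h0 : ((fz (4 ^ K) : ℕ) : ZMod p) = 0 := (ZMod.natCast_eq_zero_iff _ _).2 h
  rw [cast_fz (ZMod p) _ hZ] at h0
  rcases four_cast K p hK hp with h1 | h1 | h1 <;> rw [h1] at h0 <;> ring_nf at h0 <;>
    exact one_ne_zero h0

lemma two_ne (p : ℕ) [Fact p.Prime] (h : p ≠ 2) : (2 : ZMod p) ≠ 0 := by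
  intro h2
  have : ((2 : ℕ) : ZMod p) = 0 := by exact_mod_cast h2
  rw [ZMod.natCast_eq_zero_iff] at this
  exact h ((Nat.prime_dvd_prime_iff_eq (Fact.out) Nat.prime_two).1 this)

lemma three_ne (p : ℕ) [Fact p.Prime] (h : p ≠ 3) : (3 : ZMod p) ≠ 0 := by
  intro h2
  have : ((3 : ℕ) : ZMod p) = 0 := by exact_mod_cast h2
  rw [ZMod.natCast_eq_zero_iff] at this
  exact h ((Nat.prime_dvd_prime_iff_eq (Fact.out) Nat.prime_three).1 this)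

lemma five_ne (p : ℕ) [Fact p.Prime] (h : p ≠ 5) : (5 : ZMod p) ≠ 0 := by
  intro h2
  have : ((5 : ℕ) : ZMod p) = 0 := by exact_mod_cast h2
  rw [ZMod.natCast_eq_zero_iff] at this
  exact h ((Nat.prime_dvd_prime_iff_eq (Fact.out) Nat.prime_five).1 this)

lemma W_pow (p K m n : ℕ) (hn : n = 2 * m * K) :
    ((((4 : ℕ) ^ K : ℕ) : ZMod p)) ^ m = (2 : ZMod p) ^ n := by
  rw [hn, ← Nat.cast_pow, four_pow]; push_cast; ring

lemma order_dvd (p : ℕ) [Fact p.Prime] (h2 : p ≠ 2) : orderOf (2 : ZMod p) ∣ p - 1 :=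
  ZMod.orderOf_dvd_card_sub_one (two_ne p h2)

lemma order_ne_zero (p : ℕ) [Fact p.Prime] (h2 : p ≠ 2) : orderOf (2 : ZMod p) ≠ 0 := by
  intro h0
  have h := order_dvd p h2
  rw [h0, zero_dvd_iff] at h
  have := (Fact.out : p.Prime).two_le
  omega

lemma odd_K (a b : ℕ) : Odd (3 ^ a * 5 ^ b) :=
  Odd.mul (Odd.pow (by decide)) (Odd.pow (by decide))

lemma x_prime (a b p : ℕ) [Fact p.Prime] (h : p ∣ fx (4 ^ (3 ^ a * 5 ^ b))) :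
    30 * (3 ^ a * 5 ^ b) ∣ p - 1 := by
  obtain ⟨h2, h3, h5⟩ := small_x _ p (odd_K a b) h
  have hZ : 1 ≤ 4 ^ (3 ^ a * 5 ^ b) := Nat.one_le_pow _ _ (by norm_num)
  have h0 : ((fx (4 ^ (3 ^ a * 5 ^ b)) : ℕ) : ZMod p) = 0 := (ZMod.natCast_eq_zero_iff _ _).2 h
  rw [cast_fx (ZMod p) _ hZ] at h0
  have w15 := W_pow p (3 ^ a * 5 ^ b) 15 (3 ^ (a + 1) * (10 * 5 ^ b)) (by ring)
  have w15' := W_pow p (3 ^ a * 5 ^ b) 15 (5 ^ (b + 1) * (6 * 3 ^ a)) (by ring)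
  have w5 := W_pow p (3 ^ a * 5 ^ b) 5 (3 ^ a * (10 * 5 ^ b)) (by ring)
  have w3 := W_pow p (3 ^ a * 5 ^ b) 3 (5 ^ b * (6 * 3 ^ a)) (by ring)
  generalize (((4 : ℕ) ^ (3 ^ a * 5 ^ b) : ℕ) : ZMod p) = W at h0 w15 w15' w5 w3
  have e15 : W ^ 15 = 1 := by
    linear_combination (W ^ 7 + W ^ 6 + W ^ 5 - W ^ 2 - W - 1) * h0
  have e5 : W ^ 5 ≠ 1 := by
    intro h
    apply three_ne p h3
    linear_combination (1 + W + W ^ 2) * h0 + (-2 - W ^ 5) * h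
  have e3 : W ^ 3 ≠ 1 := by
    intro h
    apply five_ne p h5
    linear_combination (2 + 2 * W + W ^ 2) * h0 + (-3 - W ^ 2 - 2 * W ^ 3 - W ^ 6 - W ^ 7) * h
  have hd0 := order_ne_zero p h2
  have d3 : 3 ^ (a + 1) ∣ orderOf (2 : ZMod p) := by
    apply pow_dvd_of 3 a (10 * 5 ^ b) _ Nat.prime_three _ hd0
    · rw [orderOf_dvd_iff_pow_eq_one, ← w5]; exact e5
    · rw [orderOf_dvd_iff_pow_eq_one, ← w15]; exact e15
  have d5 : 5 ^ (b + 1) ∣ orderOf (2 : ZMod p) := by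
    apply pow_dvd_of 5 b (6 * 3 ^ a) _ Nat.prime_five _ hd0
    · rw [orderOf_dvd_iff_pow_eq_one, ← w3]; exact e3
    · rw [orderOf_dvd_iff_pow_eq_one, ← w15']; exact e15
  have hd := order_dvd p h2
  have hev : 2 ∣ p - 1 := by
    have := (Fact.out : p.Prime).eq_two_or_odd
    omega
  have c1 : Nat.Coprime (3 ^ (a + 1)) (5 ^ (b + 1)) := Nat.Coprime.pow _ _ (by norm_num)
  have c2 : Nat.Coprime 2 (3 ^ (a + 1) * 5 ^ (b + 1)) :=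
    Nat.Coprime.mul_right (Nat.Coprime.pow_right _ (by norm_num))
      (Nat.Coprime.pow_right _ (by norm_num))
  have := c2.mul_dvd_of_dvd_of_dvd hev
    (c1.mul_dvd_of_dvd_of_dvd (d3.trans hd) (d5.trans hd))
  convert this using 1
  ring

lemma z_prime (a b p : ℕ) [Fact p.Prime] (h : p ∣ fz (4 ^ (3 ^ a * 5 ^ b))) :
    60 * (3 ^ a * 5 ^ b) ∣ p - 1 := by
  obtain ⟨h2, h3, h5⟩ := small_z _ p (odd_K a b) h
  have hZ : 1 ≤ 4 ^ (3 ^ a * 5 ^ b) := Nat.one_le_pow _ _ (by norm_num)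
  have h0 : ((fz (4 ^ (3 ^ a * 5 ^ b)) : ℕ) : ZMod p) = 0 := (ZMod.natCast_eq_zero_iff _ _).2 h
  rw [cast_fz (ZMod p) _ hZ] at h0
  have w30 := W_pow p (3 ^ a * 5 ^ b) 30 (3 ^ (a + 1) * (20 * 5 ^ b)) (by ring)
  have w30' := W_pow p (3 ^ a * 5 ^ b) 30 (5 ^ (b + 1) * (12 * 3 ^ a)) (by ring)
  have w30'' := W_pow p (3 ^ a * 5 ^ b) 30 (2 ^ (1 + 1) * (15 * (3 ^ a * 5 ^ b))) (by ring)
  have w15 := W_pow p (3 ^ a * 5 ^ b) 15 (2 ^ 1 * (15 * (3 ^ a * 5 ^ b))) (by ring)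
  have w10 := W_pow p (3 ^ a * 5 ^ b) 10 (3 ^ a * (20 * 5 ^ b)) (by ring)
  have w6 := W_pow p (3 ^ a * 5 ^ b) 6 (5 ^ b * (12 * 3 ^ a)) (by ring)
  generalize (((4 : ℕ) ^ (3 ^ a * 5 ^ b) : ℕ) : ZMod p) = W at h0 w30 w30' w30'' w15 w10 w6
  have e15 : W ^ 15 = -1 := by
    linear_combination ((W ^ 5 + 1) * (W ^ 2 - W + 1)) * h0
  have e30 : W ^ 30 = 1 := by
    rw [show (30 : ℕ) = 15 * 2 by norm_num, pow_mul, e15]; ring
  have e15' : W ^ 15 ≠ 1 := by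
    intro h
    apply two_ne p h2
    linear_combination e15 - h
  have e10 : W ^ 10 ≠ 1 := by
    intro h
    have h' : W ^ 5 = -1 := by linear_combination e15 - W ^ 5 * h
    apply three_ne p h3
    linear_combination (1 - W + W ^ 2) * h0 + (2 - W ^ 5) * h'
  have e6 : W ^ 6 ≠ 1 := by
    intro h
    have h' : W ^ 3 = -1 := by linear_combination e15 - (W ^ 9 + W ^ 3) * h
    apply five_ne p h5
    linear_combination (2 - 2 * W + W ^ 2) * h0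
      - (-3 - W ^ 2 + 2 * W ^ 3 - W ^ 6 + W ^ 7) * h'
  have hd0 := order_ne_zero p h2
  have d3 : 3 ^ (a + 1) ∣ orderOf (2 : ZMod p) := by
    apply pow_dvd_of 3 a (20 * 5 ^ b) _ Nat.prime_three _ hd0
    · rw [orderOf_dvd_iff_pow_eq_one, ← w10]; exact e10
    · rw [orderOf_dvd_iff_pow_eq_one, ← w30]; exact e30
  have d5 : 5 ^ (b + 1) ∣ orderOf (2 : ZMod p) := by
    apply pow_dvd_of 5 b (12 * 3 ^ a) _ Nat.prime_five _ hd0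
    · rw [orderOf_dvd_iff_pow_eq_one, ← w6]; exact e6
    · rw [orderOf_dvd_iff_pow_eq_one, ← w30']; exact e30
  have d2 : 2 ^ (1 + 1) ∣ orderOf (2 : ZMod p) := by
    apply pow_dvd_of 2 1 (15 * (3 ^ a * 5 ^ b)) _ Nat.prime_two _ hd0
    · rw [orderOf_dvd_iff_pow_eq_one, ← w15]; exact e15'
    · rw [orderOf_dvd_iff_pow_eq_one, ← w30'']; exact e30
  have hd := order_dvd p h2
  have c1 : Nat.Coprime (3 ^ (a + 1)) (5 ^ (b + 1)) := Nat.Coprime.pow _ _ (by norm_num)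
  have c2 : Nat.Coprime (2 ^ (1 + 1)) (3 ^ (a + 1) * 5 ^ (b + 1)) :=
    Nat.Coprime.mul_right (Nat.Coprime.pow _ _ (by norm_num))
      (Nat.Coprime.pow _ _ (by norm_num))
  have := c2.mul_dvd_of_dvd_of_dvd (d2.trans hd)
    (c1.mul_dvd_of_dvd_of_dvd (d3.trans hd) (d5.trans hd))
  convert this using 1
  ring


lemma y_order (a b p : ℕ) [Fact p.Prime] (h : p ∣ fy (4 ^ (3 ^ a * 5 ^ b))) :
    16 * 3 ^ (a + 1) ∣ orderOf (2 : ZMod p) ∧ orderOf (2 : ZMod p) ∣ 48 * (3 ^ a * 5 ^ b) := by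
  obtain ⟨h2, h3, h5⟩ := small_y _ p (odd_K a b) h
  have hZ : 1 ≤ 4 ^ (3 ^ a * 5 ^ b) := Nat.one_le_pow _ _ (by norm_num)
  have h0 : ((fy (4 ^ (3 ^ a * 5 ^ b)) : ℕ) : ZMod p) = 0 := (ZMod.natCast_eq_zero_iff _ _).2 h
  rw [cast_fy (ZMod p) _ hZ] at h0
  have w24 := W_pow p (3 ^ a * 5 ^ b) 24 (48 * (3 ^ a * 5 ^ b)) (by ring)
  have w24' := W_pow p (3 ^ a * 5 ^ b) 24 (3 ^ (a + 1) * (16 * 5 ^ b)) (by ring)
  have w24'' := W_pow p (3 ^ a * 5 ^ b) 24 (2 ^ (3 + 1) * (3 * (3 ^ a * 5 ^ b))) (by ring)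
  have w12 := W_pow p (3 ^ a * 5 ^ b) 12 (2 ^ 3 * (3 * (3 ^ a * 5 ^ b))) (by ring)
  have w8 := W_pow p (3 ^ a * 5 ^ b) 8 (3 ^ a * (16 * 5 ^ b)) (by ring)
  generalize (((4 : ℕ) ^ (3 ^ a * 5 ^ b) : ℕ) : ZMod p) = W at h0 w24 w24' w24'' w12 w8
  have e12 : W ^ 12 = -1 := by
    linear_combination (W ^ 4 + 1) * h0
  have e24 : W ^ 24 = 1 := by
    rw [show (24 : ℕ) = 12 * 2 by norm_num, pow_mul, e12]; ring
  have e12' : W ^ 12 ≠ 1 := by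
    intro h
    apply two_ne p h2
    linear_combination e12 - h
  have e8 : W ^ 8 ≠ 1 := by
    intro h
    apply three_ne p h3
    linear_combination (W ^ 4 + 2) * h0 + (-1 - W ^ 4) * h
  have hd0 := order_ne_zero p h2
  have d3 : 3 ^ (a + 1) ∣ orderOf (2 : ZMod p) := by
    apply pow_dvd_of 3 a (16 * 5 ^ b) _ Nat.prime_three _ hd0
    · rw [orderOf_dvd_iff_pow_eq_one, ← w8]; exact e8
    · rw [orderOf_dvd_iff_pow_eq_one, ← w24']; exact e24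
  have d2 : 2 ^ (3 + 1) ∣ orderOf (2 : ZMod p) := by
    apply pow_dvd_of 2 3 (3 * (3 ^ a * 5 ^ b)) _ Nat.prime_two _ hd0
    · rw [orderOf_dvd_iff_pow_eq_one, ← w12]; exact e12'
    · rw [orderOf_dvd_iff_pow_eq_one, ← w24'']; exact e24
  refine ⟨?_, ?_⟩
  · have c1 : Nat.Coprime (2 ^ (3 + 1)) (3 ^ (a + 1)) := Nat.Coprime.pow _ _ (by norm_num)
    have := c1.mul_dvd_of_dvd_of_dvd d2 d3
    norm_num at this ⊢
    exact this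
  · rw [orderOf_dvd_iff_pow_eq_one, ← w24]; exact e24

lemma y_prime_zero (a p : ℕ) [Fact p.Prime] (h : p ∣ fy (4 ^ (3 ^ a * 5 ^ 0))) :
    48 * (3 ^ a * 5 ^ 0) ∣ p - 1 := by
  have h2 := (small_y _ p (odd_K a 0) h).1
  have h1 := (y_order a 0 p h).1.trans (order_dvd p h2)
  have e : 48 * (3 ^ a * 5 ^ 0) = 16 * 3 ^ (a + 1) := by ring
  rw [e]
  exact h1

lemma y_prime_one (a p : ℕ) [hpf : Fact p.Prime] (hT : (fy (4 ^ (3 ^ a * 5 ^ 0))).Prime)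
    (h : p ∣ fy (4 ^ (3 ^ a * 5 ^ 1))) :
    48 * (3 ^ a * 5 ^ 1) ∣ p - 1 := by
  have h2 := (small_y _ p (odd_K a 1) h).1
  obtain ⟨ho1, ho2⟩ := y_order a 1 p h
  have hod := order_dvd p h2
  by_cases h5 : 5 ∣ orderOf (2 : ZMod p)
  · have c : Nat.Coprime (16 * 3 ^ (a + 1)) 5 :=
      Nat.Coprime.mul_left (by norm_num) (Nat.Coprime.pow_left _ (by norm_num))
    have := c.mul_dvd_of_dvd_of_dvd (ho1.trans hod) (h5.trans hod)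
    convert this using 1
    ring
  · -- the order divides `48 * 3 ^ a`
    have c : Nat.Coprime (orderOf (2 : ZMod p)) 5 :=
      ((Nat.Prime.coprime_iff_not_dvd Nat.prime_five).2 h5).symm
    have ho3 : orderOf (2 : ZMod p) ∣ 48 * 3 ^ a := by
      apply c.dvd_of_dvd_mul_right
      convert ho2 using 1
      ring
    have hZ : 1 ≤ 4 ^ (3 ^ a * 5 ^ 0) := Nat.one_le_pow _ _ (by norm_num)
    have hZ1 : 1 ≤ 4 ^ (3 ^ a * 5 ^ 1) := Nat.one_le_pow _ _ (by norm_num)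
    -- `p ∣ T`
    have hpT : p ∣ fy (4 ^ (3 ^ a * 5 ^ 0)) := by
      rw [← ZMod.natCast_eq_zero_iff, cast_fy (ZMod p) _ hZ]
      have h0 : ((fy (4 ^ (3 ^ a * 5 ^ 1)) : ℕ) : ZMod p) = 0 :=
        (ZMod.natCast_eq_zero_iff _ _).2 h
      rw [cast_fy (ZMod p) _ hZ1] at h0
      have w24 := W_pow p (3 ^ a * 5 ^ 0) 24 (48 * 3 ^ a) (by ring)
      have w5 : (((4 : ℕ) ^ (3 ^ a * 5 ^ 1) : ℕ) : ZMod p)
          = (((4 : ℕ) ^ (3 ^ a * 5 ^ 0) : ℕ) : ZMod p) ^ 5 := by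
        push_cast; rw [← pow_mul]; congr 1; ring
      rw [w5] at h0
      generalize (((4 : ℕ) ^ (3 ^ a * 5 ^ 0) : ℕ) : ZMod p) = W at h0 w24
      have e24 : W ^ 24 = 1 := by
        rw [w24, ← orderOf_dvd_iff_pow_eq_one]; exact ho3
      -- `W^40 - W^20 + 1 = W^16 - W^20 + 1`
      have h1 : W ^ 16 - W ^ 20 + 1 = 0 := by
        linear_combination h0 - W ^ 16 * e24
      -- multiply by `W^4 + 1` etc.
      have e12 : W ^ 12 = -1 := by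
        linear_combination (W ^ 20 * (1 + W ^ 4)) * h1 + (W ^ 20 - W ^ 12 - 1) * e24
      linear_combination h1 + (W ^ 8 - W ^ 4) * e12
    have hpe : p = fy (4 ^ (3 ^ a * 5 ^ 0)) := (Nat.prime_dvd_prime_iff_eq hpf.out hT).1 hpT
    have h48 : 16 * 3 ^ (a + 1) ∣ p - 1 := ho1.trans hod
    have h5' : 5 ∣ p - 1 := by
      rw [hpe]
      unfold fy
      rw [Nat.add_sub_cancel]
      apply Dvd.dvd.mul_left
      rw [← pow_mul]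
      have : 1 ≤ 4 ^ (3 ^ a * 5 ^ 0 * 4) := Nat.one_le_pow _ _ (by norm_num)
      rw [← Nat.modEq_iff_dvd' this, show 3 ^ a * 5 ^ 0 * 4 = 2 * (2 * 3 ^ a) by ring, pow_mul]
      have h16 : (1 : ℕ) ≡ 4 ^ 2 [MOD 5] := by decide
      have := h16.pow (2 * 3 ^ a)
      rwa [one_pow] at this
    have c : Nat.Coprime (16 * 3 ^ (a + 1)) 5 :=
      Nat.Coprime.mul_left (by norm_num) (Nat.Coprime.pow_left _ (by norm_num))
    have := c.mul_dvd_of_dvd_of_dvd h48 h5'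
    convert this using 1
    ring


/-- The property `super pseudoprime`. -/
def SP (n : ℕ) : Prop := 1 < n ∧ ¬ n.Prime ∧ ∀ d ∈ n.divisors, 1 < d → (d.Prime ∨ Nat.FermatPsp d 2)

lemma two_le_four_pow (a b : ℕ) : 2 ≤ 4 ^ (3 ^ a * 5 ^ b) := by
  have : 0 < 3 ^ a * 5 ^ b := by positivity
  calc 2 ≤ 4 ^ 1 := by norm_num
    _ ≤ _ := Nat.pow_le_pow_right (by norm_num) this

lemma sp_x (a b : ℕ) : SP (fx (4 ^ (3 ^ a * 5 ^ b))) :=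
  key (30 * (3 ^ a * 5 ^ b)) _ (fx_gt _ (two_le_four_pow a b))
    (fx_not_prime _ (by positivity)) (fx_dvd _)
    (fun p hp h => by have := Fact.mk hp; exact x_prime a b p h)

lemma sp_z (a b : ℕ) : SP (fz (4 ^ (3 ^ a * 5 ^ b))) :=
  key (60 * (3 ^ a * 5 ^ b)) _ (fz_gt _ (two_le_four_pow a b))
    (fz_not_prime _ (odd_K a b)) (fz_dvd _)
    (fun p hp h => by have := Fact.mk hp; exact z_prime a b p h)

lemma sp_y (a : ℕ) : ∃ b : ℕ, SP (fy (4 ^ (3 ^ a * 5 ^ b))) := by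
  by_cases hT : (fy (4 ^ (3 ^ a * 5 ^ 0))).Prime
  · refine ⟨1, key (48 * (3 ^ a * 5 ^ 1)) _ (fy_gt _ (two_le_four_pow a 1)) ?_ (fy_dvd _)
      (fun p hp h => by have := Fact.mk hp; exact y_prime_one a p hT h)⟩
    have e : 4 ^ (3 ^ a * 5 ^ 1) = (4 ^ (3 ^ a * 5 ^ 0)) ^ 5 := by
      rw [← pow_mul]; congr 1; ring
    rw [e]
    exact fy_five_not_prime _ (two_le_four_pow a 0)
  · exact ⟨0, key (48 * (3 ^ a * 5 ^ 0)) _ (fy_gt _ (two_le_four_pow a 0)) hT (fy_dvd _)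
      (fun p hp h => by have := Fact.mk hp; exact y_prime_zero a p h)⟩

/-- There are infinitely many triples a<b<c in arithmetic progression where each term is composite and every divisor greater than 1 of it is prime or a base-2 Fermat pseudoprime. -/
theorem result :
    ∀ S : ℕ → Prop,
      (∀ n : ℕ, S n ↔
        (1 < n ∧ ¬ n.Prime ∧
          ∀ d ∈ n.divisors, 1 < d → (d.Prime ∨ Nat.FermatPsp d 2))) →
      Set.Infinite {t : ℕ × ℕ × ℕ |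
        t.1 < t.2.1 ∧ t.2.1 < t.2.2 ∧ t.1 + t.2.2 = 2 * t.2.1 ∧
          S t.1 ∧ S t.2.1 ∧ S t.2.2} := by
  intro S hS
  apply Set.Infinite.of_image Prod.fst
  apply Set.infinite_of_forall_exists_gt
  intro n
  obtain ⟨b, hb⟩ := sp_y n
  have h2 := two_le_four_pow n b
  obtain ⟨h3, h4, h5⟩ := ap _ h2
  refine ⟨fx (4 ^ (3 ^ n * 5 ^ b)), ⟨(fx (4 ^ (3 ^ n * 5 ^ b)), fy (4 ^ (3 ^ n * 5 ^ b)),
    fz (4 ^ (3 ^ n * 5 ^ b))), ⟨h3, h4, h5, (hS _).2 (sp_x n b), (hS _).2 hb,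
    (hS _).2 (sp_z n b)⟩, rfl⟩, ?_⟩
  have k1 : n < 3 ^ n := Nat.lt_pow_self (by norm_num)
  have k2 : 3 ^ n ≤ 3 ^ n * 5 ^ b := Nat.le_mul_of_pos_right _ (by positivity)
  have k3 : 3 ^ n * 5 ^ b < 4 ^ (3 ^ n * 5 ^ b) := Nat.lt_pow_self (by norm_num)
  generalize 4 ^ (3 ^ n * 5 ^ b) = Z at *
  have k4 : Z ≤ fx Z := by
    unfold fx
    have : Z * 1 ≤ Z * (Z ^ 2 - 1) := by
      apply Nat.mul_le_mul_left
      have : 1 < Z ^ 2 := Nat.one_lt_pow (by norm_num) (by omega)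
      omega
    omega
  omega

end Pool.Agent.S16547
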