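import Pool.Statements.S16999
import Pool.Agent.Hhelper88.MkPrim
import Pool.Agent.Hhelper88.MkCount

set_option autoImplicit false
open Filter Asymptotics
open Pool Pool.MP_55fc5f_nt

namespace Pool.Agent.S16999

open Pool.Agent.Hhelper88

lemma hh_log_bounds (x : ℝ) (hx : 4 ≤ x) :
    Real.log (3 * x) - 2 / x ≤ hh ⌊x⌋₊ ∧ hh ⌊x⌋₊ ≤ Real.log (3 * x) := by
  have hx0 : 0 < x := by linarith
  have hX1 : 1 ≤ ⌊x⌋₊ := by
    rw [Nat.one_le_floor_iff]; linarith
  set X := ⌊x⌋₊ with hX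
  have hXR : (X : ℝ) ≤ x := Nat.floor_le hx0.le
  have hXR2 : x < X + 1 := Nat.lt_floor_add_one x
  have hlp := lam_pos X hX1
  have hl1 := one_lt_lam X hX1
  have hinv := lam_add_inv X hX1
  have hinv1 : (lam X)⁻¹ < 1 := inv_lt_one_of_one_lt₀ hl1
  have hinv0 : 0 < (lam X)⁻¹ := inv_pos.2 hlp
  constructor
  · -- log(3x) - log(lam X) ≤ 2/x
    have h1 : 3 * x - 4 ≤ lam X := by linarith
    have h2 : Real.log (3 * x) - hh X = Real.log (3 * x / lam X) := by
      unfold hh; rw [Real.log_div (by positivity) hlp.ne']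
    have h3 : Real.log (3 * x / lam X) ≤ 3 * x / lam X - 1 := Real.log_le_sub_one_of_pos (by positivity)
    have h4 : 3 * x / lam X - 1 ≤ 2 / x := by
      have h5 : 3 * x / lam X ≤ 3 * x / (3 * x - 4) :=
        div_le_div_of_nonneg_left (by positivity) (by linarith) h1
      have h6 : 3 * x / (3 * x - 4) - 1 ≤ 2 / x := by
        rw [div_sub_one (by linarith), div_le_div_iff₀ (by linarith) hx0]
        nlinarith
      linarith
    linarith
  · unfold hh
    apply Real.log_le_log hlp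
    linarith

/-- There is a constant c such that the number of Markov triples a ≤ b ≤ c' ≤ x (a²+b²+c'²=3abc') equals c·(log 3x)² plus an error that is o(log x) as x → ∞. -/
theorem result :
    ∃ c : ℝ, (fun x : ℝ =>
      (((Finset.Icc 1 ⌊x⌋₊ ×ˢ (Finset.Icc 1 ⌊x⌋₊ ×ˢ Finset.Icc 1 ⌊x⌋₊)).filter
          (fun t : ℕ × ℕ × ℕ => t.1 ≤ t.2.1 ∧ t.2.1 ≤ t.2.2 ∧
            t.1 ^ 2 + t.2.1 ^ 2 + t.2.2 ^ 2 = 3 * t.1 * t.2.1 * t.2.2)).card : ℝ)
        - c * (Real.log (3 * x)) ^ 2)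
      =o[atTop] (fun x : ℝ => Real.log x) := by
  refine ⟨Ar / 2 * Cmu, ?_⟩
  set c := Ar / 2 * Cmu with hc
  rw [Asymptotics.isLittleO_iff]
  intro ε hε
  obtain ⟨T0, hT01, hT0⟩ := prim_asymp (ε / 4) (by positivity)
  have hlog : ∀ᶠ x : ℝ in atTop, T0 + 1 + 16 / ε ≤ Real.log x :=
    Real.tendsto_log_atTop.eventually_ge_atTop _
  filter_upwards [hlog, eventually_ge_atTop (4 : ℝ), eventually_ge_atTop (64 * |c| / ε)] with x hx1 hx2 hx3
  have hx0 : 0 < x := by linarith
  obtain ⟨hT1, hT2⟩ := hh_log_bounds x hx2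
  set X := ⌊x⌋₊ with hX
  set T := hh X with hT
  have hX2 : 2 ≤ X := by
    rw [hX]; apply Nat.le_floor; push_cast; linarith
  have h16 : 0 < 16 / ε := by positivity
  have hlogx : 1 ≤ Real.log x := by linarith
  have hlog3 : Real.log (3 * x) = Real.log 3 + Real.log x := Real.log_mul (by norm_num) hx0.ne'
  have hl3 : 0 < Real.log 3 := Real.log_pos (by norm_num)
  have hl3' : Real.log 3 ≤ Real.log x := Real.log_le_log (by norm_num) (by linarith)
  have h2x : 2 / x ≤ 1 := by rw [div_le_one hx0]; linarith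
  have hTge : T0 ≤ T := by linarith
  have hTpos : 0 < T := by linarith
  set M := ⌈2 * T⌉₊ with hM
  have hM2 : 2 * T ≤ M := Nat.le_ceil _
  have hcount := markov_count X M hX2 (by
    rw [← hT]; linarith)
  rw [hcount]
  have hprim := hT0 T hTge M hM2
  rw [← hT]
  push_cast
  rw [Real.norm_eq_abs, Real.norm_eq_abs, abs_of_pos (by linarith : 0 < Real.log x)]
  set L := Real.log (3 * x) with hL
  have hTL : |T ^ 2 - L ^ 2| ≤ 2 / x * (2 * L) := by
    have e1 : T ^ 2 - L ^ 2 = -((L - T) * (L + T)) := by ring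
    rw [e1, abs_neg, abs_of_nonneg (mul_nonneg (by linarith) (by linarith))]
    apply mul_le_mul (by linarith) (by linarith) (by linarith) (by positivity)
  have hL2 : L ≤ 2 * Real.log x := by linarith
  have e2 : 2 + (CC M Node.root T : ℝ) - c * L ^ 2
      = 2 + ((CC M Node.root T : ℝ) - c * T ^ 2) + c * (T ^ 2 - L ^ 2) := by ring
  rw [e2]
  have b1 : |c * (T ^ 2 - L ^ 2)| ≤ ε / 8 * Real.log x := by
    rw [abs_mul]
    have h5 : |c| * |T ^ 2 - L ^ 2| ≤ |c| * (2 / x * (2 * (2 * Real.log x))) := by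
      apply mul_le_mul_of_nonneg_left _ (abs_nonneg c)
      refine hTL.trans ?_
      apply mul_le_mul_of_nonneg_left _ (by positivity)
      linarith
    refine h5.trans ?_
    have h6 : |c| * (2 / x * (2 * (2 * Real.log x))) = (8 * |c| / x) * Real.log x := by ring
    rw [h6]
    apply mul_le_mul_of_nonneg_right _ (by linarith)
    rw [div_le_iff₀ hx0]
    rw [div_le_iff₀ hε] at hx3
    linarith
  have b2 : (2 : ℝ) ≤ ε / 8 * Real.log x := by
    have h5 : 16 / ε ≤ Real.log x := by linarith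
    rw [div_le_iff₀ hε] at h5
    linarith
  have b3 : ε / 4 * T ≤ ε / 2 * Real.log x := by
    have : T ≤ 2 * Real.log x := hT2.trans hL2
    nlinarith
  have b4 : |2 + ((CC M Node.root T : ℝ) - c * T ^ 2) + c * (T ^ 2 - L ^ 2)|
      ≤ 2 + |(CC M Node.root T : ℝ) - c * T ^ 2| + |c * (T ^ 2 - L ^ 2)| := by
    refine (abs_add_le _ _).trans ?_
    have := abs_add_le 2 ((CC M Node.root T : ℝ) - c * T ^ 2)
    rw [abs_of_pos (by norm_num : (0 : ℝ) < 2)] at this
    linarith
  have hεl : 0 < ε * Real.log x := by positivity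
  linarith

end Pool.Agent.S16999
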