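import Pool.Statements.S18631
import Pool.Agent.Hhelper92.Mult.Final3

set_option autoImplicit false
open Pool Pool.MP_d77f78_nt

namespace Pool.Agent.S18631

/-- For n ≥ 1 and Ψ continuous, non-increasing, positive on [1,∞) with the sum of (log h)^(n−1)Ψ(h) divergent, almost every real ξ has infinitely many integer polynomials P of degree ≤ n with ∣P(ξ)∣ < Ψ(product over i=1..n of max(1,∣a_i∣)). -/
theorem result :
    ∀ n : ℕ, 1 ≤ n → ∀ Ψ : ℝ → ℝ, ContinuousOn Ψ (Set.Ici 1) → AntitoneOn Ψ (Set.Ici 1) →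
      (∀ x : ℝ, 1 ≤ x → 0 < Ψ x) →
      ¬ Summable (fun h : ℕ => Real.log ((h : ℝ) + 1) ^ (n - 1) * Ψ ((h : ℝ) + 1)) →
      ∀ᵐ ξ : ℝ ∂MeasureTheory.volume,
        Set.Infinite {a : Fin (n + 1) → ℤ |
          |∑ i : Fin (n + 1), (a i : ℝ) * ξ ^ (i : ℕ)| <
            Ψ (∏ i : Fin n, max 1 |((a i.succ : ℤ) : ℝ)|)} := by
  intro n hn Ψ _ hanti hpos hdiv
  exact MDiv.main n hn Ψ hanti hpos hdiv

end Pool.Agent.S18631
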