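import Pool.Statements.S19416
import Pool.Agent.LC3.Final

set_option autoImplicit false
open Pool Pool.MP_76eee7_pr

namespace Pool.Agent.S19416

/-- The negation of the preceding statement: For each k ≥ 3, over uniformly random edge orderings of K_n, the probability that every k-colourable stage of the graph process is also k-list-colourable (i.e. it stops being k-list-colourable exactly when it stops being k-colourable) tends to 1. -/
theorem result :
    ¬ (∀ k : ℕ, 3 ≤ k →
      Filter.Tendsto
        (fun n : ℕ =>
          (Nat.card
              {σ : Fin (Nat.card (⊤ : SimpleGraph (Fin n)).edgeSet) ≃ (⊤ : SimpleGraph (Fin n)).edgeSet //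
                ∀ m : ℕ, ∀ G : SimpleGraph (Fin n),
                  G = SimpleGraph.fromEdgeSet
                      {e : Sym2 (Fin n) |
                        ∃ i : Fin (Nat.card (⊤ : SimpleGraph (Fin n)).edgeSet),
                          (i : ℕ) < m ∧ (σ i).val = e} →
                  G.Colorable k →
                  ∀ L : Fin n → Finset ℕ, (∀ v, (L v).card = k) →
                    ∃ f : Fin n → ℕ, (∀ v, f v ∈ L v) ∧ ∀ u v, G.Adj u v → f u ≠ f v} : ℝ) /
            (Nat.card
              (Fin (Nat.card (⊤ : SimpleGraph (Fin n)).edgeSet) ≃ (⊤ : SimpleGraph (Fin n)).edgeSet) : ℝ))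
        Filter.atTop (nhds 1)) := by
  exact Pool.Agent.LC3.final

end Pool.Agent.S19416
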