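import Pool.Statements.S19636
import Pool.Agent.Boot.Final
import Pool.Agent.Boot.LowerProb
import Pool.Agent.Boot.UpperProb

set_option autoImplicit false
open Classical
open Pool Pool.MP_c8529a_pr

namespace Pool.Agent.S19636

/-- The negation of the preceding statement: For every critical d-dimensional update family (d ≥ 2), there are r in 1..d−1 and a rational α such that log p_c(torus of side n) divided by log(1/(r-fold iterated log n)) tends to α. -/
theorem result :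
    ¬ (∀ d : ℕ, 2 ≤ d → ∀ U : Finset (Finset (Fin d → ℤ)),
   (∀ X ∈ U, X.Nonempty ∧ (0 : Fin d → ℤ) ∉ X) →
   ((∃ v : Fin d → ℝ, v ≠ 0 ∧ MeasureTheory.Measure.hausdorffMeasure ((d : ℝ) - 1)
        {u : Fin d → ℝ | ∑ i, u i ^ 2 = 1 ∧ (∀ X ∈ U, ∃ x ∈ X, 0 ≤ ∑ i, (x i : ℝ) * u i) ∧
          0 ≤ ∑ i, u i * v i} = 0) ∧
    (∀ v : Fin d → ℝ, v ≠ 0 → ∃ u : Fin d → ℝ, ∑ i, u i ^ 2 = 1 ∧
        (∀ X ∈ U, ∃ x ∈ X, 0 ≤ ∑ i, (x i : ℝ) * u i) ∧ 0 < ∑ i, u i * v i)) →
   ∃ r : ℕ, 1 ≤ r ∧ r ≤ d - 1 ∧ ∃ α : ℚ,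
    Filter.Tendsto (fun n : ℕ =>
      Real.log (sInf {p : ℝ | 0 ≤ p ∧ p ≤ 1 ∧ (1 / 2 : ℝ) ≤
        Finset.sum
          (Finset.filter
            (fun A : Finset (Fin d → ZMod (n + 1)) =>
              ∀ T : Set (Fin d → ZMod (n + 1)), ((A : Set (Fin d → ZMod (n + 1))) ⊆ T) →
                (∀ y : Fin d → ZMod (n + 1),
                  (∃ X ∈ U, ∀ x ∈ X,
                    y + (fun i : Fin d => ((x i : ℤ) : ZMod (n + 1))) ∈ T) → y ∈ T) →
                T = Set.univ)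
            (Finset.univ : Finset (Finset (Fin d → ZMod (n + 1)))))
          (fun A : Finset (Fin d → ZMod (n + 1)) =>
            p ^ (Finset.card A) *
              (1 - p) ^ (Fintype.card (Fin d → ZMod (n + 1)) - Finset.card A))})
      / Real.log (1 / Real.log^[r] ((n : ℝ) + 1)))
    Filter.atTop (nhds (α : ℝ))) :=
  Pool.Agent.Boot.final (fun _ hε => Pool.Agent.Boot.lower_prob hε)
    (fun _ hε hε' => Pool.Agent.Boot.upper_prob hε hε')

end Pool.Agent.S19636
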